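import Mathlib

/-!
# Coin tossing: occurrences of words
-/

namespace Pool.Agent.Q212.Coin

open MeasureTheory ProbabilityTheory Set Filter Topology
open scoped ENNReal

/-- The parameter clamped to `[0,1]` (so that `coin p` is always a probability measure). -/
noncomputable def clamp (p : ℝ) : ℝ := max 0 (min p 1)

lemma clamp_nonneg (p : ℝ) : 0 ≤ clamp p := le_max_left _ _
lemma clamp_le_one (p : ℝ) : clamp p ≤ 1 := max_le zero_le_one (min_le_right _ _)
lemma clamp_eq {p : ℝ} (h0 : 0 ≤ p) (h1 : p ≤ 1) : clamp p = p := by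
  unfold clamp; rw [min_eq_left h1, max_eq_right h0]

/-- One toss: heads (`true`) with probability `p`, tails (`false`) with probability `1 - p`. -/
noncomputable def coin (p : ℝ) : Measure Bool :=
  ENNReal.ofReal (clamp p) • Measure.dirac true + ENNReal.ofReal (1 - clamp p) • Measure.dirac false

instance (p : ℝ) : IsProbabilityMeasure (coin p) := by
  constructor
  unfold coin
  simp only [Measure.coe_add, Measure.coe_smul, Pi.add_apply, Pi.smul_apply, measure_univ,
    smul_eq_mul, mul_one]
  rw [← ENNReal.ofReal_add (clamp_nonneg p) (by linarith [clamp_le_one p])]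
  simp

/-- The law of a sequence of independent tosses. -/
noncomputable def tosses (p : ℝ) : Measure (ℕ → Bool) := Measure.infinitePi fun _ => coin p

instance (p : ℝ) : IsProbabilityMeasure (tosses p) := by unfold tosses; infer_instance

/-- probability of a letter -/
noncomputable def wt (p : ℝ) (b : Bool) : ℝ := if b then clamp p else 1 - clamp p

lemma wt_nonneg (p : ℝ) (b : Bool) : 0 ≤ wt p b := by
  unfold wt; split
  · exact clamp_nonneg p
  · linarith [clamp_le_one p]

lemma coin_singleton (p : ℝ) (b : Bool) : coin p {b} = ENNReal.ofReal (wt p b) := by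
  unfold coin wt
  cases b <;> simp

lemma coin_real (p : ℝ) (b : Bool) : (coin p).real {b} = wt p b := by
  rw [measureReal_def, coin_singleton, ENNReal.toReal_ofReal (wt_nonneg p b)]

/-- `S` depends on the first `n` tosses only. -/
def Dep (n : ℕ) (S : Set (ℕ → Bool)) : Prop :=
  ∀ ω ω' : ℕ → Bool, (∀ i < n, ω i = ω' i) → (ω ∈ S → ω' ∈ S)

lemma Dep.iff {n : ℕ} {S : Set (ℕ → Bool)} (h : Dep n S) {ω ω' : ℕ → Bool}
    (hh : ∀ i < n, ω i = ω' i) : ω ∈ S ↔ ω' ∈ S :=
  ⟨h ω ω' hh, h ω' ω fun i hi => (hh i hi).symm⟩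

lemma Dep.mono {n m : ℕ} {S : Set (ℕ → Bool)} (h : Dep n S) (hnm : n ≤ m) : Dep m S :=
  fun ω ω' hh => h ω ω' fun i hi => hh i (hi.trans_le hnm)

/-- extension of a finite word -/
def ext {n : ℕ} (v : Finset.range n → Bool) : ℕ → Bool :=
  fun i => if h : i ∈ Finset.range n then v ⟨i, h⟩ else false

lemma Dep.eq_preimage {n : ℕ} {S : Set (ℕ → Bool)} (h : Dep n S) :
    S = (fun ω (i : Finset.range n) => ω i) ⁻¹' {v | ext v ∈ S} := by
  ext ω
  rw [mem_preimage, mem_ofPred_eq]
  apply h.iff
  intro i hi
  simp [ext, hi]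

lemma Dep.measurable {n : ℕ} {S : Set (ℕ → Bool)} (h : Dep n S) : MeasurableSet S := by
  rw [h.eq_preimage]
  have : Measurable (fun (ω : ℕ → Bool) (i : Finset.range n) => ω i) := by fun_prop
  exact this (Set.toFinite _).measurableSet

lemma dep_eval (n : ℕ) (b : Bool) : Dep (n + 1) {ω | ω n = b} := by
  intro ω ω' h hω
  have h1 : ω n = b := hω
  have := h n (Nat.lt_succ_self n)
  exact this.symm.trans h1

lemma Dep.inter {n : ℕ} {S T : Set (ℕ → Bool)} (h : Dep n S) (h' : Dep n T) : Dep n (S ∩ T) :=
  fun ω ω' hh hω => ⟨h ω ω' hh hω.1, h' ω ω' hh hω.2⟩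

lemma iIndep (p : ℝ) : iIndepFun (fun (i : ℕ) (ω : ℕ → Bool) => ω i) (tosses p) := by
  unfold tosses
  exact iIndepFun_infinitePi (X := fun _ x => x) (by fun_prop)

/-- one further toss is independent of the past -/
lemma prob_inter_eval (p : ℝ) {n : ℕ} {S : Set (ℕ → Bool)} (h : Dep n S) (b : Bool) :
    (tosses p).real (S ∩ {ω | ω n = b}) = (tosses p).real S * wt p b := by
  have hind := (iIndep p).indepFun_finset (Finset.range n) {n}
    (by simp) (fun i => measurable_pi_apply i)
  have h1 : {ω : ℕ → Bool | ω n = b}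
      = (fun (ω : ℕ → Bool) (i : ({n} : Finset ℕ)) => ω i) ⁻¹' {v | v ⟨n, by simp⟩ = b} := by
    ext ω; simp
  have h2 := hind.measure_inter_preimage_eq_mul {v | ext v ∈ S} {v | v ⟨n, by simp⟩ = b}
    (Set.toFinite _).measurableSet (Set.toFinite _).measurableSet
  rw [← h.eq_preimage, ← h1] at h2
  rw [measureReal_def, h2, ENNReal.toReal_mul]
  congr 1
  have h3 : tosses p {ω | ω n = b} = coin p {b} := by
    unfold tosses
    rw [← (measurePreserving_eval_infinitePi (fun _ : ℕ => coin p) n).measure_preimage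
      (measurableSet_singleton b).nullMeasurableSet]
    rfl
  rw [h3, coin_singleton, ENNReal.toReal_ofReal (wt_nonneg p b)]

/-- weight of a word -/
noncomputable def wts (p : ℝ) (T : List Bool) : ℝ := (T.map (wt p)).prod

/-- the block of tosses starting at time `n` is the word `T` -/
def Block (T : List Bool) (n : ℕ) : Set (ℕ → Bool) :=
  {ω | ∀ i (h : i < T.length), ω (n + i) = T[i]}

lemma block_cons (b : Bool) (T : List Bool) (n : ℕ) :
    Block (b :: T) n = {ω | ω n = b} ∩ Block T (n + 1) := by
  ext ω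
  simp only [Block, mem_ofPred_eq, mem_inter_iff]
  constructor
  · intro h
    refine ⟨h 0 (by simp), fun i hi => ?_⟩
    have := h (i + 1) (by simpa using hi)
    simp only [List.getElem_cons_succ] at this
    rw [← this]; congr 1; ring
  · rintro ⟨h1, h2⟩ i hi
    rcases i with _ | i
    · simpa using h1
    · have := h2 i (by simpa using hi)
      simp only [List.getElem_cons_succ]
      rw [← this]; congr 1; ring

lemma prob_inter_block (p : ℝ) (T : List Bool) : ∀ {n : ℕ} {S : Set (ℕ → Bool)}, Dep n S →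
    (tosses p).real (S ∩ Block T n) = (tosses p).real S * wts p T := by
  induction T with
  | nil =>
    intro n S _
    have : Block [] n = univ := by ext ω; simp [Block]
    rw [this, inter_univ, wts]; simp
  | cons b T ih =>
    intro n S hS
    have h1 : Dep (n + 1) (S ∩ {ω | ω n = b}) :=
      (hS.mono (Nat.le_succ n)).inter (dep_eval n b)
    rw [block_cons, ← inter_assoc, ih h1, prob_inter_eval p hS]
    unfold wts
    rw [List.map_cons, List.prod_cons]
    ring

/-- The word `T` occurs at time `n`, i.e. the tosses numbered `n - |T| + 1, ..., n` spell `T` (toss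
number `k` is `ω (k - 1)`). -/
def Occ (T : List Bool) (ω : ℕ → Bool) (n : ℕ) : Prop :=
  T.length ≤ n ∧ ∀ i (h : i < T.length), ω (n - T.length + i) = T[i]

/-- The first time at which `T` occurs (`⊤` if it never occurs). -/
noncomputable def tau (T : List Bool) (ω : ℕ → Bool) : ℕ∞ :=
  sInf ((fun n : ℕ => (n : ℕ∞)) '' {n : ℕ | Occ T ω n})

/-- `T` does not occur up to time `n` -/
def Surv (T : List Bool) (n : ℕ) : Set (ℕ → Bool) := {ω | ∀ k ≤ n, ¬ Occ T ω k}

lemma lt_tau_iff (T : List Bool) (ω : ℕ → Bool) (n : ℕ) : (n : ℕ∞) < tau T ω ↔ ω ∈ Surv T n := by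
  constructor
  · intro h k hk hocc
    have h1 : tau T ω ≤ (k : ℕ∞) := sInf_le ⟨k, hocc, rfl⟩
    have h2 : (k : ℕ∞) ≤ n := by exact_mod_cast hk
    exact absurd (h1.trans h2) (not_le.mpr h)
  · intro h
    have : ((n + 1 : ℕ) : ℕ∞) ≤ tau T ω := by
      apply le_sInf
      rintro _ ⟨m, hm, rfl⟩
      simp only
      have : n < m := by
        by_contra hcon
        push Not at hcon
        exact h m hcon hm
      exact_mod_cast this
    exact lt_of_lt_of_le (by exact_mod_cast Nat.lt_succ_self n) this

lemma dep_occ (T : List Bool) (n : ℕ) : Dep n {ω | Occ T ω n} := by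
  intro ω ω' h hω
  refine ⟨hω.1, fun i hi => ?_⟩
  rw [← hω.2 i hi]
  exact (h _ (by have := hω.1; omega)).symm

lemma dep_surv (T : List Bool) (n : ℕ) : Dep n (Surv T n) := by
  intro ω ω' h hω k hk hocc
  exact hω k hk (dep_occ T k ω' ω (fun i hi => (h i (hi.trans_le hk)).symm) hocc)

lemma surv_anti (T : List Bool) {n m : ℕ} (h : n ≤ m) : Surv T m ⊆ Surv T n :=
  fun _ hω k hk => hω k (hk.trans h)

/-- probability that `T` does not occur up to time `n` -/
noncomputable def sv (p : ℝ) (T : List Bool) (n : ℕ) : ℝ := (tosses p).real (Surv T n)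

lemma surv_short (T : List Bool) {n : ℕ} (h : n < T.length) : Surv T n = univ := by
  ext ω
  simp only [Surv, mem_ofPred_eq, mem_univ, iff_true]
  intro k hk hocc
  have := hocc.1
  omega

lemma sv_short (p : ℝ) (T : List Bool) {n : ℕ} (h : n < T.length) : sv p T n = 1 := by
  unfold sv
  rw [surv_short T h, probReal_univ]

/-- No proper self overlap. -/
def NoOverlap (T : List Bool) : Prop :=
  ∀ k, 0 < k → k < T.length → ∃ i, ∃ (h : i + k < T.length), T[i] ≠ T[i + k]

lemma surv_rec {T : List Bool} (hT : NoOverlap T) (hlen : 0 < T.length) (n : ℕ) :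
    Surv T (n + T.length - 1) \ Surv T (n + T.length) = Surv T n ∩ Block T n := by
  ext ω
  constructor
  · rintro ⟨h1, h2⟩
    refine ⟨surv_anti T (by omega) h1, ?_⟩
    simp only [Surv, mem_ofPred_eq, not_forall, not_not] at h2
    obtain ⟨k, hk, hocc⟩ := h2
    have hk2 : k = n + T.length := by
      by_contra hne
      exact h1 k (by omega) hocc
    subst hk2
    intro i hi
    have := hocc.2 i hi
    rwa [Nat.add_sub_cancel] at this
  · rintro ⟨h1, h2⟩
    have hocc : Occ T ω (n + T.length) := by
      refine ⟨by omega, fun i hi => ?_⟩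
      rw [Nat.add_sub_cancel]
      exact h2 i hi
    refine ⟨?_, fun h => h _ le_rfl hocc⟩
    intro j hj hoccj
    by_cases hjn : j ≤ n
    · exact h1 j hjn hoccj
    · push Not at hjn
      obtain ⟨k, hk⟩ : ∃ k, j + k = n + T.length := ⟨n + T.length - j, by omega⟩
      obtain ⟨i, hi, hne⟩ := hT k (by omega) (by omega)
      apply hne
      have e1 := hoccj.2 (i + k) hi
      have e2 := h2 i (by omega)
      have hl := hoccj.1
      have : j - T.length + (i + k) = n + i := by omega
      rw [this] at e1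
      exact e2.symm.trans e1

lemma sv_rec (p : ℝ) {T : List Bool} (hT : NoOverlap T) (hlen : 0 < T.length) (n : ℕ) :
    sv p T (n + T.length - 1) - sv p T (n + T.length) = wts p T * sv p T n := by
  have h1 : Surv T (n + T.length) ⊆ Surv T (n + T.length - 1) := surv_anti T (by omega)
  unfold sv
  rw [← measureReal_sdiff h1 (dep_surv T _).measurable, surv_rec hT hlen,
    prob_inter_block p T (dep_surv T n)]
  ring

lemma sv_nonneg (p : ℝ) (T : List Bool) (n : ℕ) : 0 ≤ sv p T n := measureReal_nonneg

lemma sv_le_one (p : ℝ) (T : List Bool) (n : ℕ) : sv p T n ≤ 1 := measureReal_le_one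

lemma sv_anti (p : ℝ) (T : List Bool) {n m : ℕ} (h : n ≤ m) : sv p T m ≤ sv p T n :=
  measureReal_mono (surv_anti T h)

/-- generating function of the survival probabilities -/
noncomputable def gf (p : ℝ) (T : List Bool) (z : ℝ) : ℝ := ∑' n, z ^ n * sv p T n

lemma gf_summable (p : ℝ) (T : List Bool) {z : ℝ} (hz0 : 0 ≤ z) (hz1 : z < 1) :
    Summable fun n => z ^ n * sv p T n := by
  refine Summable.of_nonneg_of_le (fun n => mul_nonneg (pow_nonneg hz0 n) (sv_nonneg p T n))
    (fun n => ?_) (summable_geometric_of_lt_one hz0 hz1)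
  calc z ^ n * sv p T n ≤ z ^ n * 1 :=
        mul_le_mul_of_nonneg_left (sv_le_one p T n) (pow_nonneg hz0 n)
    _ = z ^ n := mul_one _

lemma gf_eq (p : ℝ) {T : List Bool} (hT : NoOverlap T) (hlen : 0 < T.length) {z : ℝ} (hz0 : 0 ≤ z)
    (hz1 : z < 1) : gf p T z * (1 - z + wts p T * z ^ T.length) = 1 := by
  set m := T.length with hm
  set b := sv p T with hb
  have hs := gf_summable p T hz0 hz1
  -- telescoped sums
  have hsum1 : Summable fun n => z ^ (n + m) * b (n + m - 1) := by
    have h1 : Summable fun n => z * (z ^ (n + (m - 1)) * b (n + (m - 1))) :=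
      ((summable_nat_add_iff (m - 1)).mpr hs).mul_left z
    refine h1.congr (fun n => ?_)
    have e1 : n + m - 1 = n + (m - 1) := by omega
    have e2 : n + m = n + (m - 1) + 1 := by omega
    rw [e1, e2, pow_succ]; ring
  have hsum2 : Summable fun n => z ^ (n + m) * b (n + m) := (summable_nat_add_iff m).mpr hs
  have hrec : ∀ n, z ^ (n + m) * b (n + m - 1) - z ^ (n + m) * b (n + m)
      = (wts p T * z ^ m) * (z ^ n * b n) := by
    intro n
    rw [← mul_sub, hb, hm, sv_rec p hT hlen, ← hm, pow_add]; ring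
  have htot : ∑' n, (z ^ (n + m) * b (n + m - 1) - z ^ (n + m) * b (n + m))
      = wts p T * z ^ m * gf p T z := by
    simp_rw [hrec]
    rw [tsum_mul_left]; rfl
  rw [hsum1.tsum_sub hsum2] at htot
  have hfirst : ∑' n, z ^ (n + m) * b (n + m) = gf p T z - ∑ i ∈ Finset.range m, z ^ i := by
    have := hs.sum_add_tsum_nat_add m
    have h2 : ∑ i ∈ Finset.range m, z ^ i * sv p T i = ∑ i ∈ Finset.range m, z ^ i := by
      apply Finset.sum_congr rfl
      intro i hi
      rw [sv_short p T (Finset.mem_range.mp hi), mul_one]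
    rw [h2] at this
    unfold gf
    linarith
  have hsecond : ∑' n, z ^ (n + m) * b (n + m - 1)
      = z * (gf p T z - ∑ i ∈ Finset.range (m - 1), z ^ i) := by
    have h1 : ∀ n, z ^ (n + m) * b (n + m - 1) = z * (z ^ (n + (m - 1)) * b (n + (m - 1))) := by
      intro n
      have e1 : n + m - 1 = n + (m - 1) := by omega
      have e2 : n + m = n + (m - 1) + 1 := by omega
      rw [e1, e2, pow_succ]; ring
    simp_rw [h1]
    rw [tsum_mul_left]
    congr 1
    have := hs.sum_add_tsum_nat_add (m - 1)
    have h2 : ∑ i ∈ Finset.range (m - 1), z ^ i * sv p T i = ∑ i ∈ Finset.range (m - 1), z ^ i := by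
      apply Finset.sum_congr rfl
      intro i hi
      have := Finset.mem_range.mp hi
      rw [sv_short p T (by omega), mul_one]
    rw [h2] at this
    unfold gf
    linarith
  rw [hfirst, hsecond] at htot
  have hgeo : ∑ i ∈ Finset.range m, z ^ i = 1 + z * ∑ i ∈ Finset.range (m - 1), z ^ i := by
    have : m = (m - 1) + 1 := by omega
    rw [this, Finset.sum_range_succ', Finset.mul_sum]
    simp only [Nat.add_sub_cancel, pow_zero]
    rw [add_comm]
    congr 1
    apply Finset.sum_congr rfl
    intro i _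
    rw [pow_succ]; ring
  rw [hgeo] at htot
  linarith

end Pool.Agent.Q212.Coin
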