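import Mathlib

/-!
# No constant rate distribution on the finite subsets of an infinite set

If `f : Finset ι → ℝ≥0∞` sums to one and `f x = α ∑_{y ⊇ x} f y` with `α < 1`, then, iterating,
`f x = α ^ n ∑_{y ⊇ x} n ^ |y \ x| f y`, and comparing with the total mass of the singletons gives
`f {i} = 0`.
-/

namespace Pool.Agent.Q212.ConstRate

open scoped ENNReal

variable {ι : Type} [DecidableEq ι]

/-- sum over the subsets between `x` and `z` -/
lemma sum_between (x z : Finset ι) (hxz : x ⊆ z) (n : ℕ) :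
    ∑ y ∈ z.powerset.filter (fun y => x ⊆ y), n ^ (y \ x).card = (n + 1) ^ (z \ x).card := by
  have h1 : (n + 1) ^ (z \ x).card = ∑ w ∈ (z \ x).powerset, n ^ w.card := by
    have := Finset.sum_pow_mul_eq_add_pow n 1 (z \ x)
    simpa using this.symm
  rw [h1]
  refine Finset.sum_bij' (fun y _ => y \ x) (fun w _ => w ∪ x) ?_ ?_ ?_ ?_ ?_
  · intro y hy
    rw [Finset.mem_filter, Finset.mem_powerset] at hy
    rw [Finset.mem_powerset]
    exact Finset.sdiff_subset_sdiff hy.1 (Finset.Subset.refl _)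
  · intro w hw
    rw [Finset.mem_powerset] at hw
    rw [Finset.mem_filter, Finset.mem_powerset]
    refine ⟨Finset.union_subset (hw.trans Finset.sdiff_subset) hxz, Finset.subset_union_right⟩
  · intro y hy
    rw [Finset.mem_filter, Finset.mem_powerset] at hy
    exact Finset.sdiff_union_of_subset hy.2
  · intro w hw
    rw [Finset.mem_powerset] at hw
    ext a
    simp only [Finset.mem_sdiff, Finset.mem_union]
    constructor
    · rintro ⟨h1 | h1, h2⟩
      · exact h1
      · exact absurd h1 h2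
    · intro h
      have := hw h
      rw [Finset.mem_sdiff] at this
      exact ⟨Or.inl h, this.2⟩
  · intro y hy
    rfl

/-- the iterated identity -/
lemma iterate_identity (f : Finset ι → ℝ≥0∞) (α : ℝ≥0∞)
    (h : ∀ x, f x = α * ∑' y, if x ⊆ y then f y else 0) (n : ℕ) :
    ∀ x, f x = α ^ (n + 1) *
      ∑' y, (if x ⊆ y then ((n + 1 : ℕ) : ℝ≥0∞) ^ (y \ x).card * f y else 0) := by
  induction n with
  | zero =>
    intro x
    simpa using h x
  | succ n ih =>
    intro x
    have hinner : ∀ y, (if x ⊆ y then ((n + 1 : ℕ) : ℝ≥0∞) ^ (y \ x).card * f y else 0)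
        = ∑' z, (if x ⊆ y ∧ y ⊆ z then α * (((n + 1 : ℕ) : ℝ≥0∞) ^ (y \ x).card * f z) else 0) := by
      intro y
      by_cases hxy : x ⊆ y
      · rw [if_pos hxy, h y, ← ENNReal.tsum_mul_left, ← ENNReal.tsum_mul_left]
        apply tsum_congr
        intro z
        by_cases hyz : y ⊆ z
        · rw [if_pos hyz, if_pos ⟨hxy, hyz⟩]; ring
        · rw [if_neg hyz, if_neg (fun h => hyz h.2)]; ring
      · rw [if_neg hxy]
        symm
        rw [ENNReal.tsum_eq_zero]
        intro z
        rw [if_neg (fun h => hxy h.1)]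
    rw [ih x]
    simp_rw [hinner]
    rw [ENNReal.tsum_comm]
    have houter : ∀ z, (∑' y, (if x ⊆ y ∧ y ⊆ z then
          α * (((n + 1 : ℕ) : ℝ≥0∞) ^ (y \ x).card * f z) else 0))
        = α * (if x ⊆ z then ((n + 1 + 1 : ℕ) : ℝ≥0∞) ^ (z \ x).card * f z else 0) := by
      intro z
      by_cases hxz : x ⊆ z
      · rw [if_pos hxz]
        rw [tsum_eq_sum (s := z.powerset.filter (fun y => x ⊆ y))]
        · have h2 : ∀ y ∈ z.powerset.filter (fun y => x ⊆ y),
              (if x ⊆ y ∧ y ⊆ z then α * (((n + 1 : ℕ) : ℝ≥0∞) ^ (y \ x).card * f z) else 0)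
                = (((n + 1) ^ (y \ x).card : ℕ) : ℝ≥0∞) * (α * f z) := by
            intro y hy
            rw [Finset.mem_filter, Finset.mem_powerset] at hy
            rw [if_pos ⟨hy.2, hy.1⟩]
            push_cast
            ring
          rw [Finset.sum_congr rfl h2, ← Finset.sum_mul, ← Nat.cast_sum,
            sum_between x z hxz (n + 1)]
          push_cast
          ring
        · intro y hy
          rw [Finset.mem_filter, Finset.mem_powerset] at hy
          rw [if_neg]
          rintro ⟨h3, h4⟩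
          exact hy ⟨h4, h3⟩
      · rw [if_neg hxz, mul_zero, ENNReal.tsum_eq_zero]
        intro y
        rw [if_neg]
        rintro ⟨h3, h4⟩
        exact hxz (h3.trans h4)
    simp_rw [houter]
    rw [ENNReal.tsum_mul_left, ← mul_assoc, ← pow_succ]

/-- total mass of singletons, iterated -/
lemma singletons (f : Finset ι → ℝ≥0∞) (α : ℝ≥0∞)
    (h : ∀ x, f x = α * ∑' y, if x ⊆ y then f y else 0) (n : ℕ) :
    ∑' i, f {i} = α ^ (n + 1) *
      ∑' y : Finset ι, (y.card : ℝ≥0∞) * (((n + 1 : ℕ) : ℝ≥0∞) ^ (y.card - 1) * f y) := by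
  have h1 : ∀ i : ι, f {i} = α ^ (n + 1) *
      ∑' y, (if i ∈ y then ((n + 1 : ℕ) : ℝ≥0∞) ^ (y.card - 1) * f y else 0) := by
    intro i
    rw [iterate_identity f α h n {i}]
    congr 1
    apply tsum_congr
    intro y
    by_cases hi : i ∈ y
    · rw [if_pos hi, if_pos (Finset.singleton_subset_iff.mpr hi),
        Finset.card_sdiff_of_subset (Finset.singleton_subset_iff.mpr hi), Finset.card_singleton]
    · rw [if_neg hi, if_neg (fun h => hi (Finset.singleton_subset_iff.mp h))]
  simp_rw [h1]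
  rw [ENNReal.tsum_mul_left, ENNReal.tsum_comm]
  congr 1
  apply tsum_congr
  intro y
  rw [tsum_eq_sum (s := y)]
  · rw [Finset.sum_congr rfl (g := fun _ => ((n + 1 : ℕ) : ℝ≥0∞) ^ (y.card - 1) * f y)]
    · rw [Finset.sum_const, nsmul_eq_mul]
    · intro i hi
      rw [if_pos hi]
  · intro i hi
    rw [if_neg hi]

/-- The main point: every singleton has mass zero. -/
theorem singleton_eq_zero (f : Finset ι → ℝ≥0∞) (α : ℝ≥0∞) (hα : α < 1)
    (hsum : ∑' x, f x = 1)
    (h : ∀ x, f x = α * ∑' y, if x ⊆ y then f y else 0) (i : ι) : f {i} = 0 := by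
  -- `f {i} ≤ α^(n+1) (n+1)^J + 1 / J`
  have key : ∀ (J : ℕ), 0 < J → ∀ n : ℕ,
      f {i} ≤ α ^ (n + 1) * ((n + 1 : ℕ) : ℝ≥0∞) ^ J + (J : ℝ≥0∞)⁻¹ := by
    intro J hJ n
    have hJ0 : (J : ℝ≥0∞) ≠ 0 := by simp; omega
    have hJt : (J : ℝ≥0∞) ≠ ⊤ := ENNReal.natCast_ne_top J
    have hb1 : ∑' j, f {j} ≤ 1 := by
      rw [← hsum]
      exact ENNReal.tsum_comp_le_tsum_of_injective (Finset.singleton_injective) f
    have hone : (1 : ℝ≥0∞) ≤ ((n + 1 : ℕ) : ℝ≥0∞) := by
      have : (1 : ℕ) ≤ n + 1 := by omega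
      exact_mod_cast this
    have hstep : ∀ y : Finset ι,
        (if {i} ⊆ y then ((n + 1 : ℕ) : ℝ≥0∞) ^ (y \ {i}).card * f y else 0)
          ≤ ((n + 1 : ℕ) : ℝ≥0∞) ^ J * f y
            + (J : ℝ≥0∞)⁻¹ * ((y.card : ℝ≥0∞) * (((n + 1 : ℕ) : ℝ≥0∞) ^ (y.card - 1) * f y)) := by
      intro y
      by_cases hi : {i} ⊆ y
      · rw [if_pos hi, Finset.card_sdiff_of_subset hi, Finset.card_singleton]
        by_cases hyJ : y.card ≤ J
        · refine le_trans ?_ (le_add_of_nonneg_right zero_le)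
          exact mul_le_mul_left (pow_le_pow_right₀ hone (by omega)) _
        · refine le_trans ?_ (le_add_of_nonneg_left zero_le)
          push Not at hyJ
          have h3 : (1 : ℝ≥0∞) ≤ (J : ℝ≥0∞)⁻¹ * (y.card : ℝ≥0∞) := by
            rw [← ENNReal.inv_mul_cancel hJ0 hJt]
            gcongr
          calc ((n + 1 : ℕ) : ℝ≥0∞) ^ (y.card - 1) * f y
              = 1 * (((n + 1 : ℕ) : ℝ≥0∞) ^ (y.card - 1) * f y) := by rw [one_mul]
            _ ≤ ((J : ℝ≥0∞)⁻¹ * (y.card : ℝ≥0∞)) * (((n + 1 : ℕ) : ℝ≥0∞) ^ (y.card - 1) * f y) := by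
                gcongr
            _ = _ := by ring
      · rw [if_neg hi]; exact zero_le
    calc f {i} = α ^ (n + 1) *
          ∑' y : Finset ι, (if {i} ⊆ y then ((n + 1 : ℕ) : ℝ≥0∞) ^ (y \ {i}).card * f y else 0) :=
          iterate_identity f α h n {i}
      _ ≤ α ^ (n + 1) * ∑' y : Finset ι, (((n + 1 : ℕ) : ℝ≥0∞) ^ J * f y
            + (J : ℝ≥0∞)⁻¹ * ((y.card : ℝ≥0∞) * (((n + 1 : ℕ) : ℝ≥0∞) ^ (y.card - 1) * f y))) := by
          exact mul_le_mul_right (ENNReal.tsum_le_tsum hstep) _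
      _ = α ^ (n + 1) * ((n + 1 : ℕ) : ℝ≥0∞) ^ J + (J : ℝ≥0∞)⁻¹ * ∑' j, f {j} := by
          rw [ENNReal.tsum_add, ENNReal.tsum_mul_left, ENNReal.tsum_mul_left, hsum,
            singletons f α h n]
          ring
      _ ≤ α ^ (n + 1) * ((n + 1 : ℕ) : ℝ≥0∞) ^ J + (J : ℝ≥0∞)⁻¹ := by
          gcongr
          calc (J : ℝ≥0∞)⁻¹ * ∑' j, f {j} ≤ (J : ℝ≥0∞)⁻¹ * 1 := by gcongr
            _ = _ := mul_one _
  -- let `n → ∞`
  have hlim : ∀ J : ℕ, Filter.Tendsto
      (fun n : ℕ => α ^ (n + 1) * ((n + 1 : ℕ) : ℝ≥0∞) ^ J) Filter.atTop (nhds 0) := by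
    intro J
    have hαt : α ≠ ⊤ := (hα.trans ENNReal.one_lt_top).ne
    have hα' : α.toReal < 1 := by
      have := (ENNReal.toReal_lt_toReal hαt ENNReal.one_ne_top).mpr hα
      simpa using this
    have h1 := tendsto_pow_const_mul_const_pow_of_abs_lt_one J
      (r := α.toReal) (by rw [abs_of_nonneg ENNReal.toReal_nonneg]; exact hα')
    have h2 := (Filter.tendsto_add_atTop_iff_nat 1).mpr h1
    have h3 := ENNReal.tendsto_ofReal h2
    rw [ENNReal.ofReal_zero] at h3
    refine h3.congr ?_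
    intro n
    rw [ENNReal.ofReal_mul (by positivity), ENNReal.ofReal_pow (by positivity),
      ENNReal.ofReal_pow ENNReal.toReal_nonneg, ENNReal.ofReal_toReal hαt,
      ENNReal.ofReal_natCast, mul_comm]
  have hle : ∀ J : ℕ, 0 < J → f {i} ≤ (J : ℝ≥0∞)⁻¹ := by
    intro J hJ
    have := (hlim J).add_const ((J : ℝ≥0∞)⁻¹)
    rw [zero_add] at this
    exact ge_of_tendsto' this (key J hJ)
  have hzero : Filter.Tendsto (fun J : ℕ => ((J + 1 : ℕ) : ℝ≥0∞)⁻¹) Filter.atTop (nhds 0) :=
    (Filter.tendsto_add_atTop_iff_nat 1).mpr ENNReal.tendsto_inv_nat_nhds_zero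
  exact le_antisymm (ge_of_tendsto' hzero (fun J => hle (J + 1) (by omega))) zero_le

/-- Version for real valued probability functions: the only distribution with `f = α F` is the
point mass at `∅`. -/
theorem constant_rate_real (f : Finset ι → ℝ) (α : ℝ) (hnn : ∀ x, 0 ≤ f x)
    (hsum : HasSum f 1)
    (h : ∀ x, f x = α * ∑' y : {y : Finset ι // x ⊆ y}, f y) :
    α = 1 ∧ f ∅ = 1 ∧ ∀ x, x ≠ ∅ → f x = 0 := by
  have hsummable := hsum.summable
  have hF : ∀ x, ∑' y : {y : Finset ι // x ⊆ y}, f y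
      = ∑' y : Finset ι, (if x ⊆ y then f y else 0) := by
    intro x
    refine (tsum_subtype {y : Finset ι | x ⊆ y} f).trans ?_
    apply tsum_congr
    intro y
    simp [Set.indicator_apply]
  have hite : ∀ x, Summable (fun y : Finset ι => if x ⊆ y then f y else 0) := by
    intro x
    have := hsummable.indicator {y : Finset ι | x ⊆ y}
    refine this.congr ?_
    intro y
    simp [Set.indicator_apply]
  have hempty : f ∅ = α := by
    have h1 := h ∅
    rw [hF ∅] at h1
    simp only [Finset.empty_subset, if_true] at h1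
    rw [hsum.tsum_eq, mul_one] at h1
    exact h1
  have hle1 : ∀ x, x ≠ ∅ → f ∅ + f x ≤ 1 := by
    intro x hx
    have := hsum.tsum_eq ▸ hsummable.sum_le_tsum {∅, x} (fun x _ => hnn x)
    rwa [Finset.sum_pair (Ne.symm hx)] at this
  have hα0 : 0 < α := by
    by_contra hneg
    push Not at hneg
    have h1 : ∀ x, f x = 0 := by
      intro x
      have h2 : 0 ≤ ∑' y : {y : Finset ι // x ⊆ y}, f y := tsum_nonneg (fun y => hnn y)
      have h3 := hnn x
      have h4 := h x
      nlinarith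
    have h2 : (1 : ℝ) = 0 := by
      rw [← hsum.tsum_eq]; simp [h1]
    norm_num at h2
  have hempty1 : f ∅ ≤ 1 := by
    rw [← hsum.tsum_eq]
    exact hsummable.le_tsum ∅ (fun x _ => hnn x)
  -- all masses of nonempty sets vanish
  have hzero : ∀ x, x ≠ ∅ → f x = 0 := by
    by_cases hα1 : α < 1
    · set g : Finset ι → ℝ≥0∞ := fun x => ENNReal.ofReal (f x) with hg
      have hgsum : ∑' x, g x = 1 := by
        rw [hg, ← ENNReal.ofReal_tsum_of_nonneg hnn hsummable, hsum.tsum_eq,
          ENNReal.ofReal_one]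
      have hgrate : ∀ x, g x = ENNReal.ofReal α * ∑' y, if x ⊆ y then g y else 0 := by
        intro x
        have h1 : ∑' y, (if x ⊆ y then g y else 0)
            = ENNReal.ofReal (∑' y : Finset ι, if x ⊆ y then f y else 0) := by
          rw [ENNReal.ofReal_tsum_of_nonneg _ (hite x)]
          · apply tsum_congr
            intro y
            split_ifs
            · rfl
            · simp
          · intro y
            split_ifs
            · exact hnn y
            · exact le_rfl
        rw [h1, ← ENNReal.ofReal_mul hα0.le, ← hF x, ← h x]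
      have hα1' : ENNReal.ofReal α < 1 := by
        rw [ENNReal.ofReal_lt_one]; exact hα1
      intro x hx
      obtain ⟨i, hi⟩ := Finset.nonempty_iff_ne_empty.mpr hx
      have hz := singleton_eq_zero g (ENNReal.ofReal α) hα1' hgsum hgrate i
      have hz' : f {i} ≤ 0 := by
        rw [hg] at hz
        simpa only [ENNReal.ofReal_eq_zero] using hz
      have h1 := h {i}
      rw [hF {i}] at h1
      have h2 : f x ≤ ∑' y : Finset ι, (if {i} ⊆ y then f y else 0) := by
        have := (hite {i}).le_tsum x (fun y _ => by split_ifs; exacts [hnn y, le_rfl])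
        rwa [if_pos (Finset.singleton_subset_iff.mpr hi)] at this
      have h3 := hnn x
      nlinarith
    · push Not at hα1
      intro x hx
      have h1 := hle1 x hx
      have h2 := hnn x
      linarith
  have h1 : f ∅ = 1 := by
    rw [← hsum.tsum_eq]
    exact (tsum_eq_single ∅ hzero).symm
  exact ⟨by rw [← hempty, h1], h1, hzero⟩

end Pool.Agent.Q212.ConstRate
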