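import Mathlib

/-!
# Disagreement bounds: combinatorial part
-/

namespace Pool.Agent.Q212.DB

open Finset

lemma abel (s d : ℕ → ℝ) (ε : ℝ) (n : ℕ) (hs : ∀ j, j + 1 < n + 1 → s (j + 1) ≤ s j)
    (hD : ∀ k ≤ n + 1, ∑ j ∈ range k, d j ≤ ε) :
    ∑ j ∈ range (n + 1), d j * s j ≤ ε * (s 0 - s n) + (∑ j ∈ range (n + 1), d j) * s n := by
  induction n with
  | zero => simp
  | succ n ih =>
    have ih' := ih (fun j hj => hs j (by omega)) (fun k hk => hD k (by omega))
    have h1 := hD (n + 1) (by omega)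
    have h2 := hs n (by omega)
    rw [sum_range_succ, sum_range_succ (f := d)]
    nlinarith

lemma sq_seq (s : ℕ → ℝ) (n : ℕ) (hs : ∀ j, j + 1 < n → s (j + 1) ≤ s j) (h0 : ∀ j < n, 0 ≤ s j)
    (h1 : ∀ j < n, s j ≤ 1) (ρ ε : ℝ) (hρ0 : 0 < ρ) (hρ1 : ρ < 1) (hε : 0 ≤ ε)
    (h : ∀ k ≤ n, ∑ j ∈ range k, s j ≤ 1 - (1 - ρ) ^ k + ε) :
    ∑ j ∈ range n, s j ^ 2 ≤ ρ / (2 - ρ) + 2 * ε := by
  rcases n with _ | n
  · simp
    have : 0 ≤ ρ / (2 - ρ) := div_nonneg hρ0.le (by linarith)
    linarith
  · set a : ℕ → ℝ := fun j => ρ * (1 - ρ) ^ j with ha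
    have hasum : ∀ k, ∑ j ∈ range k, a j = 1 - (1 - ρ) ^ k := by
      intro k
      induction k with
      | zero => simp
      | succ k ih => rw [sum_range_succ, ih]; simp only [ha]; ring
    have hD : ∀ k ≤ n + 1, ∑ j ∈ range k, (s j - a j) ≤ ε := by
      intro k hk
      rw [sum_sub_distrib, hasum]
      have := h k hk
      linarith
    have hab := abel s (fun j => s j - a j) ε n hs hD
    have hsn := h0 n (by omega)
    have hs0 := h0 0 (by omega)
    have hs01 := h1 0 (by omega)
    have hDn := hD (n + 1) le_rfl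
    have h2 : ∑ j ∈ range (n + 1), (s j - a j) * s j ≤ ε := by
      have h3 : (∑ j ∈ range (n + 1), (s j - a j)) * s n ≤ ε * s n :=
        mul_le_mul_of_nonneg_right hDn hsn
      calc _ ≤ ε * (s 0 - s n) + (∑ j ∈ range (n + 1), (s j - a j)) * s n := hab
        _ ≤ ε * s 0 := by linarith
        _ ≤ ε := by nlinarith
    have h4 : ∑ j ∈ range (n + 1), s j ^ 2
        ≤ ε + (∑ j ∈ range (n + 1), a j ^ 2 + ∑ j ∈ range (n + 1), s j ^ 2) / 2 := by
      have h5 : ∑ j ∈ range (n + 1), s j ^ 2
          = ∑ j ∈ range (n + 1), (s j - a j) * s j + ∑ j ∈ range (n + 1), a j * s j := by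
        rw [← sum_add_distrib]
        apply sum_congr rfl
        intro j _; ring
      have h6 : ∑ j ∈ range (n + 1), a j * s j
          ≤ (∑ j ∈ range (n + 1), a j ^ 2 + ∑ j ∈ range (n + 1), s j ^ 2) / 2 := by
        rw [← sum_add_distrib, sum_div]
        apply sum_le_sum
        intro j _
        nlinarith [sq_nonneg (a j - s j)]
      rw [h5]
      rw [← h5]
      linarith
    have h7 : ∑ j ∈ range (n + 1), a j ^ 2 ≤ ρ / (2 - ρ) := by
      have h8 : ∀ k, ∑ j ∈ range k, a j ^ 2 = ρ / (2 - ρ) * (1 - ((1 - ρ) ^ 2) ^ k) := by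
        intro k
        have hne : 2 - ρ ≠ 0 := by linarith
        induction k with
        | zero => simp
        | succ k ih =>
          have hu : ((1 - ρ) ^ 2) ^ k = ((1 - ρ) ^ k) ^ 2 := by
            rw [← pow_mul, ← pow_mul, mul_comm]
          have hu1 : ((1 - ρ) ^ 2) ^ (k + 1) = ((1 - ρ) ^ k) ^ 2 * (1 - ρ) ^ 2 := by
            rw [pow_succ, hu]
          rw [sum_range_succ, ih, hu1, hu]; simp only [ha]
          generalize (1 - ρ) ^ k = u
          field_simp
          ring
      rw [h8]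
      have h9 : 0 ≤ ρ / (2 - ρ) := div_nonneg hρ0.le (by linarith)
      have h10 : 0 ≤ ((1 - ρ) ^ 2) ^ (n + 1) := by positivity
      nlinarith
    linarith

lemma sq_bound {ι : Type*} (B : Finset ι) (m : ι → ℝ) (h0 : ∀ i ∈ B, 0 ≤ m i)
    (h1 : ∀ i ∈ B, m i ≤ 1) (ρ ε : ℝ) (hρ0 : 0 < ρ) (hρ1 : ρ < 1) (hε : 0 ≤ ε)
    (h : ∀ L ⊆ B, ∑ i ∈ L, m i ≤ 1 - (1 - ρ) ^ L.card + ε) :
    ∑ i ∈ B, m i ^ 2 ≤ ρ / (2 - ρ) + 2 * ε := by
  classical
  rcases B.eq_empty_or_nonempty with rfl | ⟨b0, hb0⟩
  · simp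
    have : 0 ≤ ρ / (2 - ρ) := div_nonneg hρ0.le (by linarith)
    linarith
  set n := B.card with hn
  set e : Fin n ≃ B := B.equivFin.symm with he
  set σ := Tuple.sort (fun k : Fin n => - m (e k)) with hσ
  have hmono := Tuple.monotone_sort (fun k : Fin n => - m (e k))
  set g : ℕ → ι := fun k => if hk : k < n then (e (σ ⟨k, hk⟩)).1 else b0 with hg
  have hgk : ∀ k (hk : k < n), g k = (e (σ ⟨k, hk⟩)).1 := by
    intro k hk; simp only [hg, dif_pos hk]
  have hgB : ∀ k < n, g k ∈ B := by
    intro k hk; rw [hgk k hk]; exact (e (σ ⟨k, hk⟩)).2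
  have hinj : ∀ k < n, ∀ k' < n, g k = g k' → k = k' := by
    intro k hk k' hk' heq
    rw [hgk k hk, hgk k' hk'] at heq
    have h2 := σ.injective (e.injective (Subtype.ext heq))
    exact congrArg Fin.val h2
  have hsum : ∀ F : ι → ℝ, ∑ i ∈ B, F i = ∑ k ∈ range n, F (g k) := by
    intro F
    rw [Finset.sum_range, ← Finset.sum_coe_sort B F, ← Equiv.sum_comp (σ.trans e) (fun b => F b.1)]
    apply Finset.sum_congr rfl
    intro k _
    rw [hgk k k.2]; rfl
  rw [hsum]
  apply sq_seq (fun k => m (g k)) n _ (fun j hj => h0 _ (hgB j hj)) (fun j hj => h1 _ (hgB j hj))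
    ρ ε hρ0 hρ1 hε
  · intro k hk
    have hL : ((range k).image g) ⊆ B := by
      intro i hi
      rw [Finset.mem_image] at hi
      obtain ⟨j, hj, rfl⟩ := hi
      exact hgB j (lt_of_lt_of_le (Finset.mem_range.mp hj) hk)
    have hio : Set.InjOn g (range k : Finset ℕ) := by
      intro j hj j' hj' heq
      have h2 := Finset.mem_range.mp (Finset.mem_coe.mp hj)
      have h3 := Finset.mem_range.mp (Finset.mem_coe.mp hj')
      exact hinj j (by omega) j' (by omega) heq
    have h2 := h _ hL
    rw [Finset.sum_image hio, Finset.card_image_of_injOn hio, Finset.card_range] at h2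
    exact h2
  · intro j hj
    have h2 := hmono (a := ⟨j, by omega⟩) (b := ⟨j + 1, hj⟩) (by
      rw [Fin.le_def]; exact Nat.le_succ j)
    simp only [Function.comp_apply] at h2
    change m (g (j + 1)) ≤ m (g j)
    rw [hgk _ hj, hgk j (by omega)]
    linarith

/-- Labels: generic labels, pair labels, single labels. -/
abbrev Lab (M N : ℕ) : Type := Fin N ⊕ (Fin M × Fin M) ⊕ Fin M

/-- the label `l` may be used by the variable `i` -/
def Ok {M N : ℕ} (T : Fin N → Finset (Fin M)) (i : Fin M) : Lab M N → Prop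
  | Sum.inl l => i ∈ T l
  | Sum.inr (Sum.inl (a, b)) => i = a ∨ i = b
  | Sum.inr (Sum.inr c) => i = c

lemma agree_bound {M N : ℕ} (T : Fin N → Finset (Fin M)) (ρ ε : ℝ) (hρ0 : 0 < ρ) (hρ1 : ρ < 1)
    (hε : 0 < ε) (hM : 0 < M) (K : ℕ) (hK : 1 / ε ≤ K)
    (H3 : ∀ L : Finset (Fin N), L.card ≤ K →
      ((L.biUnion T).card : ℝ) ≤ (1 - (1 - ρ) ^ L.card + ε) * M)
    (y : Fin M → Lab M N) (hy : ∀ i, Ok T i (y i)) :
    ∑ i, ∑ j, (if y i = y j then (1 : ℝ) else 0) ≤ (ρ / (2 - ρ) + 3 * ε) * M ^ 2 + 2 * M := by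
  classical
  have hMr : (0 : ℝ) < M := by exact_mod_cast hM
  set m : Fin N → ℝ := fun l => ((univ.filter fun i => y i = Sum.inl l).card : ℝ) with hm
  have hm0 : ∀ l, 0 ≤ m l := fun l => Nat.cast_nonneg _
  -- the classes
  have hdisj : ∀ L : Finset (Fin N), ∑ l ∈ L, m l
      = ((L.biUnion fun l => univ.filter fun i => y i = Sum.inl l).card : ℝ) := by
    intro L
    rw [Finset.card_biUnion]
    · push_cast; rfl
    · intro l _ l' _ hne
      rw [Function.onFun, Finset.disjoint_left]
      intro i hi hi'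
      rw [Finset.mem_filter] at hi hi'
      apply hne
      have := hi.2.symm.trans hi'.2
      exact Sum.inl_injective this
  have hsumM : ∀ L : Finset (Fin N), ∑ l ∈ L, m l ≤ M := by
    intro L
    rw [hdisj]
    have := Finset.card_le_univ (L.biUnion fun l => univ.filter fun i => y i = Sum.inl l)
    rw [Fintype.card_fin] at this
    exact_mod_cast this
  -- step 1
  have hrow : ∀ i, ∑ j, (if y i = y j then (1 : ℝ) else 0)
      ≤ ∑ l, (if y i = Sum.inl l then m l else 0) + 2 := by
    intro i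
    rw [Finset.sum_boole]
    rcases hyi : y i with l | ⟨a, b⟩ | c
    · have h1 : ∑ l', (if (Sum.inl l : Lab M N) = Sum.inl l' then m l' else 0) = m l := by
        simp
      rw [h1]
      have h2 : ((univ.filter fun j => (Sum.inl l : Lab M N) = y j).card : ℝ) = m l := by
        simp only [hm]
        congr 2
        ext j
        simp only [Finset.mem_filter, Finset.mem_univ, true_and]
        exact eq_comm
      rw [h2]; linarith
    · have h1 : (univ.filter fun j => (Sum.inr (Sum.inl (a, b)) : Lab M N) = y j) ⊆ {a, b} := by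
        intro j hj
        rw [Finset.mem_filter] at hj
        have := hy j
        rw [← hj.2] at this
        simp only [Ok] at this
        rw [Finset.mem_insert, Finset.mem_singleton]
        exact this
      have h2 : ((univ.filter fun j => (Sum.inr (Sum.inl (a, b)) : Lab M N) = y j).card : ℝ) ≤ 2 := by
        exact_mod_cast (Finset.card_le_card h1).trans Finset.card_le_two
      have h3 : ∑ l, (if (Sum.inr (Sum.inl (a, b)) : Lab M N) = Sum.inl l then m l else 0) = 0 := by
        simp
      rw [h3]; linarith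
    · have h1 : (univ.filter fun j => (Sum.inr (Sum.inr c) : Lab M N) = y j) ⊆ {c} := by
        intro j hj
        rw [Finset.mem_filter] at hj
        have := hy j
        rw [← hj.2] at this
        simp only [Ok] at this
        rw [Finset.mem_singleton]
        exact this
      have h2 : ((univ.filter fun j => (Sum.inr (Sum.inr c) : Lab M N) = y j).card : ℝ) ≤ 1 := by
        exact_mod_cast (Finset.card_le_card h1).trans (Finset.card_singleton c).le
      have h3 : ∑ l, (if (Sum.inr (Sum.inr c) : Lab M N) = Sum.inl l then m l else 0) = 0 := by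
        simp
      rw [h3]; linarith
  have h1 : ∑ i, ∑ j, (if y i = y j then (1 : ℝ) else 0) ≤ ∑ l, m l ^ 2 + 2 * M := by
    refine (Finset.sum_le_sum fun i _ => hrow i).trans ?_
    rw [Finset.sum_add_distrib, Finset.sum_comm]
    have h2 : ∀ l, ∑ i, (if y i = Sum.inl l then m l else 0) = m l ^ 2 := by
      intro l
      rw [← Finset.sum_filter, Finset.sum_const, nsmul_eq_mul, sq]
    simp_rw [h2]
    rw [Finset.sum_const, Finset.card_univ, Fintype.card_fin, nsmul_eq_mul]
    linarith
  refine h1.trans ?_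
  -- big and small classes
  set B := univ.filter fun l => ε * M < m l with hB
  have hsmall : ∑ l ∈ univ.filter (fun l => ¬ ε * M < m l), m l ^ 2 ≤ ε * M ^ 2 := by
    calc ∑ l ∈ univ.filter (fun l => ¬ ε * M < m l), m l ^ 2
        ≤ ∑ l ∈ univ.filter (fun l => ¬ ε * M < m l), (ε * M) * m l := by
          apply Finset.sum_le_sum
          intro l hl
          rw [Finset.mem_filter] at hl
          have := hm0 l
          nlinarith [hl.2]
      _ = (ε * M) * ∑ l ∈ univ.filter (fun l => ¬ ε * M < m l), m l := by rw [Finset.mul_sum]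
      _ ≤ (ε * M) * M := mul_le_mul_of_nonneg_left (hsumM _) (by positivity)
      _ = ε * M ^ 2 := by ring
  have hBcard : B.card ≤ K := by
    have h2 : (B.card : ℝ) * (ε * M) ≤ M := by
      calc (B.card : ℝ) * (ε * M) = ∑ l ∈ B, ε * M := by rw [Finset.sum_const, nsmul_eq_mul]
        _ ≤ ∑ l ∈ B, m l := by
            apply Finset.sum_le_sum
            intro l hl
            rw [hB, Finset.mem_filter] at hl
            exact hl.2.le
        _ ≤ M := hsumM B
    have h3 : (B.card : ℝ) * ε ≤ 1 := by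
      have : (B.card : ℝ) * ε * M ≤ 1 * M := by linarith
      exact le_of_mul_le_mul_right this hMr
    have h4 : (B.card : ℝ) ≤ 1 / ε := by
      rw [le_div_iff₀ hε]; exact h3
    exact_mod_cast h4.trans hK
  have hbig : ∑ l ∈ B, m l ^ 2 ≤ (ρ / (2 - ρ) + 2 * ε) * M ^ 2 := by
    have h2 := sq_bound B (fun l => m l / M) (fun l _ => div_nonneg (hm0 l) hMr.le)
      (fun l _ => by
        rw [div_le_one hMr]
        have := hsumM {l}
        rwa [Finset.sum_singleton] at this) ρ ε hρ0 hρ1 hε.le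
      (fun L hL => by
        rw [← Finset.sum_div, div_le_iff₀ hMr]
        have h3 := H3 L ((Finset.card_le_card hL).trans hBcard)
        refine le_trans ?_ h3
        rw [hdisj]
        have h4 : (L.biUnion fun l => univ.filter fun i => y i = Sum.inl l) ⊆ L.biUnion T := by
          intro i hi
          rw [Finset.mem_biUnion] at hi ⊢
          obtain ⟨l, hl, hil⟩ := hi
          rw [Finset.mem_filter] at hil
          refine ⟨l, hl, ?_⟩
          have := hy i
          rw [hil.2] at this
          exact this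
        exact_mod_cast Finset.card_le_card h4)
    have h3 : ∑ l ∈ B, (m l / M) ^ 2 = (∑ l ∈ B, m l ^ 2) / M ^ 2 := by
      rw [Finset.sum_div]
      apply Finset.sum_congr rfl
      intro l _; rw [div_pow]
    rw [h3, div_le_iff₀ (by positivity)] at h2
    exact h2
  have hsplit := Finset.sum_filter_add_sum_filter_not univ (fun l => ε * M < m l) (fun l => m l ^ 2)
  rw [← hsplit]
  have : (ρ / (2 - ρ) + 3 * ε) * M ^ 2 = (ρ / (2 - ρ) + 2 * ε) * (M : ℝ) ^ 2 + ε * M ^ 2 := by ring
  rw [this]
  linarith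

end Pool.Agent.Q212.DB
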