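import Pool.Agent.Q212.Coin
import Pool.Agent.Q212.DB1

/-!
# Disagreement bounds: random set systems
-/

namespace Pool.Agent.Q212.DB

open MeasureTheory ProbabilityTheory Set Filter Topology
open scoped ENNReal NNReal
open Pool.Agent.Q212.Coin

/-- law of a random row vector -/
noncomputable def piN (ρ : ℝ) (N : ℕ) : Measure (Fin N → Bool) := Measure.pi fun _ => coin ρ

instance (ρ : ℝ) (N : ℕ) : IsProbabilityMeasure (piN ρ N) := by unfold piN; infer_instance

/-- law of a random system -/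
noncomputable def PP (ρ : ℝ) (N M : ℕ) : Measure (Fin M → Fin N → Bool) :=
  Measure.pi fun _ => piN ρ N

instance (ρ : ℝ) (N M : ℕ) : IsProbabilityMeasure (PP ρ N M) := by unfold PP; infer_instance

lemma coin_true {ρ : ℝ} (h0 : 0 ≤ ρ) (h1 : ρ ≤ 1) : (coin ρ).real {true} = ρ := by
  rw [coin_real, wt, if_pos rfl, clamp_eq h0 h1]

lemma coin_false {ρ : ℝ} (h0 : 0 ≤ ρ) (h1 : ρ ≤ 1) : (coin ρ).real {false} = 1 - ρ := by
  rw [coin_real, wt, if_neg (by simp), clamp_eq h0 h1]

/-- probability that a row avoids `L` -/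
lemma piN_avoid {ρ : ℝ} (h0 : 0 ≤ ρ) (h1 : ρ ≤ 1) (N : ℕ) (L : Finset (Fin N)) :
    (piN ρ N).real {v | ∀ l ∈ L, v l = false} = (1 - ρ) ^ L.card := by
  classical
  have hset : {v : Fin N → Bool | ∀ l ∈ L, v l = false}
      = Set.pi univ (fun l => if l ∈ L then {false} else univ) := by
    ext v
    simp only [mem_ofPred_eq, mem_univ_pi]
    constructor
    · intro h l
      by_cases hl : l ∈ L
      · rw [if_pos hl]; exact h l hl
      · rw [if_neg hl]; trivial
    · intro h l hl
      have := h l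
      rw [if_pos hl] at this
      exact this
  rw [hset, measureReal_def, piN, Measure.pi_pi, ENNReal.toReal_prod]
  have h2 : ∀ l, ((coin ρ) (if l ∈ L then {false} else univ)).toReal
      = if l ∈ L then (1 - ρ) else 1 := by
    intro l
    by_cases hl : l ∈ L
    · rw [if_pos hl, if_pos hl]; exact coin_false h0 h1
    · rw [if_neg hl, if_neg hl, measure_univ]; rfl
  simp_rw [h2]
  rw [Finset.prod_ite_mem, Finset.univ_inter, Finset.prod_const]

/-- Hoeffding bound for the unions -/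
lemma union_bound {ρ : ℝ} (h0 : 0 ≤ ρ) (h1 : ρ ≤ 1) (N M : ℕ) (hM : 0 < M) (L : Finset (Fin N))
    {ε : ℝ} (hε : 0 < ε) :
    (PP ρ N M).real {ω | (1 - (1 - ρ) ^ L.card + ε) * M
      < ((Finset.univ.filter fun i => ∃ l ∈ L, ω i l = true).card : ℝ)}
      ≤ Real.exp (-2 * ε ^ 2 * M) := by
  classical
  have hMr : (0 : ℝ) < M := by exact_mod_cast hM
  set q : ℝ := (1 - ρ) ^ L.card with hq
  set A : Set (Fin N → Bool) := {v | ∀ l ∈ L, v l = false} with hA
  set φ : (Fin N → Bool) → ℝ := fun v => q - A.indicator (fun _ => (1 : ℝ)) v with hφ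
  have hAm : MeasurableSet A := (Set.toFinite A).measurableSet
  have hφm : Measurable φ := measurable_const.sub (measurable_const.indicator hAm)
  set X : Fin M → (Fin M → Fin N → Bool) → ℝ := fun i ω => φ (ω i) with hX
  have hind : iIndepFun X (PP ρ N M) := by
    unfold PP
    exact iIndepFun_pi (X := fun _ => φ) (fun i => hφm.aemeasurable)
  have hmean : ∀ i, ∫ ω, X i ω ∂(PP ρ N M) = 0 := by
    intro i
    simp only [hX]
    unfold PP
    rw [integral_comp_eval (μ := fun _ : Fin M => piN ρ N) (i := i) hφm.aestronglyMeasurable]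
    simp only [hφ]
    rw [integral_sub (integrable_const _) ((integrable_const _).indicator hAm),
      integral_indicator_const _ hAm, hA, piN_avoid h0 h1]
    simp [hq]
  have hsub : ∀ i ∈ (Finset.univ : Finset (Fin M)),
      HasSubgaussianMGF (X i) ((‖q - (q - 1)‖₊ / 2) ^ 2) (PP ρ N M) := by
    intro i _
    apply hasSubgaussianMGF_of_mem_Icc_of_integral_eq_zero
    · exact (hφm.comp (measurable_pi_apply i)).aemeasurable
    · filter_upwards [] with ω
      simp only [hX, hφ]
      by_cases hv : ω i ∈ A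
      · rw [indicator_of_mem hv]; exact ⟨le_rfl, by linarith⟩
      · rw [indicator_of_notMem hv]; exact ⟨by linarith, by linarith⟩
    · exact hmean i
  have hH := HasSubgaussianMGF.measure_sum_ge_le_of_iIndepFun hind hsub
    (ε := ε * M) (by positivity)
  have hc : ((‖q - (q - 1)‖₊ / 2) ^ 2 : ℝ≥0) = 1 / 4 := by
    have : q - (q - 1) = 1 := by ring
    rw [this]
    simp
    norm_num
  have hexp : Real.exp (-(ε * M) ^ 2 / (2 * ((∑ _i : Fin M, (‖q - (q - 1)‖₊ / 2) ^ 2 : ℝ≥0) : ℝ)))
      = Real.exp (-2 * ε ^ 2 * M) := by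
    congr 1
    rw [hc, Finset.sum_const, Finset.card_univ, Fintype.card_fin]
    simp only [nsmul_eq_mul]
    push_cast
    field_simp
    ring
  rw [← hexp]
  refine le_trans (measureReal_mono ?_ (by finiteness)) hH
  intro ω hω
  simp only [mem_ofPred_eq] at hω ⊢
  have h2 : ∑ i, X i ω = q * M - ((Finset.univ.filter fun i => ¬ ∃ l ∈ L, ω i l = true).card : ℝ) := by
    simp only [hX, hφ]
    rw [Finset.sum_sub_distrib, Finset.sum_const, Finset.card_univ, Fintype.card_fin, nsmul_eq_mul,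
      mul_comm]
    congr 1
    rw [Finset.card_filter]
    push_cast
    apply Finset.sum_congr rfl
    intro i _
    by_cases hv : ω i ∈ A
    · rw [indicator_of_mem hv, if_pos]
      rintro ⟨l, hl, hl2⟩
      rw [hv l hl] at hl2
      exact absurd hl2 (by simp)
    · rw [indicator_of_notMem hv, if_neg]
      rw [not_not]
      simp only [hA, mem_ofPred_eq, not_forall] at hv
      obtain ⟨l, hl, hl2⟩ := hv
      exact ⟨l, hl, by simpa using hl2⟩
  have h3 : ((Finset.univ.filter fun i => ∃ l ∈ L, ω i l = true).card : ℝ)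
      + ((Finset.univ.filter fun i => ¬ ∃ l ∈ L, ω i l = true).card : ℝ) = M := by
    have := Finset.card_filter_add_card_filter_not (s := (Finset.univ : Finset (Fin M)))
      (fun i => ∃ l ∈ L, ω i l = true)
    rw [Finset.card_univ, Fintype.card_fin] at this
    exact_mod_cast this
  rw [h2]
  linarith

/-- weighted counts under `piN` -/
lemma count_var {ρ : ℝ} (h0 : 0 ≤ ρ) (h1 : ρ ≤ 1) (N : ℕ) (c : Fin N → ℝ)
    (hc : ∀ l, c l ∈ Icc (0 : ℝ) 1) :
    ∫ v, (∑ l, c l * (if v l = true then 1 else 0) - ρ * ∑ l, c l) ^ 2 ∂(piN ρ N) ≤ N / 4 := by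
  set X : Fin N → Bool → ℝ := fun l b => c l * (if b = true then 1 else 0) with hX
  have hmem : ∀ l, MemLp (X l) 2 (coin ρ) := fun l =>
    memLp_of_bounded (a := 0) (b := 1) (Eventually.of_forall fun b => by
      simp only [hX]
      have := hc l
      cases b <;> simp
      exact this) (measurable_of_finite _).aestronglyMeasurable 2
  have hmean : ∀ l, ∫ b, X l b ∂(coin ρ) = c l * ρ := by
    intro l
    simp only [hX]
    rw [integral_const_mul]
    congr 1
    have : (fun b : Bool => (if b = true then (1 : ℝ) else 0))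
        = ({true} : Set Bool).indicator (fun _ => (1 : ℝ)) := by
      ext b; cases b <;> simp
    rw [this, integral_indicator_const _ (measurableSet_singleton _), coin_true h0 h1]
    simp
  have hvar := variance_sum_pi (μ := fun _ : Fin N => coin ρ) hmem
  have hvar2 : ∑ l, Var[X l; coin ρ] ≤ N / 4 := by
    calc ∑ l, Var[X l; coin ρ] ≤ ∑ _l : Fin N, ((1 - 0 : ℝ) / 2) ^ 2 := by
          apply Finset.sum_le_sum
          intro l _
          apply variance_le_sq_of_bounded
          · apply Eventually.of_forall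
            intro b
            simp only [hX]
            have := hc l
            cases b <;> simp
            exact this
          · exact (measurable_of_finite _).aemeasurable
      _ = N / 4 := by
          rw [Finset.sum_const, Finset.card_univ, Fintype.card_fin, nsmul_eq_mul]; ring
  rw [← hvar] at hvar2
  refine le_trans (le_of_eq ?_) hvar2
  rw [variance_eq_integral (measurable_of_finite _).aemeasurable]
  unfold piN
  have hm2 : ∫ v, (∑ l, fun ω : Fin N → Bool => X l (ω l)) v ∂(Measure.pi fun _ : Fin N => coin ρ)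
      = ρ * ∑ l, c l := by
    have h2 : (fun v => (∑ l, fun ω : Fin N → Bool => X l (ω l)) v)
        = fun v => ∑ l, X l (v l) := by
      ext v; rw [Finset.sum_apply]
    rw [h2, integral_finsetSum _ fun l _ => Integrable.of_finite]
    rw [Finset.mul_sum]
    apply Finset.sum_congr rfl
    intro l _
    rw [integral_comp_eval (μ := fun _ : Fin N => coin ρ) (i := l)
      (measurable_of_finite _).aestronglyMeasurable, hmean l, mul_comm]
  rw [hm2]
  apply integral_congr_ae
  filter_upwards [] with v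
  rw [Finset.sum_apply]

lemma pair_law {ρ : ℝ} (N M : ℕ) {i j : Fin M} (hij : i ≠ j) (F : (Fin N → Bool) → (Fin N → Bool) → ℝ) :
    ∫ ω, F (ω i) (ω j) ∂(PP ρ N M) = ∫ v, ∫ v', F v v' ∂(piN ρ N) ∂(piN ρ N) := by
  have hind : iIndepFun (fun (i : Fin M) (ω : Fin M → Fin N → Bool) => ω i) (PP ρ N M) := by
    unfold PP
    exact iIndepFun_pi (X := fun _ v => v) (fun i => aemeasurable_id)
  have h2 := hind.indepFun hij
  have h3 := (indepFun_iff_map_prod_eq_prod_map_map (measurable_pi_apply i).aemeasurable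
    (measurable_pi_apply j).aemeasurable).mp h2
  have hmap : ∀ i : Fin M, (PP ρ N M).map (fun ω => ω i) = piN ρ N := by
    intro i
    unfold PP
    exact (measurePreserving_eval (fun _ : Fin M => piN ρ N) i).map_eq
  rw [hmap i, hmap j] at h3
  have h4 : ∫ ω, F (ω i) (ω j) ∂(PP ρ N M)
      = ∫ q, F q.1 q.2 ∂((PP ρ N M).map (fun ω => (ω i, ω j))) := by
    rw [integral_map (by fun_prop) (measurable_of_finite _).aestronglyMeasurable]
  rw [h4, h3, integral_prod _ Integrable.of_finite]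

/-- second moments -/
lemma single_moment {ρ : ℝ} (h0 : 0 ≤ ρ) (h1 : ρ ≤ 1) (N M : ℕ) (i : Fin M) :
    ∫ ω, (∑ l, (if ω i l = true then (1 : ℝ) else 0) - ρ * N) ^ 2 ∂(PP ρ N M) ≤ N / 4 := by
  have h2 := count_var h0 h1 N (fun _ => 1) (fun _ => ⟨zero_le_one, le_rfl⟩)
  simp only [one_mul, Finset.sum_const, Finset.card_univ, Fintype.card_fin, nsmul_eq_mul,
    mul_one] at h2
  refine le_trans (le_of_eq ?_) h2
  unfold PP
  exact integral_comp_eval (μ := fun _ : Fin M => piN ρ N) (i := i)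
    (f := fun v => (∑ l, (if v l = true then (1 : ℝ) else 0) - ρ * N) ^ 2)
    (measurable_of_finite _).aestronglyMeasurable

lemma pair_moment {ρ : ℝ} (h0 : 0 ≤ ρ) (h1 : ρ ≤ 1) (N M : ℕ) {i j : Fin M} (hij : i ≠ j) :
    ∫ ω, (∑ l, (if ω i l = true ∧ ω j l = true then (1 : ℝ) else 0) - ρ ^ 2 * N) ^ 2 ∂(PP ρ N M)
      ≤ N := by
  have hF := pair_law (ρ := ρ) N M hij (fun v v' => (∑ l, (if v l = true then (1 : ℝ) else 0) *
    (if v' l = true then 1 else 0) - ρ * ∑ l, (if v l = true then (1 : ℝ) else 0)) ^ 2)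
  have h2 : ∫ ω, (∑ l, (if ω i l = true then (1 : ℝ) else 0) * (if ω j l = true then 1 else 0)
      - ρ * ∑ l, (if ω i l = true then (1 : ℝ) else 0)) ^ 2 ∂(PP ρ N M) ≤ N / 4 := by
    rw [hF]
    calc ∫ v, ∫ v', (∑ l, (if v l = true then (1 : ℝ) else 0) *
        (if v' l = true then 1 else 0) - ρ * ∑ l, (if v l = true then (1 : ℝ) else 0)) ^ 2
          ∂(piN ρ N) ∂(piN ρ N) ≤ ∫ v, (N / 4 : ℝ) ∂(piN ρ N) := by
          apply integral_mono Integrable.of_finite (integrable_const _)
          intro v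
          exact count_var h0 h1 N (fun l => if v l = true then (1 : ℝ) else 0) (fun l => by
            split <;> simp)
      _ = N / 4 := by simp
  have h3 := single_moment h0 h1 N M i
  have hρ2 : ρ ^ 2 ≤ 1 := by nlinarith
  calc ∫ ω, (∑ l, (if ω i l = true ∧ ω j l = true then (1 : ℝ) else 0) - ρ ^ 2 * N) ^ 2 ∂(PP ρ N M)
      ≤ ∫ ω, (2 * (∑ l, (if ω i l = true then (1 : ℝ) else 0) * (if ω j l = true then 1 else 0)
      - ρ * ∑ l, (if ω i l = true then (1 : ℝ) else 0)) ^ 2
        + 2 * ρ ^ 2 * (∑ l, (if ω i l = true then (1 : ℝ) else 0) - ρ * N) ^ 2) ∂(PP ρ N M) := by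
        apply integral_mono Integrable.of_finite Integrable.of_finite
        intro ω
        simp only
        have h4 : ∑ l, (if ω i l = true ∧ ω j l = true then (1 : ℝ) else 0)
            = ∑ l, (if ω i l = true then (1 : ℝ) else 0) * (if ω j l = true then 1 else 0) := by
          apply Finset.sum_congr rfl
          intro l _
          by_cases ha : ω i l = true <;> by_cases hb : ω j l = true <;> simp [ha, hb]
        rw [h4]
        set S := ∑ l, (if ω i l = true then (1 : ℝ) else 0)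
        set R := ∑ l, (if ω i l = true then (1 : ℝ) else 0) * (if ω j l = true then (1 : ℝ) else 0)
        nlinarith [sq_nonneg ((R - ρ * S) - ρ * (S - ρ * N))]
    _ = 2 * (∫ ω, (∑ l, (if ω i l = true then (1 : ℝ) else 0) * (if ω j l = true then 1 else 0)
      - ρ * ∑ l, (if ω i l = true then (1 : ℝ) else 0)) ^ 2 ∂(PP ρ N M))
        + 2 * ρ ^ 2 * ∫ ω, (∑ l, (if ω i l = true then (1 : ℝ) else 0) - ρ * N) ^ 2 ∂(PP ρ N M) := by
        rw [integral_add Integrable.of_finite Integrable.of_finite, integral_const_mul,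
          integral_const_mul]
    _ ≤ N := by
        have hN : (0 : ℝ) ≤ N := Nat.cast_nonneg N
        have h5 : 0 ≤ ∫ ω, (∑ l, (if ω i l = true then (1 : ℝ) else 0) - ρ * N) ^ 2 ∂(PP ρ N M) :=
          integral_nonneg fun _ => sq_nonneg _
        nlinarith

/-- Chebyshev -/
lemma cheb {ρ : ℝ} (N M : ℕ) (f : (Fin M → Fin N → Bool) → ℝ) {B τ : ℝ} (hτ : 0 < τ)
    (h : ∫ ω, (f ω) ^ 2 ∂(PP ρ N M) ≤ B) : (PP ρ N M).real {ω | τ < |f ω|} ≤ B / τ ^ 2 := by
  have h1 := mul_meas_ge_le_integral_of_nonneg (μ := PP ρ N M) (f := fun ω => (f ω) ^ 2)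
    (Eventually.of_forall fun ω => sq_nonneg _) Integrable.of_finite (τ ^ 2)
  rw [le_div_iff₀ (by positivity)]
  have h2 : (PP ρ N M).real {ω | τ < |f ω|} ≤ (PP ρ N M).real {ω | τ ^ 2 ≤ (f ω) ^ 2} := by
    apply measureReal_mono _ (by finiteness)
    intro ω hω
    simp only [mem_ofPred_eq] at hω ⊢
    rw [← sq_abs (f ω)]
    exact pow_le_pow_left₀ hτ.le hω.le 2
  calc (PP ρ N M).real {ω | τ < |f ω|} * τ ^ 2 ≤ (PP ρ N M).real {ω | τ ^ 2 ≤ (f ω) ^ 2} * τ ^ 2 :=
        mul_le_mul_of_nonneg_right h2 (by positivity)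
    _ = τ ^ 2 * (PP ρ N M).real {ω | τ ^ 2 ≤ (f ω) ^ 2} := mul_comm _ _
    _ ≤ B := h1.trans h

/-- the set of labels described by a partial function -/
def lset {N K : ℕ} (g : Fin K → Option (Fin N)) : Finset (Fin N) :=
  Finset.univ.filter fun l => ∃ t, g t = some l

lemma lset_surj {N K : ℕ} (L : Finset (Fin N)) (hL : L.card ≤ K) :
    ∃ g : Fin K → Option (Fin N), lset g = L := by
  set e := L.equivFin with he
  refine ⟨fun t => if h : t.val < L.card then some (e.symm ⟨t.val, h⟩).1 else none, ?_⟩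
  ext l
  simp only [lset, Finset.mem_filter, Finset.mem_univ, true_and]
  constructor
  · rintro ⟨t, ht⟩
    by_cases h : t.val < L.card
    · rw [dif_pos h] at ht
      have := Option.some_injective _ ht
      rw [← this]; exact (e.symm _).2
    · rw [dif_neg h] at ht
      exact absurd ht (by simp)
  · intro hl
    have h2 := (e ⟨l, hl⟩).2
    refine ⟨⟨(e ⟨l, hl⟩).val, by omega⟩, ?_⟩
    rw [dif_pos h2]
    congr 1
    have : (⟨(e ⟨l, hl⟩).val, h2⟩ : Fin L.card) = e ⟨l, hl⟩ := rfl
    rw [this, Equiv.symm_apply_apply]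

lemma total_lim (κ ε : ℝ) (hε : 0 < ε) (K : ℕ) :
    Tendsto (fun M : ℕ => 2 / κ ^ 2 * (1 / (M : ℝ)) + 2 ^ K * ((M : ℝ) ^ (5 * K)
      * Real.exp (-2 * ε ^ 2 * M))) atTop (𝓝 (2 / κ ^ 2 * 0 + 2 ^ K * 0)) := by
  apply Tendsto.add
  · exact (tendsto_const_div_atTop_nhds_zero_nat 1).const_mul _
  · apply Tendsto.const_mul
    have hc : 0 < 2 * ε ^ 2 := by positivity
    have h1 := (Real.tendsto_pow_mul_exp_neg_atTop_nhds_zero (5 * K)).comp
      ((tendsto_natCast_atTop_atTop (R := ℝ)).const_mul_atTop hc)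
    have h2 := h1.const_mul ((2 * ε ^ 2)⁻¹ ^ (5 * K))
    rw [mul_zero] at h2
    refine h2.congr (fun M => ?_)
    simp only [Function.comp_apply]
    rw [mul_pow, ← mul_assoc, ← mul_assoc, ← mul_pow, inv_mul_cancel₀ hc.ne', one_pow, one_mul]
    congr 2
    ring

/-- Existence of a good system. -/
lemma design {ρ : ℝ} (h0 : 0 < ρ) (h1 : ρ < 1) {ε κ : ℝ} (hε : 0 < ε) (hκ : 0 < κ) (K M1 : ℕ) :
    ∃ M N : ℕ, M1 ≤ M ∧ 0 < M ∧ 0 < N ∧ ∃ T : Fin N → Finset (Fin M),
      (∀ i j, i ≠ j → |((Finset.univ.filter fun l => i ∈ T l ∧ j ∈ T l).card : ℝ) - ρ ^ 2 * N|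
        ≤ κ / M * N) ∧
      (∀ i, |((Finset.univ.filter fun l => i ∈ T l).card : ℝ) - ρ * N| ≤ κ / M * N) ∧
      (∀ L : Finset (Fin N), L.card ≤ K →
        ((L.biUnion T).card : ℝ) ≤ (1 - (1 - ρ) ^ L.card + ε) * M) := by
  classical
  have hlim := total_lim κ ε hε K
  rw [mul_zero, mul_zero, add_zero] at hlim
  obtain ⟨M, hM1, hM2⟩ := ((hlim.eventually (gt_mem_nhds (zero_lt_one))).and
    (eventually_ge_atTop (max M1 1))).exists
  have hMM1 : M1 ≤ M := (le_max_left _ _).trans hM2
  have hM0 : 0 < M := lt_of_lt_of_le one_pos ((le_max_right _ _).trans hM2)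
  have hMr : (1 : ℝ) ≤ M := by exact_mod_cast hM0
  set N := M ^ 5 with hN
  have hN0 : 0 < N := by positivity
  have hNr : (N : ℝ) = (M : ℝ) ^ 5 := by rw [hN]; push_cast; ring
  have hNr0 : (0 : ℝ) < N := by exact_mod_cast hN0
  set μ := PP ρ N M with hμ
  -- bad events
  set B1 : Fin M × Fin M → Set (Fin M → Fin N → Bool) := fun q => {ω | q.1 ≠ q.2 ∧ κ / M * N <
    |∑ l, (if ω q.1 l = true ∧ ω q.2 l = true then (1 : ℝ) else 0) - ρ ^ 2 * N|} with hB1
  set B2 : Fin M → Set (Fin M → Fin N → Bool) := fun i => {ω | κ / M * N <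
    |∑ l, (if ω i l = true then (1 : ℝ) else 0) - ρ * N|} with hB2
  set B3 : (Fin K → Option (Fin N)) → Set (Fin M → Fin N → Bool) := fun g =>
    {ω | (1 - (1 - ρ) ^ (lset g).card + ε) * M
      < ((Finset.univ.filter fun i => ∃ l ∈ lset g, ω i l = true).card : ℝ)} with hB3
  have hτ : 0 < κ / M * N := by positivity
  have e1 : ∀ q, μ.real (B1 q) ≤ N / (κ / M * N) ^ 2 := by
    intro q
    by_cases hq : q.1 = q.2
    · have : B1 q = ∅ := by
        ext ω; simp only [hB1, mem_ofPred_eq, mem_empty_iff_false, iff_false]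
        rintro ⟨h, _⟩; exact h hq
      rw [this]; simp only [measureReal_empty]; positivity
    · refine le_trans (measureReal_mono ?_ (by finiteness)) (cheb N M _ hτ
        (pair_moment h0.le h1.le N M hq))
      rintro ω ⟨_, h⟩; exact h
  have e2 : ∀ i, μ.real (B2 i) ≤ (N / 4) / (κ / M * N) ^ 2 := fun i =>
    cheb N M _ hτ (single_moment h0.le h1.le N M i)
  have e3 : ∀ g, μ.real (B3 g) ≤ Real.exp (-2 * ε ^ 2 * M) := fun g =>
    union_bound h0.le h1.le N M hM0 (lset g) hε
  have s1 : ∑ q, μ.real (B1 q) ≤ 1 / κ ^ 2 * (1 / M) := by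
    refine (Finset.sum_le_sum fun q _ => e1 q).trans (le_of_eq ?_)
    rw [Finset.sum_const, Finset.card_univ, Fintype.card_prod, Fintype.card_fin, nsmul_eq_mul, hNr]
    push_cast
    field_simp
  have s2 : ∑ i, μ.real (B2 i) ≤ 1 / κ ^ 2 * (1 / M) := by
    refine (Finset.sum_le_sum fun q _ => e2 q).trans ?_
    rw [Finset.sum_const, Finset.card_univ, Fintype.card_fin, nsmul_eq_mul, hNr]
    have h5 : (M : ℝ) * ((M : ℝ) ^ 5 / 4 / (κ / M * (M : ℝ) ^ 5) ^ 2)
        = 1 / κ ^ 2 * (1 / M) * (1 / (4 * M)) := by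
      field_simp
    rw [h5]
    have h6 : (1 : ℝ) / (4 * M) ≤ 1 := by
      rw [div_le_one (by positivity)]; linarith
    have h7 : 0 ≤ 1 / κ ^ 2 * (1 / (M : ℝ)) := by positivity
    nlinarith
  have s3 : ∑ g, μ.real (B3 g) ≤ 2 ^ K * ((M : ℝ) ^ (5 * K) * Real.exp (-2 * ε ^ 2 * M)) := by
    refine (Finset.sum_le_sum fun g _ => e3 g).trans ?_
    rw [Finset.sum_const, Finset.card_univ, Fintype.card_fun, Fintype.card_option, Fintype.card_fin,
      Fintype.card_fin, nsmul_eq_mul]
    push_cast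
    rw [← mul_assoc]
    apply mul_le_mul_of_nonneg_right _ (Real.exp_pos _).le
    rw [hNr, pow_mul, ← mul_pow]
    apply pow_le_pow_left₀ (by positivity)
    have : (1 : ℝ) ≤ (M : ℝ) ^ 5 := one_le_pow₀ hMr
    linarith
  -- existence of a good point
  by_contra hcon
  have hcover : (univ : Set (Fin M → Fin N → Bool)) ⊆ (⋃ q ∈ Finset.univ, B1 q) ∪
      ((⋃ i ∈ Finset.univ, B2 i) ∪ (⋃ g ∈ Finset.univ, B3 g)) := by
    intro ω _
    by_contra hω
    simp only [mem_union, mem_iUnion, Finset.mem_univ, exists_true_left, not_or, not_exists] at hω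
    obtain ⟨hω1, hω2, hω3⟩ := hω
    apply hcon
    refine ⟨M, N, hMM1, hM0, hN0, fun l => Finset.univ.filter fun i => ω i l = true, ?_, ?_, ?_⟩
    · intro i j hij
      have h3 := hω1 (i, j)
      simp only [hB1, mem_ofPred_eq, not_and, not_lt] at h3
      have h4 := h3 hij
      rw [Finset.sum_boole] at h4
      simpa using h4
    · intro i
      have h3 := hω2 i
      simp only [hB2, mem_ofPred_eq, not_lt] at h3
      rw [Finset.sum_boole] at h3
      simpa using h3
    · intro L hL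
      obtain ⟨g, hg⟩ := lset_surj L hL
      have h3 := hω3 g
      simp only [hB3, mem_ofPred_eq, not_lt, hg] at h3
      refine le_trans (le_of_eq ?_) h3
      congr 2
      ext i
      simp
  have hone : (1 : ℝ) ≤ μ.real ((⋃ q ∈ Finset.univ, B1 q) ∪
      ((⋃ i ∈ Finset.univ, B2 i) ∪ (⋃ g ∈ Finset.univ, B3 g))) := by
    rw [← probReal_univ (μ := μ)]
    exact measureReal_mono hcover (by finiteness)
  have hle := (measureReal_union_le (μ := μ) (⋃ q ∈ Finset.univ, B1 q)
    ((⋃ i ∈ Finset.univ, B2 i) ∪ (⋃ g ∈ Finset.univ, B3 g)))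
  have hle2 := (measureReal_union_le (μ := μ) (⋃ i ∈ Finset.univ, B2 i) (⋃ g ∈ Finset.univ, B3 g))
  have t1 := measureReal_biUnion_finset_le (μ := μ) Finset.univ B1
  have t2 := measureReal_biUnion_finset_le (μ := μ) Finset.univ B2
  have t3 := measureReal_biUnion_finset_le (μ := μ) Finset.univ B3
  have h8 : 2 / κ ^ 2 * (1 / (M : ℝ)) = 1 / κ ^ 2 * (1 / M) + 1 / κ ^ 2 * (1 / M) := by ring
  rw [h8] at hM1
  linarith

end Pool.Agent.Q212.DB
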