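import Pool.Agent.Q212.DB2

/-!
# Disagreement bounds are at least `2x/(1+x)`
-/

namespace Pool.Agent.Q212.DB

open MeasureTheory ProbabilityTheory Set Filter Topology
open scoped ENNReal NNReal

/-- Total variation distance of two laws on the real line. -/
noncomputable def tv (μ ν : Measure ℝ) : ℝ :=
  ⨆ A : {A : Set ℝ // MeasurableSet A}, |μ.real A.1 - ν.real A.1|

/-- `f` is a disagreement bound: it maps `[0,1]` to `[0,1]`, and for every finite family
`μ 0, ..., μ (n-1)` of laws on the real line there is a coupling (a joint law `P` on `ℝ^n` whose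
`i`-th marginal is `μ i`) such that the `i`-th and the `j`-th coordinates differ with probability
at most `f` of their total variation distance. -/
def IsDisagreementBound (f : ℝ → ℝ) : Prop :=
  (∀ x ∈ Icc (0 : ℝ) 1, f x ∈ Icc (0 : ℝ) 1) ∧
  ∀ (n : ℕ) (μ : Fin n → Measure ℝ), (∀ i, IsProbabilityMeasure (μ i)) →
    ∃ P : Measure (Fin n → ℝ), IsProbabilityMeasure P ∧ (∀ i, P.map (fun ω => ω i) = μ i) ∧
      ∀ i j, P.real {ω | ω i ≠ ω j} ≤ f (tv (μ i) (μ j))

lemma tv_bdd (μ ν : Measure ℝ) [IsProbabilityMeasure μ] [IsProbabilityMeasure ν] :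
    BddAbove (range fun A : {A : Set ℝ // MeasurableSet A} => |μ.real A.1 - ν.real A.1|) := by
  refine ⟨1, ?_⟩
  rintro _ ⟨A, rfl⟩
  have h1 : μ.real A.1 ≤ 1 := measureReal_le_one
  have h2 : ν.real A.1 ≤ 1 := measureReal_le_one
  have h3 : 0 ≤ μ.real A.1 := measureReal_nonneg
  have h4 : 0 ≤ ν.real A.1 := measureReal_nonneg
  simp only
  rw [abs_le]; constructor <;> linarith

lemma tv_comm (μ ν : Measure ℝ) : tv μ ν = tv ν μ := by
  unfold tv
  congr 1
  ext A
  rw [abs_sub_comm]

section weighted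

variable {Λ : Type} [Fintype Λ]

/-- embedding of labels in the line -/
noncomputable def emb (l : Λ) : ℝ := ((Fintype.equivFin Λ l : ℕ) : ℝ)

lemma emb_inj : Function.Injective (emb : Λ → ℝ) := by
  intro a b h
  unfold emb at h
  have h2 : (Fintype.equivFin Λ a : ℕ) = (Fintype.equivFin Λ b : ℕ) := by exact_mod_cast h
  exact (Fintype.equivFin Λ).injective (Fin.ext h2)

/-- weighted sum of point masses -/
noncomputable def wm (W : Λ → ℝ) : Measure ℝ := ∑ l, ENNReal.ofReal (W l) • Measure.dirac (emb l)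

lemma wm_apply (W : Λ → ℝ) {A : Set ℝ} (hA : MeasurableSet A) :
    wm W A = ∑ l, ENNReal.ofReal (W l) * A.indicator 1 (emb l) := by
  unfold wm
  rw [Measure.coe_finsetSum, Finset.sum_apply]
  apply Finset.sum_congr rfl
  intro l _
  rw [Measure.smul_apply, Measure.dirac_apply' _ hA, smul_eq_mul]

lemma wm_real (W : Λ → ℝ) (hW : ∀ l, 0 ≤ W l) {A : Set ℝ} (hA : MeasurableSet A) :
    (wm W).real A = ∑ l, W l * A.indicator 1 (emb l) := by
  rw [measureReal_def, wm_apply W hA, ENNReal.toReal_sum]
  · apply Finset.sum_congr rfl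
    intro l _
    rw [ENNReal.toReal_mul, ENNReal.toReal_ofReal (hW l)]
    congr 1
    by_cases h : emb l ∈ A
    · rw [indicator_of_mem h, indicator_of_mem h]; simp
    · rw [indicator_of_notMem h, indicator_of_notMem h]; simp
  · intro l _
    apply ENNReal.mul_ne_top ENNReal.ofReal_ne_top
    by_cases h : emb l ∈ A
    · rw [indicator_of_mem h]; simp
    · rw [indicator_of_notMem h]; simp

lemma wm_prob (W : Λ → ℝ) (hW : ∀ l, 0 ≤ W l) (h1 : ∑ l, W l = 1) : IsProbabilityMeasure (wm W) := by
  constructor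
  rw [wm_apply W MeasurableSet.univ]
  simp only [indicator_univ, Pi.one_apply, mul_one]
  rw [← ENNReal.ofReal_sum_of_nonneg fun l _ => hW l, h1, ENNReal.ofReal_one]

lemma tv_wm (W W' : Λ → ℝ) (hW : ∀ l, 0 ≤ W l) (hW' : ∀ l, 0 ≤ W' l) (h1 : ∑ l, W l = 1)
    (h1' : ∑ l, W' l = 1) : tv (wm W) (wm W') = 1 - ∑ l, min (W l) (W' l) := by
  have := wm_prob W hW h1
  have := wm_prob W' hW' h1'
  have hind : ∀ (A : Set ℝ) (l : Λ), 0 ≤ A.indicator (1 : ℝ → ℝ) (emb l) ∧
      A.indicator (1 : ℝ → ℝ) (emb l) ≤ 1 := by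
    intro A l
    by_cases h : emb l ∈ A
    · rw [indicator_of_mem h]; simp
    · rw [indicator_of_notMem h]; simp
  apply le_antisymm
  · have : Nonempty {A : Set ℝ // MeasurableSet A} := ⟨⟨∅, MeasurableSet.empty⟩⟩
    apply ciSup_le
    rintro ⟨A, hA⟩
    simp only
    rw [wm_real W hW hA, wm_real W' hW' hA, ← Finset.sum_sub_distrib]
    rw [abs_le]
    constructor
    · have h2 : ∑ l, (min (W l) (W' l) - W' l)
          ≤ ∑ l, (W l * A.indicator 1 (emb l) - W' l * A.indicator 1 (emb l)) := by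
        apply Finset.sum_le_sum
        intro l _
        have h3 := hind A l
        have h4 := min_le_left (W l) (W' l)
        have h5 := min_le_right (W l) (W' l)
        nlinarith
      have e : ∑ l, (min (W l) (W' l) - W' l) = ∑ l, min (W l) (W' l) - 1 := by
        rw [Finset.sum_sub_distrib, h1']
      linarith
    · have h2 : ∑ l, (W l * A.indicator 1 (emb l) - W' l * A.indicator 1 (emb l))
          ≤ ∑ l, (W l - min (W l) (W' l)) := by
        apply Finset.sum_le_sum
        intro l _
        have h3 := hind A l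
        have h4 := min_le_left (W l) (W' l)
        have h5 := min_le_right (W l) (W' l)
        nlinarith
      have e : ∑ l, (W l - min (W l) (W' l)) = 1 - ∑ l, min (W l) (W' l) := by
        rw [Finset.sum_sub_distrib, h1]
      linarith
  · set A : Set ℝ := emb '' {l | W' l < W l} with hA
    have hAm : MeasurableSet A := (Set.toFinite _).measurableSet
    have hle : |(wm W).real A - (wm W').real A| ≤ tv (wm W) (wm W') :=
      le_ciSup (tv_bdd (wm W) (wm W')) ⟨A, hAm⟩
    refine le_trans (le_of_eq ?_) ((le_abs_self _).trans hle)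
    rw [wm_real W hW hAm, wm_real W' hW' hAm, ← Finset.sum_sub_distrib]
    rw [← h1, ← Finset.sum_sub_distrib]
    apply Finset.sum_congr rfl
    intro l _
    by_cases h : W' l < W l
    · rw [indicator_of_mem (show emb l ∈ A from ⟨l, h, rfl⟩), min_eq_right h.le]; simp
    · rw [indicator_of_notMem, min_eq_left (not_lt.mp h)]
      · simp
      · rintro ⟨l', hl', heq⟩
        rw [emb_inj heq] at hl'
        exact h hl'

end weighted

/-- from a coupling: labels -/
lemma coupling_ae {M N : ℕ} (T : Fin N → Finset (Fin M)) (W : Fin M → Lab M N → ℝ)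
    (hOk : ∀ i l, W i l ≠ 0 → Ok T i l) (P : Measure (Fin M → ℝ))
    (hP : ∀ i, P.map (fun ω => ω i) = wm (W i)) :
    ∀ᵐ ω ∂P, ∀ i, ∃ l : Lab M N, ω i = emb l ∧ Ok T i l := by
  rw [ae_all_iff]
  intro i
  have hG : MeasurableSet (emb '' {l : Lab M N | W i l ≠ 0}) := (Set.toFinite _).measurableSet
  have h2 : wm (W i) (emb '' {l : Lab M N | W i l ≠ 0})ᶜ = 0 := by
    rw [wm_apply _ hG.compl]
    apply Finset.sum_eq_zero
    intro l _
    by_cases h : W i l = 0
    · rw [h]; simp
    · rw [indicator_of_notMem, mul_zero]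
      intro hmem
      exact hmem ⟨l, h, rfl⟩
  have h3 : P ((fun ω : Fin M → ℝ => ω i) ⁻¹' (emb '' {l : Lab M N | W i l ≠ 0})ᶜ) = 0 := by
    rw [← Measure.map_apply (measurable_pi_apply i) hG.compl, hP i, h2]
  rw [ae_iff]
  refine measure_mono_null ?_ h3
  intro ω hω hmem
  apply hω
  obtain ⟨l, hl, heq⟩ := hmem
  exact ⟨l, heq.symm, hOk i l hl⟩

/-- the main estimate -/
lemma core {f : ℝ → ℝ} (hf : IsDisagreementBound f) {x : ℝ} (hx1 : x < 1) {ρ : ℝ}
    (hρx : 1 - x < ρ) (hρ1 : ρ < 1) {ε : ℝ} (hε : 0 < ε) : 1 - f x ≤ ρ / (2 - ρ) + 4 * ε := by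
  classical
  have hρ0 : 0 < ρ := by linarith
  set κ : ℝ := ρ * (ρ - (1 - x)) / 5 with hκ
  have hκ0 : 0 < κ := by
    have : 0 < ρ - (1 - x) := by linarith
    positivity
  obtain ⟨M, N, hM1, hM0, hN0, T, H1, H2, H3⟩ :=
    design hρ0 hρ1 hε hκ0 ⌈1 / ε⌉₊ ⌈2 / ε⌉₊
  have hMr : (0 : ℝ) < M := by exact_mod_cast hM0
  have hNr : (0 : ℝ) < N := by exact_mod_cast hN0
  have hMr1 : (1 : ℝ) ≤ M := by exact_mod_cast hM0
  -- weights
  set n2 : Fin M → Fin M → ℝ := fun i j => ((Finset.univ.filter fun l => i ∈ T l ∧ j ∈ T l).card : ℝ)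
    with hn2
  set n1 : Fin M → ℝ := fun i => ((Finset.univ.filter fun l => i ∈ T l).card : ℝ) with hn1
  set w : ℝ := (1 - x) / ((ρ ^ 2 + κ / M) * N) with hw
  have hden : 0 < (ρ ^ 2 + κ / M) * N := by positivity
  have hw0 : 0 ≤ w := div_nonneg (by linarith) hden.le
  have hwN : w * ((ρ ^ 2 + κ / M) * N) = 1 - x := by rw [hw]; field_simp
  set p : Fin M → Fin M → ℝ := fun i j => (1 - x) - w * n2 i j with hp
  have hp0 : ∀ i j, i ≠ j → 0 ≤ p i j := by
    intro i j hij
    have h := (abs_le.mp (H1 i j hij)).2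
    have h2 : n2 i j ≤ (ρ ^ 2 + κ / M) * N := by simp only [hn2]; linarith
    have h3 := mul_le_mul_of_nonneg_left h2 hw0
    simp only [hp]; linarith
  have hp1 : ∀ i j, i ≠ j → p i j ≤ 2 * κ / (M * ρ ^ 2) := by
    intro i j hij
    have h := (abs_le.mp (H1 i j hij)).1
    have h2 : (ρ ^ 2 - κ / M) * N ≤ n2 i j := by simp only [hn2]; linarith
    have h3 := mul_le_mul_of_nonneg_left h2 hw0
    have h4 : w * ((ρ ^ 2 - κ / M) * N) = (1 - x) - w * (2 * (κ / M) * N) := by
      rw [← hwN]; ring
    have h5 : w * N ≤ 1 / ρ ^ 2 := by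
      have h6 : w * N * ρ ^ 2 ≤ 1 := by
        have h7 : 0 ≤ w * N * (κ / M) := by positivity
        have h8 : w * ((ρ ^ 2 + κ / M) * N) = w * N * ρ ^ 2 + w * N * (κ / M) := by ring
        rw [hwN] at h8
        linarith
      rw [le_div_iff₀ (by positivity)]; exact h6
    have h9 : w * (2 * (κ / M) * N) = 2 * (κ / M) * (w * N) := by ring
    have h10 : 2 * (κ / M) * (w * N) ≤ 2 * (κ / M) * (1 / ρ ^ 2) :=
      mul_le_mul_of_nonneg_left h5 (by positivity)
    have h11 : 2 * κ / (M * ρ ^ 2) = 2 * (κ / M) * (1 / ρ ^ 2) := by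
      field_simp
    simp only [hp]
    rw [h11]; linarith
  -- partial weights
  set V : Fin M → Lab M N → ℝ := fun i l => match l with
    | Sum.inl l => if i ∈ T l then w else 0
    | Sum.inr (Sum.inl (a, b)) => if a < b ∧ (i = a ∨ i = b) then p a b else 0
    | Sum.inr (Sum.inr _) => 0 with hV
  have hV0 : ∀ i l, 0 ≤ V i l := by
    intro i l
    rcases l with l | ⟨a, b⟩ | c
    · simp only [hV]; split <;> first | exact hw0 | exact le_rfl
    · simp only [hV]
      split
      · rename_i h; exact hp0 a b h.1.ne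
      · exact le_rfl
    · exact le_rfl
  have hVsum : ∀ i, ∑ l, V i l ≤ 1 := by
    intro i
    rw [Fintype.sum_sum_type, Fintype.sum_sum_type]
    have s1 : ∑ l : Fin N, V i (Sum.inl l) = w * n1 i := by
      simp only [hV, hn1]
      rw [← Finset.sum_filter, Finset.sum_const, nsmul_eq_mul, mul_comm]
    have s2 : ∑ q : Fin M × Fin M, V i (Sum.inr (Sum.inl q)) ≤ 2 * M * (2 * κ / (M * ρ ^ 2)) := by
      have h1 : ∀ q : Fin M × Fin M, V i (Sum.inr (Sum.inl q))
          ≤ (if i = q.1 then 2 * κ / (M * ρ ^ 2) else 0) + (if i = q.2 then 2 * κ / (M * ρ ^ 2) else 0) := by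
        rintro ⟨a, b⟩
        have hc : 0 ≤ 2 * κ / (M * ρ ^ 2) := by positivity
        simp only [hV]
        split
        · rename_i h
          have h3 := hp1 a b h.1.ne
          rcases h.2 with h4 | h4
          · rw [if_pos h4]; split <;> linarith
          · rw [if_pos h4]; split <;> linarith
        · split <;> split <;> linarith
      refine (Finset.sum_le_sum fun q _ => h1 q).trans (le_of_eq ?_)
      rw [Finset.sum_add_distrib, Fintype.sum_prod_type, Fintype.sum_prod_type]
      generalize 2 * κ / (M * ρ ^ 2) = c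
      have t1 : ∀ x : Fin M, ∑ _y : Fin M, (if i = x then c else 0) = if i = x then M * c else 0 := by
        intro x
        split <;> simp
      have t2 : ∀ x : Fin M, ∑ y : Fin M, (if i = y then c else 0) = c := by
        intro x
        rw [Finset.sum_ite_eq]; simp
      simp only [t1]
      rw [Finset.sum_ite_eq]
      simp
      ring
    have s3 : ∑ c : Fin M, V i (Sum.inr (Sum.inr c)) = 0 := by simp [hV]
    rw [s1, s3, add_zero]
    have h := (abs_le.mp (H2 i)).2
    have h2 : n1 i ≤ (ρ + κ / M) * N := by simp only [hn1]; linarith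
    have h3 := mul_le_mul_of_nonneg_left h2 hw0
    have h5 : w * N ≤ (1 - x) / ρ ^ 2 := by
      have h6 : w * N * ρ ^ 2 ≤ 1 - x := by
        have h7 : 0 ≤ w * N * (κ / M) := by positivity
        have h8 : w * ((ρ ^ 2 + κ / M) * N) = w * N * ρ ^ 2 + w * N * (κ / M) := by ring
        rw [hwN] at h8
        linarith
      rw [le_div_iff₀ (by positivity)]; exact h6
    have hx0 : 0 < 1 - x := by linarith
    have hx1' : 1 - x ≤ 1 := by linarith
    have h6 : w * ((ρ + κ / M) * N) ≤ (1 - x) / ρ + κ / ρ ^ 2 := by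
      calc w * ((ρ + κ / M) * N) = (ρ + κ / M) * (w * N) := by ring
        _ ≤ (ρ + κ / M) * ((1 - x) / ρ ^ 2) := mul_le_mul_of_nonneg_left h5 (by positivity)
        _ = (1 - x) / ρ + κ / ρ ^ 2 * ((1 - x) / M) := by field_simp
        _ ≤ (1 - x) / ρ + κ / ρ ^ 2 := by
            have h7 : (1 - x) / M ≤ 1 := by rw [div_le_one hMr]; linarith
            have h8 : 0 ≤ κ / ρ ^ 2 := by positivity
            nlinarith
    have h7 : 2 * M * (2 * κ / (M * ρ ^ 2)) = 4 * (κ / ρ ^ 2) := by field_simp; norm_num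
    have h8 : (1 - x) / ρ + κ / ρ ^ 2 + 4 * (κ / ρ ^ 2) = 1 := by
      rw [hκ]; field_simp; ring
    linarith
  -- full weights
  set W : Fin M → Lab M N → ℝ := fun i l => V i l +
    (if l = Sum.inr (Sum.inr i) then 1 - ∑ l', V i l' else 0) with hW
  have hW0 : ∀ i l, 0 ≤ W i l := by
    intro i l
    simp only [hW]
    have := hV0 i l
    have := hVsum i
    split <;> linarith
  have hW1 : ∀ i, ∑ l, W i l = 1 := by
    intro i
    simp only [hW]
    rw [Finset.sum_add_distrib, Finset.sum_ite_eq']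
    simp
  have hWl : ∀ (i : Fin M) (l : Fin N), W i (Sum.inl l) = if i ∈ T l then w else 0 := by
    intro i l
    simp only [hW]
    rw [if_neg (show ¬ ((Sum.inl l : Lab M N) = Sum.inr (Sum.inr i)) by simp), add_zero]
  have hWp : ∀ i a b : Fin M, W i (Sum.inr (Sum.inl (a, b)))
      = if a < b ∧ (i = a ∨ i = b) then p a b else 0 := by
    intro i a b
    simp only [hW]
    rw [if_neg (show ¬ ((Sum.inr (Sum.inl (a, b)) : Lab M N) = Sum.inr (Sum.inr i)) by simp),
      add_zero]
  have hWs : ∀ i c : Fin M, c ≠ i → W i (Sum.inr (Sum.inr c)) = 0 := by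
    intro i c hc
    simp only [hW]
    rw [if_neg (show ¬ ((Sum.inr (Sum.inr c) : Lab M N) = Sum.inr (Sum.inr i)) from fun h =>
      hc (Sum.inr_injective (Sum.inr_injective h))), add_zero]
  have hOk : ∀ i l, W i l ≠ 0 → Ok T i l := by
    intro i l
    rcases l with l | ⟨a, b⟩ | c
    · intro h
      rw [hWl] at h
      by_contra hcon
      exact h (if_neg hcon)
    · intro h
      rw [hWp] at h
      by_contra hcon
      exact h (if_neg fun h2 => hcon h2.2)
    · intro h
      by_contra hcon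
      exact h (hWs i c fun h2 => hcon h2.symm)
  -- total variation distances
  have htv' : ∀ i j, i < j → tv (wm (W i)) (wm (W j)) = x := by
    intro i j hij
    rw [tv_wm _ _ (hW0 i) (hW0 j) (hW1 i) (hW1 j), Fintype.sum_sum_type, Fintype.sum_sum_type]
    have s1 : ∑ l : Fin N, min (W i (Sum.inl l)) (W j (Sum.inl l)) = w * n2 i j := by
      have h1 : ∀ l : Fin N, min (W i (Sum.inl l)) (W j (Sum.inl l))
          = if i ∈ T l ∧ j ∈ T l then w else 0 := by
        intro l
        rw [hWl, hWl]
        by_cases h1 : i ∈ T l <;> by_cases h2 : j ∈ T l <;> simp [h1, h2, hw0]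
      simp_rw [h1]
      rw [← Finset.sum_filter, Finset.sum_const, nsmul_eq_mul, mul_comm]
    have s2 : ∑ q : Fin M × Fin M, min (W i (Sum.inr (Sum.inl q))) (W j (Sum.inr (Sum.inl q)))
        = p i j := by
      have h1 : ∀ q : Fin M × Fin M, min (W i (Sum.inr (Sum.inl q))) (W j (Sum.inr (Sum.inl q)))
          = if q = (i, j) then p i j else 0 := by
        rintro ⟨a, b⟩
        rw [hWp, hWp]
        by_cases hq : (a, b) = (i, j)
        · rw [if_pos hq]
          simp only [Prod.mk.injEq] at hq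
          obtain ⟨rfl, rfl⟩ := hq
          rw [if_pos ⟨hij, Or.inl rfl⟩, if_pos ⟨hij, Or.inr rfl⟩, min_self]
        · rw [if_neg hq]
          by_cases hab : a < b
          · have hpab := hp0 a b hab.ne
            by_cases hi : i = a ∨ i = b
            · by_cases hj : j = a ∨ j = b
              · exfalso
                apply hq
                rcases hi with hi | hi <;> rcases hj with hj | hj
                · exact absurd (hi.trans hj.symm) hij.ne
                · rw [hi, hj]
                · rw [hi, hj] at hij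
                  exact absurd hij (not_lt.mpr hab.le)
                · exact absurd (hi.trans hj.symm) hij.ne
              · rw [if_pos ⟨hab, hi⟩, if_neg (fun h => hj h.2), min_eq_right hpab]
            · rw [if_neg (fun h => hi h.2)]
              apply min_eq_left
              split
              · exact hpab
              · exact le_rfl
          · rw [if_neg (fun h => hab h.1), if_neg (fun h => hab h.1), min_self]
      simp_rw [h1]
      rw [Finset.sum_ite_eq']
      simp
    have s3 : ∑ c : Fin M, min (W i (Sum.inr (Sum.inr c))) (W j (Sum.inr (Sum.inr c))) = 0 := by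
      apply Finset.sum_eq_zero
      intro c _
      by_cases hc : c = i
      · have h1 : W j (Sum.inr (Sum.inr c)) = 0 := hWs j c (by rw [hc]; exact hij.ne)
        have h2 := hW0 i (Sum.inr (Sum.inr c))
        rw [h1]; exact min_eq_right h2
      · have h1 : W i (Sum.inr (Sum.inr c)) = 0 := hWs i c hc
        have h2 := hW0 j (Sum.inr (Sum.inr c))
        rw [h1]; exact min_eq_left h2
    rw [s1, s2, s3]
    simp only [hp]; ring
  have htv : ∀ i j, i ≠ j → tv (wm (W i)) (wm (W j)) = x := by
    intro i j hij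
    rcases lt_or_gt_of_ne hij with h | h
    · exact htv' i j h
    · rw [tv_comm]; exact htv' j i h
  -- the coupling
  obtain ⟨P, hPp, hPm, hPd⟩ := hf.2 M (fun i => wm (W i)) (fun i => wm_prob _ (hW0 i) (hW1 i))
  have hae := coupling_ae T W hOk P hPm
  have hmsm : ∀ i j : Fin M, MeasurableSet {ω : Fin M → ℝ | ω i = ω j} := fun i j =>
    measurableSet_eq_fun (measurable_pi_apply i) (measurable_pi_apply j)
  have hfx : 0 ≤ f x := (hf.1 x ⟨by linarith, hx1.le⟩).1
  have hPge : ∀ i j, 1 - f x ≤ P.real {ω : Fin M → ℝ | ω i = ω j} := by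
    intro i j
    by_cases hij : i = j
    · subst hij
      have : {ω : Fin M → ℝ | ω i = ω i} = univ := by ext; simp
      rw [this, probReal_univ]; linarith
    · have h1 := hPd i j
      rw [htv i j hij] at h1
      have h2 := probReal_compl_eq_one_sub (μ := P) (hmsm i j)
      have h3 : {ω : Fin M → ℝ | ω i = ω j}ᶜ = {ω | ω i ≠ ω j} := rfl
      rw [h3] at h2
      linarith
  have hint : ∀ i j : Fin M, Integrable
      ({ω : Fin M → ℝ | ω i = ω j}.indicator (fun _ => (1 : ℝ))) P := fun i j =>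
    (integrable_const _).indicator (hmsm i j)
  have hsumint : ∫ ω, ∑ i, ∑ j, {ω : Fin M → ℝ | ω i = ω j}.indicator (fun _ => (1 : ℝ)) ω ∂P
      = ∑ i, ∑ j, P.real {ω : Fin M → ℝ | ω i = ω j} := by
    rw [integral_finsetSum _ fun i _ => integrable_finsetSum _ fun j _ => hint i j]
    apply Finset.sum_congr rfl
    intro i _
    rw [integral_finsetSum _ fun j _ => hint i j]
    apply Finset.sum_congr rfl
    intro j _
    rw [integral_indicator_const _ (hmsm i j)]; simp
  have hub : ∫ ω, ∑ i, ∑ j, {ω : Fin M → ℝ | ω i = ω j}.indicator (fun _ => (1 : ℝ)) ω ∂P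
      ≤ (ρ / (2 - ρ) + 3 * ε) * M ^ 2 + 2 * M := by
    have h1 : ∫ ω, ∑ i, ∑ j, {ω : Fin M → ℝ | ω i = ω j}.indicator (fun _ => (1 : ℝ)) ω ∂P
        ≤ ∫ _ω, ((ρ / (2 - ρ) + 3 * ε) * M ^ 2 + 2 * M) ∂P := by
      apply integral_mono_ae (integrable_finsetSum _ fun i _ => integrable_finsetSum _ fun j _ =>
        hint i j) (integrable_const _)
      filter_upwards [hae] with ω hω
      choose y hy1 hy2 using hω
      have h2 := agree_bound T ρ ε hρ0 hρ1 hε hM0 ⌈1 / ε⌉₊ (Nat.le_ceil _) H3 y hy2
      refine le_trans (le_of_eq ?_) h2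
      apply Finset.sum_congr rfl
      intro i _
      apply Finset.sum_congr rfl
      intro j _
      by_cases h : ω i = ω j
      · rw [indicator_of_mem (show ω ∈ {ω : Fin M → ℝ | ω i = ω j} from h), if_pos]
        rw [hy1 i, hy1 j] at h
        exact emb_inj h
      · rw [indicator_of_notMem (show ω ∉ {ω : Fin M → ℝ | ω i = ω j} from h), if_neg]
        intro h'
        apply h
        rw [hy1 i, hy1 j, h']
    simpa using h1
  rw [hsumint] at hub
  have hlow : (1 - f x) * M ^ 2 ≤ ∑ i, ∑ j, P.real {ω : Fin M → ℝ | ω i = ω j} := by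
    calc (1 - f x) * M ^ 2 = ∑ _i : Fin M, ∑ _j : Fin M, (1 - f x) := by
          simp only [Finset.sum_const, Finset.card_univ, Fintype.card_fin, nsmul_eq_mul]; ring
      _ ≤ _ := Finset.sum_le_sum fun i _ => Finset.sum_le_sum fun j _ => hPge i j
  have hM2 : 2 / ε ≤ M := (Nat.le_ceil _).trans (by exact_mod_cast hM1)
  have hM3 : 2 * (M : ℝ) ≤ ε * M ^ 2 := by
    rw [div_le_iff₀ hε] at hM2
    nlinarith
  have hfin : (1 - f x) * (M : ℝ) ^ 2 ≤ (ρ / (2 - ρ) + 4 * ε) * M ^ 2 := by
    linarith
  exact le_of_mul_le_mul_right hfin (by positivity)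

/-- Every disagreement bound is at least `F` pointwise. -/
theorem bound_ge {f : ℝ → ℝ} (hf : IsDisagreementBound f) {x : ℝ} (hx : x ∈ Icc (0 : ℝ) 1) :
    2 * x / (1 + x) ≤ f x := by
  have hfx := hf.1 x hx
  rcases eq_or_lt_of_le hx.1 with h0 | h0
  · rw [← h0] at hfx ⊢
    simp only [mul_zero, zero_div]; exact hfx.1
  rcases eq_or_lt_of_le hx.2 with h1 | h1
  · -- x = 1
    subst h1
    set W : Fin 2 → Fin 2 → ℝ := fun i l => if l = i then 1 else 0 with hW
    have hW0 : ∀ i l, 0 ≤ W i l := by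
      intro i l; simp only [hW]; split <;> norm_num
    have hW1 : ∀ i, ∑ l, W i l = 1 := by
      intro i; simp [hW]
    obtain ⟨P, hPp, hPm, hPd⟩ := hf.2 2 (fun i => wm (W i)) (fun i => wm_prob _ (hW0 i) (hW1 i))
    have htv : tv (wm (W 0)) (wm (W 1)) = 1 := by
      rw [tv_wm _ _ (hW0 0) (hW0 1) (hW1 0) (hW1 1)]
      simp [hW, Fin.sum_univ_two]
    have h2 : P.real {ω : Fin 2 → ℝ | ω 0 ≠ ω 1} ≤ f (tv (wm (W 0)) (wm (W 1))) := hPd 0 1
    rw [htv] at h2
    have h3 : P.real {ω : Fin 2 → ℝ | ω 0 ≠ ω 1} = 1 := by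
      have hms : MeasurableSet {ω : Fin 2 → ℝ | ω 0 = ω 1} :=
        measurableSet_eq_fun (measurable_pi_apply _) (measurable_pi_apply _)
      have h4 : P {ω : Fin 2 → ℝ | ω 0 = ω 1} = 0 := by
        have h5 : ∀ i : Fin 2, P {ω : Fin 2 → ℝ | ω i ≠ emb i} = 0 := by
          intro i
          have h6 : P ((fun ω : Fin 2 → ℝ => ω i) ⁻¹' {emb i}ᶜ) = 0 := by
            rw [← Measure.map_apply (measurable_pi_apply i) (measurableSet_singleton _).compl,
              hPm i, wm_apply _ (measurableSet_singleton _).compl]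
            apply Finset.sum_eq_zero
            intro l _
            by_cases h : l = i
            · rw [indicator_of_notMem, mul_zero]
              rw [h]; simp
            · simp [hW, h]
          exact h6
        have h7 : {ω : Fin 2 → ℝ | ω 0 = ω 1} ⊆ {ω | ω 0 ≠ emb (0 : Fin 2)} ∪ {ω | ω 1 ≠ emb (1 : Fin 2)} := by
          intro ω hω
          by_contra hcon
          simp only [mem_union, mem_ofPred_eq, not_or, not_not] at hcon hω
          rw [hcon.1, hcon.2] at hω
          have := emb_inj hω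
          exact absurd this (by simp)
        exact measure_mono_null h7 (measure_union_null (h5 0) (h5 1))
      have h8 := probReal_compl_eq_one_sub (μ := P) hms
      have h9 : {ω : Fin 2 → ℝ | ω 0 = ω 1}ᶜ = {ω | ω 0 ≠ ω 1} := rfl
      rw [h9] at h8
      rw [h8, measureReal_def, h4]; simp
    rw [h3] at h2
    norm_num
    exact h2
  · by_contra hcon
    push Not at hcon
    set δ : ℝ := 2 * x / (1 + x) - f x with hδ
    have hδ0 : 0 < δ := by linarith
    set t : ℝ := min (x / 2) (δ / 8) with ht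
    have ht0 : 0 < t := lt_min (by linarith) (by linarith)
    have ht1 : t ≤ x / 2 := min_le_left _ _
    have ht2 : t ≤ δ / 8 := min_le_right _ _
    have hc := core hf h1 (ρ := 1 - x + t) (by linarith) (by linarith) (ε := δ / 16) (by linarith)
    have h2 : (1 - x + t) / (2 - (1 - x + t)) ≤ (1 - x) / (1 + x) + 2 * t := by
      have e1 : 2 - (1 - x + t) = 1 + x - t := by ring
      rw [e1, div_le_iff₀ (by linarith)]
      have h3 : (1 - x) / (1 + x) * (1 + x) = 1 - x := by
        field_simp
      have h4 : (1 - x) / (1 + x) ≤ 1 := by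
        rw [div_le_one (by linarith)]; linarith
      have h5 : 0 ≤ (1 - x) / (1 + x) := div_nonneg (by linarith) (by linarith)
      nlinarith
    have h3 : (1 - x) / (1 + x) = 1 - 2 * x / (1 + x) := by
      field_simp; ring
    rw [h3] at h2
    linarith

end Pool.Agent.Q212.DB
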