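import Pool.Agent.Q212.KWidth

/-!
# `k`-width of random intervals: probabilistic part
-/

namespace Pool.Agent.Q212.KWidth

open MeasureTheory ProbabilityTheory Set Filter Topology

/-- The uniform law on `(0,1)`. -/
noncomputable def unif : Measure ℝ := volume.restrict (Ioo 0 1)

instance : IsProbabilityMeasure unif := ⟨by simp [unif]⟩

/-- The law of `n` independent pairs of independent uniform points of `(0,1)`. -/
noncomputable def model (n : ℕ) : Measure (Fin n → ℝ × ℝ) := Measure.pi fun _ => unif.prod unif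

instance (n : ℕ) : IsProbabilityMeasure (model n) := by unfold model; infer_instance

/-- Left endpoint of the interval `[min u, max u]` spanned by the pair `u`. -/
def lo (u : ℝ × ℝ) : ℝ := min u.1 u.2

/-- Right endpoint of the interval `[min u, max u]` spanned by the pair `u`. -/
def hi (u : ℝ × ℝ) : ℝ := max u.1 u.2

lemma measurable_lo : Measurable lo := by unfold lo; fun_prop
lemma measurable_hi : Measurable hi := by unfold hi; fun_prop

lemma unif_Iic {t : ℝ} (_h0 : 0 ≤ t) (h1 : t ≤ 1) : unif (Iic t) = ENNReal.ofReal t := by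
  unfold unif
  rw [Measure.restrict_apply measurableSet_Iic]
  rcases h1.lt_or_eq with h | h
  · have : Iic t ∩ Ioo (0 : ℝ) 1 = Ioc 0 t := by
      ext x; simp only [mem_inter_iff, mem_Iic, mem_Ioo, mem_Ioc]
      constructor
      · rintro ⟨a, b, c⟩; exact ⟨b, a⟩
      · rintro ⟨a, b⟩; exact ⟨b, a, by linarith⟩
    rw [this]; simp
  · have : Iic t ∩ Ioo (0 : ℝ) 1 = Ioo 0 1 := by
      ext x; simp only [mem_inter_iff, mem_Iic, mem_Ioo]
      constructor
      · rintro ⟨a, b, c⟩; exact ⟨b, c⟩
      · rintro ⟨a, b⟩; exact ⟨by linarith, a, b⟩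
    rw [this, h]; simp

lemma unif_Ioi {t : ℝ} (h0 : 0 ≤ t) (_h1 : t ≤ 1) : unif (Ioi t) = ENNReal.ofReal (1 - t) := by
  unfold unif
  rw [Measure.restrict_apply measurableSet_Ioi]
  have : Ioi t ∩ Ioo (0 : ℝ) 1 = Ioo t 1 := by
    ext x; simp only [mem_inter_iff, mem_Ioi, mem_Ioo]
    constructor
    · rintro ⟨a, b, c⟩; exact ⟨a, c⟩
    · rintro ⟨a, b⟩; exact ⟨a, by linarith, b⟩
  rw [this]; simp

lemma prob_hi {t : ℝ} (h0 : 0 ≤ t) (h1 : t ≤ 1) :
    (unif.prod unif).real {u | hi u ≤ t} = t ^ 2 := by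
  have : {u : ℝ × ℝ | hi u ≤ t} = Iic t ×ˢ Iic t := by
    ext u
    simp only [hi, mem_ofPred_eq, mem_prod, mem_Iic, max_le_iff]
  rw [this, measureReal_def, Measure.prod_prod, unif_Iic h0 h1, ENNReal.toReal_mul,
    ENNReal.toReal_ofReal h0]
  ring

lemma prob_lo {t : ℝ} (h0 : 0 ≤ t) (h1 : t ≤ 1) :
    (unif.prod unif).real {u | lo u ≤ t} = 2 * t - t ^ 2 := by
  have hc : {u : ℝ × ℝ | lo u ≤ t} = (Ioi t ×ˢ Ioi t)ᶜ := by
    ext u
    simp only [lo, mem_ofPred_eq, mem_compl_iff, mem_prod, mem_Ioi, min_le_iff]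
    constructor
    · rintro (h | h) ⟨h2, h3⟩ <;> linarith
    · intro h
      by_contra hcon
      push Not at hcon
      exact h hcon
  rw [hc, probReal_compl_eq_one_sub (measurableSet_Ioi.prod measurableSet_Ioi), measureReal_def,
    Measure.prod_prod, unif_Ioi h0 h1, ENNReal.toReal_mul, ENNReal.toReal_ofReal (by linarith)]
  ring

/-- `E |X - E X|` for sums of independent bounded terms -/
lemma dev_general (n : ℕ) (k : ℝ) (hk : 0 ≤ k) (f : Fin n → ℝ × ℝ → ℝ) (hf : ∀ i, Measurable (f i))
    (hb : ∀ i u, f i u ∈ Icc (-k) 1) :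
    Integrable (fun ω => |∑ i, f i (ω i) - ∑ i, ∫ u, f i u ∂(unif.prod unif)|) (model n) ∧
    ∫ ω, |∑ i, f i (ω i) - ∑ i, ∫ u, f i u ∂(unif.prod unif)| ∂(model n)
      ≤ (k + 1) * Real.sqrt n := by
  have hmemf : ∀ i, MemLp (f i) 2 (unif.prod unif) := fun i =>
    memLp_of_bounded (Eventually.of_forall (hb i)) (hf i).aestronglyMeasurable 2
  have hvar := variance_sum_pi (μ := fun _ : Fin n => unif.prod unif) hmemf
  have hvar2 : Var[∑ i, fun ω : Fin n → ℝ × ℝ => f i (ω i); model n] ≤ n * ((k + 1) / 2) ^ 2 := by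
    unfold model
    rw [hvar]
    calc ∑ i, Var[f i; unif.prod unif] ≤ ∑ i : Fin n, ((1 - (-k)) / 2) ^ 2 :=
          Finset.sum_le_sum fun i _ => variance_le_sq_of_bounded
            (Eventually.of_forall (hb i)) (hf i).aemeasurable
      _ = n * ((k + 1) / 2) ^ 2 := by
          rw [Finset.sum_const, Finset.card_univ, Fintype.card_fin, nsmul_eq_mul]; ring
  set X : (Fin n → ℝ × ℝ) → ℝ := fun ω => ∑ i, f i (ω i) with hX
  have hXeq : (∑ i, fun ω : Fin n → ℝ × ℝ => f i (ω i)) = X := by
    ext ω; rw [Finset.sum_apply]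
  rw [hXeq] at hvar2
  have hXmeas : Measurable X := by
    have : ∀ i, Measurable (fun ω : Fin n → ℝ × ℝ => f i (ω i)) := fun i =>
      (hf i).comp (measurable_pi_apply i)
    exact Finset.measurable_sum _ fun i _ => this i
  have hXb : ∀ ω, X ω ∈ Icc (-(n * (k + 1))) (n * (k + 1)) := by
    intro ω
    constructor
    · have : ∑ i : Fin n, (-(k + 1)) ≤ ∑ i, f i (ω i) :=
        Finset.sum_le_sum fun i _ => by have := (hb i (ω i)).1; linarith
      rw [Finset.sum_const, Finset.card_univ, Fintype.card_fin, nsmul_eq_mul] at this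
      linarith
    · have : ∑ i, f i (ω i) ≤ ∑ i : Fin n, (k + 1) :=
        Finset.sum_le_sum fun i _ => by have := (hb i (ω i)).2; linarith
      rw [Finset.sum_const, Finset.card_univ, Fintype.card_fin, nsmul_eq_mul] at this
      linarith
  have hXL : MemLp X 2 (model n) :=
    memLp_of_bounded (Eventually.of_forall hXb) hXmeas.aestronglyMeasurable 2
  have hEX : ∑ i, ∫ u, f i u ∂(unif.prod unif) = ∫ ω, X ω ∂(model n) := by
    rw [hX, integral_finsetSum]
    · apply Finset.sum_congr rfl
      intro i _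
      unfold model
      rw [integral_comp_eval (μ := fun _ : Fin n => unif.prod unif) (i := i)
        (hf i).aestronglyMeasurable]
    · intro i _
      have : MemLp (fun ω : Fin n → ℝ × ℝ => f i (ω i)) 2 (model n) :=
        (hmemf i).comp_measurePreserving (measurePreserving_eval _ i)
      exact this.integrable (by norm_num)
  rw [hEX]
  set m := ∫ ω, X ω ∂(model n) with hm
  have hint1 : Integrable (fun ω => |X ω - m|) (model n) :=
    ((hXL.integrable (by norm_num)).sub (integrable_const m)).abs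
  refine ⟨hint1, ?_⟩
  rcases Nat.eq_zero_or_pos n with hn | hn
  · subst hn
    have hX0 : ∀ ω, X ω = 0 := by intro ω; simp [hX]
    have hXz : X = fun _ => 0 := funext hX0
    have hm0 : m = 0 := by rw [hm, hXz]; simp
    rw [hm0]; simp
  · have hnr : (0 : ℝ) < n := by exact_mod_cast hn
    have hs : 0 < (k + 1) * Real.sqrt n := by positivity
    set s := (k + 1) * Real.sqrt n with hsdef
    have hsq : s ^ 2 = (k + 1) ^ 2 * n := by rw [hsdef, mul_pow, Real.sq_sqrt hnr.le]
    have hint2 : Integrable (fun ω => (X ω - m) ^ 2) (model n) := by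
      have := (hXL.sub (memLp_const m)).integrable_sq
      exact this
    have hV : ∫ ω, (X ω - m) ^ 2 ∂(model n) ≤ n * ((k + 1) / 2) ^ 2 := by
      rw [← variance_eq_integral hXmeas.aemeasurable]
      exact hvar2
    have hpt : ∀ ω, |X ω - m| ≤ ((X ω - m) ^ 2 / s + s) / 2 := by
      intro ω
      have h1 : 0 ≤ (|X ω - m| - s) ^ 2 := sq_nonneg _
      have h2 : |X ω - m| ^ 2 = (X ω - m) ^ 2 := sq_abs _
      rw [le_div_iff₀ (by norm_num : (0 : ℝ) < 2)]
      have h3 : (X ω - m) ^ 2 / s + s = ((X ω - m) ^ 2 + s ^ 2) / s := by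
        field_simp
      rw [h3, le_div_iff₀ hs]
      nlinarith
    have h4 : ∫ ω, |X ω - m| ∂(model n) ≤ ∫ ω, ((X ω - m) ^ 2 / s + s) / 2 ∂(model n) := by
      apply integral_mono hint1 _ hpt
      exact ((hint2.div_const s).add (integrable_const s)).div_const 2
    refine h4.trans ?_
    rw [integral_div, integral_add (hint2.div_const s) (integrable_const s), integral_div]
    simp only [integral_const, probReal_univ, one_smul]
    have h5 : (∫ ω, (X ω - m) ^ 2 ∂(model n)) / s ≤ s / 4 := by
      rw [div_le_iff₀ hs]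
      nlinarith
    linarith

/-- the centred counting variables -/
lemma dev (n k : ℕ) (S T : Finset (Fin n)) {t t' : ℝ} (h0 : 0 ≤ t) (h1 : t ≤ 1) (h0' : 0 ≤ t')
    (h1' : t' ≤ 1) :
    Integrable (fun ω => |(((T.filter fun y => lo (ω y) ≤ t').card : ℝ)
      - k * ((S.filter fun x => hi (ω x) ≤ t).card : ℝ))
      - ((T.card : ℝ) * (2 * t' - t' ^ 2) - k * (S.card * t ^ 2))|) (model n) ∧
    ∫ ω, |(((T.filter fun y => lo (ω y) ≤ t').card : ℝ)
      - k * ((S.filter fun x => hi (ω x) ≤ t).card : ℝ))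
      - ((T.card : ℝ) * (2 * t' - t' ^ 2) - k * (S.card * t ^ 2))| ∂(model n)
      ≤ (k + 1) * Real.sqrt n := by
  classical
  set f : Fin n → ℝ × ℝ → ℝ := fun i u =>
    (if i ∈ T then ({u | lo u ≤ t'} : Set (ℝ × ℝ)).indicator (fun _ => (1 : ℝ)) u else 0)
    - k * (if i ∈ S then ({u | hi u ≤ t} : Set (ℝ × ℝ)).indicator (fun _ => (1 : ℝ)) u else 0)
    with hf
  have hmlo : MeasurableSet {u | lo u ≤ t'} := measurable_lo measurableSet_Iic
  have hmhi : MeasurableSet {u | hi u ≤ t} := measurable_hi measurableSet_Iic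
  have hi1 : ∀ i, Measurable (fun u => if i ∈ T then
      ({u | lo u ≤ t'} : Set (ℝ × ℝ)).indicator (fun _ => (1 : ℝ)) u else 0) := by
    intro i
    by_cases hi : i ∈ T
    · simp only [if_pos hi]; exact measurable_const.indicator hmlo
    · simp only [if_neg hi]; exact measurable_const
  have hi2 : ∀ i, Measurable (fun u => if i ∈ S then
      ({u | hi u ≤ t} : Set (ℝ × ℝ)).indicator (fun _ => (1 : ℝ)) u else 0) := by
    intro i
    by_cases hi : i ∈ S
    · simp only [if_pos hi]; exact measurable_const.indicator hmhi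
    · simp only [if_neg hi]; exact measurable_const
  have hfm : ∀ i, Measurable (f i) := fun i => (hi1 i).sub ((hi2 i).const_mul _)
  have hr1 : ∀ i u, (if i ∈ T then
      ({u | lo u ≤ t'} : Set (ℝ × ℝ)).indicator (fun _ => (1 : ℝ)) u else 0) ∈ Icc (0 : ℝ) 1 := by
    intro i u
    by_cases hi : i ∈ T
    · rw [if_pos hi]
      by_cases hu : u ∈ {u | lo u ≤ t'}
      · rw [indicator_of_mem hu]; simp
      · rw [indicator_of_notMem hu]; simp
    · rw [if_neg hi]; simp
  have hr2 : ∀ i u, (if i ∈ S then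
      ({u | hi u ≤ t} : Set (ℝ × ℝ)).indicator (fun _ => (1 : ℝ)) u else 0) ∈ Icc (0 : ℝ) 1 := by
    intro i u
    by_cases hi : i ∈ S
    · rw [if_pos hi]
      by_cases hu : u ∈ {u | KWidth.hi u ≤ t}
      · rw [indicator_of_mem hu]; simp
      · rw [indicator_of_notMem hu]; simp
    · rw [if_neg hi]; simp
  have hk0 : (0 : ℝ) ≤ k := Nat.cast_nonneg k
  have hfb : ∀ i u, f i u ∈ Icc (-(k : ℝ)) 1 := by
    intro i u
    have h2 := hr1 i u
    have h3 := hr2 i u
    have h4 := mul_le_mul_of_nonneg_left h3.2 hk0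
    have h5 := mul_nonneg hk0 h3.1
    simp only [hf]
    constructor
    · linarith [h2.1]
    · linarith [h2.2]
  have hEf : ∑ i, ∫ u, f i u ∂(unif.prod unif)
      = (T.card : ℝ) * (2 * t' - t' ^ 2) - k * (S.card * t ^ 2) := by
    have h2 : ∀ i, ∫ u, f i u ∂(unif.prod unif)
        = (if i ∈ T then (2 * t' - t' ^ 2) else 0) - k * (if i ∈ S then t ^ 2 else 0) := by
      intro i
      simp only [hf]
      rw [integral_sub, integral_const_mul]
      · congr 1
        · by_cases hi : i ∈ T
          · simp only [if_pos hi]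
            rw [integral_indicator_const _ hmlo, prob_lo h0' h1']; simp
          · simp only [if_neg hi]; simp
        · congr 1
          by_cases hi : i ∈ S
          · simp only [if_pos hi]
            rw [integral_indicator_const _ hmhi, prob_hi h0 h1]; simp
          · simp only [if_neg hi]; simp
      · exact (memLp_of_bounded (Eventually.of_forall (hr1 i))
          (hi1 i).aestronglyMeasurable 2).integrable (by norm_num)
      · exact ((memLp_of_bounded (Eventually.of_forall (hr2 i))
          (hi2 i).aestronglyMeasurable 2).integrable (by norm_num)).const_mul _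
    simp_rw [h2]
    rw [Finset.sum_sub_distrib, ← Finset.mul_sum]
    simp only [Finset.sum_ite_mem, Finset.univ_inter, Finset.sum_const, nsmul_eq_mul]
  have hsum : ∀ ω : Fin n → ℝ × ℝ, ∑ i, f i (ω i)
      = ((T.filter fun y => lo (ω y) ≤ t').card : ℝ)
      - k * ((S.filter fun x => hi (ω x) ≤ t).card : ℝ) := by
    intro ω
    simp only [hf]
    rw [Finset.sum_sub_distrib, ← Finset.mul_sum]
    congr 1
    · rw [Finset.card_filter]
      push_cast
      rw [← Finset.sum_filter]
      simp only [Finset.filter_mem_eq_inter, Finset.univ_inter]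
      apply Finset.sum_congr rfl
      intro i _
      by_cases h : lo (ω i) ≤ t'
      · rw [if_pos h, indicator_of_mem (show ω i ∈ {u | lo u ≤ t'} from h)]
      · rw [if_neg h, indicator_of_notMem (show ω i ∉ {u | lo u ≤ t'} from h)]
    · congr 1
      rw [Finset.card_filter]
      push_cast
      rw [← Finset.sum_filter]
      simp only [Finset.filter_mem_eq_inter, Finset.univ_inter]
      apply Finset.sum_congr rfl
      intro i _
      by_cases h : hi (ω i) ≤ t
      · rw [if_pos h, indicator_of_mem (show ω i ∈ {u | hi u ≤ t} from h)]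
      · rw [if_neg h, indicator_of_notMem (show ω i ∉ {u | hi u ≤ t} from h)]
  have := dev_general n k hk0 f hfm hfb
  rw [hEf] at this
  simp only [hsum] at this
  exact this

end Pool.Agent.Q212.KWidth
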