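import Pool.Agent.Q212.DB3
import Pool.Agent.Q212.KWidth2

/-!
# `2x/(1+x)` is a disagreement bound; closure under minimum
-/

namespace Pool.Agent.Q212.DB

open MeasureTheory ProbabilityTheory Set Filter Topology
open scoped ENNReal NNReal
open Pool.Agent.Q212.KWidth (unif unif_Iic)

section rejection

variable (κ : Measure (ℝ × ℝ)) [IsProbabilityMeasure κ]

/-- sequence of proposals -/
noncomputable def QQ : Measure (ℕ → ℝ × ℝ) := Measure.infinitePi fun _ => κ

instance : IsProbabilityMeasure (QQ κ) := by unfold QQ; infer_instance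

/-- at time `k` the proposal is in `C`, no earlier proposal is in `D` -/
def FE (C D : Set (ℝ × ℝ)) (k : ℕ) : Set (ℕ → ℝ × ℝ) := {ω | ω k ∈ C ∧ ∀ l < k, ω l ∉ D}

lemma FE_meas {C D : Set (ℝ × ℝ)} (hC : MeasurableSet C) (hD : MeasurableSet D) (k : ℕ) :
    MeasurableSet (FE C D k) := by
  have : FE C D k = (fun ω : ℕ → ℝ × ℝ => ω k) ⁻¹' C ∩ ⋂ l ∈ Finset.range k,
      (fun ω : ℕ → ℝ × ℝ => ω l) ⁻¹' Dᶜ := by
    ext ω
    simp [FE]
  rw [this]
  refine (measurable_pi_apply k hC).inter ?_
  exact Finset.measurableSet_biInter _ fun l _ => measurable_pi_apply l hD.compl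

lemma FE_prob {C D : Set (ℝ × ℝ)} (hC : MeasurableSet C) (hD : MeasurableSet D) (k : ℕ) :
    QQ κ (FE C D k) = κ Dᶜ ^ k * κ C := by
  have hset : FE C D k = Set.pi (Finset.range (k + 1) : Finset ℕ)
      (fun l => if l = k then C else Dᶜ) := by
    ext ω
    simp only [FE, mem_ofPred_eq, Set.mem_pi, Finset.coe_range, mem_Iio]
    constructor
    · rintro ⟨h1, h2⟩ l hl
      by_cases hlk : l = k
      · rw [if_pos hlk, hlk]; exact h1
      · rw [if_neg hlk]; exact h2 l (by omega)
    · intro h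
      refine ⟨by simpa using h k (by omega), fun l hl => ?_⟩
      have := h l (by omega)
      rw [if_neg (by omega)] at this
      exact this
  rw [hset, QQ, Measure.infinitePi_pi]
  · rw [Finset.prod_range_succ, if_pos rfl]
    congr 1
    rw [← Finset.card_range k, ← Finset.prod_const]
    rw [Finset.card_range]
    apply Finset.prod_congr rfl
    intro l hl
    have := Finset.mem_range.mp hl
    rw [if_neg (by omega)]
  · intro l _
    by_cases hlk : l = k
    · rw [if_pos hlk]; exact hC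
    · rw [if_neg hlk]; exact hD.compl

lemma FE_union {C D : Set (ℝ × ℝ)} (hC : MeasurableSet C) (hD : MeasurableSet D) (hCD : C ⊆ D) :
    QQ κ (⋃ k, FE C D k) = (1 - κ Dᶜ)⁻¹ * κ C := by
  rw [measure_iUnion _ (FE_meas hC hD)]
  · simp_rw [FE_prob κ hC hD]
    rw [ENNReal.tsum_mul_right, ENNReal.tsum_geometric]
  · intro k k' hkk
    rw [Function.onFun, Set.disjoint_left]
    rintro ω ⟨h1, h2⟩ ⟨h3, h4⟩
    rcases lt_or_gt_of_ne hkk with h | h
    · exact h4 k h (hCD h1)
    · exact h2 k' h (hCD h3)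

variable {n : ℕ} (A : Fin n → Set (ℝ × ℝ))

open Classical in
lemma exists_find (i : Fin n) (ω : ℕ → ℝ × ℝ) : ∃ k, ω k ∈ A i ∨ ∀ l, ω l ∉ A i := by
  by_cases h : ∃ k, ω k ∈ A i
  · obtain ⟨k, hk⟩ := h
    exact ⟨k, Or.inl hk⟩
  · push Not at h
    exact ⟨0, Or.inr h⟩

open Classical in
/-- the coupled variables: the first accepted proposal -/
noncomputable def XX (i : Fin n) (ω : ℕ → ℝ × ℝ) : ℝ := (ω (Nat.find (exists_find A i ω))).1

open Classical in
lemma XX_meas (hA : ∀ i, MeasurableSet (A i)) (i : Fin n) : Measurable (XX A i) := by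
  have hfind : ∀ ω : ℕ → ℝ × ℝ, ∃ k, (fun k (ω : ℕ → ℝ × ℝ) => ω k ∈ A i ∨ ∀ l, ω l ∉ A i) k ω :=
    exists_find A i
  have key : Measurable fun ω : ℕ → ℝ × ℝ =>
      (fun k (ω : ℕ → ℝ × ℝ) => (ω k).1) (Nat.find (hfind ω)) ω := by
    refine Measurable.find (f := fun k (ω : ℕ → ℝ × ℝ) => (ω k).1) ?_ ?_ hfind
    · intro k
      exact measurable_fst.comp (measurable_pi_apply k)
    intro k
    have : {ω : ℕ → ℝ × ℝ | ω k ∈ A i ∨ ∀ l, ω l ∉ A i}
        = (fun ω : ℕ → ℝ × ℝ => ω k) ⁻¹' (A i) ∪ ⋂ l, (fun ω : ℕ → ℝ × ℝ => ω l) ⁻¹' (A i)ᶜ := by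
      ext ω; simp
    show MeasurableSet {ω : ℕ → ℝ × ℝ | ω k ∈ A i ∨ ∀ l, ω l ∉ A i}
    rw [this]
    exact (measurable_pi_apply k (hA i)).union
      (MeasurableSet.iInter fun l => measurable_pi_apply l (hA i).compl)
  exact key

open Classical in
lemma XX_eq {i : Fin n} {ω : ℕ → ℝ × ℝ} {k : ℕ} (h1 : ω k ∈ A i) (h2 : ∀ l < k, ω l ∉ A i) :
    XX A i ω = (ω k).1 := by
  unfold XX
  have : Nat.find (exists_find A i ω) = k := by
    rw [Nat.find_eq_iff]
    refine ⟨Or.inl h1, fun l hl => ?_⟩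
    rintro (h | h)
    · exact h2 l hl h
    · exact h k h1
  rw [this]

end rejection

/-- the proposal law -/
lemma proposal (n : ℕ) (hn : 0 < n) (μ : Fin n → Measure ℝ) (hμ : ∀ i, IsProbabilityMeasure (μ i)) :
    ∃ (κ : Measure (ℝ × ℝ)) (A : Fin n → Set (ℝ × ℝ)), IsProbabilityMeasure κ ∧
      (∀ i, MeasurableSet (A i)) ∧
      (∀ i B, MeasurableSet B → κ (A i ∩ Prod.fst ⁻¹' B) = (n : ℝ≥0∞)⁻¹ * μ i B) ∧
      (∀ i j, ∃ B : Set ℝ, MeasurableSet B ∧ A i \ A j ⊆ Prod.fst ⁻¹' B ∧
        A j ∩ Prod.fst ⁻¹' B ⊆ A i) := by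
  set ν : Measure ℝ := ∑ i, μ i with hν
  have hνuniv : ν univ = n := by
    rw [hν, Measure.coe_finsetSum, Finset.sum_apply]
    simp
  have hνfin : IsFiniteMeasure ν := ⟨by rw [hνuniv]; exact ENNReal.natCast_lt_top n⟩
  have hn0 : (n : ℝ≥0∞) ≠ 0 := by exact_mod_cast hn.ne'
  have hntop : (n : ℝ≥0∞) ≠ ⊤ := ENNReal.natCast_ne_top n
  set lam : Measure ℝ := (n : ℝ≥0∞)⁻¹ • ν with hlam
  have hlamp : IsProbabilityMeasure lam := by
    constructor
    rw [hlam, Measure.smul_apply, hνuniv, smul_eq_mul, ENNReal.inv_mul_cancel hn0 hntop]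
  have hle : ∀ i, μ i ≤ ν := by
    intro i
    rw [hν, Measure.le_iff]
    intro s _
    rw [Measure.coe_finsetSum, Finset.sum_apply]
    exact Finset.single_le_sum (f := fun i => μ i s) (fun _ _ => zero_le) (Finset.mem_univ i)
  have hac : ∀ i, μ i ≪ ν := fun i => (hle i).absolutelyContinuous
  set g : Fin n → ℝ → ℝ≥0∞ := fun i => (μ i).rnDeriv ν with hg
  have hgm : ∀ i, Measurable (g i) := fun i => Measure.measurable_rnDeriv _ _
  have hg1 : ∀ i, g i ≤ᵐ[ν] 1 := fun i => Measure.rnDeriv_le_one_of_le (hle i)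
  set A : Fin n → Set (ℝ × ℝ) := fun i => {q | ENNReal.ofReal q.2 ≤ g i q.1} with hA
  have hAm : ∀ i, MeasurableSet (A i) := fun i =>
    measurableSet_le (ENNReal.measurable_ofReal.comp measurable_snd) ((hgm i).comp measurable_fst)
  refine ⟨lam.prod unif, A, inferInstance, hAm, ?_, ?_⟩
  · intro i B hB
    have hms : MeasurableSet (A i ∩ Prod.fst ⁻¹' B) := (hAm i).inter (measurable_fst hB)
    rw [Measure.prod_apply hms]
    have h1 : ∀ᵐ y ∂lam, unif (Prod.mk y ⁻¹' (A i ∩ Prod.fst ⁻¹' B)) = B.indicator (g i) y := by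
      have h2 : ∀ᵐ y ∂lam, g i y ≤ 1 := by
        have h3 : lam ≪ ν := by rw [hlam]; exact Measure.smul_absolutelyContinuous
        exact h3.ae_le (hg1 i)
      filter_upwards [h2] with y hy
      by_cases hyB : y ∈ B
      · rw [indicator_of_mem hyB]
        have htop : g i y ≠ ⊤ := ne_top_of_le_ne_top ENNReal.one_ne_top hy
        have hpre : Prod.mk y ⁻¹' (A i ∩ Prod.fst ⁻¹' B) = Iic (g i y).toReal := by
          ext u
          simp only [mem_preimage, mem_inter_iff, hA, mem_ofPred_eq, mem_Iic]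
          rw [ENNReal.ofReal_le_iff_le_toReal htop]
          exact ⟨fun h => h.1, fun h => ⟨h, hyB⟩⟩
        have h01 : (g i y).toReal ≤ 1 := by
          have := ENNReal.toReal_mono ENNReal.one_ne_top hy
          simpa using this
        rw [hpre, unif_Iic ENNReal.toReal_nonneg h01, ENNReal.ofReal_toReal htop]
      · rw [indicator_of_notMem hyB]
        have hpre : Prod.mk y ⁻¹' (A i ∩ Prod.fst ⁻¹' B) = ∅ := by
          ext u
          simp only [mem_preimage, mem_inter_iff, mem_empty_iff_false, iff_false]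
          rintro ⟨_, h⟩; exact hyB h
        rw [hpre, measure_empty]
    rw [lintegral_congr_ae h1, lintegral_indicator hB, hlam, Measure.restrict_smul,
      lintegral_smul_measure, smul_eq_mul]
    congr 1
    exact Measure.setLIntegral_rnDeriv (hac i) B
  · intro i j
    refine ⟨{y | g j y < g i y}, measurableSet_lt (hgm j) (hgm i), ?_, ?_⟩
    · rintro ⟨y, u⟩ ⟨h1, h2⟩
      simp only [hA, mem_ofPred_eq, not_le] at h1 h2
      exact lt_of_lt_of_le h2 h1
    · rintro ⟨y, u⟩ ⟨h1, h2⟩
      simp only [hA, mem_ofPred_eq, mem_preimage] at h1 h2 ⊢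
      exact h1.trans h2.le

/-- The function `F(x) = 2x/(1+x)`. -/
noncomputable def FF (x : ℝ) : ℝ := 2 * x / (1 + x)

lemma tv_nonneg (μ ν : Measure ℝ) : 0 ≤ tv μ ν := Real.iSup_nonneg fun _ => abs_nonneg _

lemma tv_le_one (μ ν : Measure ℝ) [IsProbabilityMeasure μ] [IsProbabilityMeasure ν] :
    tv μ ν ≤ 1 := by
  have : Nonempty {A : Set ℝ // MeasurableSet A} := ⟨⟨∅, MeasurableSet.empty⟩⟩
  apply ciSup_le
  rintro ⟨A, _⟩
  have h1 : μ.real A ≤ 1 := measureReal_le_one
  have h2 : ν.real A ≤ 1 := measureReal_le_one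
  have h3 : 0 ≤ μ.real A := measureReal_nonneg
  have h4 : 0 ≤ ν.real A := measureReal_nonneg
  simp only
  rw [abs_le]; constructor <;> linarith

theorem FF_bound : IsDisagreementBound FF := by
  constructor
  · intro x hx
    have h1 := hx.1
    have h2 := hx.2
    unfold FF
    constructor
    · apply div_nonneg <;> linarith
    · rw [div_le_one (by linarith)]; linarith
  · intro n μ hμ
    rcases Nat.eq_zero_or_pos n with hn | hn
    · subst hn
      exact ⟨Measure.dirac (fun _ => 0), inferInstance, fun i => i.elim0, fun i => i.elim0⟩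
    obtain ⟨κ, A, hκ, hAm, hstar, hnest⟩ := proposal n hn μ hμ
    have hn0 : (n : ℝ≥0∞) ≠ 0 := by exact_mod_cast hn.ne'
    have hntop : (n : ℝ≥0∞) ≠ ⊤ := ENNReal.natCast_ne_top n
    have hnr : (0 : ℝ) < n := by exact_mod_cast hn
    have hκA : ∀ i, κ (A i) = (n : ℝ≥0∞)⁻¹ := by
      intro i
      have := hstar i univ MeasurableSet.univ
      rw [preimage_univ, inter_univ, measure_univ, mul_one] at this
      exact this
    have hXm : ∀ i, Measurable (XX A i) := fun i => XX_meas A hAm i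
    have hXall : Measurable (fun ω i => XX A i ω) := measurable_pi_iff.mpr hXm
    refine ⟨(QQ κ).map (fun ω i => XX A i ω), ?_, ?_, ?_⟩
    · exact Measure.isProbabilityMeasure_map hXall.aemeasurable
    · intro i
      rw [Measure.map_map (measurable_pi_apply i) hXall]
      have hfun : (fun ω : Fin n → ℝ => ω i) ∘ (fun ω i => XX A i ω) = XX A i := rfl
      rw [hfun]
      have hp := Measure.isProbabilityMeasure_map (μ := QQ κ) (hXm i).aemeasurable
      symm
      apply Measure.eq_of_le_of_isProbabilityMeasure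
      rw [Measure.le_iff]
      intro B hB
      rw [Measure.map_apply (hXm i) hB]
      have hC : MeasurableSet (A i ∩ Prod.fst ⁻¹' B) := (hAm i).inter (measurable_fst hB)
      have hu := FE_union κ hC (hAm i) inter_subset_left
      have hc : (1 - κ (A i)ᶜ) = (n : ℝ≥0∞)⁻¹ := by
        rw [prob_compl_eq_one_sub (hAm i), hκA]
        apply ENNReal.sub_sub_cancel ENNReal.one_ne_top
        rw [ENNReal.inv_le_one]
        exact_mod_cast hn
      rw [hc, hstar i B hB, inv_inv, ← mul_assoc, ENNReal.mul_inv_cancel hn0 hntop, one_mul] at hu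
      rw [← hu]
      apply measure_mono
      intro ω hω
      rw [mem_iUnion] at hω
      obtain ⟨k, h1, h2⟩ := hω
      rw [mem_preimage, XX_eq A h1.1 h2]
      exact h1.2
    · intro i j
      have hms : MeasurableSet {ω : Fin n → ℝ | ω i = ω j} :=
        measurableSet_eq_fun (measurable_pi_apply i) (measurable_pi_apply j)
      have hp := Measure.isProbabilityMeasure_map (μ := QQ κ) hXall.aemeasurable
      have hcompl := probReal_compl_eq_one_sub (μ := (QQ κ).map (fun ω i => XX A i ω)) hms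
      have hset : {ω : Fin n → ℝ | ω i = ω j}ᶜ = {ω | ω i ≠ ω j} := rfl
      rw [hset] at hcompl
      rw [hcompl]
      -- lower bound for the agreement probability
      have hC : MeasurableSet (A i ∩ A j) := (hAm i).inter (hAm j)
      have hD : MeasurableSet (A i ∪ A j) := (hAm i).union (hAm j)
      have hu := FE_union κ hC hD (inter_subset_left.trans subset_union_left)
      set b : ℝ := κ.real (A i ∩ A j) with hb
      set s : ℝ := κ.real (A i ∪ A j) with hs
      have hagree : b / s ≤ ((QQ κ).map (fun ω i => XX A i ω)).real {ω | ω i = ω j} := by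
        have h1 : (QQ κ).real (⋃ k, FE (A i ∩ A j) (A i ∪ A j) k) = b / s := by
          rw [measureReal_def, hu, ENNReal.toReal_mul, ENNReal.toReal_inv]
          have h2 : (1 - κ (A i ∪ A j)ᶜ) = κ (A i ∪ A j) := by
            rw [prob_compl_eq_one_sub hD]
            exact ENNReal.sub_sub_cancel ENNReal.one_ne_top prob_le_one
          rw [h2, mul_comm]
          rfl
        rw [← h1, measureReal_def, measureReal_def, Measure.map_apply hXall hms]
        apply ENNReal.toReal_mono (measure_ne_top _ _)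
        apply measure_mono
        intro ω hω
        rw [mem_iUnion] at hω
        obtain ⟨k, h1, h2⟩ := hω
        change XX A i ω = XX A j ω
        rw [XX_eq A h1.1 (fun l hl h => h2 l hl (Or.inl h)),
          XX_eq A h1.2 (fun l hl h => h2 l hl (Or.inr h))]
      have hκr : ∀ i, κ.real (A i) = (n : ℝ)⁻¹ := by
        intro i
        rw [measureReal_def, hκA, ENNReal.toReal_inv]; simp
      have hsb : s + b = 2 * (n : ℝ)⁻¹ := by
        have := measureReal_union_add_inter (μ := κ) (s := A i) (hAm j)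
        rw [hκr, hκr] at this
        rw [hs, hb]; linarith
      have hbt : (1 - tv (μ i) (μ j)) * (n : ℝ)⁻¹ ≤ b := by
        obtain ⟨B, hB, hB1, hB2⟩ := hnest i j
        have hstarr : ∀ i, κ.real (A i ∩ Prod.fst ⁻¹' B) = (n : ℝ)⁻¹ * (μ i).real B := by
          intro i
          rw [measureReal_def, hstar i B hB, ENNReal.toReal_mul, ENNReal.toReal_inv]
          simp [measureReal_def]
        have hFB : MeasurableSet (Prod.fst ⁻¹' B : Set (ℝ × ℝ)) := measurable_fst hB
        have hdiff : A i \ A j = (A i ∩ Prod.fst ⁻¹' B) \ (A j ∩ Prod.fst ⁻¹' B) := by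
          ext q
          constructor
          · intro hq
            exact ⟨⟨hq.1, hB1 hq⟩, fun h => hq.2 h.1⟩
          · rintro ⟨⟨h1, h2⟩, h3⟩
            exact ⟨h1, fun h => h3 ⟨h, h2⟩⟩
        have hsub : A j ∩ Prod.fst ⁻¹' B ⊆ A i ∩ Prod.fst ⁻¹' B := fun q hq => ⟨hB2 hq, hq.2⟩
        have h3 : κ.real (A i \ A j) = (n : ℝ)⁻¹ * (μ i).real B - (n : ℝ)⁻¹ * (μ j).real B := by
          rw [hdiff, measureReal_sdiff hsub ((hAm j).inter hFB), hstarr, hstarr]
        have h4 : (μ i).real B - (μ j).real B ≤ tv (μ i) (μ j) :=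
          (le_abs_self _).trans (le_ciSup (tv_bdd (μ i) (μ j)) ⟨B, hB⟩)
        have h5 : κ.real (A i ∩ A j) + κ.real (A i \ A j) = κ.real (A i) :=
          measureReal_inter_add_sdiff (hAm j)
        rw [h3, hκr] at h5
        have hinv : 0 < (n : ℝ)⁻¹ := by positivity
        rw [hb]
        nlinarith
      have ht0 := tv_nonneg (μ i) (μ j)
      have ht1 := tv_le_one (μ i) (μ j)
      have hinv : 0 < (n : ℝ)⁻¹ := by positivity
      have hbs : b ≤ s := by
        rw [hb, hs]
        exact measureReal_mono (inter_subset_left.trans subset_union_left) (by finiteness)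
      have hs0 : 0 < s := by
        have hb0 : 0 ≤ b := measureReal_nonneg
        linarith
      have hfin : (1 - tv (μ i) (μ j)) / (1 + tv (μ i) (μ j)) ≤ b / s := by
        rw [div_le_div_iff₀ (by linarith) hs0]
        nlinarith
      have hF : FF (tv (μ i) (μ j)) = 1 - (1 - tv (μ i) (μ j)) / (1 + tv (μ i) (μ j)) := by
        unfold FF
        have : 1 + tv (μ i) (μ j) ≠ 0 := by linarith
        field_simp
        ring
      rw [hF]
      linarith

/-- Closure under pointwise minimum. -/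
theorem min_bound {f₁ f₂ : ℝ → ℝ} (h1 : IsDisagreementBound f₁) (h2 : IsDisagreementBound f₂) :
    IsDisagreementBound (fun x => min (f₁ x) (f₂ x)) := by
  constructor
  · intro x hx
    exact ⟨le_min (h1.1 x hx).1 (h2.1 x hx).1, (min_le_left _ _).trans (h1.1 x hx).2⟩
  · intro n μ hμ
    obtain ⟨P, hP1, hP2, hP3⟩ := FF_bound.2 n μ hμ
    refine ⟨P, hP1, hP2, fun i j => (hP3 i j).trans ?_⟩
    have := hμ i
    have := hμ j
    have ht : tv (μ i) (μ j) ∈ Icc (0 : ℝ) 1 := ⟨tv_nonneg _ _, tv_le_one _ _⟩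
    exact le_min (bound_ge h1 ht) (bound_ge h2 ht)

end Pool.Agent.Q212.DB
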