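import Mathlib

/-!
# A hyperplane integral condition does not characterise the normal density
-/

namespace Pool.Agent.Q212.HyperNormal

open MeasureTheory Filter Topology

/-- A probability density on `ℝ`. -/
def IsDensity (f : ℝ → ℝ) : Prop :=
  Measurable f ∧ (∀ x, 0 ≤ f x) ∧ Integrable f ∧ ∫ x, f x = 1

/-- The condition `(∗)` on the hyperplane `x_1 + ... + x_n = 0`, including the existence of the
integral. -/
def Star (f g : ℝ → ℝ) (n : ℕ) (c : ℝ) : Prop :=
  ∀ x : Fin n → ℝ, ∑ j, x j = 0 →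
    Integrable (fun u => (u - c) * g u * ∏ j, f (x j - u)) ∧
      ∫ u, (u - c) * g u * ∏ j, f (x j - u) = 0

/-- The normal density with mean `a` and standard deviation `σ`. -/
noncomputable def normal (a σ : ℝ) (x : ℝ) : ℝ :=
  (Real.sqrt (2 * Real.pi * σ ^ 2))⁻¹ * Real.exp (-(x - a) ^ 2 / (2 * σ ^ 2))

/-- unnormalised `f` -/
noncomputable def f0 (x : ℝ) : ℝ := Real.exp (-x ^ 2 / 2) * (1 + Real.cos (2 * Real.pi * x) / 2)

lemma f0_pos (x : ℝ) : 0 < f0 x := by
  unfold f0
  have := Real.neg_one_le_cos (2 * Real.pi * x)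
  have h2 := Real.exp_pos (-x ^ 2 / 2)
  apply mul_pos h2
  linarith

lemma f0_cont : Continuous f0 := by unfold f0; fun_prop

lemma gauss_int (b : ℝ) (hb : 0 < b) (m : ℝ) : Integrable (fun x : ℝ => Real.exp (-b * (x - m) ^ 2)) :=
  (integrable_exp_neg_mul_sq hb).comp_sub_right m

lemma f0_int : Integrable f0 := by
  refine Integrable.mono' ((gauss_int (1 / 2) (by norm_num) 0).const_mul 2)
    f0_cont.aestronglyMeasurable ?_
  filter_upwards [] with x
  rw [Real.norm_of_nonneg (f0_pos x).le]
  unfold f0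
  have h1 := Real.cos_le_one (2 * Real.pi * x)
  have h2 : Real.exp (-x ^ 2 / 2) = Real.exp (-(1 / 2) * (x - 0) ^ 2) := by congr 1; ring
  rw [h2]
  have h3 := Real.exp_pos (-(1 / 2) * (x - 0) ^ 2)
  nlinarith

/-- `sinh (n v) / v` -/
noncomputable def s (n : ℕ) (v : ℝ) : ℝ := if v = 0 then n else Real.sinh (n * v) / v

lemma s_meas (n : ℕ) : Measurable (s n) := by
  unfold s
  apply Measurable.ite (measurableSet_singleton (0 : ℝ)) measurable_const
  have : Measurable (fun v : ℝ => Real.sinh (n * v)) := by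
    exact (Real.continuous_sinh.comp (continuous_const.mul continuous_id)).measurable
  exact this.div measurable_id

lemma s_pos (n : ℕ) (hn : 0 < n) (v : ℝ) : 0 < s n v := by
  have hnr : (0 : ℝ) < n := by exact_mod_cast hn
  unfold s
  by_cases hv : v = 0
  · rw [if_pos hv]; exact hnr
  · rw [if_neg hv]
    rcases lt_or_gt_of_ne hv with h | h
    · apply div_pos_of_neg_of_neg _ h
      rw [Real.sinh_neg_iff]
      exact mul_neg_of_pos_of_neg hnr h
    · apply div_pos _ h
      rw [Real.sinh_pos_iff]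
      exact mul_pos hnr h

lemma mul_s (n : ℕ) (v : ℝ) : v * s n v = Real.sinh (n * v) := by
  unfold s
  by_cases hv : v = 0
  · rw [if_pos hv, hv]; simp
  · rw [if_neg hv]; field_simp

lemma s_le (n : ℕ) (v : ℝ) : s n v ≤ n * Real.cosh (n * v) := by
  -- `sinh t ≤ t cosh t` for `t ≥ 0`
  have key : ∀ t : ℝ, 0 ≤ t → Real.sinh t ≤ t * Real.cosh t := by
    intro t ht
    have hmono : MonotoneOn (fun t : ℝ => t * Real.cosh t - Real.sinh t) (Set.Ici 0) := by
      have hd : ∀ t : ℝ, HasDerivAt (fun t : ℝ => t * Real.cosh t - Real.sinh t)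
          (t * Real.sinh t) t := by
        intro t
        have := ((hasDerivAt_id t).mul (Real.hasDerivAt_cosh t)).sub (Real.hasDerivAt_sinh t)
        refine this.congr_deriv ?_
        simp
      apply monotoneOn_of_deriv_nonneg (convex_Ici 0)
      · exact fun t _ => (hd t).continuousAt.continuousWithinAt
      · exact fun t _ => (hd t).differentiableAt.differentiableWithinAt
      · intro t ht
        rw [interior_Ici, Set.mem_Ioi] at ht
        rw [(hd t).deriv]
        have := Real.sinh_pos_iff.mpr ht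
        positivity
    have := hmono (Set.mem_Ici.mpr le_rfl) (Set.mem_Ici.mpr ht) ht
    simp at this
    linarith
  have hn : (0 : ℝ) ≤ n := Nat.cast_nonneg n
  unfold s
  by_cases hv : v = 0
  · rw [if_pos hv, hv]; simp
  · rw [if_neg hv]
    rcases lt_or_gt_of_ne hv with h | h
    · rw [div_le_iff_of_neg h]
      have := key (n * (-v)) (by nlinarith)
      rw [mul_neg, Real.sinh_neg, Real.cosh_neg] at this
      linarith
    · rw [div_le_iff₀ h]
      have := key (n * v) (by positivity)
      linarith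

/-- unnormalised `g` -/
noncomputable def g0 (n : ℕ) (c u : ℝ) : ℝ :=
  Real.exp (n * u ^ 2 / 2) * (Real.exp (-n * (u - c) ^ 2) * s n (u - c))

lemma g0_pos (n : ℕ) (hn : 0 < n) (c u : ℝ) : 0 < g0 n c u := by
  unfold g0
  have := s_pos n hn (u - c)
  positivity

lemma g0_meas (n : ℕ) (c : ℝ) : Measurable (g0 n c) := by
  unfold g0
  have h1 := (s_meas n).comp (measurable_id.sub_const c)
  have h2 : Measurable (fun u : ℝ => Real.exp (n * u ^ 2 / 2)) := by fun_prop
  have h3 : Measurable (fun u : ℝ => Real.exp (-n * (u - c) ^ 2)) := by fun_prop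
  exact h2.mul (h3.mul h1)

/-- Gaussian integrability in general form -/
lemma quad_int (b : ℝ) (hb : 0 < b) (p q : ℝ) :
    Integrable (fun x : ℝ => Real.exp (-b * x ^ 2 + p * x + q)) := by
  have h := (gauss_int b hb (p / (2 * b))).const_mul (Real.exp (q + p ^ 2 / (4 * b)))
  refine h.congr ?_
  filter_upwards [] with x
  rw [← Real.exp_add]
  congr 1
  field_simp
  ring

lemma g0_int (n : ℕ) (hn : 0 < n) (c : ℝ) : Integrable (g0 n c) := by
  have hnr : (0 : ℝ) < n := by exact_mod_cast hn
  have h1 := quad_int (n / 2) (by positivity) (2 * n * c + n) (-n * c ^ 2 - n * c)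
  have h2 := quad_int (n / 2) (by positivity) (2 * n * c - n) (-n * c ^ 2 + n * c)
  refine Integrable.mono' ((h1.add h2).const_mul (n / 2)) (g0_meas n c).aestronglyMeasurable ?_
  filter_upwards [] with u
  rw [Real.norm_of_nonneg (g0_pos n hn c u).le]
  unfold g0
  have h3 := s_le n (u - c)
  have h4 : Real.exp (n * u ^ 2 / 2) * (Real.exp (-n * (u - c) ^ 2) * s n (u - c))
      ≤ Real.exp (n * u ^ 2 / 2) * (Real.exp (-n * (u - c) ^ 2) * (n * Real.cosh (n * (u - c)))) := by
    gcongr
  refine h4.trans (le_of_eq ?_)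
  rw [Real.cosh_eq]
  simp only [Pi.add_apply]
  have e1 : Real.exp (-(n / 2) * u ^ 2 + (2 * n * c + n) * u + (-n * c ^ 2 - n * c))
      = Real.exp (n * u ^ 2 / 2) * Real.exp (-n * (u - c) ^ 2) * Real.exp (n * (u - c)) := by
    rw [← Real.exp_add, ← Real.exp_add]; congr 1; ring
  have e2 : Real.exp (-(n / 2) * u ^ 2 + (2 * n * c - n) * u + (-n * c ^ 2 + n * c))
      = Real.exp (n * u ^ 2 / 2) * Real.exp (-n * (u - c) ^ 2) * Real.exp (-(n * (u - c))) := by
    rw [← Real.exp_add, ← Real.exp_add]; congr 1; ring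
  rw [e1, e2]
  ring

/-- the key cancellation -/
lemma star0 (n : ℕ) (hn : 0 < n) (c : ℝ) (x : Fin n → ℝ) (hx : ∑ j, x j = 0) :
    Integrable (fun u => (u - c) * g0 n c u * ∏ j, f0 (x j - u)) ∧
      ∫ u, (u - c) * g0 n c u * ∏ j, f0 (x j - u) = 0 := by
  have hnr : (0 : ℝ) < n := by exact_mod_cast hn
  set P : ℝ → ℝ := fun u => ∏ j, (1 + Real.cos (2 * Real.pi * (x j - u)) / 2) with hP
  have hPper : ∀ u, P (u + 1) = P u := by
    intro u
    simp only [hP]
    apply Finset.prod_congr rfl
    intro j _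
    have : 2 * Real.pi * (x j - (u + 1)) = 2 * Real.pi * (x j - u) - 2 * Real.pi := by ring
    rw [this, Real.cos_sub_two_pi]
  have hPcont : Continuous P := by
    simp only [hP]
    fun_prop
  have hPb : ∀ u, |P u| ≤ 2 ^ n := by
    intro u
    simp only [hP]
    rw [Finset.abs_prod]
    calc ∏ j, |1 + Real.cos (2 * Real.pi * (x j - u)) / 2| ≤ ∏ _j : Fin n, (2 : ℝ) := by
          apply Finset.prod_le_prod
          · intro j _; exact abs_nonneg _
          · intro j _
            have h1 := Real.cos_le_one (2 * Real.pi * (x j - u))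
            have h2 := Real.neg_one_le_cos (2 * Real.pi * (x j - u))
            rw [abs_le]; constructor <;> linarith
      _ = 2 ^ n := by rw [Finset.prod_const, Finset.card_univ, Fintype.card_fin]
  -- product formula
  set K : ℝ := Real.exp (-(∑ j, x j ^ 2) / 2) with hK
  have hprod : ∀ u, ∏ j, f0 (x j - u) = K * Real.exp (-(n * u ^ 2 / 2)) * P u := by
    intro u
    unfold f0
    rw [Finset.prod_mul_distrib, ← Real.exp_sum, hK, ← Real.exp_add]
    congr 2
    have h1 : ∀ j, -(x j - u) ^ 2 / 2 = -(x j ^ 2) / 2 + u * x j - u ^ 2 / 2 := by intro j; ring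
    simp_rw [h1]
    rw [Finset.sum_sub_distrib, Finset.sum_add_distrib, ← Finset.mul_sum, hx, ← Finset.sum_div,
      Finset.sum_neg_distrib]
    simp only [Finset.sum_const, Finset.card_univ, Fintype.card_fin, nsmul_eq_mul]
    ring
  set h : ℝ → ℝ := fun u => Real.exp (-n * (u - (c + 1 / 2)) ^ 2) * P u with hh
  have hhint : Integrable h := by
    have := (gauss_int n hnr (c + 1 / 2)).bdd_mul (c := 2 ^ n) hPcont.aestronglyMeasurable
      (Eventually.of_forall fun u => by rw [Real.norm_eq_abs]; exact hPb u)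
    refine this.congr ?_
    filter_upwards [] with u
    simp only [hh]; ring
  have hint : ∀ u, (u - c) * g0 n c u * ∏ j, f0 (x j - u)
      = K * Real.exp (n / 4) / 2 * (h u - h (u + 1)) := by
    intro u
    rw [hprod]
    unfold g0
    have h1 : (u - c) * (Real.exp (n * u ^ 2 / 2) * (Real.exp (-n * (u - c) ^ 2) * s n (u - c)))
        * (K * Real.exp (-(n * u ^ 2 / 2)) * P u)
        = K * (Real.exp (n * u ^ 2 / 2) * Real.exp (-(n * u ^ 2 / 2)))
          * (Real.exp (-n * (u - c) ^ 2) * ((u - c) * s n (u - c))) * P u := by ring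
    rw [h1, mul_s, ← Real.exp_add, add_neg_cancel, Real.exp_zero, Real.sinh_eq]
    simp only [hh]
    rw [hPper]
    have e1 : Real.exp (-n * (u - (c + 1 / 2)) ^ 2)
        = Real.exp (-(n / 4)) * Real.exp (-n * (u - c) ^ 2) * Real.exp (n * (u - c)) := by
      rw [← Real.exp_add, ← Real.exp_add]; congr 1; ring
    have e2 : Real.exp (-n * (u + 1 - (c + 1 / 2)) ^ 2)
        = Real.exp (-(n / 4)) * Real.exp (-n * (u - c) ^ 2) * Real.exp (-(n * (u - c))) := by
      rw [← Real.exp_add, ← Real.exp_add]; congr 1; ring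
    have e3 : Real.exp ((n : ℝ) / 4) * Real.exp (-(n / 4)) = 1 := by
      rw [← Real.exp_add, add_neg_cancel, Real.exp_zero]
    rw [e1, e2]
    linear_combination (-(K * Real.exp (-n * (u - c) ^ 2) * (Real.exp (n * (u - c))
      - Real.exp (-(n * (u - c)))) * P u / 2)) * e3
  have hfun : (fun u => (u - c) * g0 n c u * ∏ j, f0 (x j - u))
      = fun u => K * Real.exp (n / 4) / 2 * (h u - h (u + 1)) := funext hint
  have hshift : Integrable (fun u => h (u + 1)) := hhint.comp_add_right 1
  rw [hfun]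
  refine ⟨(hhint.sub hshift).const_mul _, ?_⟩
  rw [integral_const_mul, integral_sub hhint hshift, integral_add_right_eq_self h 1, sub_self,
    mul_zero]

lemma f0_not_normal (C : ℝ) (hC : 0 < C) (a σ : ℝ) (hσ : 0 < σ)
    (heq : (fun x => f0 x / C) =ᵐ[volume] normal a σ) : False := by
  have hcn : Continuous (normal a σ) := by unfold normal; fun_prop
  have hcf : Continuous (fun x => f0 x / C) := f0_cont.div_const C
  have hall : (fun x => f0 x / C) = normal a σ :=
    (Continuous.ae_eq_iff_eq volume hcf hcn).mp heq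
  set D : ℝ := (Real.sqrt (2 * Real.pi * σ ^ 2))⁻¹ with hD
  have hDpos : 0 < D := by
    have := Real.pi_pos
    positivity
  have hlog : ∀ x, -x ^ 2 / 2 + Real.log (1 + Real.cos (2 * Real.pi * x) / 2) - Real.log C
      = Real.log D + -(x - a) ^ 2 / (2 * σ ^ 2) := by
    intro x
    have h1 := congrArg Real.log (congrFun hall x)
    unfold normal f0 at h1
    have h2 : 0 < 1 + Real.cos (2 * Real.pi * x) / 2 := by
      have := Real.neg_one_le_cos (2 * Real.pi * x); linarith
    rw [Real.log_div (mul_pos (Real.exp_pos _) h2).ne' hC.ne', Real.log_mul (Real.exp_pos _).ne' h2.ne',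
      Real.log_exp, ← hD, Real.log_mul hDpos.ne' (Real.exp_pos _).ne', Real.log_exp] at h1
    exact h1
  have c0 : Real.cos (2 * Real.pi * 0) = 1 := by simp
  have c1 : Real.cos (2 * Real.pi * 1) = 1 := by simp
  have c2 : Real.cos (2 * Real.pi * 2) = 1 := by
    have : 2 * Real.pi * 2 = 2 * Real.pi + 2 * Real.pi := by ring
    rw [this, Real.cos_add_two_pi, Real.cos_two_pi]
  have c3 : Real.cos (2 * Real.pi * (1 / 2)) = -1 := by
    have : 2 * Real.pi * (1 / 2) = Real.pi := by ring
    rw [this, Real.cos_pi]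
  have h0 := hlog 0
  have h1 := hlog 1
  have h2 := hlog 2
  have h3 := hlog (1 / 2)
  rw [c0] at h0
  rw [c1] at h1
  rw [c2] at h2
  rw [c3] at h3
  set τ : ℝ := 1 / (2 * σ ^ 2) with hτ
  have hquad : ∀ x, -(x - a) ^ 2 / (2 * σ ^ 2) = -(τ * x ^ 2) + 2 * (τ * a) * x - τ * a ^ 2 := by
    intro x; rw [hτ]; ring
  rw [hquad] at h0 h1 h2 h3
  norm_num at h0 h1 h2 h3
  have hlt : Real.log (1 / 2) < Real.log (3 / 2) := Real.log_lt_log (by norm_num) (by norm_num)
  have e1 : Real.log (1 / 2 : ℝ) = Real.log (2⁻¹) := by norm_num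
  have e2 : Real.log (2⁻¹ : ℝ) = - Real.log 2 := Real.log_inv 2
  rw [e1, e2] at hlt
  linarith

theorem main (n : ℕ) (hn : 0 < n) (c : ℝ) : ∃ f g : ℝ → ℝ, IsDensity f ∧ IsDensity g ∧
    (∀ x, 0 < g x) ∧ Star f g n c ∧ (∀ x, 0 < f x) ∧ ContDiff ℝ ⊤ f ∧
    ¬ ∃ a σ : ℝ, 0 < σ ∧ f =ᵐ[volume] normal a σ := by
  set C := ∫ x, f0 x with hC
  set E := ∫ x, g0 n c x with hE
  have hCpos : 0 < C := by
    rw [hC, integral_pos_iff_support_of_nonneg (fun x => (f0_pos x).le) f0_int]
    have : Function.support f0 = Set.univ := by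
      ext x; simp [(f0_pos x).ne']
    rw [this]; simp
  have hEpos : 0 < E := by
    rw [hE, integral_pos_iff_support_of_nonneg (fun x => (g0_pos n hn c x).le) (g0_int n hn c)]
    have : Function.support (g0 n c) = Set.univ := by
      ext x; simp [(g0_pos n hn c x).ne']
    rw [this]; simp
  refine ⟨fun x => f0 x / C, fun x => g0 n c x / E, ?_, ?_, ?_, ?_, ?_, ?_, ?_⟩
  · refine ⟨(f0_cont.div_const C).measurable, fun x => (div_pos (f0_pos x) hCpos).le,
      f0_int.div_const C, ?_⟩
    rw [integral_div, ← hC, div_self hCpos.ne']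
  · refine ⟨(g0_meas n c).div_const E, fun x => (div_pos (g0_pos n hn c x) hEpos).le,
      (g0_int n hn c).div_const E, ?_⟩
    rw [integral_div, ← hE, div_self hEpos.ne']
  · intro x; exact div_pos (g0_pos n hn c x) hEpos
  · intro x hx
    obtain ⟨h1, h2⟩ := star0 n hn c x hx
    have hfun : (fun u => (u - c) * (g0 n c u / E) * ∏ j, f0 (x j - u) / C)
        = fun u => ((u - c) * g0 n c u * ∏ j, f0 (x j - u)) * (1 / (E * C ^ n)) := by
      ext u
      rw [Finset.prod_div_distrib, Finset.prod_const, Finset.card_univ, Fintype.card_fin]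
      field_simp
    rw [hfun]
    refine ⟨h1.mul_const _, ?_⟩
    rw [integral_mul_const, h2, zero_mul]
  · intro x; exact div_pos (f0_pos x) hCpos
  · unfold f0
    fun_prop
  · rintro ⟨a, σ, hσ, heq⟩
    exact f0_not_normal C hCpos a σ hσ heq

end Pool.Agent.Q212.HyperNormal
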