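import Mathlib

/-!
# `k`-ary chains, `k`-width: combinatorial part
-/

namespace Pool.Agent.Q212.KWidth

open Finset

variable {ι : Type*}

/-- `A` is a `k`-ary chain for the relation `r`: there is a rooted tree with vertex set `A`, encoded
by its root and its parent map `p` (with the convention `p root = root`), in which every vertex has
at most `k` children, and `r x y` holds whenever `y` is a proper descendant of `x`. -/
def IsKChain (r : ι → ι → Prop) (k : ℕ) (A : Set ι) : Prop :=
  ∃ (root : ι) (p : ι → ι), root ∈ A ∧ p root = root ∧ (∀ y ∈ A, p y ∈ A) ∧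
    (∀ y ∈ A, ∃ j : ℕ, p^[j] y = root) ∧
    (∀ x ∈ A, {y | y ∈ A ∧ y ≠ root ∧ p y = x}.encard ≤ k) ∧
    (∀ x ∈ A, ∀ y ∈ A, x ≠ y → (∃ j : ℕ, p^[j] y = x) → r x y)

/-- The `k`-width: the least number `m` of classes of a partition into `k`-ary chains (a partition
into `m` classes is given by the function `c` assigning to each element the label of its class). -/
noncomputable def kwd (r : ι → ι → Prop) (k : ℕ) : ℕ :=
  sInf {m | ∃ c : ι → Fin m, ∀ i, IsKChain r k {y | c y = i}}

lemma lower_of_coloring [Fintype ι] {r : ι → ι → Prop} {k m : ℕ} (c : ι → Fin m)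
    (h : ∀ i, IsKChain r k {y | c y = i}) (a b : ι → ℝ) (hr : ∀ x y, r x y → b x ≤ a y) (t : ℝ) :
    #{y | a y ≤ t} ≤ m + k * #{x | b x ≤ t} := by
  classical
  choose root p h1 h2 h3 h4 h5 h6 using h
  have hsub : (Finset.univ.filter fun y => a y ≤ t) ⊆
      (Finset.univ.image root) ∪ (Finset.univ.filter fun x => b x ≤ t).biUnion
        (fun x => Finset.univ.filter fun y => c y = c x ∧ y ≠ root (c x) ∧ p (c x) y = x) := by
    intro y hy
    rw [Finset.mem_filter] at hy
    rw [Finset.mem_union]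
    by_cases hroot : y = root (c y)
    · left; rw [Finset.mem_image]; exact ⟨c y, Finset.mem_univ _, hroot.symm⟩
    · right
      have hmem : p (c y) y ∈ {z | c z = c y} := h3 (c y) y rfl
      have hcx : c (p (c y) y) = c y := hmem
      have hne : p (c y) y ≠ y := by
        intro heq
        obtain ⟨j, hj⟩ := h4 (c y) y rfl
        rw [Function.iterate_fixed heq] at hj
        exact hroot hj
      have hrel := h6 (c y) (p (c y) y) hmem y rfl hne ⟨1, rfl⟩
      rw [Finset.mem_biUnion]
      refine ⟨p (c y) y, ?_, ?_⟩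
      · rw [Finset.mem_filter]
        exact ⟨Finset.mem_univ _, (hr _ _ hrel).trans hy.2⟩
      · rw [Finset.mem_filter]
        refine ⟨Finset.mem_univ _, hcx.symm, ?_, ?_⟩
        · rw [hcx]; exact hroot
        · rw [hcx]
  refine (Finset.card_le_card hsub).trans ((Finset.card_union_le _ _).trans ?_)
  apply add_le_add
  · refine Finset.card_image_le.trans ?_
    simp
  · rw [mul_comm]
    apply Finset.card_biUnion_le_card_mul
    intro x _
    have := h5 (c x) x rfl
    have hset : {y | y ∈ {y | c y = c x} ∧ y ≠ root (c x) ∧ p (c x) y = x}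
        = ((Finset.univ.filter fun y => c y = c x ∧ y ≠ root (c x) ∧ p (c x) y = x : Finset ι) :
          Set ι) := by
      ext y; simp
    rw [hset, Set.encard_coe_eq_coe_finsetCard] at this
    exact_mod_cast this

lemma singletons [Fintype ι] (r : ι → ι → Prop) (k : ℕ) :
    ∃ c : ι → Fin (Fintype.card ι), ∀ i, IsKChain r k {y | c y = i} := by
  classical
  refine ⟨Fintype.equivFin ι, fun i => ?_⟩
  have hA : ∀ y, y ∈ {y | Fintype.equivFin ι y = i} ↔ y = (Fintype.equivFin ι).symm i := by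
    intro y
    rw [Set.mem_ofPred_eq, ← Equiv.eq_symm_apply]
  refine ⟨(Fintype.equivFin ι).symm i, fun _ => (Fintype.equivFin ι).symm i, ?_, rfl, ?_, ?_, ?_, ?_⟩
  · rw [hA]
  · intro y _; rw [hA]
  · intro y _; exact ⟨1, rfl⟩
  · intro x _
    have : {y | y ∈ {y | Fintype.equivFin ι y = i} ∧ y ≠ (Fintype.equivFin ι).symm i ∧
        (Fintype.equivFin ι).symm i = x} = ∅ := by
      ext y
      simp only [Set.mem_empty_iff_false, iff_false, Set.mem_ofPred_eq]
      rintro ⟨h1, h2, _⟩
      exact h2 ((hA y).mp h1)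
    rw [this]; simp
  · intro x hx y hy hne
    rw [hA] at hx hy
    exact absurd (hx.trans hy.symm) hne

lemma kwd_mem [Fintype ι] (r : ι → ι → Prop) (k : ℕ) :
    kwd r k ∈ {m | ∃ c : ι → Fin m, ∀ i, IsKChain r k {y | c y = i}} :=
  Nat.sInf_mem ⟨_, singletons r k⟩

lemma kwd_le_card [Fintype ι] (r : ι → ι → Prop) (k : ℕ) : kwd r k ≤ Fintype.card ι :=
  Nat.sInf_le (singletons r k)

/-- lower bound for the `k`-width -/
lemma kwd_lower [Fintype ι] {r : ι → ι → Prop} {k : ℕ} (a b : ι → ℝ)
    (hr : ∀ x y, r x y → b x ≤ a y) (t : ℝ) :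
    #{y | a y ≤ t} ≤ kwd r k + k * #{x | b x ≤ t} := by
  obtain ⟨c, hc⟩ := kwd_mem r k
  exact lower_of_coloring c hc a b hr t

/-- upper bound for the `k`-width by a forest -/
lemma kwd_le_of_par [Fintype ι] [DecidableEq ι] {r : ι → ι → Prop} {k : ℕ} (hirr : ∀ x, ¬ r x x)
    (htr : ∀ x y z, r x y → r y z → r x z) (par : ι → Option ι)
    (hpar : ∀ y x, par y = some x → r x y) (hk : ∀ x, #{y | par y = some x} ≤ k) :
    kwd r k ≤ #{y | par y = none} := by
  set p : ι → ι := fun y => (par y).getD y with hp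
  have hpnone : ∀ y, par y = none → p y = y := by
    intro y hy; simp [hp, hy]
  have hpsome : ∀ y x, par y = some x → p y = x := by
    intro y x hy; simp [hp, hy]
  -- well-foundedness
  have hwf : WellFounded r := by
    have : Std.Irrefl r := ⟨hirr⟩
    have : IsTrans ι r := ⟨htr⟩
    exact Finite.wellFounded_of_trans_of_irrefl r
  have hroot : ∀ y, ∃ z, par z = none ∧ ∃ j : ℕ, p^[j] y = z := by
    intro y
    induction y using hwf.induction with
    | _ y ih =>
      rcases hy : par y with _ | x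
      · exact ⟨y, hy, 0, rfl⟩
      · obtain ⟨z, hz, j, hj⟩ := ih x (hpar y x hy)
        exact ⟨z, hz, j + 1, by rw [Function.iterate_succ_apply, hpsome y x hy, hj]⟩
  choose ρ hρ1 hρ2 using hroot
  have huniq : ∀ y z, par z = none → (∃ j : ℕ, p^[j] y = z) → ρ y = z := by
    intro y z hz ⟨j, hj⟩
    obtain ⟨i, hi⟩ := hρ2 y
    rcases le_total i j with hij | hij
    · obtain ⟨d, rfl⟩ := Nat.exists_eq_add_of_le hij
      rw [add_comm, Function.iterate_add_apply, hi, Function.iterate_fixed (hpnone _ (hρ1 y))] at hj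
      exact hj
    · obtain ⟨d, rfl⟩ := Nat.exists_eq_add_of_le hij
      rw [add_comm, Function.iterate_add_apply, hj, Function.iterate_fixed (hpnone _ hz)] at hi
      exact hi.symm
  set e := (Finset.univ.filter fun y => par y = none).equivFin with he
  have hmem : ∀ y, ρ y ∈ Finset.univ.filter fun y => par y = none := by
    intro y; rw [Finset.mem_filter]; exact ⟨Finset.mem_univ _, hρ1 y⟩
  apply Nat.sInf_le
  refine ⟨fun y => e ⟨ρ y, hmem y⟩, fun i => ?_⟩
  have hA : ∀ y, y ∈ {y | e ⟨ρ y, hmem y⟩ = i} ↔ ρ y = (e.symm i).1 := by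
    intro y
    rw [Set.mem_ofPred_eq, ← Equiv.eq_symm_apply, Subtype.ext_iff]
  have hri : par (e.symm i).1 = none := (Finset.mem_filter.mp (e.symm i).2).2
  refine ⟨(e.symm i).1, p, ?_, hpnone _ hri, ?_, ?_, ?_, ?_⟩
  · rw [hA]; exact huniq _ _ hri ⟨0, rfl⟩
  · intro y hy
    rw [hA] at hy ⊢
    rw [← hy]
    apply huniq _ _ (hρ1 y)
    obtain ⟨j, hj⟩ := hρ2 y
    rcases j with _ | j
    · refine ⟨0, ?_⟩
      have hj' : y = ρ y := hj
      have : par y = none := by rw [hj']; exact hρ1 y
      simp only [Function.iterate_zero, id]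
      rw [hpnone y this]; exact hj'
    · exact ⟨j, by rw [← hj, Function.iterate_succ_apply]⟩
  · intro y hy
    rw [hA] at hy
    rw [← hy]
    exact hρ2 y
  · intro x _
    have hsub : {y | y ∈ {y | e ⟨ρ y, hmem y⟩ = i} ∧ y ≠ (e.symm i).1 ∧ p y = x}
        ⊆ ((Finset.univ.filter fun y => par y = some x : Finset ι) : Set ι) := by
      rintro y ⟨hy1, hy2, hy3⟩
      rw [hA] at hy1
      rw [Finset.mem_coe, Finset.mem_filter]
      refine ⟨Finset.mem_univ _, ?_⟩
      rcases hy : par y with _ | x'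
      · exfalso
        apply hy2
        rw [← hy1]
        exact (huniq y y hy ⟨0, rfl⟩).symm
      · rw [hpsome y x' hy] at hy3
        rw [hy3]
    refine (Set.encard_le_encard hsub).trans ?_
    rw [Set.encard_coe_eq_coe_finsetCard]
    exact_mod_cast hk x
  · intro x _ y _ hne ⟨j, hj⟩
    have key : ∀ j : ℕ, ∀ y, x ≠ y → p^[j] y = x → r x y := by
      intro j
      induction j with
      | zero => intro y hne hj; exact absurd hj.symm hne
      | succ j ih =>
        intro y hne hj
        rw [Function.iterate_succ_apply] at hj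
        rcases hy : par y with _ | x'
        · rw [hpnone y hy] at hj
          exact ih y hne hj
        · rw [hpsome y x' hy] at hj
          by_cases hx : x = x'
          · rw [hx]; exact hpar y x' hy
          · exact htr _ _ _ (ih x' hx hj) (hpar y x' hy)
    exact key j y hne hj

/-- Hall's theorem with deficiency. -/
lemma hall [Fintype ι] [DecidableEq ι] (S T : Finset ι) (a b : ι → ℝ) (k D : ℕ)
    (h : ∀ y ∈ T, #{z ∈ T | a z ≤ a y} ≤ k * #{x ∈ S | b x ≤ a y} + D) :
    ∃ par : ι → Option ι, (∀ y x, par y = some x → y ∈ T ∧ x ∈ S ∧ b x ≤ a y) ∧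
      (∀ x, #{y | par y = some x} ≤ k) ∧ #{y ∈ T | par y = none} ≤ D := by
  set F : {y // y ∈ T} → Finset ((ι × Fin k) ⊕ Fin D) := fun y =>
    ((S.filter fun x => b x ≤ a y) ×ˢ Finset.univ).disjSum Finset.univ with hF
  have hcardF : ∀ y : {y // y ∈ T}, #(F y) = k * #{x ∈ S | b x ≤ a y} + D := by
    intro y
    simp only [hF]
    rw [Finset.card_disjSum, Finset.card_product]
    simp [mul_comm]
  have hHall : ∀ s : Finset {y // y ∈ T}, #s ≤ #(s.biUnion F) := by
    intro s
    rcases s.eq_empty_or_nonempty with rfl | hs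
    · simp
    · obtain ⟨y, hy, hmax⟩ := s.exists_max_image (fun y => a y) hs
      have h1 : #s ≤ #{z ∈ T | a z ≤ a y} := by
        rw [← Finset.card_map (Function.Embedding.subtype _)]
        apply Finset.card_le_card
        intro z hz
        rw [Finset.mem_map] at hz
        obtain ⟨w, hw, rfl⟩ := hz
        rw [Finset.mem_filter]
        exact ⟨w.2, hmax w hw⟩
      refine h1.trans ((h y y.2).trans ?_)
      rw [← hcardF y]
      exact Finset.card_le_card (Finset.subset_biUnion_of_mem F hy)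
  obtain ⟨f, hf, hfm⟩ := (Finset.all_card_le_biUnion_card_iff_exists_injective F).mp hHall
  set g : (ι × Fin k) ⊕ Fin D → Option ι := Sum.elim (fun q => some q.1) (fun _ => none) with hg
  set par : ι → Option ι := fun y => if hy : y ∈ T then g (f ⟨y, hy⟩) else none with hparDef
  have hsome : ∀ y x, par y = some x → ∃ (hy : y ∈ T) (i : Fin k), f ⟨y, hy⟩ = Sum.inl (x, i) := by
    intro y x hyx
    simp only [hparDef] at hyx
    by_cases hy : y ∈ T
    · rw [dif_pos hy] at hyx
      refine ⟨hy, ?_⟩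
      rcases hfy : f ⟨y, hy⟩ with q | d
      · rw [hfy] at hyx
        simp only [hg, Sum.elim_inl, Option.some.injEq] at hyx
        exact ⟨q.2, by rw [← hyx]⟩
      · rw [hfy] at hyx
        simp [hg] at hyx
    · rw [dif_neg hy] at hyx
      exact absurd hyx (by simp)
  refine ⟨par, ?_, ?_, ?_⟩
  · intro y x hyx
    obtain ⟨hy, i, hi⟩ := hsome y x hyx
    have := hfm ⟨y, hy⟩
    rw [hi] at this
    simp only [hF, Finset.inl_mem_disjSum, Finset.mem_product, Finset.mem_filter] at this
    exact ⟨hy, this.1.1, this.1.2⟩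
  · intro x
    have : Fintype.card (Fin k) = k := Fintype.card_fin k
    conv_rhs => rw [← this]
    rw [← Finset.card_univ]
    -- the copies used
    have hex : ∀ y, ∃ i : Option (Fin k), ∀ (hyx : par y = some x), ∃ (hy : y ∈ T),
        ∃ i' : Fin k, i = some i' ∧ f ⟨y, hy⟩ = Sum.inl (x, i') := by
      intro y
      by_cases hyx : par y = some x
      · obtain ⟨hy, i, hi⟩ := hsome y x hyx
        exact ⟨some i, fun _ => ⟨hy, i, rfl, hi⟩⟩
      · exact ⟨none, fun h => absurd h hyx⟩
    choose u hu using hex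
    have hle : #{y | par y = some x} ≤ #((Finset.univ : Finset (Fin k)).map Function.Embedding.some) := by
      apply Finset.card_le_card_of_injOn u
      · intro y hy
        rw [Finset.mem_coe, Finset.mem_filter] at hy
        obtain ⟨_, i', hi', _⟩ := hu y hy.2
        rw [hi']
        simp
      · intro y hy y' hy' huu
        rw [Finset.mem_coe, Finset.mem_filter] at hy hy'
        obtain ⟨hyT, i', hi', hf1⟩ := hu y hy.2
        obtain ⟨hyT', i'', hi'', hf2⟩ := hu y' hy'.2
        have h1 : i' = i'' := by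
          have := hi'.symm.trans (huu.trans hi'')
          exact Option.some_injective _ this
        rw [h1] at hf1
        have h2 := hf (hf1.trans hf2.symm)
        exact congrArg Subtype.val h2
    refine hle.trans ?_
    rw [Finset.card_map]
  · have hex : ∀ y : ι, ∃ d : Option (Fin D), ∀ (_ : y ∈ T) (_ : par y = none), ∃ (hy : y ∈ T),
        ∃ d' : Fin D, d = some d' ∧ f ⟨y, hy⟩ = Sum.inr d' := by
      intro y
      by_cases hyT : y ∈ T
      · rcases hfy : f ⟨y, hyT⟩ with q | d
        · refine ⟨none, fun _ hn => ?_⟩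
          simp only [hparDef, dif_pos hyT, hfy, hg, Sum.elim_inl] at hn
          exact absurd hn (by simp)
        · exact ⟨some d, fun _ _ => ⟨hyT, d, rfl, hfy⟩⟩
      · exact ⟨none, fun h => absurd h hyT⟩
    choose u hu using hex
    have hle : #{y ∈ T | par y = none}
        ≤ #((Finset.univ : Finset (Fin D)).map Function.Embedding.some) := by
      apply Finset.card_le_card_of_injOn u
      · intro y hy
        rw [Finset.mem_coe, Finset.mem_filter] at hy
        obtain ⟨_, i', hi', _⟩ := hu y hy.1 hy.2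
        rw [hi']
        simp
      · intro y hy y' hy' huu
        rw [Finset.mem_coe, Finset.mem_filter] at hy hy'
        obtain ⟨hyT, i', hi', hf1⟩ := hu y hy.1 hy.2
        obtain ⟨hyT', i'', hi'', hf2⟩ := hu y' hy'.1 hy'.2
        have h1 : i' = i'' := by
          have := hi'.symm.trans (huu.trans hi'')
          exact Option.some_injective _ this
        rw [h1] at hf1
        have h2 := hf (hf1.trans hf2.symm)
        exact congrArg Subtype.val h2
    refine hle.trans ?_
    rw [Finset.card_map]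
    simp

/-- grid deficiency -/
noncomputable def Dgrid (S T : Finset ι) (a b : ι → ℝ) (k G : ℕ) : ℕ :=
  (Finset.range G).sup fun j => #{y ∈ T | a y ≤ ((j : ℝ) + 1) / G} - k * #{x ∈ S | b x ≤ (j : ℝ) / G}

lemma Dgrid_hall (S T : Finset ι) (a b : ι → ℝ) (k G : ℕ) (hG : 0 < G)
    (ha : ∀ y ∈ T, 0 ≤ a y ∧ a y ≤ 1) :
    ∀ y ∈ T, #{z ∈ T | a z ≤ a y} ≤ k * #{x ∈ S | b x ≤ a y} + Dgrid S T a b k G := by
  intro y hy
  obtain ⟨h0, h1⟩ := ha y hy
  have hGr : (0 : ℝ) < G := by exact_mod_cast hG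
  -- choose j
  obtain ⟨j, hj, hj1, hj2⟩ : ∃ j : ℕ, j < G ∧ (j : ℝ) / G ≤ a y ∧ a y ≤ ((j : ℝ) + 1) / G := by
    rcases h1.lt_or_eq with hlt | heq
    · refine ⟨⌊a y * G⌋₊, ?_, ?_, ?_⟩
      · rw [Nat.floor_lt (by positivity)]
        nlinarith
      · rw [div_le_iff₀ hGr]; exact Nat.floor_le (by positivity)
      · rw [le_div_iff₀ hGr]; exact (Nat.lt_floor_add_one _).le
    · refine ⟨G - 1, by omega, ?_, ?_⟩
      · rw [heq, div_le_one hGr]
        exact_mod_cast Nat.sub_le G 1
      · rw [heq]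
        have : ((G - 1 : ℕ) : ℝ) + 1 = G := by
          have h2 : 1 ≤ G := hG
          push_cast [h2]; ring
        rw [this, div_self hGr.ne']
  have h2 : #{y ∈ T | a y ≤ ((j : ℝ) + 1) / G} - k * #{x ∈ S | b x ≤ (j : ℝ) / G}
      ≤ Dgrid S T a b k G :=
    Finset.le_sup (f := fun j : ℕ => #{y ∈ T | a y ≤ ((j : ℝ) + 1) / G}
      - k * #{x ∈ S | b x ≤ (j : ℝ) / G}) (Finset.mem_range.mpr hj)
  have h3 : #{z ∈ T | a z ≤ a y} ≤ #{y ∈ T | a y ≤ ((j : ℝ) + 1) / G} := by
    apply Finset.card_le_card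
    intro z hz
    rw [Finset.mem_filter] at hz ⊢
    exact ⟨hz.1, hz.2.trans hj2⟩
  have h4 : #{x ∈ S | b x ≤ (j : ℝ) / G} ≤ #{x ∈ S | b x ≤ a y} := by
    apply Finset.card_le_card
    intro z hz
    rw [Finset.mem_filter] at hz ⊢
    exact ⟨hz.1, hz.2.trans hj1⟩
  have h5 := Nat.mul_le_mul_left k h4
  omega

/-- deterministic bound of the grid deficiency -/
lemma Dgrid_le (S T : Finset ι) (a b : ι → ℝ) (k G : ℕ) (c : ℝ) (e : ℕ → ℝ) (hc : 0 ≤ c)
    (he : ∀ j < G, e j ≤ c) :
    (Dgrid S T a b k G : ℝ) ≤ c + ∑ j ∈ Finset.range G,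
      |((#{y ∈ T | a y ≤ ((j : ℝ) + 1) / G} : ℝ) - k * #{x ∈ S | b x ≤ (j : ℝ) / G}) - e j| := by
  rcases (Finset.range G).eq_empty_or_nonempty with h0 | hne
  · unfold Dgrid; rw [h0]; simpa using hc
  · obtain ⟨j, hj, hjeq⟩ := Finset.exists_mem_eq_sup (Finset.range G) hne
      (fun j : ℕ => #{y ∈ T | a y ≤ ((j : ℝ) + 1) / G} - k * #{x ∈ S | b x ≤ (j : ℝ) / G})
    have hD : Dgrid S T a b k G = #{y ∈ T | a y ≤ ((j : ℝ) + 1) / G}
      - k * #{x ∈ S | b x ≤ (j : ℝ) / G} := hjeq
    have hsum : |((#{y ∈ T | a y ≤ ((j : ℝ) + 1) / G} : ℝ)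
        - k * #{x ∈ S | b x ≤ (j : ℝ) / G}) - e j| ≤ ∑ j ∈ Finset.range G,
      |((#{y ∈ T | a y ≤ ((j : ℝ) + 1) / G} : ℝ) - k * #{x ∈ S | b x ≤ (j : ℝ) / G}) - e j| :=
      Finset.single_le_sum (f := fun j : ℕ => |((#{y ∈ T | a y ≤ ((j : ℝ) + 1) / G} : ℝ)
        - k * #{x ∈ S | b x ≤ (j : ℝ) / G}) - e j|) (fun _ _ => abs_nonneg _) hj
    have h1 : (Dgrid S T a b k G : ℝ) ≤ c + |((#{y ∈ T | a y ≤ ((j : ℝ) + 1) / G} : ℝ)
        - k * #{x ∈ S | b x ≤ (j : ℝ) / G}) - e j| := by
      rw [hD]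
      rcases le_total (#{y ∈ T | a y ≤ ((j : ℝ) + 1) / G}) (k * #{x ∈ S | b x ≤ (j : ℝ) / G})
        with hle | hle
      · rw [Nat.sub_eq_zero_of_le hle]
        push_cast
        positivity
      · rw [Nat.cast_sub hle]
        push_cast
        have := le_abs_self (((#{y ∈ T | a y ≤ ((j : ℝ) + 1) / G} : ℝ)
          - k * #{x ∈ S | b x ≤ (j : ℝ) / G}) - e j)
        have := he j (Finset.mem_range.mp hj)
        linarith
    linarith

end Pool.Agent.Q212.KWidth
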