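import Pool.Agent.Q212.KWidth2

/-!
# `k`-width of random intervals: the two limit theorems
-/

namespace Pool.Agent.Q212.KWidth

open MeasureTheory ProbabilityTheory Set Filter Topology

/-- The order on a set of intervals: `[lo i, hi i]` lies to the left of `[lo j, hi j]`. -/
def setRel {n : ℕ} (ω : Fin n → ℝ × ℝ) (i j : Fin n) : Prop := hi (ω i) ≤ lo (ω j)

/-- The order on a sequence of intervals: `i < j`, and `[lo i, hi i]` lies to the left of
`[lo j, hi j]`. -/
def seqRel {n : ℕ} (ω : Fin n → ℝ × ℝ) (i j : Fin n) : Prop := i < j ∧ hi (ω i) ≤ lo (ω j)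

lemma measurable_kwd {n k : ℕ} (rel : (Fin n → ℝ × ℝ) → Fin n → Fin n → Prop)
    (h : ∀ i j, MeasurableSet {ω | rel ω i j}) :
    Measurable (fun ω => (kwd (rel ω) k : ℝ)) := by
  classical
  have h1 : (fun ω => (kwd (rel ω) k : ℝ))
      = (fun M : Fin n → Fin n → Bool => (kwd (fun i j => M i j = true) k : ℝ)) ∘
        (fun ω => fun i j => decide (rel ω i j)) := by
    ext ω
    simp
  rw [h1]
  apply Measurable.comp
  · exact measurable_of_countable _
  · rw [measurable_pi_iff]
    intro i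
    rw [measurable_pi_iff]
    intro j
    apply measurable_to_bool
    have : (fun ω => decide (rel ω i j)) ⁻¹' {true} = {ω | rel ω i j} := by
      ext ω; simp
    rw [this]
    exact h i j

lemma meas_base {n : ℕ} (i j : Fin n) :
    MeasurableSet {ω : Fin n → ℝ × ℝ | hi (ω i) ≤ lo (ω j)} :=
  measurableSet_le (measurable_hi.comp (measurable_pi_apply i))
    (measurable_lo.comp (measurable_pi_apply j))

lemma meas_set {n : ℕ} (i j : Fin n) : MeasurableSet {ω : Fin n → ℝ × ℝ | setRel ω i j} :=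
  meas_base i j

lemma meas_seq {n : ℕ} (i j : Fin n) : MeasurableSet {ω : Fin n → ℝ × ℝ | seqRel ω i j} := by
  have : {ω : Fin n → ℝ × ℝ | seqRel ω i j}
      = {_ω | i < j} ∩ {ω : Fin n → ℝ × ℝ | hi (ω i) ≤ lo (ω j)} := rfl
  rw [this]
  exact (MeasurableSet.const _).inter (meas_base i j)

lemma integrable_kwd {n k : ℕ} (rel : (Fin n → ℝ × ℝ) → Fin n → Fin n → Prop)
    (h : ∀ i j, MeasurableSet {ω | rel ω i j}) :
    Integrable (fun ω => (kwd (rel ω) k : ℝ)) (model n) := by
  refine (memLp_of_bounded (a := 0) (b := n) ?_ (measurable_kwd rel h).aestronglyMeasurable 2).integrable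
    (by norm_num)
  filter_upwards [] with ω
  refine ⟨Nat.cast_nonneg _, ?_⟩
  have := kwd_le_card (rel ω) k
  rw [Fintype.card_fin] at this
  exact_mod_cast this

/-- the lower bound -/
lemma lower_bound {n k : ℕ} (rel : (Fin n → ℝ × ℝ) → Fin n → Fin n → Prop)
    (h : ∀ i j, MeasurableSet {ω | rel ω i j})
    (hrel : ∀ ω i j, rel ω i j → hi (ω i) ≤ lo (ω j)) :
    (n : ℝ) * (1 / (k + 1)) ≤ ∫ ω, (kwd (rel ω) k : ℝ) ∂(model n) := by
  set t : ℝ := 1 / (k + 1) with ht
  have hk : (0 : ℝ) < (k : ℝ) + 1 := by positivity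
  have h0 : 0 ≤ t := by positivity
  have h1 : t ≤ 1 := by
    rw [ht, div_le_one hk]
    have : (0 : ℝ) ≤ k := Nat.cast_nonneg k
    linarith
  -- integral of the counting variable
  set f : Fin n → ℝ × ℝ → ℝ := fun _ u =>
    ({u | lo u ≤ t} : Set (ℝ × ℝ)).indicator (fun _ => (1 : ℝ)) u
    - k * ({u | hi u ≤ t} : Set (ℝ × ℝ)).indicator (fun _ => (1 : ℝ)) u with hf
  have hmlo : MeasurableSet {u | lo u ≤ t} := measurable_lo measurableSet_Iic
  have hmhi : MeasurableSet {u | hi u ≤ t} := measurable_hi measurableSet_Iic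
  have hi1 : Integrable (fun u => ({u | lo u ≤ t} : Set (ℝ × ℝ)).indicator (fun _ => (1 : ℝ)) u)
      (unif.prod unif) := (integrable_const 1).indicator hmlo
  have hi2 : Integrable (fun u => ({u | hi u ≤ t} : Set (ℝ × ℝ)).indicator (fun _ => (1 : ℝ)) u)
      (unif.prod unif) := (integrable_const 1).indicator hmhi
  have hfi : ∀ i, Integrable (f i) (unif.prod unif) := fun i => hi1.sub (hi2.const_mul _)
  have hEf : ∀ i, ∫ u, f i u ∂(unif.prod unif) = t := by
    intro i
    simp only [hf]
    rw [integral_sub hi1 (hi2.const_mul _), integral_const_mul,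
      integral_indicator_const _ hmlo, integral_indicator_const _ hmhi, prob_lo h0 h1, prob_hi h0 h1]
    simp only [smul_eq_mul, mul_one]
    have : (k + 1) * t = 1 := by rw [ht]; field_simp
    have h2 : (k : ℝ) * t ^ 2 + t ^ 2 = t := by
      calc (k : ℝ) * t ^ 2 + t ^ 2 = ((k + 1) * t) * t := by ring
        _ = t := by rw [this, one_mul]
    linarith
  have hsumint : ∀ i, Integrable (fun ω : Fin n → ℝ × ℝ => f i (ω i)) (model n) := fun i =>
    (measurePreserving_eval (fun _ : Fin n => unif.prod unif) i).integrable_comp_of_integrable (hfi i)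
  have hval : ∫ ω, ∑ i, f i (ω i) ∂(model n) = n * t := by
    rw [integral_finsetSum _ fun i _ => hsumint i]
    have : ∀ i, ∫ ω, f i (ω i) ∂(model n) = t := by
      intro i
      unfold model
      rw [integral_comp_eval (μ := fun _ : Fin n => unif.prod unif) (i := i)
        (hfi i).aestronglyMeasurable, hEf i]
    simp_rw [this]
    rw [Finset.sum_const, Finset.card_univ, Fintype.card_fin, nsmul_eq_mul]
  rw [← hval]
  apply integral_mono (integrable_finsetSum _ fun i _ => hsumint i) (integrable_kwd rel h)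
  intro ω
  have h2 := kwd_lower (r := rel ω) (k := k) (fun i => lo (ω i)) (fun i => hi (ω i))
    (fun x y hxy => hrel ω x y hxy) t
  have h3 : (∑ i, f i (ω i)) = ((Finset.univ.filter fun y => lo (ω y) ≤ t).card : ℝ)
      - k * ((Finset.univ.filter fun x => hi (ω x) ≤ t).card : ℝ) := by
    simp only [hf]
    rw [Finset.sum_sub_distrib, ← Finset.mul_sum]
    congr 1
    · rw [Finset.card_filter]
      push_cast
      apply Finset.sum_congr rfl
      intro i _
      by_cases h : lo (ω i) ≤ t
      · rw [if_pos h, indicator_of_mem (show ω i ∈ {u | lo u ≤ t} from h)]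
      · rw [if_neg h, indicator_of_notMem (show ω i ∉ {u | lo u ≤ t} from h)]
    · congr 1
      rw [Finset.card_filter]
      push_cast
      apply Finset.sum_congr rfl
      intro i _
      by_cases h : hi (ω i) ≤ t
      · rw [if_pos h, indicator_of_mem (show ω i ∈ {u | hi u ≤ t} from h)]
      · rw [if_neg h, indicator_of_notMem (show ω i ∉ {u | hi u ≤ t} from h)]
  simp only
  rw [h3]
  have h4 : ((Finset.univ.filter fun y => lo (ω y) ≤ t).card : ℝ)
      ≤ kwd (rel ω) k + k * ((Finset.univ.filter fun x => hi (ω x) ≤ t).card : ℝ) := by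
    exact_mod_cast h2
  linarith

/-- almost surely all pairs lie in the open unit square and off the diagonal -/
lemma ae_good (n : ℕ) : ∀ᵐ ω ∂(model n), ∀ i, 0 ≤ lo (ω i) ∧ lo (ω i) < hi (ω i) ∧ hi (ω i) ≤ 1 := by
  rw [ae_all_iff]
  intro i
  have h1 : ∀ᵐ u ∂(unif.prod unif), 0 ≤ lo u ∧ lo u < hi u ∧ hi u ≤ 1 := by
    have hmem : ∀ᵐ x ∂unif, x ∈ Ioo (0 : ℝ) 1 := ae_restrict_mem measurableSet_Ioo
    have h2 : ∀ᵐ u ∂(unif.prod unif), u.1 ∈ Ioo (0 : ℝ) 1 :=
      Measure.quasiMeasurePreserving_fst.ae hmem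
    have h3 : ∀ᵐ u ∂(unif.prod unif), u.2 ∈ Ioo (0 : ℝ) 1 :=
      Measure.quasiMeasurePreserving_snd.ae hmem
    have h4 : ∀ᵐ u ∂(unif.prod unif), u.1 ≠ u.2 := by
      rw [ae_iff]
      have hms : MeasurableSet {u : ℝ × ℝ | ¬ (u.1 ≠ u.2)} := by
        have : {u : ℝ × ℝ | ¬ (u.1 ≠ u.2)} = {u | u.1 = u.2} := by ext u; simp
        rw [this]
        exact measurableSet_eq_fun measurable_fst measurable_snd
      rw [Measure.measure_prod_null hms]
      filter_upwards [] with x
      have : Prod.mk x ⁻¹' {u : ℝ × ℝ | ¬ (u.1 ≠ u.2)} = {x} := by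
        ext y; simp [eq_comm]
      rw [this]
      simp [unif]
    filter_upwards [h2, h3, h4] with u h2 h3 h4
    refine ⟨le_min h2.1.le h3.1.le, ?_, max_le h2.2.le h3.2.le⟩
    exact min_lt_max.mpr h4
  exact (measurePreserving_eval (fun _ : Fin n => unif.prod unif) i).quasiMeasurePreserving.ae h1

/-- pointwise bound on the grid deficiency -/
noncomputable def BB (n k G : ℕ) (L : ℝ) (S T : Finset (Fin n)) (ω : Fin n → ℝ × ℝ) : ℝ :=
  L * (1 / (k + 1) + 2 * k / G) + ∑ j ∈ Finset.range G,
    |(((T.filter fun y => lo (ω y) ≤ ((j : ℝ) + 1) / G).card : ℝ)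
      - k * ((S.filter fun x => hi (ω x) ≤ (j : ℝ) / G).card : ℝ))
      - ((T.card : ℝ) * (2 * (((j : ℝ) + 1) / G) - (((j : ℝ) + 1) / G) ^ 2)
        - k * (S.card * ((j : ℝ) / G) ^ 2))|

lemma mean_le {k G : ℕ} (j : ℕ) (hj : j < G) :
    (2 * (((j : ℝ) + 1) / G) - (((j : ℝ) + 1) / G) ^ 2) - k * ((j : ℝ) / G) ^ 2
      ≤ 1 / (k + 1) + 2 * k / G := by
  have hG : (0 : ℝ) < G := by
    have : 0 < G := by omega
    exact_mod_cast this
  have hk : (0 : ℝ) ≤ k := Nat.cast_nonneg k
  set t' : ℝ := ((j : ℝ) + 1) / G with ht'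
  set t : ℝ := (j : ℝ) / G with ht
  have htt : t' = t + 1 / G := by rw [ht', ht]; ring
  have h1 : t' ≤ 1 := by
    rw [ht', div_le_one hG]
    exact_mod_cast hj
  have h0 : 0 ≤ t := by positivity
  have hd : 0 < 1 / (G : ℝ) := by positivity
  have h2 : t' ^ 2 - t ^ 2 ≤ 2 / G := by
    have : t' ^ 2 - t ^ 2 = (1 / G) * (t' + t) := by rw [htt]; ring
    rw [this]
    have h3 : t' + t ≤ 2 := by linarith
    calc 1 / (G : ℝ) * (t' + t) ≤ 1 / G * 2 := mul_le_mul_of_nonneg_left h3 hd.le
      _ = 2 / G := by ring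
  have h3 : 2 * t' - (k + 1) * t' ^ 2 ≤ 1 / (k + 1) := by
    rw [le_div_iff₀ (by positivity)]
    nlinarith [sq_nonneg ((k + 1) * t' - 1)]
  have h4 : (k : ℝ) * (t' ^ 2 - t ^ 2) ≤ k * (2 / G) := mul_le_mul_of_nonneg_left h2 hk
  have h5 : 2 * (k : ℝ) / G = k * (2 / G) := by ring
  rw [h5]
  nlinarith

lemma Dgrid_le_BB {n k G : ℕ} {L : ℝ} (hL : 0 ≤ L) (S T : Finset (Fin n))
    (hST : (T.card ≤ L ∧ L ≤ S.card) ∨ T = ∅) (ω : Fin n → ℝ × ℝ) :
    (Dgrid S T (fun i => lo (ω i)) (fun i => hi (ω i)) k G : ℝ) ≤ BB n k G L S T ω := by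
  have hk : (0 : ℝ) ≤ k := Nat.cast_nonneg k
  have hc : 0 ≤ L * (1 / (k + 1) + 2 * k / G) := by positivity
  rcases hST with ⟨hT, hS⟩ | hT
  · apply Dgrid_le S T _ _ k G (L * (1 / (k + 1) + 2 * k / G))
      (fun j => ((T.card : ℝ) * (2 * (((j : ℝ) + 1) / G) - (((j : ℝ) + 1) / G) ^ 2)
        - k * (S.card * ((j : ℝ) / G) ^ 2))) hc
    intro j hj
    have hG : (0 : ℝ) < G := by
      have : 0 < G := by omega
      exact_mod_cast this
    have h1 := mean_le (k := k) j hj
    have ht1 : ((j : ℝ) + 1) / G ≤ 1 := by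
      rw [div_le_one hG]
      exact_mod_cast hj
    have ht0 : 0 ≤ ((j : ℝ) + 1) / G := by positivity
    have h2 : 0 ≤ 2 * (((j : ℝ) + 1) / G) - (((j : ℝ) + 1) / G) ^ 2 := by nlinarith
    have h3 := mul_le_mul_of_nonneg_right hT h2
    have h4 : L * (k * ((j : ℝ) / G) ^ 2) ≤ S.card * (k * ((j : ℝ) / G) ^ 2) :=
      mul_le_mul_of_nonneg_right hS (by positivity)
    have h5 := mul_le_mul_of_nonneg_left h1 hL
    nlinarith
  · have : Dgrid S T (fun i => lo (ω i)) (fun i => hi (ω i)) k G = 0 := by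
      unfold Dgrid
      rw [hT]
      apply le_antisymm _ (Nat.zero_le _)
      apply Finset.sup_le
      intro j _
      simp
    rw [this]
    unfold BB
    push_cast
    positivity

lemma BB_int {n k G : ℕ} (L : ℝ) (S T : Finset (Fin n)) :
    Integrable (BB n k G L S T) (model n) ∧
    ∫ ω, BB n k G L S T ω ∂(model n)
      ≤ L * (1 / (k + 1) + 2 * k / G) + G * ((k + 1) * Real.sqrt n) := by
  have hdev : ∀ j ∈ Finset.range G, _ := fun j (hj : j ∈ Finset.range G) =>
    dev n k S T (t := (j : ℝ) / G) (t' := ((j : ℝ) + 1) / G) (by positivity)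
      (by
        have h := Finset.mem_range.mp hj
        have hG : (0 : ℝ) < G := by
          have : 0 < G := by omega
          exact_mod_cast this
        rw [div_le_one hG]
        exact_mod_cast h.le) (by positivity)
      (by
        have h := Finset.mem_range.mp hj
        have hG : (0 : ℝ) < G := by
          have : 0 < G := by omega
          exact_mod_cast this
        rw [div_le_one hG]
        exact_mod_cast h)
  have hs := integrable_finsetSum (Finset.range G) fun j hj => (hdev j hj).1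
  constructor
  · unfold BB
    exact (integrable_const _).add hs
  · unfold BB
    rw [integral_add (integrable_const _) hs, integral_const, probReal_univ, one_smul,
      integral_finsetSum _ fun j hj => (hdev j hj).1]
    have h1 : ∑ j ∈ Finset.range G, ∫ ω, |(((T.filter fun y => lo (ω y) ≤ ((j : ℝ) + 1) / G).card : ℝ)
      - k * ((S.filter fun x => hi (ω x) ≤ (j : ℝ) / G).card : ℝ))
      - ((T.card : ℝ) * (2 * (((j : ℝ) + 1) / G) - (((j : ℝ) + 1) / G) ^ 2)
        - k * (S.card * ((j : ℝ) / G) ^ 2))| ∂(model n)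
        ≤ ∑ j ∈ Finset.range G, ((k + 1) * Real.sqrt n) :=
      Finset.sum_le_sum fun j hj => (hdev j hj).2
    rw [Finset.sum_const, Finset.card_range, nsmul_eq_mul] at h1
    linarith

/-- upper bound, set version -/
lemma upper_set {n k G : ℕ} (hG : 0 < G) :
    ∫ ω, (kwd (setRel ω) k : ℝ) ∂(model n)
      ≤ n * (1 / (k + 1) + 2 * k / G) + G * ((k + 1) * Real.sqrt n) := by
  have hB := BB_int (k := k) (G := G) (n : ℝ) (Finset.univ : Finset (Fin n)) Finset.univ
  refine le_trans ?_ hB.2
  apply integral_mono_ae (integrable_kwd _ meas_set) hB.1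
  filter_upwards [ae_good n] with ω hω
  refine le_trans ?_ (Dgrid_le_BB (Nat.cast_nonneg n) Finset.univ Finset.univ
    (Or.inl ⟨by simp, by simp⟩) ω)
  have hH := Dgrid_hall Finset.univ Finset.univ (fun i => lo (ω i)) (fun i => hi (ω i)) k G hG
    (fun y _ => ⟨(hω y).1, (hω y).2.1.le.trans (hω y).2.2⟩)
  obtain ⟨par, h1, h2, h3⟩ := hall Finset.univ Finset.univ (fun i => lo (ω i)) (fun i => hi (ω i))
    k _ hH
  have h4 : kwd (setRel ω) k ≤ (Finset.univ.filter fun y => par y = none).card := by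
    apply kwd_le_of_par _ _ par _ h2
    · intro x hx
      have : hi (ω x) ≤ lo (ω x) := hx
      linarith [(hω x).2.1]
    · intro x y z hxy hyz
      have ha : hi (ω x) ≤ lo (ω y) := hxy
      have hb : hi (ω y) ≤ lo (ω z) := hyz
      have := (hω y).2.1
      change hi (ω x) ≤ lo (ω z)
      linarith
    · intro y x hyx
      exact (h1 y x hyx).2.2
  exact_mod_cast h4.trans h3

theorem set_limit (k : ℕ) :
    Tendsto (fun n : ℕ => (∫ ω, (kwd (setRel ω) k : ℝ) ∂(model n)) / n) atTop
      (𝓝 (1 / ((k : ℝ) + 1))) := by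
  rw [tendsto_order]
  constructor
  · intro a ha
    filter_upwards [eventually_gt_atTop 0] with n hn
    have hnr : (0 : ℝ) < n := by exact_mod_cast hn
    rw [lt_div_iff₀ hnr]
    have := lower_bound (n := n) (k := k) setRel meas_set (fun ω i j h => h)
    nlinarith
  · intro a ha
    -- choose G
    have hlimG : Tendsto (fun G : ℕ => 1 / ((k : ℝ) + 1) + 2 * k / G) atTop
        (𝓝 (1 / ((k : ℝ) + 1) + 0)) :=
      tendsto_const_nhds.add (tendsto_const_div_atTop_nhds_zero_nat _)
    rw [add_zero] at hlimG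
    obtain ⟨G, hGa, hG⟩ := ((hlimG.eventually (gt_mem_nhds ha)).and (eventually_gt_atTop 0)).exists
    have hlim : Tendsto (fun n : ℕ => (1 / ((k : ℝ) + 1) + 2 * k / G)
        + G * (k + 1) * (1 / Real.sqrt n)) atTop
        (𝓝 ((1 / ((k : ℝ) + 1) + 2 * k / G) + G * (k + 1) * 0)) := by
      apply tendsto_const_nhds.add
      apply Tendsto.const_mul
      have h1 : Tendsto (fun n : ℕ => Real.sqrt n) atTop atTop :=
        Real.tendsto_sqrt_atTop.comp tendsto_natCast_atTop_atTop
      simp_rw [one_div]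
      exact h1.inv_tendsto_atTop
    rw [mul_zero, add_zero] at hlim
    filter_upwards [hlim.eventually (gt_mem_nhds hGa), eventually_gt_atTop 0] with n h1 hn
    refine lt_of_le_of_lt ?_ h1
    have hnr : (0 : ℝ) < n := by exact_mod_cast hn
    rw [div_le_iff₀ hnr]
    have h2 := upper_set (n := n) (k := k) hG
    have hs : Real.sqrt n ≠ 0 := by positivity
    have h3 : 1 / Real.sqrt n * n = Real.sqrt n := by
      have := Real.mul_self_sqrt hnr.le
      field_simp
      nlinarith
    calc ∫ ω, (kwd (setRel ω) k : ℝ) ∂(model n)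
        ≤ n * (1 / (k + 1) + 2 * k / G) + G * ((k + 1) * Real.sqrt n) := h2
      _ = (1 / (k + 1) + 2 * k / G + G * (k + 1) * (1 / Real.sqrt n)) * n := by
          have h4 : (1 / ((k : ℝ) + 1) + 2 * k / G + G * (k + 1) * (1 / Real.sqrt n)) * n
              = n * (1 / (k + 1) + 2 * k / G) + G * (k + 1) * (1 / Real.sqrt n * n) := by ring
          rw [h4, h3]; ring

/-- slab of length `L` -/
def slab (n L m : ℕ) : Finset (Fin n) := Finset.univ.filter fun i => i.val / L = m

/-- previous slab -/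
def pslab (n L m : ℕ) : Finset (Fin n) := Finset.univ.filter fun i => i.val / L + 1 = m

lemma slab_card_le (n L m : ℕ) (hL : 0 < L) : (slab n L m).card ≤ L := by
  have : (slab n L m).card ≤ (Finset.range L).card := by
    apply Finset.card_le_card_of_injOn (fun i => i.val % L)
    · intro i _
      simp only [Finset.coe_range, mem_Iio]
      exact Nat.mod_lt _ hL
    · intro i hi j hj hij
      rw [Finset.mem_coe, slab, Finset.mem_filter] at hi hj
      simp only at hij
      apply Fin.ext
      rw [← Nat.div_add_mod i.val L, ← Nat.div_add_mod j.val L, hi.2, hj.2, hij]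
  rwa [Finset.card_range] at this

lemma le_pslab_card (n L m : ℕ) (hL : 0 < L) (hm : 0 < m) (hne : (slab n L m).Nonempty) :
    L ≤ (pslab n L m).card := by
  obtain ⟨i0, hi0⟩ := hne
  rw [slab, Finset.mem_filter] at hi0
  have hn : m * L ≤ n := by
    have h1 : i0.val / L * L ≤ i0.val := Nat.div_mul_le_self _ _
    rw [hi0.2] at h1
    exact h1.trans i0.2.le
  obtain ⟨m', rfl⟩ : ∃ m', m = m' + 1 := ⟨m - 1, by omega⟩
  have hlt : ∀ l : Fin L, m' * L + l.val < n := by
    intro l
    have := l.2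
    have h2 : (m' + 1) * L = m' * L + L := by ring
    omega
  have : (Finset.univ : Finset (Fin L)).card ≤ (pslab n L (m' + 1)).card := by
    apply Finset.card_le_card_of_injOn (fun l => (⟨m' * L + l.val, hlt l⟩ : Fin n))
    · intro l _
      rw [Finset.mem_coe, pslab, Finset.mem_filter]
      refine ⟨Finset.mem_univ _, ?_⟩
      simp only
      have : (m' * L + l.val) / L = m' := by
        rw [mul_comm, Nat.mul_add_div hL, Nat.div_eq_of_lt l.2, add_zero]
      rw [this]
    · intro l _ l' _ hll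
      simp only [Fin.mk.injEq] at hll
      apply Fin.ext
      omega
  rwa [Finset.card_univ, Fintype.card_fin] at this

/-- deterministic upper bound, sequence version -/
lemma kwd_seq_le {n k G M L : ℕ} (hG : 0 < G) (hL : 0 < L) (hM : 0 < M) (hML : n ≤ M * L)
    (ω : Fin n → ℝ × ℝ) (hω : ∀ i, 0 ≤ lo (ω i) ∧ lo (ω i) < hi (ω i) ∧ hi (ω i) ≤ 1) :
    (kwd (seqRel ω) k : ℝ) ≤ L + ∑ m ∈ Finset.Ico 1 M, BB n k G L (pslab n L m) (slab n L m) ω := by
  have hHall : ∀ m, ∃ par : Fin n → Option (Fin n),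
      (∀ y x, par y = some x → y ∈ slab n L m ∧ x ∈ pslab n L m ∧ hi (ω x) ≤ lo (ω y)) ∧
      (∀ x, (Finset.univ.filter fun y => par y = some x).card ≤ k) ∧
      ((slab n L m).filter fun y => par y = none).card
        ≤ Dgrid (pslab n L m) (slab n L m) (fun i => lo (ω i)) (fun i => hi (ω i)) k G := by
    intro m
    have hH := Dgrid_hall (pslab n L m) (slab n L m) (fun i => lo (ω i)) (fun i => hi (ω i)) k G hG
      (fun y _ => ⟨(hω y).1, (hω y).2.1.le.trans (hω y).2.2⟩)
    exact hall (pslab n L m) (slab n L m) (fun i => lo (ω i)) (fun i => hi (ω i)) k _ hH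
  choose par h1 h2 h3 using hHall
  have hkwd : kwd (seqRel ω) k
      ≤ (Finset.univ.filter fun y : Fin n => par (y.val / L) y = none).card := by
    apply kwd_le_of_par _ _ (fun y : Fin n => par (y.val / L) y)
    · intro y x hyx
      have h4 := h1 _ y x hyx
      rw [slab, pslab, Finset.mem_filter, Finset.mem_filter] at h4
      refine ⟨?_, h4.2.2⟩
      have h5 : x.val / L + 1 = y.val / L := h4.2.1.2
      rw [Fin.lt_def]
      by_contra hcon
      push Not at hcon
      have := Nat.div_le_div_right (c := L) hcon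
      omega
    · intro x
      refine le_trans (Finset.card_le_card ?_) (h2 (x.val / L + 1) x)
      intro y hy
      rw [Finset.mem_filter] at hy ⊢
      have h4 := h1 _ y x hy.2
      rw [pslab, Finset.mem_filter (s := Finset.univ)] at h4
      refine ⟨Finset.mem_univ _, ?_⟩
      rw [h4.2.1.2]
      exact hy.2
    · intro x hx
      exact absurd hx.1 (lt_irrefl _)
    · intro x y z hxy hyz
      refine ⟨hxy.1.trans hyz.1, ?_⟩
      have ha := hxy.2
      have hb := hyz.2
      have := (hω y).2.1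
      linarith
  have hsum : (Finset.univ.filter fun y : Fin n => par (y.val / L) y = none).card
      = ∑ m ∈ Finset.range M, ((slab n L m).filter fun y => par m y = none).card := by
    rw [Finset.card_eq_sum_card_fiberwise (f := fun y : Fin n => y.val / L) (t := Finset.range M)]
    · apply Finset.sum_congr rfl
      intro m _
      congr 1
      ext y
      simp only [slab, Finset.mem_filter, Finset.mem_univ, true_and]
      constructor
      · rintro ⟨h4, h5⟩
        rw [h5] at h4
        exact ⟨h5, h4⟩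
      · rintro ⟨h4, h5⟩
        refine ⟨?_, h4⟩
        rw [h4]; exact h5
    · intro y _
      simp only [Finset.coe_range, mem_Iio]
      rw [Nat.div_lt_iff_lt_mul hL]
      exact lt_of_lt_of_le y.2 hML
  have hD0 : ((slab n L 0).filter fun y => par 0 y = none).card ≤ L :=
    (Finset.card_le_card (Finset.filter_subset _ _)).trans (slab_card_le n L 0 hL)
  have hDm : ∀ m ∈ Finset.Ico 1 M, (((slab n L m).filter fun y => par m y = none).card : ℝ)
      ≤ BB n k G L (pslab n L m) (slab n L m) ω := by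
    intro m hm
    rw [Finset.mem_Ico] at hm
    refine le_trans (Nat.cast_le.mpr (h3 m)) ?_
    apply Dgrid_le_BB (Nat.cast_nonneg L)
    rcases (slab n L m).eq_empty_or_nonempty with he | hne
    · exact Or.inr he
    · left
      exact ⟨by exact_mod_cast slab_card_le n L m hL,
        by exact_mod_cast le_pslab_card n L m hL (by omega) hne⟩
  have hsplit : ∑ m ∈ Finset.range M, (((slab n L m).filter fun y => par m y = none).card : ℝ)
      = (((slab n L 0).filter fun y => par 0 y = none).card : ℝ)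
        + ∑ m ∈ Finset.Ico 1 M, (((slab n L m).filter fun y => par m y = none).card : ℝ) := by
    rw [Finset.range_eq_Ico, Finset.sum_eq_sum_Ico_succ_bot hM]
  have hfin : (kwd (seqRel ω) k : ℝ)
      ≤ ∑ m ∈ Finset.range M, (((slab n L m).filter fun y => par m y = none).card : ℝ) := by
    rw [hsum] at hkwd
    exact_mod_cast hkwd
  rw [hsplit] at hfin
  have h4 := Finset.sum_le_sum hDm
  have h5 : (((slab n L 0).filter fun y => par 0 y = none).card : ℝ) ≤ L := by exact_mod_cast hD0
  linarith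

/-- upper bound, sequence version -/
lemma upper_seq {n k G M L : ℕ} (hG : 0 < G) (hL : 0 < L) (hM : 0 < M) (hML : n ≤ M * L) :
    ∫ ω, (kwd (seqRel ω) k : ℝ) ∂(model n)
      ≤ L + M * (L * (1 / (k + 1) + 2 * k / G) + G * ((k + 1) * Real.sqrt n)) := by
  have hB := fun m => BB_int (k := k) (G := G) (L : ℝ) (pslab n L m) (slab n L m)
  have hint : Integrable (fun ω => (L : ℝ)
      + ∑ m ∈ Finset.Ico 1 M, BB n k G L (pslab n L m) (slab n L m) ω) (model n) :=
    (integrable_const _).add (integrable_finsetSum _ fun m _ => (hB m).1)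
  have h1 : ∫ ω, (kwd (seqRel ω) k : ℝ) ∂(model n) ≤ ∫ ω, ((L : ℝ)
      + ∑ m ∈ Finset.Ico 1 M, BB n k G L (pslab n L m) (slab n L m) ω) ∂(model n) := by
    apply integral_mono_ae (integrable_kwd _ meas_seq) hint
    filter_upwards [ae_good n] with ω hω
    exact kwd_seq_le hG hL hM hML ω hω
  refine h1.trans ?_
  rw [integral_add (integrable_const _) (integrable_finsetSum _ fun m _ => (hB m).1),
    integral_const, probReal_univ, one_smul, integral_finsetSum _ fun m _ => (hB m).1]
  have h2 := Finset.sum_le_sum (s := Finset.Ico 1 M) fun m _ => (hB m).2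
  rw [Finset.sum_const, Nat.card_Ico, nsmul_eq_mul] at h2
  have h3 : ((M - 1 : ℕ) : ℝ) ≤ M := by exact_mod_cast Nat.sub_le M 1
  have h4 : 0 ≤ (L : ℝ) * (1 / (k + 1) + 2 * k / G) + G * ((k + 1) * Real.sqrt n) := by positivity
  have h5 := mul_le_mul_of_nonneg_right h3 h4
  linarith

theorem seq_limit (k : ℕ) :
    Tendsto (fun n : ℕ => (∫ ω, (kwd (seqRel ω) k : ℝ) ∂(model n)) / n) atTop
      (𝓝 (1 / ((k : ℝ) + 1))) := by
  rw [tendsto_order]
  constructor
  · intro a ha
    filter_upwards [eventually_gt_atTop 0] with n hn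
    have hnr : (0 : ℝ) < n := by exact_mod_cast hn
    rw [lt_div_iff₀ hnr]
    have := lower_bound (n := n) (k := k) seqRel meas_seq (fun ω i j h => h.2)
    nlinarith
  · intro a ha
    -- choose G
    have hlimG : Tendsto (fun G : ℕ => 1 / ((k : ℝ) + 1) + 2 * k / G) atTop
        (𝓝 (1 / ((k : ℝ) + 1) + 0)) :=
      tendsto_const_nhds.add (tendsto_const_div_atTop_nhds_zero_nat _)
    rw [add_zero] at hlimG
    obtain ⟨G, hGa, hG⟩ := ((hlimG.eventually (gt_mem_nhds ha)).and (eventually_gt_atTop 0)).exists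
    set c : ℝ := 1 / ((k : ℝ) + 1) + 2 * k / G with hc
    have hlimM : Tendsto (fun M : ℕ => 1 / (M : ℝ) + c) atTop (𝓝 (0 + c)) :=
      (tendsto_const_div_atTop_nhds_zero_nat 1).add tendsto_const_nhds
    rw [zero_add] at hlimM
    obtain ⟨M, hMa, hM⟩ := ((hlimM.eventually (gt_mem_nhds hGa)).and (eventually_gt_atTop 0)).exists
    have hlim : Tendsto (fun n : ℕ => (1 / (M : ℝ) + c) + (1 + M * c) * (1 / (n : ℝ))
        + M * G * (k + 1) * (1 / Real.sqrt n)) atTop
        (𝓝 ((1 / (M : ℝ) + c) + (1 + M * c) * 0 + M * G * (k + 1) * 0)) := by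
      apply Tendsto.add
      · exact tendsto_const_nhds.add ((tendsto_const_div_atTop_nhds_zero_nat 1).const_mul _)
      · apply Tendsto.const_mul
        have h1 : Tendsto (fun n : ℕ => Real.sqrt n) atTop atTop :=
          Real.tendsto_sqrt_atTop.comp tendsto_natCast_atTop_atTop
        simp_rw [one_div]
        exact h1.inv_tendsto_atTop
    rw [mul_zero, mul_zero, add_zero, add_zero] at hlim
    filter_upwards [hlim.eventually (gt_mem_nhds hMa), eventually_gt_atTop 0] with n h1 hn
    refine lt_of_le_of_lt ?_ h1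
    have hnr : (0 : ℝ) < n := by exact_mod_cast hn
    have hMr : (0 : ℝ) < M := by exact_mod_cast hM
    rw [div_le_iff₀ hnr]
    have h2 := upper_seq (n := n) (k := k) (L := n / M + 1) hG (Nat.succ_pos _) hM
      (Nat.lt_mul_div_succ n hM).le
    have hLr : ((n / M + 1 : ℕ) : ℝ) ≤ n / M + 1 := by
      push_cast
      have := @Nat.cast_div_le ℝ _ _ _ n M
      linarith
    have hs : Real.sqrt n ≠ 0 := by positivity
    have h3 : 1 / Real.sqrt n * n = Real.sqrt n := by
      have := Real.mul_self_sqrt hnr.le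
      field_simp
      nlinarith
    have hc0 : 0 ≤ c := by positivity
    calc ∫ ω, (kwd (seqRel ω) k : ℝ) ∂(model n)
        ≤ ((n / M + 1 : ℕ) : ℝ) + M * (((n / M + 1 : ℕ) : ℝ) * c + G * ((k + 1) * Real.sqrt n)) := h2
      _ = ((n / M + 1 : ℕ) : ℝ) * (1 + M * c) + M * (G * ((k + 1) * Real.sqrt n)) := by ring
      _ ≤ ((n : ℝ) / M + 1) * (1 + M * c) + M * (G * ((k + 1) * Real.sqrt n)) := by
          have := mul_le_mul_of_nonneg_right hLr (by positivity : 0 ≤ 1 + M * c)
          linarith
      _ = (1 / (M : ℝ) + c + (1 + M * c) * (1 / (n : ℝ))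
          + M * G * (k + 1) * (1 / Real.sqrt n)) * n := by
          have h4 : (1 / (M : ℝ) + c + (1 + M * c) * (1 / (n : ℝ))
              + M * G * (k + 1) * (1 / Real.sqrt n)) * n
              = (1 / (M : ℝ) + c) * n + (1 + M * c) * ((1 / (n : ℝ)) * n)
                + M * G * (k + 1) * (1 / Real.sqrt n * n) := by ring
          rw [h4, h3, one_div_mul_cancel hnr.ne']
          field_simp

end Pool.Agent.Q212.KWidth
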