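import Pool.Agent.Q212.Coin

/-!
# Subset sums of a random lacunary set
-/

namespace Pool.Agent.Q212.LacSums

open MeasureTheory ProbabilityTheory Set Filter Topology
open scoped ENNReal
open Pool.Agent.Q212.Coin

/-- The law of the random set: the integer `i ≥ 1` is selected (`ω i = true`) independently with
probability `min (1, 1 / (i log 2))` (`coin` truncates its parameter to `[0, 1]`). -/
noncomputable def law : Measure (ℕ → Bool) :=
  Measure.infinitePi fun i : ℕ => coin (1 / ((i : ℝ) * Real.log 2))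

instance : IsProbabilityMeasure law := by unfold law; infer_instance

/-- The random set. -/
def setA (ω : ℕ → Bool) : Set ℕ := {i | 0 < i ∧ ω i = true}

/-- The set of sums of finite nonempty subsets of `A`. -/
def sums (A : Set ℕ) : Set ℕ := {s | ∃ F : Finset ℕ, F.Nonempty ∧ (∀ a ∈ F, a ∈ A) ∧ s = ∑ a ∈ F, a}

/-- The normalised density `√(log n) |Σ(A) ∩ [n]| / n`. -/
noncomputable def dens (ω : ℕ → Bool) (n : ℕ) : ℝ :=
  Real.sqrt (Real.log n) * ((sums (setA ω) ∩ Icc 1 n).ncard : ℝ) / n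

/-! ### independence -/

noncomputable def qq (i : ℕ) : ℝ := 1 / ((i : ℝ) * Real.log 2)

lemma iIndepL : iIndepFun (fun (i : ℕ) (ω : ℕ → Bool) => ω i) law := by
  unfold law
  exact iIndepFun_infinitePi (X := fun _ x => x) (by fun_prop)

lemma prob_inter_eval {n : ℕ} {S : Set (ℕ → Bool)} (h : Dep n S) (b : Bool) :
    law.real (S ∩ {ω | ω n = b}) = law.real S * wt (qq n) b := by
  have hind := iIndepL.indepFun_finset (Finset.range n) {n}
    (by simp) (fun i => measurable_pi_apply i)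
  have h1 : {ω : ℕ → Bool | ω n = b}
      = (fun (ω : ℕ → Bool) (i : ({n} : Finset ℕ)) => ω i) ⁻¹' {v | v ⟨n, by simp⟩ = b} := by
    ext ω; simp
  have h2 := hind.measure_inter_preimage_eq_mul {v | ext v ∈ S} {v | v ⟨n, by simp⟩ = b}
    (Set.toFinite _).measurableSet (Set.toFinite _).measurableSet
  rw [← h.eq_preimage, ← h1] at h2
  rw [measureReal_def, h2, ENNReal.toReal_mul]
  congr 1
  have h3 : law {ω | ω n = b} = coin (qq n) {b} := by
    unfold law
    have := (measurePreserving_eval_infinitePi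
      (fun i : ℕ => coin (1 / ((i : ℝ) * Real.log 2))) n).measure_preimage
      (measurableSet_singleton b).nullMeasurableSet
    rw [show coin (qq n) {b} = coin (1 / ((n : ℝ) * Real.log 2)) {b} from rfl, ← this]
    rfl
  rw [h3, coin_singleton, ENNReal.toReal_ofReal (wt_nonneg _ b)]

/-- no element of `(m, n]` is selected -/
def Emp (m n : ℕ) : Set (ℕ → Bool) := {ω | ∀ i, m < i → i ≤ n → ω i = false}

lemma dep_emp (m n : ℕ) : Dep (n + 1) (Emp m n) := by
  intro ω ω' h hω i h1 h2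
  rw [← h i (by omega)]
  exact hω i h1 h2

/-- the probability of an empty block -/
noncomputable def pe (m n : ℕ) : ℝ := ∏ i ∈ Finset.Ico (m + 1) (n + 1), (1 - clamp (qq i))

lemma prob_emp {m : ℕ} {S : Set (ℕ → Bool)} (hS : Dep (m + 1) S) {n : ℕ} (hmn : m ≤ n) :
    law.real (S ∩ Emp m n) = law.real S * pe m n := by
  induction n, hmn using Nat.le_induction with
  | base =>
    have : Emp m m = univ := by
      ext ω
      simp only [Emp, mem_ofPred_eq, mem_univ, iff_true]
      intro i h1 h2; omega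
    rw [this]; simp [pe]
  | succ n hmn ih =>
    have h1 : Emp m (n + 1) = Emp m n ∩ {ω | ω (n + 1) = false} := by
      ext ω
      simp only [Emp, mem_ofPred_eq, mem_inter_iff]
      constructor
      · intro h; exact ⟨fun i hi1 hi2 => h i hi1 (by omega), h (n + 1) (by omega) le_rfl⟩
      · rintro ⟨h2, h3⟩ i hi1 hi2
        rcases Nat.le_succ_iff.mp hi2 with h | h
        · exact h2 i hi1 h
        · rw [h]; exact h3
    have h2 : Dep (n + 1) (S ∩ Emp m n) := (hS.mono (by omega)).inter (dep_emp m n)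
    rw [h1, ← inter_assoc, prob_inter_eval h2, ih]
    unfold pe
    rw [Finset.prod_Ico_succ_top (by omega : m + 1 ≤ n + 1)]
    simp only [wt]
    simp
    ring

/-! ### bounds for the probability of an empty block -/

noncomputable def sx : ℝ := 1 / Real.log 2

lemma log2_pos : 0 < Real.log 2 := Real.log_pos (by norm_num)

lemma sx_ge : 1 ≤ sx := by
  unfold sx
  rw [le_div_iff₀ log2_pos]
  have := Real.log_two_lt_d9
  linarith

lemma sx_le : sx ≤ 2 := by
  unfold sx
  rw [div_le_iff₀ log2_pos]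
  have := Real.log_two_gt_d9
  linarith

lemma clamp_qq {i : ℕ} (hi : 2 ≤ i) : clamp (qq i) = sx / i := by
  have hir : (2 : ℝ) ≤ i := by exact_mod_cast hi
  have hq : qq i = sx / i := by
    unfold qq sx
    rw [one_div, one_div, mul_inv, mul_comm, div_eq_mul_inv]
  rw [hq]
  apply clamp_eq
  · have := sx_ge; positivity
  · rw [div_le_one (by linarith)]
    have := sx_le
    linarith

lemma pe_upper {m n : ℕ} (hm : 1 ≤ m) (hmn : m ≤ n) : pe m n ≤ ((m : ℝ) / n) ^ sx := by
  have hmr : (1 : ℝ) ≤ m := by exact_mod_cast hm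
  induction n, hmn using Nat.le_induction with
  | base =>
    rw [div_self (by positivity), Real.one_rpow]
    simp [pe]
  | succ n hmn ih =>
    have hn1 : 1 ≤ n := hm.trans hmn
    have hnr : (1 : ℝ) ≤ n := by exact_mod_cast hn1
    have h1 : pe m (n + 1) = pe m n * (1 - sx / ((n : ℝ) + 1)) := by
      unfold pe
      rw [Finset.prod_Ico_succ_top (by omega : m + 1 ≤ n + 1), clamp_qq (by omega)]
      push_cast; rfl
    have h2 : 1 - sx / ((n : ℝ) + 1) ≤ ((n : ℝ) / (n + 1)) ^ sx := by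
      have := one_add_mul_self_le_rpow_one_add (s := -1 / ((n : ℝ) + 1))
        (by rw [le_div_iff₀ (by linarith)]; linarith) sx_ge
      have e1 : 1 + sx * (-1 / ((n : ℝ) + 1)) = 1 - sx / ((n : ℝ) + 1) := by ring
      have e2 : 1 + -1 / ((n : ℝ) + 1) = (n : ℝ) / (n + 1) := by
        field_simp; ring
      rw [e1, e2] at this
      exact this
    have h3 : 0 ≤ 1 - sx / ((n : ℝ) + 1) := by
      rw [sub_nonneg, div_le_one (by linarith)]
      have := sx_le; linarith
    rw [h1]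
    calc pe m n * (1 - sx / ((n : ℝ) + 1)) ≤ ((m : ℝ) / n) ^ sx * ((n : ℝ) / (n + 1)) ^ sx := by
          apply mul_le_mul ih h2 h3
          positivity
      _ = ((m : ℝ) / ((n + 1 : ℕ) : ℝ)) ^ sx := by
          rw [← Real.mul_rpow (by positivity) (by positivity)]
          congr 1
          push_cast
          field_simp

lemma pe_lower {m n : ℕ} (hm : 2 ≤ m) (hmn : m ≤ n) :
    (((m : ℝ) - 1) / (n - 1)) ^ sx ≤ pe m n := by
  have hmr : (2 : ℝ) ≤ m := by exact_mod_cast hm
  induction n, hmn using Nat.le_induction with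
  | base =>
    have : (m : ℝ) - 1 ≠ 0 := by intro h; linarith
    rw [div_self this, Real.one_rpow]
    simp [pe]
  | succ n hmn ih =>
    have hn1 : 2 ≤ n := hm.trans hmn
    have hnr : (2 : ℝ) ≤ n := by exact_mod_cast hn1
    have h1 : pe m (n + 1) = pe m n * (1 - sx / ((n : ℝ) + 1)) := by
      unfold pe
      rw [Finset.prod_Ico_succ_top (by omega : m + 1 ≤ n + 1), clamp_qq (by omega)]
      push_cast; rfl
    have hs2 := sx_le
    have hs1 := sx_ge
    have h3 : 0 < 1 - sx / ((n : ℝ) + 1) := by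
      rw [sub_pos, div_lt_one (by linarith)]
      linarith
    have h2 : (((n : ℝ) - 1) / n) ^ sx ≤ 1 - sx / ((n : ℝ) + 1) := by
      have hb := one_add_mul_self_le_rpow_one_add (s := 1 / ((n : ℝ) - 1))
        (by
          have : 0 ≤ 1 / ((n : ℝ) - 1) := by
            apply div_nonneg zero_le_one; linarith
          linarith) sx_ge
      have e2 : 1 + 1 / ((n : ℝ) - 1) = (n : ℝ) / (n - 1) := by
        have : (n : ℝ) - 1 ≠ 0 := by intro h; linarith
        field_simp; ring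
      rw [e2] at hb
      have hb2 : (1 - sx / ((n : ℝ) + 1))⁻¹ ≤ ((n : ℝ) / (n - 1)) ^ sx := by
        refine le_trans ?_ hb
        rw [inv_le_iff_one_le_mul₀ h3]
        have hp : 0 < (n : ℝ) - 1 := by linarith
        have hp2 : 0 < (n : ℝ) + 1 := by linarith
        have e3 : (1 + sx * (1 / ((n : ℝ) - 1))) * (1 - sx / ((n : ℝ) + 1))
            = ((n : ℝ) - 1 + sx) * (n + 1 - sx) / ((n - 1) * (n + 1)) := by
          field_simp
        rw [e3, le_div_iff₀ (by positivity)]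
        nlinarith
      have hinv : (((n : ℝ) - 1) / n) ^ sx = (((n : ℝ) / (n - 1)) ^ sx)⁻¹ := by
        rw [← Real.inv_rpow (by apply div_nonneg <;> linarith), inv_div]
      rw [hinv]
      have hpos : 0 < ((n : ℝ) / (n - 1)) ^ sx := by
        apply Real.rpow_pos_of_pos
        apply div_pos <;> linarith
      rw [inv_le_comm₀ hpos h3]
      exact hb2
    rw [h1]
    have hn1' : 0 < (n : ℝ) - 1 := by linarith
    have hm1' : 0 < (m : ℝ) - 1 := by linarith
    have hn0 : 0 < (n : ℝ) := by linarith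
    calc (((m : ℝ) - 1) / (((n + 1 : ℕ) : ℝ) - 1)) ^ sx
        = (((m : ℝ) - 1) / (n - 1)) ^ sx * (((n : ℝ) - 1) / n) ^ sx := by
          rw [← Real.mul_rpow (by positivity) (by positivity)]
          congr 1
          rw [show ((n + 1 : ℕ) : ℝ) - 1 = n by push_cast; ring]
          field_simp
      _ ≤ pe m n * (1 - sx / ((n : ℝ) + 1)) := by
          apply mul_le_mul ih h2 (by positivity)
          exact le_trans (by positivity) ih

lemma two_rpow (k : ℕ) : ((1 : ℝ) / 2 ^ k) ^ sx = Real.exp (-k) := by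
  have h2 : (0 : ℝ) < 1 / 2 ^ k := by positivity
  rw [Real.rpow_def_of_pos h2]
  congr 1
  rw [one_div, Real.log_inv, Real.log_pow]
  unfold sx
  have := log2_pos
  field_simp

/-- block probabilities for `(2^j, 2^(j+k)]` -/
lemma pe_dyadic_upper (j k : ℕ) : pe (2 ^ j) (2 ^ (j + k)) ≤ Real.exp (-k) := by
  have h := pe_upper (m := 2 ^ j) (n := 2 ^ (j + k)) Nat.one_le_two_pow
    (Nat.pow_le_pow_right (by norm_num) (by omega))
  refine h.trans (le_of_eq ?_)
  rw [← two_rpow]
  congr 1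
  push_cast
  rw [pow_add]
  field_simp

lemma pe_dyadic_lower (j k : ℕ) (hj : 2 ≤ j) : Real.exp (-k) / 4 ≤ pe (2 ^ j) (2 ^ (j + k)) := by
  have h4 : (4 : ℝ) ≤ 2 ^ j := by
    calc (4 : ℝ) = 2 ^ 2 := by norm_num
      _ ≤ 2 ^ j := pow_le_pow_right₀ (by norm_num) hj
  have h := pe_lower (m := 2 ^ j) (n := 2 ^ (j + k))
    (by calc 2 ≤ 2 ^ 2 := by norm_num
          _ ≤ 2 ^ j := Nat.pow_le_pow_right (by norm_num) hj)
    (Nat.pow_le_pow_right (by norm_num) (by omega))
  refine le_trans ?_ h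
  push_cast
  have hpow : (2 : ℝ) ^ j ≤ 2 ^ (j + k) := pow_le_pow_right₀ (by norm_num) (by omega)
  have hstep : ((1 : ℝ) / 2 ^ k) ^ sx * ((1 : ℝ) / 2) ^ sx
      ≤ (((2 : ℝ) ^ j - 1) / (2 ^ (j + k) - 1)) ^ sx := by
    rw [← Real.mul_rpow (by positivity) (by positivity)]
    apply Real.rpow_le_rpow (by positivity) _ (le_trans zero_le_one sx_ge)
    rw [le_div_iff₀ (by linarith)]
    have e1 : (2 : ℝ) ^ (j + k) = 2 ^ j * 2 ^ k := pow_add _ _ _
    have hk : (0 : ℝ) < 2 ^ k := by positivity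
    have e2 : (1 : ℝ) / 2 ^ k * (1 / 2) * (2 ^ (j + k) - 1)
        = 2 ^ j / 2 - 1 / 2 ^ k / 2 := by
      rw [e1]; field_simp
    rw [e2]
    have : 0 < (1 : ℝ) / 2 ^ k := by positivity
    linarith
  refine le_trans ?_ hstep
  rw [two_rpow]
  have h3 : (1 / 4 : ℝ) ≤ ((1 : ℝ) / 2) ^ sx := by
    calc (1 / 4 : ℝ) = ((1 : ℝ) / 2) ^ (2 : ℝ) := by norm_num
      _ ≤ ((1 : ℝ) / 2) ^ sx :=
        Real.rpow_le_rpow_of_exponent_ge (by norm_num) (by norm_num) sx_le
  have := Real.exp_pos (-k)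
  nlinarith

/-! ### the sum of the elements up to `m` -/

/-- sum of the selected elements up to `m` -/
def TT (m : ℕ) (ω : ℕ → Bool) : ℕ := ∑ i ∈ Finset.Icc 1 m, if ω i = true then i else 0

lemma count_le {m n : ℕ} {ω : ℕ → Bool} (h : ω ∈ Emp m n) :
    (sums (setA ω) ∩ Icc 1 n).ncard ≤ TT m ω := by
  have hsub : sums (setA ω) ∩ Icc 1 n ⊆ (Finset.Icc 1 (TT m ω) : Set ℕ) := by
    rintro s ⟨⟨F, _, hFA, rfl⟩, hs1, hs2⟩
    rw [Finset.coe_Icc]
    refine ⟨hs1, ?_⟩
    have hFm : F ⊆ (Finset.Icc 1 m).filter fun i => ω i = true := by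
      intro a ha
      have h1 := hFA a ha
      have h2 : a ≤ ∑ a ∈ F, a := Finset.single_le_sum (f := fun a => a) (fun _ _ => Nat.zero_le _) ha
      rw [Finset.mem_filter, Finset.mem_Icc]
      refine ⟨⟨h1.1, ?_⟩, h1.2⟩
      by_contra hcon
      push Not at hcon
      have h3 := h a hcon (h2.trans hs2)
      have h4 := h1.2
      rw [h3] at h4
      exact absurd h4 (by simp)
    unfold TT
    rw [← Finset.sum_filter]
    exact Finset.sum_le_sum_of_subset hFm
  refine (Set.ncard_le_ncard hsub (Finset.finite_toSet _)).trans ?_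
  rw [Set.ncard_coe_finset, Nat.card_Icc]
  omega

lemma dep_TT (m : ℕ) (x : ℝ) : Dep (m + 1) {ω | x < TT m ω} := by
  intro ω ω' h hω
  have : TT m ω' = TT m ω := by
    unfold TT
    apply Finset.sum_congr rfl
    intro i hi
    have := (Finset.mem_Icc.mp hi).2
    rw [h i (by omega)]
  simp only [mem_ofPred_eq] at hω ⊢
  rw [this]; exact hω

lemma prob_true (i : ℕ) : law.real {ω | ω i = true} = clamp (qq i) := by
  have h := prob_inter_eval (n := i) (S := univ) (fun _ _ _ _ => trivial) true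
  rw [univ_inter, probReal_univ, one_mul] at h
  rw [h]; simp [wt]

lemma clamp_qq_le {i : ℕ} (hi : 1 ≤ i) : (i : ℝ) * clamp (qq i) ≤ 2 := by
  have hir : (1 : ℝ) ≤ i := by exact_mod_cast hi
  have h1 : clamp (qq i) ≤ sx / i := by
    have hq : qq i = sx / i := by
      unfold qq sx
      rw [one_div, one_div, mul_inv, mul_comm, div_eq_mul_inv]
    rw [hq]
    unfold clamp
    apply max_le
    · have := sx_ge; positivity
    · exact min_le_left _ _
  calc (i : ℝ) * clamp (qq i) ≤ i * (sx / i) := mul_le_mul_of_nonneg_left h1 (by positivity)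
    _ = sx := by field_simp
    _ ≤ 2 := sx_le

lemma TT_markov (m : ℕ) (K : ℝ) (hK : 0 < K) (hm : 1 ≤ m) :
    law.real {ω | K * m < TT m ω} ≤ 2 / K := by
  have hmr : (1 : ℝ) ≤ m := by exact_mod_cast hm
  have hTT : ∀ ω, (TT m ω : ℝ) = ∑ i ∈ Finset.Icc 1 m,
      ({ω : ℕ → Bool | ω i = true}.indicator (fun _ => (i : ℝ)) ω) := by
    intro ω
    unfold TT
    push_cast
    apply Finset.sum_congr rfl
    intro i _
    by_cases h : ω i = true
    · rw [if_pos h, indicator_of_mem (show ω ∈ {ω : ℕ → Bool | ω i = true} from h)]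
    · rw [if_neg h, indicator_of_notMem (show ω ∉ {ω : ℕ → Bool | ω i = true} from h)]
  have hms : ∀ i, MeasurableSet {ω : ℕ → Bool | ω i = true} := fun i =>
    (dep_eval i true).measurable
  have hint : ∀ i, Integrable ({ω : ℕ → Bool | ω i = true}.indicator (fun _ => (i : ℝ))) law :=
    fun i => (integrable_const _).indicator (hms i)
  have hintT : Integrable (fun ω => (TT m ω : ℝ)) law := by
    simp_rw [hTT]
    exact integrable_finsetSum _ fun i _ => hint i
  have hE : ∫ ω, (TT m ω : ℝ) ∂law ≤ 2 * m := by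
    simp_rw [hTT]
    rw [integral_finsetSum _ fun i _ => hint i]
    have h1 : ∀ i ∈ Finset.Icc 1 m,
        ∫ ω, {ω : ℕ → Bool | ω i = true}.indicator (fun _ => (i : ℝ)) ω ∂law ≤ 2 := by
      intro i hi
      rw [integral_indicator_const _ (hms i), prob_true, smul_eq_mul, mul_comm]
      exact clamp_qq_le (Finset.mem_Icc.mp hi).1
    refine (Finset.sum_le_sum h1).trans (le_of_eq ?_)
    rw [Finset.sum_const, Nat.card_Icc, nsmul_eq_mul, Nat.add_sub_cancel]
    ring
  have hM := mul_meas_ge_le_integral_of_nonneg (μ := law)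
    (Eventually.of_forall fun ω => (Nat.cast_nonneg (TT m ω) : (0 : ℝ) ≤ _)) hintT (K * m)
  have hsub : {ω | K * m < (TT m ω : ℝ)} ⊆ {ω | K * m ≤ (TT m ω : ℝ)} := by
    intro ω hω
    have : K * m < (TT m ω : ℝ) := hω
    exact this.le
  have h2 := measureReal_mono (μ := law) hsub (by finiteness)
  rw [le_div_iff₀ hK]
  have h3 : 0 ≤ law.real {ω | K * m ≤ (TT m ω : ℝ)} := measureReal_nonneg
  have h4 : K * m * law.real {ω | K * m < (TT m ω : ℝ)} ≤ 2 * m := by
    calc K * m * law.real {ω | K * m < (TT m ω : ℝ)}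
        ≤ K * m * law.real {ω | K * m ≤ (TT m ω : ℝ)} :=
          mul_le_mul_of_nonneg_left h2 (by positivity)
      _ ≤ 2 * m := hM.trans hE
  have h5 : law.real {ω | K * m < (TT m ω : ℝ)} * K * m ≤ 2 * m := by linarith
  exact le_of_mul_le_mul_right h5 (by linarith)

/-! ### the main construction -/

/-- none of the first `L` blocks is empty -/
def NoEmp (k L : ℕ) : Set (ℕ → Bool) :=
  {ω | ∀ l < L, ω ∉ Emp (2 ^ (k * (l + 1))) (2 ^ (k * (l + 2)))}

lemma dep_noEmp (k L : ℕ) : Dep (2 ^ (k * (L + 1)) + 1) (NoEmp k L) := by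
  intro ω ω' h hω l hl hmem
  apply hω l hl
  refine dep_emp _ _ ω' ω ?_ hmem
  intro i hi
  refine (h i (lt_of_lt_of_le hi ?_)).symm
  have : 2 ^ (k * (l + 2)) ≤ 2 ^ (k * (L + 1)) :=
    Nat.pow_le_pow_right (by norm_num) (Nat.mul_le_mul_left k (by omega))
  omega

lemma prob_noEmp (k : ℕ) (hk : 2 ≤ k) (L : ℕ) :
    law.real (NoEmp k L) ≤ (1 - Real.exp (-k) / 4) ^ L := by
  have he : Real.exp (-(k : ℝ)) ≤ 1 := by
    rw [Real.exp_le_one_iff]
    have : (0 : ℝ) ≤ k := Nat.cast_nonneg k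
    linarith
  have he0 := Real.exp_pos (-(k : ℝ))
  induction L with
  | zero => rw [pow_zero]; exact measureReal_le_one
  | succ L ih =>
    have h1 : NoEmp k (L + 1) = NoEmp k L \ (NoEmp k L ∩ Emp (2 ^ (k * (L + 1))) (2 ^ (k * (L + 2)))) := by
      ext ω
      simp only [NoEmp, Set.mem_sdiff, mem_inter_iff, mem_ofPred_eq]
      constructor
      · intro h; exact ⟨fun l hl => h l (by omega), fun h' => h L (by omega) h'.2⟩
      · rintro ⟨h2, h3⟩ l hl
        rcases Nat.lt_succ_iff_lt_or_eq.mp hl with h | h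
        · exact h2 l h
        · rw [h]; exact fun h' => h3 ⟨h2, h'⟩
    have hms : MeasurableSet (NoEmp k L ∩ Emp (2 ^ (k * (L + 1))) (2 ^ (k * (L + 2)))) :=
      (dep_noEmp k L).measurable.inter (dep_emp _ _).measurable
    rw [h1, measureReal_sdiff inter_subset_left hms,
      prob_emp (dep_noEmp k L) (Nat.pow_le_pow_right (by norm_num) (Nat.mul_le_mul_left k (by omega)))]
    have hlow := pe_dyadic_lower (k * (L + 1)) k (by nlinarith)
    have hexp : k * (L + 1) + k = k * (L + 2) := by ring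
    rw [hexp] at hlow
    have h0 : 0 ≤ law.real (NoEmp k L) := measureReal_nonneg
    calc law.real (NoEmp k L) - law.real (NoEmp k L) * pe (2 ^ (k * (L + 1))) (2 ^ (k * (L + 2)))
        = law.real (NoEmp k L) * (1 - pe (2 ^ (k * (L + 1))) (2 ^ (k * (L + 2)))) := by ring
      _ ≤ law.real (NoEmp k L) * (1 - Real.exp (-k) / 4) :=
          mul_le_mul_of_nonneg_left (by linarith) h0
      _ ≤ (1 - Real.exp (-k) / 4) ^ L * (1 - Real.exp (-k) / 4) :=
          mul_le_mul_of_nonneg_right ih (by linarith)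
      _ = _ := by rw [pow_succ]

/-- number of blocks -/
noncomputable def LL (k : ℕ) : ℕ := ⌈(k : ℝ) * Real.exp k⌉₊

/-- the good event -/
def GG (k : ℕ) : Set (ℕ → Bool) :=
  {ω | ∃ l < LL k, ω ∈ Emp (2 ^ (k * (l + 1))) (2 ^ (k * (l + 2))) ∧
    (TT (2 ^ (k * (l + 1))) ω : ℝ) ≤ (k : ℝ) ^ 2 * ((2 ^ (k * (l + 1)) : ℕ) : ℝ)}

lemma prob_GG (k : ℕ) (hk : 2 ≤ k) :
    law.real (GG k)ᶜ ≤ Real.exp (-(k / 4)) + 4 / k := by
  have hkr : (2 : ℝ) ≤ k := by exact_mod_cast hk
  have he0 := Real.exp_pos (-(k : ℝ))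
  have he : Real.exp (-(k : ℝ)) ≤ 1 := by
    rw [Real.exp_le_one_iff]; linarith
  have hee : Real.exp (k : ℝ) * Real.exp (-(k : ℝ)) = 1 := by
    rw [← Real.exp_add, add_neg_cancel, Real.exp_zero]
  have hLlow : (k : ℝ) * Real.exp k ≤ LL k := Nat.le_ceil _
  have hLup : (LL k : ℝ) ≤ k * Real.exp k + 1 := (Nat.ceil_lt_add_one (by positivity)).le
  have hsub : (GG k)ᶜ ⊆ NoEmp k (LL k) ∪ ⋃ l ∈ Finset.range (LL k),
      ({ω | (k : ℝ) ^ 2 * ((2 ^ (k * (l + 1)) : ℕ) : ℝ) < TT (2 ^ (k * (l + 1))) ω} ∩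
        Emp (2 ^ (k * (l + 1))) (2 ^ (k * (l + 2)))) := by
    intro ω hω
    by_cases h : ω ∈ NoEmp k (LL k)
    · left; exact h
    · right
      simp only [NoEmp, mem_ofPred_eq, not_forall, not_not] at h
      obtain ⟨l, hl, hmem⟩ := h
      simp only [mem_iUnion, Finset.mem_range, mem_inter_iff, mem_ofPred_eq, exists_prop]
      refine ⟨l, hl, ?_, hmem⟩
      by_contra hcon
      push Not at hcon
      exact hω ⟨l, hl, hmem, hcon⟩
  have h1 : law.real (GG k)ᶜ ≤ law.real (NoEmp k (LL k)) + ∑ l ∈ Finset.range (LL k),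
      law.real ({ω | (k : ℝ) ^ 2 * ((2 ^ (k * (l + 1)) : ℕ) : ℝ) < TT (2 ^ (k * (l + 1))) ω} ∩
        Emp (2 ^ (k * (l + 1))) (2 ^ (k * (l + 2)))) := by
    refine (measureReal_mono hsub (by finiteness)).trans ((measureReal_union_le _ _).trans ?_)
    gcongr
    exact measureReal_biUnion_finset_le _ _
  have h2 : ∀ l ∈ Finset.range (LL k),
      law.real ({ω | (k : ℝ) ^ 2 * ((2 ^ (k * (l + 1)) : ℕ) : ℝ) < TT (2 ^ (k * (l + 1))) ω} ∩
        Emp (2 ^ (k * (l + 1))) (2 ^ (k * (l + 2)))) ≤ 2 / (k : ℝ) ^ 2 * Real.exp (-k) := by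
    intro l _
    rw [prob_emp (dep_TT _ _) (Nat.pow_le_pow_right (by norm_num)
      (Nat.mul_le_mul_left k (by omega)))]
    have h3 := TT_markov (2 ^ (k * (l + 1))) ((k : ℝ) ^ 2) (by positivity) Nat.one_le_two_pow
    have h4 := pe_dyadic_upper (k * (l + 1)) k
    have hexp : k * (l + 1) + k = k * (l + 2) := by ring
    rw [hexp] at h4
    apply mul_le_mul h3 h4 _ (by positivity)
    have := pe_dyadic_lower (k * (l + 1)) k (by nlinarith)
    rw [hexp] at this
    exact le_trans (by positivity) this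
  have h3 := Finset.sum_le_sum h2
  rw [Finset.sum_const, Finset.card_range, nsmul_eq_mul] at h3
  have h4 : (LL k : ℝ) * (2 / (k : ℝ) ^ 2 * Real.exp (-k)) ≤ 4 / k := by
    have h5 : (LL k : ℝ) * Real.exp (-k) ≤ 2 * k := by
      calc (LL k : ℝ) * Real.exp (-k) ≤ (k * Real.exp k + 1) * Real.exp (-k) :=
            mul_le_mul_of_nonneg_right hLup he0.le
        _ = k * (Real.exp k * Real.exp (-k)) + Real.exp (-k) := by ring
        _ ≤ 2 * k := by rw [hee]; linarith
    calc (LL k : ℝ) * (2 / (k : ℝ) ^ 2 * Real.exp (-k))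
        = (2 / (k : ℝ) ^ 2) * ((LL k : ℝ) * Real.exp (-k)) := by ring
      _ ≤ (2 / (k : ℝ) ^ 2) * (2 * k) := mul_le_mul_of_nonneg_left h5 (by positivity)
      _ = 4 / k := by field_simp; norm_num
  have h5 : law.real (NoEmp k (LL k)) ≤ Real.exp (-(k / 4)) := by
    refine (prob_noEmp k hk (LL k)).trans ?_
    have h6 : 1 - Real.exp (-(k : ℝ)) / 4 ≤ Real.exp (-(Real.exp (-(k : ℝ)) / 4)) := by
      have := Real.add_one_le_exp (-(Real.exp (-(k : ℝ)) / 4))
      linarith
    calc (1 - Real.exp (-(k : ℝ)) / 4) ^ LL k ≤ (Real.exp (-(Real.exp (-(k : ℝ)) / 4))) ^ LL k :=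
          pow_le_pow_left₀ (by linarith) h6 _
      _ = Real.exp (LL k * (-(Real.exp (-(k : ℝ)) / 4))) := by rw [← Real.exp_nat_mul]
      _ ≤ Real.exp (-(k / 4)) := by
          apply Real.exp_le_exp.mpr
          have : (k : ℝ) ≤ LL k * Real.exp (-k) := by
            calc (k : ℝ) = k * (Real.exp k * Real.exp (-k)) := by rw [hee, mul_one]
              _ = (k * Real.exp k) * Real.exp (-k) := by ring
              _ ≤ LL k * Real.exp (-k) := mul_le_mul_of_nonneg_right hLlow he0.le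
          linarith
  linarith

/-- on the good event the density is small at some `n` -/
lemma dens_small (k : ℕ) (hk : 2 ≤ k) {ω : ℕ → Bool} (hω : ω ∈ GG k) :
    ∃ n ≥ k, dens ω n ≤ 2 * ((k : ℝ) ^ 3 * (Real.exp (1 / 2) / 2) ^ k) := by
  have hkr : (2 : ℝ) ≤ k := by exact_mod_cast hk
  obtain ⟨l, hl, hE, hT⟩ := hω
  refine ⟨2 ^ (k * (l + 2)), ?_, ?_⟩
  · calc k ≤ 2 ^ k := Nat.lt_two_pow_self.le
      _ ≤ 2 ^ (k * (l + 2)) := Nat.pow_le_pow_right (by norm_num) (by nlinarith)
  · unfold dens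
    have hc := count_le hE
    have hcr : ((sums (setA ω) ∩ Icc 1 (2 ^ (k * (l + 2)))).ncard : ℝ)
        ≤ (k : ℝ) ^ 2 * 2 ^ (k * (l + 1)) := by
      have : ((sums (setA ω) ∩ Icc 1 (2 ^ (k * (l + 2)))).ncard : ℝ)
        ≤ TT (2 ^ (k * (l + 1))) ω := by exact_mod_cast hc
      refine this.trans (hT.trans (le_of_eq ?_))
      push_cast; rfl
    have hexp1 : 1 ≤ Real.exp (k : ℝ) := Real.one_le_exp (by linarith)
    have hlog : Real.log ((2 ^ (k * (l + 2)) : ℕ) : ℝ) ≤ (2 * k * Real.exp (k / 2)) ^ 2 := by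
      push_cast
      rw [Real.log_pow]
      have hl2 : Real.log 2 ≤ 1 := by have := Real.log_two_lt_d9; linarith
      have hlr : ((l : ℝ) + 1) ≤ k * Real.exp k + 1 := by
        have h1 : ((l + 1 : ℕ) : ℝ) ≤ LL k := by exact_mod_cast hl
        have h2 : (LL k : ℝ) ≤ k * Real.exp k + 1 := (Nat.ceil_lt_add_one (by positivity)).le
        push_cast at h1
        linarith
      have hsq : (2 * (k : ℝ) * Real.exp (k / 2)) ^ 2 = 4 * k ^ 2 * Real.exp k := by
        rw [mul_pow, mul_pow, ← Real.exp_nat_mul]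
        norm_num
        left
        congr 1; ring
      rw [hsq]
      push_cast
      have h0 : (0 : ℝ) ≤ k * (l + 2) := by positivity
      calc (k : ℝ) * (l + 2) * Real.log 2 ≤ k * (l + 2) * 1 := mul_le_mul_of_nonneg_left hl2 h0
        _ ≤ k * (k * Real.exp k + 2) := by nlinarith
        _ ≤ 4 * k ^ 2 * Real.exp k := by
            have : (k : ℝ) * 2 ≤ k * k * Real.exp k := by
              calc (k : ℝ) * 2 ≤ k * k := by nlinarith
                _ = k * k * 1 := by ring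
                _ ≤ k * k * Real.exp k := mul_le_mul_of_nonneg_left hexp1 (by positivity)
            have h5 : 0 ≤ (k : ℝ) ^ 2 * Real.exp k := by positivity
            nlinarith
    have hsqrt : Real.sqrt (Real.log ((2 ^ (k * (l + 2)) : ℕ) : ℝ)) ≤ 2 * k * Real.exp (k / 2) := by
      rw [Real.sqrt_le_left (by positivity)]
      exact hlog
    have hnpos : (0 : ℝ) < ((2 ^ (k * (l + 2)) : ℕ) : ℝ) := by positivity
    rw [div_le_iff₀ hnpos]
    calc Real.sqrt (Real.log ((2 ^ (k * (l + 2)) : ℕ) : ℝ)) *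
          ((sums (setA ω) ∩ Icc 1 (2 ^ (k * (l + 2)))).ncard : ℝ)
        ≤ (2 * k * Real.exp (k / 2)) * ((k : ℝ) ^ 2 * 2 ^ (k * (l + 1))) := by
          apply mul_le_mul hsqrt hcr (Nat.cast_nonneg _) (by positivity)
      _ = 2 * ((k : ℝ) ^ 3 * (Real.exp (1 / 2) / 2) ^ k) * ((2 ^ (k * (l + 2)) : ℕ) : ℝ) := by
          have e1 : Real.exp ((k : ℝ) / 2) = Real.exp (1 / 2) ^ k := by
            rw [← Real.exp_nat_mul]; congr 1; ring
          have e2 : (2 : ℝ) ^ (k * (l + 2)) = 2 ^ (k * (l + 1)) * 2 ^ k := by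
            rw [← pow_add]; congr 1
          push_cast
          rw [e1, e2, div_pow]
          field_simp

lemma ratio_lt_one : Real.exp (1 / 2) / 2 < 1 := by
  have h1 : Real.exp (1 / 2) ^ 2 = Real.exp 1 := by
    rw [← Real.exp_nat_mul]; norm_num
  have h2 := Real.exp_one_lt_d9
  have h3 : Real.exp (1 / 2) < 2 := by
    apply lt_of_pow_lt_pow_left₀ 2 (by norm_num)
    rw [h1]; linarith
  linarith

theorem liminf_zero : ∀ᵐ ω ∂law, ∀ ε > 0, ∃ᶠ n in atTop, dens ω n < ε := by
  -- infinitely many good events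
  have hio : ∀ᵐ ω ∂law, ∀ k₀ : ℕ, ∃ k ≥ k₀, 2 ≤ k ∧ ω ∈ GG k := by
    rw [ae_all_iff]
    intro k₀
    rw [ae_iff]
    have hle : ∀ k ≥ max k₀ 2, law.real {ω | ¬ ∃ k ≥ k₀, 2 ≤ k ∧ ω ∈ GG k}
        ≤ Real.exp (-(k / 4)) + 4 / k := by
      intro k hk
      have hk1 : k₀ ≤ k := (le_max_left _ _).trans hk
      have hk2 : 2 ≤ k := (le_max_right _ _).trans hk
      refine le_trans (measureReal_mono ?_ (by finiteness)) (prob_GG k hk2)
      intro ω hω hmem
      exact hω ⟨k, hk1, hk2, hmem⟩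
    have hlim : Tendsto (fun k : ℕ => Real.exp (-((k : ℝ) / 4)) + 4 / k) atTop (𝓝 (0 + 0)) := by
      apply Tendsto.add
      · apply Real.tendsto_exp_neg_atTop_nhds_zero.comp
        exact tendsto_natCast_atTop_atTop.atTop_div_const (by norm_num)
      · exact tendsto_const_div_atTop_nhds_zero_nat 4
    rw [add_zero] at hlim
    have h0 : law.real {ω | ¬ ∃ k ≥ k₀, 2 ≤ k ∧ ω ∈ GG k} ≤ 0 :=
      ge_of_tendsto hlim (eventually_atTop.mpr ⟨max k₀ 2, hle⟩)
    have h1 : law.real {ω | ¬ ∃ k ≥ k₀, 2 ≤ k ∧ ω ∈ GG k} = 0 := le_antisymm h0 measureReal_nonneg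
    rwa [measureReal_eq_zero_iff] at h1
  filter_upwards [hio] with ω hω
  intro ε hε
  have hlim : Tendsto (fun k : ℕ => 2 * ((k : ℝ) ^ 3 * (Real.exp (1 / 2) / 2) ^ k)) atTop
      (𝓝 (2 * 0)) := by
    apply Tendsto.const_mul
    apply tendsto_pow_const_mul_const_pow_of_abs_lt_one
    rw [abs_of_pos (by positivity)]
    exact ratio_lt_one
  rw [mul_zero] at hlim
  obtain ⟨k₁, hk₁⟩ := eventually_atTop.mp (hlim.eventually (gt_mem_nhds hε))
  rw [frequently_atTop]
  intro N
  obtain ⟨k, hk, hk2, hG⟩ := hω (max k₁ N)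
  obtain ⟨n, hn, hd⟩ := dens_small k hk2 hG
  exact ⟨n, (le_max_right _ _).trans (hk.trans hn), lt_of_le_of_lt hd (hk₁ k ((le_max_left _ _).trans hk))⟩

theorem not_tendsto (C : ℝ) (hC : 0 < C) : ∀ᵐ ω ∂law, ¬ Tendsto (dens ω) atTop (𝓝 C) := by
  filter_upwards [liminf_zero] with ω hω hT
  have h1 := hω (C / 2) (by linarith)
  have h2 : ∀ᶠ n in atTop, C / 2 < dens ω n := hT.eventually (lt_mem_nhds (by linarith))
  exact h1 (h2.mono fun n hn => not_lt.mpr hn.le)

end Pool.Agent.Q212.LacSums
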