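import Mathlib

/-! Spatial mixing of the invariant measure of an ergodic probabilistic cellular automaton. -/

set_option autoImplicit false
open MeasureTheory ProbabilityTheory Filter Topology Set

namespace Pool.Agent.Q212.PCA

/-- Configurations on `ℤ^d` with symbols in `S`. -/
abbrev Conf (d : ℕ) (S : Type) := (Fin d → ℤ) → S

/-- A probabilistic cellular automaton on `ℤ^d` with alphabet `S`: the neighbourhood
`nb 0, …, nb (m - 1)` and the local rule, which gives a probability distribution on `S` for every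
tuple of `m` symbols. -/
structure Auto (d : ℕ) (S : Type) [MeasurableSpace S] where
  m : ℕ
  nb : Fin m → Fin d → ℤ
  rule : (Fin m → S) → Measure S
  prob : ∀ a, IsProbabilityMeasure (rule a)

variable {d : ℕ} {S : Type} [Fintype S] [MeasurableSpace S] [MeasurableSingletonClass S]
  [TopologicalSpace S] [DiscreteTopology S]

/-- The transition kernel: given `x`, the new symbols at the sites `i` are independent with the laws
`rule (x (i + nb 0), …, x (i + nb (m - 1)))`. -/
noncomputable def Auto.law {d : ℕ} {S : Type} [MeasurableSpace S] (P : Auto d S) (x : Conf d S) :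
    Measure (Conf d S) :=
  Measure.infinitePi (fun i => P.rule (fun j => x (i + P.nb j)))

/-- `μ ↦ μ Φ = ∫ Φ(x, ·) μ(dx)`. -/
noncomputable def Auto.step {d : ℕ} {S : Type} [MeasurableSpace S] (P : Auto d S)
    (μ : Measure (Conf d S)) : Measure (Conf d S) :=
  μ.bind P.law

/-- The shift `(σ^k x)_i = x_(i + k)`. -/
def shift {d : ℕ} {S : Type} (k : Fin d → ℤ) (x : Conf d S) : Conf d S := fun i => x (i + k)

/-- The cylinder `[u]`, `u` given on `A`. -/
def cyl {d : ℕ} {S : Type} (A : Finset (Fin d → ℤ)) (u : Conf d S) : Set (Conf d S) :=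
  {x | ∀ i ∈ A, x i = u i}

/-- `π` is the unique invariant probability measure and `μ Φ^t → π` weakly for all `μ`. -/
def IsErgodicPCA {d : ℕ} {S : Type} [MeasurableSpace S] [TopologicalSpace S] (P : Auto d S)
    (π : Measure (Conf d S)) : Prop :=
  IsProbabilityMeasure π ∧ P.step π = π ∧
  (∀ π' : Measure (Conf d S), IsProbabilityMeasure π' → P.step π' = π' → π' = π) ∧
  ∀ μ : Measure (Conf d S), IsProbabilityMeasure μ → ∀ f : Conf d S → ℝ, Continuous f →
    Tendsto (fun t : ℕ => ∫ x, f x ∂(P.step^[t] μ)) atTop (𝓝 (∫ x, f x ∂π))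

/-- `π([u] ∩ σ^{-k}[v]) → π([u]) π([v])` as `‖k‖_∞ → ∞`, for all cylinders. -/
def SpatiallyMixing {d : ℕ} {S : Type} [MeasurableSpace S] (π : Measure (Conf d S)) : Prop :=
  ∀ (A B : Finset (Fin d → ℤ)) (u v : Conf d S), ∀ ε : ℝ, 0 < ε → ∃ K : ℤ,
    ∀ k : Fin d → ℤ, (∃ i, K ≤ |k i|) →
      |π.real (cyl A u ∩ shift k ⁻¹' cyl B v) - π.real (cyl A u) * π.real (cyl B v)| ≤ ε

instance (P : Auto d S) (a : Fin P.m → S) : IsProbabilityMeasure (P.rule a) := P.prob a

instance (P : Auto d S) (x : Conf d S) : IsProbabilityMeasure (P.law x) := by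
  unfold Auto.law
  infer_instance

/-- a function that depends on the coordinates in `A` only -/
def Loc {E : Type*} (A : Finset (Fin d → ℤ)) (f : Conf d S → E) : Prop :=
  ∀ x y : Conf d S, (∀ i ∈ A, x i = y i) → f x = f y

omit [Fintype S] [MeasurableSpace S] [MeasurableSingletonClass S] [TopologicalSpace S]
  [DiscreteTopology S] in
theorem Loc.factor {E : Type*} {A : Finset (Fin d → ℤ)} {f : Conf d S → E} (hf : Loc A f)
    (x₀ : Conf d S) : ∃ g : (A → S) → E, ∀ x, f x = g (fun i => x i) := by
  classical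
  refine ⟨fun a : A → S => f (fun i => if h : i ∈ A then a ⟨i, h⟩ else x₀ i), fun x => ?_⟩
  refine hf _ _ fun i hi => ?_
  simp [hi]

theorem Loc.meas {E : Type*} [MeasurableSpace E] {A : Finset (Fin d → ℤ)} {f : Conf d S → E}
    (hf : Loc A f) : Measurable f := by
  by_cases h : Nonempty (Conf d S)
  · obtain ⟨x₀⟩ := h
    obtain ⟨g, hg⟩ := hf.factor x₀
    have : f = g ∘ (fun x (i : A) => x i) := funext hg
    rw [this]
    exact (measurable_of_countable _).comp (measurable_pi_lambda _ fun i => measurable_pi_apply _)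
  · rw [not_nonempty_iff] at h
    exact measurable_of_empty f

omit [MeasurableSpace S] [MeasurableSingletonClass S] in
theorem Loc.cont {A : Finset (Fin d → ℤ)} {f : Conf d S → ℝ}
    (hf : Loc A f) : Continuous f := by
  by_cases h : Nonempty (Conf d S)
  · obtain ⟨x₀⟩ := h
    obtain ⟨g, hg⟩ := hf.factor x₀
    have : f = g ∘ (fun x (i : A) => x i) := funext hg
    rw [this]
    exact continuous_of_discreteTopology.comp (continuous_pi fun i => continuous_apply _)
  · rw [not_nonempty_iff] at h
    exact continuous_of_const fun x => h.elim x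

omit [MeasurableSpace S] [MeasurableSingletonClass S] [TopologicalSpace S]
  [DiscreteTopology S] in
theorem Loc.bdd {A : Finset (Fin d → ℤ)} {f : Conf d S → ℝ}
    (hf : Loc A f) : ∃ C, 0 ≤ C ∧ ∀ x, |f x| ≤ C := by
  by_cases h : Nonempty (Conf d S)
  · obtain ⟨x₀⟩ := h
    obtain ⟨g, hg⟩ := hf.factor x₀
    obtain ⟨C, hC⟩ := Finite.exists_le (fun a : A → S => |g a|)
    refine ⟨C, (abs_nonneg _).trans (hC (fun i => x₀ i)), fun x => ?_⟩
    rw [hg]
    exact hC _
  · rw [not_nonempty_iff] at h
    exact ⟨0, le_rfl, fun x => h.elim x⟩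

theorem Loc.integrable {A : Finset (Fin d → ℤ)} {f : Conf d S → ℝ}
    (hf : Loc A f) (μ : Measure (Conf d S)) [IsFiniteMeasure μ] : Integrable f μ := by
  obtain ⟨C, _, hC⟩ := hf.bdd
  exact Integrable.of_bound hf.meas.aestronglyMeasurable C (ae_of_all _ hC)

theorem law_measurable (P : Auto d S) : Measurable P.law := by
  classical
  refine Measurable.measure_of_isPiSystem_of_isProbabilityMeasure
    (S := measurableCylinders fun _ : Fin d → ℤ => S) generateFrom_measurableCylinders.symm
    isPiSystem_measurableCylinders fun s hs => ?_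
  obtain ⟨I, T, hT, rfl⟩ := (mem_measurableCylinders _).1 hs
  have h1 : (fun x => P.law x (cylinder I T)) =
      fun x => Measure.pi (fun i : I => P.rule (fun j => x ((i : Fin d → ℤ) + P.nb j))) T := by
    funext x
    unfold Auto.law
    rw [Measure.infinitePi_cylinder _ hT]
  rw [h1]
  refine Loc.meas (A := I.biUnion fun i => Finset.univ.image fun j => i + P.nb j) ?_
  intro x y hxy
  have h2 : (fun i : I => P.rule (fun j => x ((i : Fin d → ℤ) + P.nb j))) =
      (fun i : I => P.rule (fun j => y ((i : Fin d → ℤ) + P.nb j))) := by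
    funext i
    congr 1
    funext j
    refine hxy _ ?_
    rw [Finset.mem_biUnion]
    exact ⟨i, i.2, Finset.mem_image.2 ⟨j, Finset.mem_univ _, rfl⟩⟩
  simp only [h2]

/-- the kernel -/
noncomputable def ker (P : Auto d S) : Kernel (Conf d S) (Conf d S) := ⟨P.law, law_measurable P⟩

instance (P : Auto d S) : IsMarkovKernel (ker P) := ⟨fun x => by
  change IsProbabilityMeasure (P.law x)
  infer_instance⟩

instance (P : Auto d S) (μ : Measure (Conf d S)) [IsProbabilityMeasure μ] :
    IsProbabilityMeasure (P.step μ) := by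
  change IsProbabilityMeasure (μ.bind (ker P))
  infer_instance

theorem step_iter_prob (P : Auto d S) (μ : Measure (Conf d S)) [IsProbabilityMeasure μ] (t : ℕ) :
    IsProbabilityMeasure (P.step^[t] μ) := by
  induction t with
  | zero => simpa
  | succ t ih =>
    rw [Function.iterate_succ_apply']
    infer_instance

/-- the operator on functions -/
noncomputable def op (P : Auto d S) (f : Conf d S → ℝ) (x : Conf d S) : ℝ := ∫ y, f y ∂(P.law x)

/-- the neighbourhood of a set -/
noncomputable def nbh (P : Auto d S) (A : Finset (Fin d → ℤ)) : Finset (Fin d → ℤ) := by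
  classical exact A.biUnion fun i => Finset.univ.image fun j => i + P.nb j

theorem mem_nbh (P : Auto d S) {A : Finset (Fin d → ℤ)} {i : Fin d → ℤ} (hi : i ∈ A)
    (j : Fin P.m) : i + P.nb j ∈ nbh P A := by
  classical
  unfold nbh
  rw [Finset.mem_biUnion]
  exact ⟨i, hi, Finset.mem_image.2 ⟨j, Finset.mem_univ _, rfl⟩⟩

theorem law_restrict (P : Auto d S) {A : Finset (Fin d → ℤ)} {x y : Conf d S}
    (hxy : ∀ i ∈ nbh P A, x i = y i) :
    (P.law x).map A.restrict = (P.law y).map A.restrict := by
  unfold Auto.law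
  rw [Measure.infinitePi_map_restrict, Measure.infinitePi_map_restrict]
  congr 1
  funext i
  congr 1
  funext j
  exact hxy _ (mem_nbh P i.2 j)

theorem Loc.factor' {A : Finset (Fin d → ℤ)} {f : Conf d S → ℝ} (hf : Loc A f) :
    ∃ g : (A → S) → ℝ, Measurable g ∧ ∀ x, f x = g (fun i => x i) := by
  by_cases h : Nonempty (Conf d S)
  · obtain ⟨x₀⟩ := h
    obtain ⟨g, hg⟩ := hf.factor x₀
    exact ⟨g, measurable_of_countable _, hg⟩
  · rw [not_nonempty_iff] at h
    exact ⟨fun _ => 0, measurable_const, fun x => h.elim x⟩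

theorem op_loc (P : Auto d S) {A : Finset (Fin d → ℤ)} {f : Conf d S → ℝ} (hf : Loc A f) :
    Loc (nbh P A) (op P f) := by
  intro x y hxy
  obtain ⟨g, hg, hfg⟩ := hf.factor'
  have key : ∀ z, op P f z = ∫ a, g a ∂((P.law z).map A.restrict) := by
    intro z
    unfold op
    rw [integral_map (Finset.measurable_restrict A).aemeasurable hg.aestronglyMeasurable]
    exact integral_congr_ae (ae_of_all _ fun y => hfg y)
  rw [key, key, law_restrict P hxy]

theorem op_mul (P : Auto d S) {A B : Finset (Fin d → ℤ)} {f g : Conf d S → ℝ} (hf : Loc A f)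
    (hg : Loc B g) (hAB : Disjoint A B) (x : Conf d S) :
    op P (fun y => f y * g y) x = op P f x * op P g x := by
  obtain ⟨f', hf', hff⟩ := hf.factor'
  obtain ⟨g', hg', hgg⟩ := hg.factor'
  have hI : iIndepFun (fun (i : Fin d → ℤ) (ω : Conf d S) => ω i) (P.law x) := by
    unfold Auto.law
    exact iIndepFun_infinitePi (X := fun _ s => s) (fun i => measurable_id)
  have h2 := hI.indepFun_finset A B hAB (fun i => measurable_pi_apply i)
  have h3 := h2.comp hf' hg'
  have h4 := h3.integral_mul_eq_mul_integral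
    (by
      have := hf.integrable (P.law x)
      have e : (f' ∘ fun (a : Conf d S) (i : A) => a i) = f := by
        funext y; exact (hff y).symm
      rw [e]; exact this.aestronglyMeasurable)
    (by
      have := hg.integrable (P.law x)
      have e : (g' ∘ fun (a : Conf d S) (i : B) => a i) = g := by
        funext y; exact (hgg y).symm
      rw [e]; exact this.aestronglyMeasurable)
  unfold op
  have e1 : (f' ∘ fun (a : Conf d S) (i : A) => a i) = f := by
    funext y; exact (hff y).symm
  have e2 : (g' ∘ fun (a : Conf d S) (i : B) => a i) = g := by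
    funext y; exact (hgg y).symm
  rw [e1, e2] at h4
  exact h4

theorem shift_meas (k : Fin d → ℤ) : Measurable (shift k : Conf d S → Conf d S) :=
  measurable_pi_lambda _ fun _ => measurable_pi_apply _

theorem law_shift (P : Auto d S) (k : Fin d → ℤ) (x : Conf d S) :
    (P.law x).map (shift k) = P.law (shift k x) := by
  classical
  unfold Auto.law
  refine Measure.eq_infinitePi _ fun s t ht => ?_
  rw [Measure.map_apply (shift_meas k) (MeasurableSet.pi (Finset.countable_toSet _)
    fun i _ => ht i)]
  have h1 : (shift k ⁻¹' (Set.pi (s : Set (Fin d → ℤ)) t) : Set (Conf d S)) =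
      Set.pi ((s.image (fun i => i + k) : Finset (Fin d → ℤ)) : Set (Fin d → ℤ))
        (fun i => t (i - k)) := by
    ext y
    simp only [Set.mem_preimage, Set.mem_pi, Finset.mem_coe, Finset.mem_image, shift]
    constructor
    · rintro h i ⟨j, hj, rfl⟩
      rw [add_sub_cancel_right]
      exact h j hj
    · intro h i hi
      have := h (i + k) ⟨i, hi, rfl⟩
      rwa [add_sub_cancel_right] at this
  rw [h1, Measure.infinitePi_pi _ (fun i _ => ht _)]
  rw [Finset.prod_image (fun a _ b _ h => by simpa using h)]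
  refine Finset.prod_congr rfl fun i _ => ?_
  simp only [add_sub_cancel_right, shift]
  congr 2
  funext j
  congr 1
  abel

theorem op_shift (P : Auto d S) {A : Finset (Fin d → ℤ)} {f : Conf d S → ℝ} (hf : Loc A f)
    (k : Fin d → ℤ) (x : Conf d S) :
    op P (fun y => f (shift k y)) x = op P f (shift k x) := by
  unfold op
  rw [← law_shift P k x, integral_map (shift_meas k).aemeasurable hf.meas.aestronglyMeasurable]

theorem int_step (P : Auto d S) {A : Finset (Fin d → ℤ)} {f : Conf d S → ℝ} (hf : Loc A f)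
    (μ : Measure (Conf d S)) [IsProbabilityMeasure μ] :
    ∫ x, f x ∂(P.step μ) = ∫ x, op P f x ∂μ := by
  have e : P.step μ = ((ker P) ∘ₖ (Kernel.const Unit μ)) () := by
    rw [Kernel.comp_apply, Kernel.const_apply]
    rfl
  rw [e, Kernel.integral_comp (hf.integrable _), Kernel.const_apply]
  rfl

/-- iterated neighbourhoods -/
theorem op_iter_loc (P : Auto d S) {A : Finset (Fin d → ℤ)} {f : Conf d S → ℝ} (hf : Loc A f)
    (t : ℕ) : Loc ((nbh P)^[t] A) ((op P)^[t] f) := by
  induction t with
  | zero => simpa using hf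
  | succ t ih =>
    rw [Function.iterate_succ_apply', Function.iterate_succ_apply']
    exact op_loc P ih

theorem int_iter (P : Auto d S) {A : Finset (Fin d → ℤ)} {f : Conf d S → ℝ} (hf : Loc A f)
    (μ : Measure (Conf d S)) [IsProbabilityMeasure μ] (t : ℕ) :
    ∫ x, f x ∂(P.step^[t] μ) = ∫ x, (op P)^[t] f x ∂μ := by
  induction t generalizing A f with
  | zero => simp
  | succ t ih =>
    rw [Function.iterate_succ_apply', Function.iterate_succ_apply]
    have := step_iter_prob P μ t
    rw [int_step P hf, ih (op_loc P hf)]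

theorem op_iter_shift (P : Auto d S) {A : Finset (Fin d → ℤ)} {f : Conf d S → ℝ} (hf : Loc A f)
    (k : Fin d → ℤ) (t : ℕ) :
    (op P)^[t] (fun y => f (shift k y)) = fun x => (op P)^[t] f (shift k x) := by
  induction t generalizing A f with
  | zero => rfl
  | succ t ih =>
    rw [Function.iterate_succ_apply, Function.iterate_succ_apply]
    have h1 : op P (fun y => f (shift k y)) = fun x => op P f (shift k x) :=
      funext fun x => op_shift P hf k x
    rw [h1, ih (op_loc P hf)]

theorem shift_loc {A : Finset (Fin d → ℤ)} {f : Conf d S → ℝ} (hf : Loc A f)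
    (k : Fin d → ℤ) : Loc (A.map (addRightEmbedding k)) (fun y => f (shift k y)) := by
  intro x y hxy
  refine hf _ _ fun i hi => ?_
  exact hxy _ (Finset.mem_map.2 ⟨i, hi, rfl⟩)

/-- two finite sets are disjoint after a large shift -/
theorem disj (A B : Finset (Fin d → ℤ)) : ∃ K : ℤ, ∀ k : Fin d → ℤ, (∃ i, K ≤ |k i|) →
    Disjoint A (B.map (addRightEmbedding k)) := by
  obtain ⟨M, hM⟩ := Finset.exists_le (A.biUnion fun a => B.biUnion fun b =>
    Finset.univ.image fun i => |a i - b i|)
  refine ⟨M + 1, fun k ⟨i, hi⟩ => ?_⟩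
  rw [Finset.disjoint_left]
  intro a ha hb
  obtain ⟨b, hb1, hb2⟩ := Finset.mem_map.1 hb
  have h1 : |a i - b i| ≤ M := hM _ (by
    rw [Finset.mem_biUnion]
    refine ⟨a, ha, ?_⟩
    rw [Finset.mem_biUnion]
    exact ⟨b, hb1, Finset.mem_image.2 ⟨i, Finset.mem_univ _, rfl⟩⟩)
  have h2 : a i - b i = k i := by
    have : a = b + k := hb2.symm
    rw [this]
    simp
  rw [h2] at h1
  linarith

/-- decoupling after `t` steps -/
theorem decouple (P : Auto d S) (π : Measure (Conf d S)) [IsProbabilityMeasure π]
    (hπ : P.step π = π) {A B : Finset (Fin d → ℤ)} {f g : Conf d S → ℝ} (hf : Loc A f)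
    (hg : Loc B g) (t : ℕ) : ∃ K : ℤ, ∀ k : Fin d → ℤ, (∃ i, K ≤ |k i|) →
      ∫ x, f x * g (shift k x) ∂π = ∫ x, (op P)^[t] f x * (op P)^[t] g (shift k x) ∂π := by
  classical
  induction t with
  | zero => exact ⟨0, fun k _ => rfl⟩
  | succ t ih =>
    obtain ⟨K₁, h₁⟩ := ih
    obtain ⟨K₂, h₂⟩ := disj ((nbh P)^[t] A) ((nbh P)^[t] B)
    refine ⟨max K₁ K₂, fun k ⟨i, hi⟩ => ?_⟩
    rw [h₁ k ⟨i, (le_max_left _ _).trans hi⟩]
    have hd := h₂ k ⟨i, (le_max_right _ _).trans hi⟩
    have hft := op_iter_loc P hf t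
    have hgt := op_iter_loc P hg t
    have hgs := shift_loc hgt k
    have hprod : Loc ((nbh P)^[t] A ∪ ((nbh P)^[t] B).map (addRightEmbedding k))
        (fun y => (op P)^[t] f y * (op P)^[t] g (shift k y)) := by
      intro x y hxy
      have e1 := hft x y fun i hi => hxy i (Finset.mem_union_left _ hi)
      have e2 := hgs x y fun i hi => hxy i (Finset.mem_union_right _ hi)
      simp only at e2 ⊢
      rw [e1, e2]
    conv_lhs => rw [← hπ]
    rw [int_step P hprod]
    refine integral_congr_ae (ae_of_all _ fun x => ?_)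
    simp only
    rw [op_mul P hft hgs hd x, op_shift P hgt k x, Function.iterate_succ_apply',
      Function.iterate_succ_apply']

theorem op_bdd (P : Auto d S) {f : Conf d S → ℝ} {C : ℝ} (hC : ∀ x, |f x| ≤ C)
    (t : ℕ) (x : Conf d S) : |(op P)^[t] f x| ≤ C := by
  induction t generalizing x with
  | zero => exact hC x
  | succ t ih =>
    rw [Function.iterate_succ_apply']
    change |∫ y, (op P)^[t] f y ∂(P.law x)| ≤ C
    have h := norm_integral_le_of_norm_le_const (μ := P.law x) (f := (op P)^[t] f)
      (C := C) (ae_of_all _ fun y => by rw [Real.norm_eq_abs]; exact ih y)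
    rw [Real.norm_eq_abs] at h
    simpa using h

theorem pointwise (P : Auto d S) (π : Measure (Conf d S)) (hP : IsErgodicPCA P π)
    {A : Finset (Fin d → ℤ)} {f : Conf d S → ℝ} (hf : Loc A f) (x : Conf d S) :
    Tendsto (fun t : ℕ => (op P)^[t] f x) atTop (𝓝 (∫ x, f x ∂π)) := by
  have h := hP.2.2.2 (Measure.dirac x) inferInstance f hf.cont
  refine h.congr fun t => ?_
  rw [int_iter P hf]
  exact integral_dirac' _ _ (op_iter_loc P hf t).meas.stronglyMeasurable

theorem mix (P : Auto d S) (π : Measure (Conf d S)) (hP : IsErgodicPCA P π)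
    {A B : Finset (Fin d → ℤ)} {f g : Conf d S → ℝ} (hf : Loc A f)
    (hg : Loc B g) (ε : ℝ) (hε : 0 < ε) : ∃ K : ℤ, ∀ k : Fin d → ℤ, (∃ i, K ≤ |k i|) →
      |∫ x, f x * g (shift k x) ∂π - (∫ x, f x ∂π) * ∫ x, g x ∂π| ≤ ε := by
  have hπp : IsProbabilityMeasure π := hP.1
  obtain ⟨C, hC0, hC⟩ := hg.bdd
  obtain ⟨D, hD0, hD⟩ := hf.bdd
  -- L¹ convergence
  have hL : Tendsto (fun t : ℕ => ∫ x, |(op P)^[t] f x - ∫ y, f y ∂π| ∂π) atTop (𝓝 0) := by
    have h0 : (0 : ℝ) = ∫ x : Conf d S, (0 : ℝ) ∂π := by simp
    rw [h0]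
    refine tendsto_integral_of_dominated_convergence (fun _ => D + |∫ y, f y ∂π|)
      (fun t => ?_) (integrable_const _) (fun t => ?_) ?_
    · exact (((op_iter_loc P hf t).meas.sub_const _).abs).aestronglyMeasurable
    · refine ae_of_all _ fun x => ?_
      rw [Real.norm_eq_abs, abs_abs]
      exact (abs_sub _ _).trans (by
        have := op_bdd P hD t x
        linarith)
    · refine ae_of_all _ fun x => ?_
      have h1 := pointwise P π hP hf x
      have h2 := (h1.sub_const (∫ y, f y ∂π)).abs
      simpa using h2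
  have hev : ∀ᶠ t : ℕ in atTop, ∫ x, |(op P)^[t] f x - ∫ y, f y ∂π| ∂π < ε / (C + 1) :=
    (tendsto_order.1 hL).2 _ (by positivity)
  obtain ⟨t, ht⟩ := hev.exists
  obtain ⟨K, hK⟩ := decouple P π hP.2.1 hf hg t
  refine ⟨K, fun k hk => ?_⟩
  rw [hK k hk]
  have hgt := op_iter_loc P hg t
  have hgs := shift_loc hgt k
  have hft := op_iter_loc P hf t
  -- the mean of the second factor
  have hg1 : ∫ x, (op P)^[t] g (shift k x) ∂π = ∫ x, g x ∂π := by
    have e1 : ∫ x, (op P)^[t] g (shift k x) ∂π = ∫ x, g (shift k x) ∂π := by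
      have hs := op_iter_shift P hg k t
      have h1 := int_iter P (shift_loc hg k) π t
      rw [Function.iterate_fixed hP.2.1 t] at h1
      rw [h1, hs]
    rw [e1]
    -- both limits of the iterates at a point
    have hne : Nonempty (Conf d S) := by
      by_contra hne
      rw [not_nonempty_iff] at hne
      have : π univ = 0 := by rw [Set.univ_eq_empty_iff.2 hne]; simp
      rw [measure_univ] at this
      exact one_ne_zero this
    obtain ⟨x⟩ := hne
    have l1 := pointwise P π hP (shift_loc hg k) x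
    have l2 := pointwise P π hP hg (shift k x)
    refine tendsto_nhds_unique l1 ?_
    refine l2.congr fun s => ?_
    rw [op_iter_shift P hg k s]
  have hint : Integrable (fun x => (op P)^[t] g (shift k x)) π := hgs.integrable π
  have hfi : Integrable (fun x => (op P)^[t] f x - ∫ y, f y ∂π) π :=
    (hft.integrable π).sub (integrable_const _)
  have e2 : ∫ x, (op P)^[t] f x * (op P)^[t] g (shift k x) ∂π
      - (∫ x, f x ∂π) * ∫ x, g x ∂π =
      ∫ x, ((op P)^[t] f x - ∫ y, f y ∂π) * (op P)^[t] g (shift k x) ∂π := by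
    rw [← hg1, ← integral_const_mul, ← integral_sub]
    · refine integral_congr_ae (ae_of_all _ fun x => ?_)
      simp only
      ring
    · have : Integrable (fun x => (op P)^[t] f x * (op P)^[t] g (shift k x)) π := by
        refine Integrable.mul_bdd (c := C) (hft.integrable π) hgs.meas.aestronglyMeasurable
          (ae_of_all _ fun x => ?_)
        rw [Real.norm_eq_abs]
        exact op_bdd P hC t _
      exact this
    · exact hint.const_mul _
  rw [e2]
  calc |∫ x, ((op P)^[t] f x - ∫ y, f y ∂π) * (op P)^[t] g (shift k x) ∂π|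
      ≤ ∫ x, |((op P)^[t] f x - ∫ y, f y ∂π) * (op P)^[t] g (shift k x)| ∂π :=
        abs_integral_le_integral_abs
    _ ≤ ∫ x, C * |(op P)^[t] f x - ∫ y, f y ∂π| ∂π := by
        refine integral_mono_of_nonneg (ae_of_all _ fun x => abs_nonneg _)
          (hfi.abs.const_mul _) (ae_of_all _ fun x => ?_)
        simp only
        rw [abs_mul, mul_comm]
        exact mul_le_mul_of_nonneg_right (op_bdd P hC t _) (abs_nonneg _)
    _ = C * ∫ x, |(op P)^[t] f x - ∫ y, f y ∂π| ∂π := integral_const_mul _ _
    _ ≤ C * (ε / (C + 1)) := mul_le_mul_of_nonneg_left ht.le hC0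
    _ ≤ ε := by
        rw [mul_div_assoc', div_le_iff₀ (by positivity)]
        nlinarith

theorem int_ind {μ : Measure (Conf d S)} {s : Set (Conf d S)} (hs : MeasurableSet s) :
    ∫ x, s.indicator (fun _ => (1 : ℝ)) x ∂μ = μ.real s := by
  rw [integral_indicator hs]
  simp

theorem main (P : Auto d S) (π : Measure (Conf d S)) (hP : IsErgodicPCA P π) :
    SpatiallyMixing π := by
  classical
  intro A B u v ε hε
  have hf : Loc A (Set.indicator (cyl A u) (fun _ => (1 : ℝ))) := by
    intro x y hxy
    have : x ∈ cyl A u ↔ y ∈ cyl A u := by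
      unfold cyl
      simp only [Set.mem_ofPred_eq]
      exact forall₂_congr fun i hi => by rw [hxy i hi]
    simp only [Set.indicator, this]
  have hg : Loc B (Set.indicator (cyl B v) (fun _ => (1 : ℝ))) := by
    intro x y hxy
    have : x ∈ cyl B v ↔ y ∈ cyl B v := by
      unfold cyl
      simp only [Set.mem_ofPred_eq]
      exact forall₂_congr fun i hi => by rw [hxy i hi]
    simp only [Set.indicator, this]
  obtain ⟨K, hK⟩ := mix P π hP hf hg ε hε
  refine ⟨K, fun k hk => ?_⟩
  have h := hK k hk
  have mA : MeasurableSet (cyl A u) := by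
    have := hf.meas (measurableSet_singleton (1 : ℝ))
    convert this using 1
    ext x
    by_cases hx : x ∈ cyl A u <;> simp [hx]
  have mB : MeasurableSet (cyl B v) := by
    have := hg.meas (measurableSet_singleton (1 : ℝ))
    convert this using 1
    ext x
    by_cases hx : x ∈ cyl B v <;> simp [hx]
  have e1 : ∀ x, (cyl A u).indicator (fun _ => (1 : ℝ)) x *
      (cyl B v).indicator (fun _ => (1 : ℝ)) (shift k x) =
      (cyl A u ∩ shift k ⁻¹' cyl B v).indicator (fun _ => (1 : ℝ)) x := by
    intro x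
    by_cases h1 : x ∈ cyl A u <;> by_cases h2 : shift k x ∈ cyl B v <;> simp [h1, h2]
  simp only [e1] at h
  rw [int_ind mA, int_ind mB,
    int_ind (mA.inter (shift_meas k mB))] at h
  exact h

end Pool.Agent.Q212.PCA
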