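import Pool.Agent.Q212.Coin

/-!
# Penney's game: Conway's formula
-/

namespace Pool.Agent.Q212.Penney

open MeasureTheory ProbabilityTheory Set Filter Topology
open scoped ENNReal
open Pool.Agent.Q212.Coin

/-- fair coin tossing -/
noncomputable abbrev fair : Measure (ℕ → Bool) := tosses (1 / 2)

lemma wt_half (b : Bool) : wt (1 / 2) b = 1 / 2 := by
  unfold wt
  rw [clamp_eq (by norm_num) (by norm_num)]
  cases b <;> norm_num

/-- the tosses with numbers `m, ..., m + k - 1` are `c 0, ..., c (k-1)` -/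
def Blk (c : ℕ → Bool) (m k : ℕ) : Set (ℕ → Bool) := {ω | ∀ i < k, ω (m + i) = c i}

lemma dep_blk (c : ℕ → Bool) (m k : ℕ) : Dep (m + k) (Blk c m k) := by
  intro ω ω' h hω i hi
  rw [← hω i hi]
  exact (h _ (by omega)).symm

lemma prob_blk {m : ℕ} {S : Set (ℕ → Bool)} (hS : Dep m S) (c : ℕ → Bool) (k : ℕ) :
    fair.real (S ∩ Blk c m k) = fair.real S * (1 / 2) ^ k := by
  induction k with
  | zero =>
    have : Blk c m 0 = univ := by ext ω; simp [Blk]
    rw [this]; simp
  | succ k ih =>
    have h1 : Blk c m (k + 1) = Blk c m k ∩ {ω | ω (m + k) = c k} := by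
      ext ω
      simp only [Blk, mem_ofPred_eq, mem_inter_iff]
      constructor
      · intro h; exact ⟨fun i hi => h i (by omega), h k (by omega)⟩
      · rintro ⟨h2, h3⟩ i hi
        rcases Nat.lt_succ_iff_lt_or_eq.mp hi with h | h
        · exact h2 i h
        · rw [h]; exact h3
    have h2 : Dep (m + k) (S ∩ Blk c m k) := (hS.mono (by omega)).inter (dep_blk c m k)
    rw [h1, ← inter_assoc, prob_inter_eval _ h2, ih, wt_half, pow_succ]
    ring

/-- the word `a` of length `n` occurs at time `t` -/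
def OccN (n : ℕ) (a : ℕ → Bool) (ω : ℕ → Bool) (t : ℕ) : Prop :=
  n ≤ t ∧ ∀ i < n, ω (t - n + i) = a i

lemma dep_occN (n : ℕ) (a : ℕ → Bool) (t : ℕ) : Dep t {ω | OccN n a ω t} := by
  intro ω ω' h hω
  refine ⟨hω.1, fun i hi => ?_⟩
  rw [← hω.2 i hi]
  exact (h _ (by have := hω.1; omega)).symm

lemma dep_occN' {n : ℕ} {a : ℕ → Bool} {t m : ℕ} (htm : t ≤ m) {ω ω' : ℕ → Bool}
    (h : ∀ i < m, ω i = ω' i) : OccN n a ω t ↔ OccN n a ω' t :=
  ((dep_occN n a t).mono htm).iff h

section race

variable (n : ℕ) (a b : ℕ → Bool)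

/-- neither word has occurred up to time `m` -/
def NoOcc (m : ℕ) : Set (ℕ → Bool) := {ω | ∀ k ≤ m, ¬ OccN n a ω k ∧ ¬ OccN n b ω k}

/-- `a` occurs at time `t` and neither word has occurred before -/
def Win (t : ℕ) : Set (ℕ → Bool) := {ω | OccN n a ω t ∧ ∀ k < t, ¬ OccN n a ω k ∧ ¬ OccN n b ω k}

lemma dep_noOcc (m : ℕ) : Dep m (NoOcc n a b m) := by
  intro ω ω' h hω k hk
  rw [← dep_occN' hk h, ← dep_occN' hk h]
  exact hω k hk

lemma dep_win (t : ℕ) : Dep t (Win n a b t) := by
  intro ω ω' h hω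
  refine ⟨(dep_occN' le_rfl h).mp hω.1, fun k hk => ?_⟩
  rw [← dep_occN' hk.le h, ← dep_occN' hk.le h]
  exact hω.2 k hk

lemma noOcc_comm (m : ℕ) : NoOcc n a b m = NoOcc n b a m := by
  ext ω
  constructor
  · intro h k hk; exact ⟨(h k hk).2, (h k hk).1⟩
  · intro h k hk; exact ⟨(h k hk).2, (h k hk).1⟩

lemma noOcc_anti {m m' : ℕ} (h : m ≤ m') : NoOcc n a b m' ⊆ NoOcc n a b m :=
  fun _ hω k hk => hω k (hk.trans h)

variable {n a b}

lemma win_zero (_hn : 0 < n) {t : ℕ} (ht : t < n) : Win n a b t = ∅ := by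
  ext ω
  simp only [mem_empty_iff_false, iff_false]
  intro h
  have := h.1.1
  omega

lemma not_both (hab : ∃ i < n, a i ≠ b i) {ω : ℕ → Bool} {t : ℕ} (h1 : OccN n a ω t)
    (h2 : OccN n b ω t) : False := by
  obtain ⟨i, hi, hne⟩ := hab
  exact hne ((h1.2 i hi).symm.trans (h2.2 i hi))

lemma noOcc_diff (m : ℕ) :
    NoOcc n a b m \ NoOcc n a b (m + 1) = Win n a b (m + 1) ∪ Win n b a (m + 1) := by
  ext ω
  simp only [Set.mem_sdiff, mem_union]
  constructor
  · rintro ⟨h1, h2⟩
    simp only [NoOcc, mem_ofPred_eq, not_forall] at h2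
    obtain ⟨k, hk, hocc⟩ := h2
    have hk2 : k = m + 1 := by
      by_contra hne
      exact hocc (h1 k (by omega))
    subst hk2
    by_cases ha : OccN n a ω (m + 1)
    · left; exact ⟨ha, fun k hk => h1 k (by omega)⟩
    · right
      have hb : OccN n b ω (m + 1) := by
        by_contra hb; exact hocc ⟨ha, hb⟩
      exact ⟨hb, fun k hk => (h1 k (by omega)).symm⟩
  · rintro (h | h)
    · exact ⟨fun k hk => h.2 k (by omega), fun h' => (h' (m + 1) le_rfl).1 h.1⟩
    · exact ⟨fun k hk => (h.2 k (by omega)).symm, fun h' => (h' (m + 1) le_rfl).2 h.1⟩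

lemma win_disj (hab : ∃ i < n, a i ≠ b i) (t t' : ℕ) : Disjoint (Win n a b t) (Win n b a t') := by
  rw [Set.disjoint_left]
  intro ω h1 h2
  rcases lt_trichotomy t t' with h | h | h
  · exact (h2.2 t h).2 h1.1
  · subst h; exact not_both hab h1.1 h2.1
  · exact (h1.2 t' h).2 h2.1

lemma win_disj_self {t t' : ℕ} (h : t ≠ t') : Disjoint (Win n a b t) (Win n a b t') := by
  rw [Set.disjoint_left]
  intro ω h1 h2
  rcases lt_or_gt_of_ne h with h | h
  · exact (h2.2 t h).1 h1.1
  · exact (h1.2 t' h).1 h2.1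

/-- survival probability -/
noncomputable def sP (n : ℕ) (a b : ℕ → Bool) (m : ℕ) : ℝ := fair.real (NoOcc n a b m)

/-- probability that `a` wins at time `t` -/
noncomputable def wP (n : ℕ) (a b : ℕ → Bool) (t : ℕ) : ℝ := fair.real (Win n a b t)

lemma sP_step (hab : ∃ i < n, a i ≠ b i) (m : ℕ) :
    sP n a b m - sP n a b (m + 1) = wP n a b (m + 1) + wP n b a (m + 1) := by
  unfold sP wP
  rw [← measureReal_sdiff (noOcc_anti n a b (Nat.le_succ m)) (dep_noOcc n a b _).measurable,
    noOcc_diff, measureReal_union (win_disj hab _ _) (dep_win n b a _).measurable]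

/-- overlap indicator: the last `r` letters of `x` are the first `r` letters of `w` -/
noncomputable def ov (n : ℕ) (x w : ℕ → Bool) (r : ℕ) : ℝ :=
  open Classical in if ∀ i < r, x (i + (n - r)) = w i then 1 else 0

lemma ov_nonneg (n : ℕ) (x w : ℕ → Bool) (r : ℕ) : 0 ≤ ov n x w r := by
  unfold ov; split <;> norm_num

lemma ov_le_one (n : ℕ) (x w : ℕ → Bool) (r : ℕ) : ov n x w r ≤ 1 := by
  unfold ov; split <;> norm_num

lemma win_blk (w : ℕ → Bool) (m r : ℕ) (hr : r ≤ n) :
    fair.real (Win n a b (m + r) ∩ Blk w m n) = ov n a w r * (1 / 2) ^ (n - r) * wP n a b (m + r) := by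
  classical
  by_cases h : ∀ i < r, a (i + (n - r)) = w i
  · have h1 : Win n a b (m + r) ∩ Blk w m n
        = Win n a b (m + r) ∩ Blk (fun i => w (r + i)) (m + r) (n - r) := by
      ext ω
      simp only [mem_inter_iff, and_congr_right_iff]
      intro hω
      constructor
      · intro hb i hi
        have := hb (r + i) (by omega)
        change ω (m + r + i) = w (r + i)
        rw [← this]; congr 1; ring
      · intro hb i hi
        by_cases hir : i < r
        · rw [← h i hir, ← hω.1.2 (i + (n - r)) (by omega)]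
          congr 1
          have := hω.1.1
          omega
        · have := hb (i - r) (by omega)
          simp only at this
          rw [show m + i = m + r + (i - r) by omega, this]
          congr 1; omega
    rw [h1, prob_blk (dep_win n a b _)]
    unfold ov wP
    rw [if_pos h]; ring
  · have h1 : Win n a b (m + r) ∩ Blk w m n = ∅ := by
      ext ω
      simp only [mem_inter_iff, mem_empty_iff_false, iff_false]
      rintro ⟨hω, hb⟩
      apply h
      intro i hi
      rw [← hω.1.2 (i + (n - r)) (by omega), ← hb i (by omega)]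
      congr 1
      have := hω.1.1
      omega
    rw [h1]
    unfold ov
    rw [if_neg h]; simp

lemma key_decomp (w : ℕ → Bool) (hw : w = a ∨ w = b) (m : ℕ) :
    NoOcc n a b m ∩ Blk w m n = ⋃ r ∈ Finset.Icc 1 n,
      ((Win n a b (m + r) ∩ Blk w m n) ∪ (Win n b a (m + r) ∩ Blk w m n)) := by
  ext ω
  simp only [mem_inter_iff, mem_iUnion, mem_union, Finset.mem_Icc, exists_prop]
  constructor
  · rintro ⟨h1, h2⟩
    have hocc : OccN n w ω (m + n) := ⟨by omega, fun i hi => by
      rw [Nat.add_sub_cancel]; exact h2 i hi⟩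
    have hex : ∃ t, OccN n a ω t ∨ OccN n b ω t := by
      rcases hw with rfl | rfl
      · exact ⟨_, Or.inl hocc⟩
      · exact ⟨_, Or.inr hocc⟩
    classical
    set t := Nat.find hex with ht
    have ht1 : OccN n a ω t ∨ OccN n b ω t := Nat.find_spec hex
    have ht2 : t ≤ m + n := by
      apply Nat.find_min' hex
      rcases hw with rfl | rfl
      · exact Or.inl hocc
      · exact Or.inr hocc
    have ht3 : m < t := by
      by_contra hcon
      push Not at hcon
      have := h1 t hcon
      rcases ht1 with h | h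
      · exact this.1 h
      · exact this.2 h
    have hmin : ∀ k < t, ¬ OccN n a ω k ∧ ¬ OccN n b ω k := by
      intro k hk
      have := Nat.find_min hex hk
      push Not at this
      exact this
    refine ⟨t - m, ⟨by omega, by omega⟩, ?_⟩
    rw [show m + (t - m) = t by omega]
    rcases ht1 with h | h
    · left; exact ⟨⟨h, hmin⟩, h2⟩
    · right; exact ⟨⟨h, fun k hk => (hmin k hk).symm⟩, h2⟩
  · rintro ⟨r, ⟨hr1, hr2⟩, (⟨h1, h2⟩ | ⟨h1, h2⟩)⟩
    · exact ⟨fun k hk => h1.2 k (by omega), h2⟩
    · exact ⟨fun k hk => (h1.2 k (by omega)).symm, h2⟩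

lemma blk_measurable (w : ℕ → Bool) (m k : ℕ) : MeasurableSet (Blk w m k) :=
  (dep_blk w m k).measurable

/-- the key recursion -/
lemma key (hab : ∃ i < n, a i ≠ b i) (w : ℕ → Bool) (hw : w = a ∨ w = b) (m : ℕ) :
    sP n a b m = ∑ r ∈ Finset.Icc 1 n,
      2 ^ r * (ov n a w r * wP n a b (m + r) + ov n b w r * wP n b a (m + r)) := by
  have h1 : fair.real (NoOcc n a b m ∩ Blk w m n) = sP n a b m * (1 / 2) ^ n :=
    prob_blk (dep_noOcc n a b m) w n
  have hwa : ∀ t, MeasurableSet (Win n a b t) := fun t => (dep_win n a b t).measurable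
  have hwb : ∀ t, MeasurableSet (Win n b a t) := fun t => (dep_win n b a t).measurable
  rw [key_decomp w hw m, measureReal_biUnion_finset] at h1
  · have h2 : ∀ r ∈ Finset.Icc 1 n, fair.real ((Win n a b (m + r) ∩ Blk w m n) ∪
        (Win n b a (m + r) ∩ Blk w m n)) = (1 / 2) ^ (n - r) *
          (ov n a w r * wP n a b (m + r) + ov n b w r * wP n b a (m + r)) := by
      intro r hr
      have hr2 := (Finset.mem_Icc.mp hr).2
      rw [measureReal_union _ ((hwb _).inter (blk_measurable w m n)), win_blk w m r hr2,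
        win_blk w m r hr2]
      · ring
      · exact (win_disj hab _ _).mono inter_subset_left inter_subset_left
    rw [Finset.sum_congr rfl h2] at h1
    have h3 : sP n a b m = (2 : ℝ) ^ n * (sP n a b m * (1 / 2) ^ n) := by
      have : (2 : ℝ) ^ n * (1 / 2) ^ n = 1 := by rw [← mul_pow]; norm_num
      calc sP n a b m = sP n a b m * ((2 : ℝ) ^ n * (1 / 2) ^ n) := by rw [this, mul_one]
        _ = _ := by ring
    rw [h3, ← h1, Finset.mul_sum]
    apply Finset.sum_congr rfl
    intro r hr
    have hr2 := (Finset.mem_Icc.mp hr).2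
    rw [← mul_assoc]
    congr 1
    have : (2 : ℝ) ^ n = 2 ^ r * 2 ^ (n - r) := by rw [← pow_add]; congr 1; omega
    rw [this, mul_assoc, ← mul_pow]
    norm_num
  · intro r _ r' _ hne
    have hne' : m + r ≠ m + r' := by omega
    apply Disjoint.mono (union_subset_union inter_subset_left inter_subset_left)
      (union_subset_union inter_subset_left inter_subset_left)
    rw [disjoint_union_left, disjoint_union_right, disjoint_union_right]
    exact ⟨⟨win_disj_self hne', win_disj hab _ _⟩, (win_disj hab _ _).symm, win_disj_self hne'⟩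
  · intro r _
    exact ((hwa _).inter (blk_measurable w m n)).union ((hwb _).inter (blk_measurable w m n))

/-- total probability that `a` wins -/
noncomputable def pW (n : ℕ) (a b : ℕ → Bool) : ℝ := ∑' t, wP n a b t

/-- the correlation -/
noncomputable def cor (n : ℕ) (x w : ℕ → Bool) : ℝ := ∑ r ∈ Finset.Icc 1 n, 2 ^ (r - 1) * ov n x w r

lemma wP_nonneg (t : ℕ) : 0 ≤ wP n a b t := measureReal_nonneg

lemma wP_summable (hn : 0 < n) (hab : ∃ i < n, a i ≠ b i) :
    Summable (wP n a b) := by
  apply summable_of_sum_range_le (c := 1) (fun t => wP_nonneg t)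
  intro N
  have h1 : ∀ N, ∑ t ∈ Finset.range (N + 1), (wP n a b t + wP n b a t) = sP n a b 0 - sP n a b N := by
    intro N
    induction N with
    | zero =>
      rw [Finset.sum_range_one]
      unfold wP
      rw [win_zero hn hn, win_zero hn hn]; simp
    | succ N ih =>
      rw [Finset.sum_range_succ, ih, ← sP_step hab N]; ring
  have h2 : ∑ t ∈ Finset.range N, wP n a b t ≤ ∑ t ∈ Finset.range (N + 1), (wP n a b t + wP n b a t) := by
    calc ∑ t ∈ Finset.range N, wP n a b t ≤ ∑ t ∈ Finset.range (N + 1), wP n a b t :=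
          Finset.sum_le_sum_of_subset_of_nonneg (Finset.range_subset_range.mpr (Nat.le_succ N))
            (fun _ _ _ => wP_nonneg _)
      _ ≤ _ := Finset.sum_le_sum fun t _ => by
          have := wP_nonneg (n := n) (a := b) (b := a) t
          linarith
  rw [h1] at h2
  have h3 : sP n a b 0 ≤ 1 := measureReal_le_one
  have h4 : 0 ≤ sP n a b N := measureReal_nonneg
  linarith

lemma wP_shift (hn : 0 < n) (hab : ∃ i < n, a i ≠ b i) {r : ℕ} (hr : r ≤ n) :
    HasSum (fun m => wP n a b (m + r)) (pW n a b) := by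
  have hs := wP_summable hn hab
  have h1 : Summable fun m => wP n a b (m + r) := (summable_nat_add_iff r).mpr hs
  have h2 := hs.sum_add_tsum_nat_add r
  have h3 : ∑ i ∈ Finset.range r, wP n a b i = 0 := by
    apply Finset.sum_eq_zero
    intro i hi
    have := Finset.mem_range.mp hi
    unfold wP
    rw [win_zero hn (by omega)]; simp
  rw [h3, zero_add] at h2
  have := h1.hasSum
  rw [h2] at this
  exact this

lemma s_hasSum (hn : 0 < n) (hab : ∃ i < n, a i ≠ b i) (w : ℕ → Bool) (hw : w = a ∨ w = b) :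
    HasSum (sP n a b) (2 * (cor n a w * pW n a b + cor n b w * pW n b a)) := by
  have hba : ∃ i < n, b i ≠ a i := by
    obtain ⟨i, hi, h⟩ := hab
    exact ⟨i, hi, h.symm⟩
  have h1 : HasSum (fun m => ∑ r ∈ Finset.Icc 1 n,
      2 ^ r * (ov n a w r * wP n a b (m + r) + ov n b w r * wP n b a (m + r)))
      (∑ r ∈ Finset.Icc 1 n, 2 ^ r * (ov n a w r * pW n a b + ov n b w r * pW n b a)) := by
    apply hasSum_sum
    intro r hr
    have hr2 := (Finset.mem_Icc.mp hr).2
    exact (((wP_shift hn hab hr2).mul_left _).add ((wP_shift hn hba hr2).mul_left _)).mul_left _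
  have h2 : ∑ r ∈ Finset.Icc 1 n, 2 ^ r * (ov n a w r * pW n a b + ov n b w r * pW n b a)
      = 2 * (cor n a w * pW n a b + cor n b w * pW n b a) := by
    unfold cor
    rw [Finset.sum_mul, Finset.sum_mul, ← Finset.sum_add_distrib, Finset.mul_sum]
    apply Finset.sum_congr rfl
    intro r hr
    have hr1 := (Finset.mem_Icc.mp hr).1
    have : (2 : ℝ) ^ r = 2 * 2 ^ (r - 1) := by rw [← pow_succ']; congr 1; omega
    rw [this]; ring
  rw [h2] at h1
  have h3 : (fun m => ∑ r ∈ Finset.Icc 1 n,
      2 ^ r * (ov n a w r * wP n a b (m + r) + ov n b w r * wP n b a (m + r))) = sP n a b := by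
    ext m; exact (key hab w hw m).symm
  rw [h3] at h1
  exact h1

/-- Conway's formula -/
theorem conway (hn : 0 < n) (hab : ∃ i < n, a i ≠ b i) :
    pW n a b * (cor n a a - cor n a b) = pW n b a * (cor n b b - cor n b a) := by
  have h1 := (s_hasSum hn hab a (Or.inl rfl)).unique (s_hasSum hn hab b (Or.inr rfl))
  linarith

theorem total (hn : 0 < n) (hab : ∃ i < n, a i ≠ b i) : pW n a b + pW n b a = 1 := by
  have hba : ∃ i < n, b i ≠ a i := by
    obtain ⟨i, hi, h⟩ := hab
    exact ⟨i, hi, h.symm⟩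
  have hs0 : Tendsto (sP n a b) atTop (𝓝 0) :=
    (s_hasSum hn hab a (Or.inl rfl)).summable.tendsto_atTop_zero
  have h1 : HasSum (fun m => sP n a b m - sP n a b (m + 1)) (pW n a b + pW n b a) := by
    have h2 := (wP_shift hn hab (r := 1) hn).add (wP_shift hn hba (r := 1) hn)
    refine h2.congr_fun ?_
    intro m
    exact sP_step hab m
  have h2 := h1.tendsto_sum_nat
  have h3 : ∀ N, ∑ m ∈ Finset.range N, (sP n a b m - sP n a b (m + 1)) = sP n a b 0 - sP n a b N :=
    fun N => Finset.sum_range_sub' _ N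
  simp_rw [h3] at h2
  have h4 : Tendsto (fun N => sP n a b 0 - sP n a b N) atTop (𝓝 (sP n a b 0 - 0)) :=
    tendsto_const_nhds.sub hs0
  have h5 := tendsto_nhds_unique h2 h4
  have h6 : sP n a b 0 = 1 := by
    unfold sP
    have : NoOcc n a b 0 = univ := by
      ext ω
      simp only [NoOcc, mem_ofPred_eq, mem_univ, iff_true]
      intro k hk
      constructor
      · intro h; have := h.1; omega
      · intro h; have := h.1; omega
    rw [this, probReal_univ]
  rw [h5, h6, sub_zero]

end race

end Pool.Agent.Q212.Penney
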