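import Pool.Agent.Q212.Penney

/-!
# Penney's game against a uniformly random first player
-/

namespace Pool.Agent.Q212.Penney

open MeasureTheory ProbabilityTheory Set Filter Topology
open scoped ENNReal
open Pool.Agent.Q212.Coin

variable {n : ℕ}

/-- The string `A` is seen at time `t` in the sequence of tosses `ω`: the tosses numbered
`t - n + 1, ..., t` (toss number `k` is `ω (k - 1)`) spell `A`. -/
def Seen (A : Fin n → Bool) (ω : ℕ → Bool) (t : ℕ) : Prop := n ≤ t ∧ ∀ i : Fin n, ω (t - n + i) = A i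

/-- The first time at which `A` is seen (`⊤` if never). -/
noncomputable def time (A : Fin n → Bool) (ω : ℕ → Bool) : ℕ∞ :=
  sInf ((fun t : ℕ => (t : ℕ∞)) '' {t : ℕ | Seen A ω t})

/-- The probability `P(B ≺ A)` that `B` is seen before `A` in a sequence of fair tosses. -/
noncomputable def before (B A : Fin n → Bool) : ℝ := fair.real {ω | time B ω < time A ω}

/-- Winning probability of Player II answering optimally to a uniformly random string. -/
noncomputable def pRandOpt (n : ℕ) : ℝ :=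
  (1 / 2 ^ n) * ∑ A : Fin n → Bool, ⨆ B : {B : Fin n → Bool // B ≠ A}, before B.1 A

/-- extension by `false` -/
def ex (A : Fin n → Bool) : ℕ → Bool := fun i => if h : i < n then A ⟨i, h⟩ else false

lemma ex_apply (A : Fin n → Bool) {i : ℕ} (h : i < n) : ex A i = A ⟨i, h⟩ := by
  unfold ex; rw [dif_pos h]

lemma seen_iff (A : Fin n → Bool) (ω : ℕ → Bool) (t : ℕ) : Seen A ω t ↔ OccN n (ex A) ω t := by
  constructor
  · rintro ⟨h1, h2⟩
    refine ⟨h1, fun i hi => ?_⟩
    rw [ex_apply A hi]; exact h2 ⟨i, hi⟩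
  · rintro ⟨h1, h2⟩
    refine ⟨h1, fun i => ?_⟩
    have := h2 i i.2
    rw [ex_apply A i.2] at this
    exact this

lemma ne_ex {A B : Fin n → Bool} (h : A ≠ B) : ∃ i < n, ex A i ≠ ex B i := by
  have : ∃ i, A i ≠ B i := by
    by_contra hcon
    push Not at hcon
    exact h (funext hcon)
  obtain ⟨i, hi⟩ := this
  refine ⟨i, i.2, ?_⟩
  rw [ex_apply A i.2, ex_apply B i.2]
  exact hi

lemma time_lt_iff (A : Fin n → Bool) (ω : ℕ → Bool) (t : ℕ) :
    time A ω = t ↔ Seen A ω t ∧ ∀ k < t, ¬ Seen A ω k := by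
  constructor
  · intro h
    have hne : ((fun t : ℕ => (t : ℕ∞)) '' {t : ℕ | Seen A ω t}).Nonempty := by
      by_contra hcon
      rw [Set.not_nonempty_iff_eq_empty] at hcon
      unfold time at h
      rw [hcon, sInf_empty] at h
      exact absurd h (ENat.top_ne_natCast t)
    have hmem := csInf_mem hne
    obtain ⟨t', ht', htt⟩ := hmem
    have h2 : ((t' : ℕ) : ℕ∞) = t := htt.trans h
    have h3 : t' = t := by exact_mod_cast h2
    subst h3
    refine ⟨ht', fun k hk hs => ?_⟩
    have h4 : time A ω ≤ (k : ℕ∞) := sInf_le ⟨k, hs, rfl⟩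
    rw [h] at h4
    have : t' ≤ k := by exact_mod_cast h4
    omega
  · rintro ⟨h1, h2⟩
    apply le_antisymm
    · exact sInf_le ⟨t, h1, rfl⟩
    · apply le_sInf
      rintro _ ⟨k, hk, rfl⟩
      have h3 : t ≤ k := by
        by_contra hcon
        exact h2 k (by omega) hk
      change (t : ℕ∞) ≤ (k : ℕ∞)
      exact_mod_cast h3

lemma lt_time_iff (A : Fin n → Bool) (ω : ℕ → Bool) (t : ℕ) :
    (t : ℕ∞) < time A ω ↔ ∀ k ≤ t, ¬ Seen A ω k := by
  constructor
  · intro h k hk hs
    have h4 : time A ω ≤ (k : ℕ∞) := sInf_le ⟨k, hs, rfl⟩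
    have h5 : (k : ℕ∞) ≤ t := by exact_mod_cast hk
    exact absurd (h4.trans h5) (not_le.mpr h)
  · intro h
    have : ((t + 1 : ℕ) : ℕ∞) ≤ time A ω := by
      apply le_sInf
      rintro _ ⟨m, hm, rfl⟩
      simp only
      have : t < m := by
        by_contra hcon
        exact h m (by omega) hm
      exact_mod_cast this
    exact lt_of_lt_of_le (by exact_mod_cast Nat.lt_succ_self t) this

lemma before_eq {A B : Fin n → Bool} (h : B ≠ A) : before B A = pW n (ex B) (ex A) := by
  have hset : {ω | time B ω < time A ω} = ⋃ t, Win n (ex B) (ex A) t := by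
    ext ω
    simp only [mem_ofPred_eq, mem_iUnion, Win]
    constructor
    · intro hlt
      have hne : time B ω ≠ ⊤ := ne_top_of_lt hlt
      obtain ⟨t, ht⟩ := ENat.ne_top_iff_exists.mp hne
      refine ⟨t, ?_⟩
      have h1 := (time_lt_iff B ω t).mp ht.symm
      rw [← ht, lt_time_iff] at hlt
      refine ⟨(seen_iff _ _ _).mp h1.1, fun k hk => ⟨?_, ?_⟩⟩
      · rw [← seen_iff]; exact h1.2 k hk
      · rw [← seen_iff]; exact hlt k hk.le
    · rintro ⟨t, h1, h2⟩
      have h3 : time B ω = t := by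
        rw [time_lt_iff]
        refine ⟨(seen_iff _ _ _).mpr h1, fun k hk => ?_⟩
        rw [seen_iff]; exact (h2 k hk).1
      rw [h3, lt_time_iff]
      intro k hk
      rw [seen_iff]
      rcases hk.lt_or_eq with hk | hk
      · exact (h2 k hk).2
      · subst hk
        intro h4
        exact not_both (ne_ex h) h1 h4
  unfold before pW
  rw [hset, measureReal_def, measure_iUnion (fun t t' htt => win_disj_self htt)
    (fun t => (dep_win _ _ _ t).measurable), ENNReal.tsum_toReal_eq (fun t => measure_ne_top _ _)]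
  rfl

lemma before_nonneg (A B : Fin n → Bool) : 0 ≤ before B A := measureReal_nonneg

lemma before_le_one (A B : Fin n → Bool) : before B A ≤ 1 := measureReal_le_one

/-! ### counting -/

lemma count_shift (l r : ℕ) (hlr : l + r ≤ n) (P : (Fin n → Bool) → Prop) [DecidablePred P]
    (h : ∀ A A', P A → P A' → ∀ i < r, (∀ k < l + i, ex A k = ex A' k) →
      ex A (l + i) = ex A' (l + i)) :
    (Finset.univ.filter P).card ≤ 2 ^ (n - r) := by
  classical
  set J : Finset (Fin n) := (Finset.univ : Finset (Fin r)).map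
    ⟨fun (i : Fin r) => (⟨l + i.val, by have := i.2; omega⟩ : Fin n), fun i j hij => by
      simp only [Fin.mk.injEq] at hij
      exact Fin.ext (by omega)⟩ with hJ
  have hJc : J.card = r := by rw [hJ, Finset.card_map, Finset.card_univ, Fintype.card_fin]
  have hmemJ : ∀ j : Fin n, j ∈ J ↔ ∃ i < r, j.val = l + i := by
    intro j
    rw [hJ, Finset.mem_map]
    constructor
    · rintro ⟨i, _, hi⟩
      exact ⟨i, i.2, by rw [← hi]; rfl⟩
    · rintro ⟨i, hi, hj⟩
      exact ⟨⟨i, hi⟩, Finset.mem_univ _, Fin.ext hj.symm⟩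
  have hcard : Fintype.card ({j : Fin n // j ∉ J} → Bool) = 2 ^ (n - r) := by
    rw [Fintype.card_fun, Fintype.card_bool, Fintype.card_subtype_compl, Fintype.card_fin,
      Fintype.card_coe, hJc]
  rw [← hcard, ← Finset.card_univ]
  apply Finset.card_le_card_of_injOn (fun A => fun j : {j : Fin n // j ∉ J} => A j.1)
  · intro _ _; exact Finset.mem_coe.mpr (Finset.mem_univ _)
  · intro A hA A' hA' heq
    rw [Finset.mem_coe, Finset.mem_filter] at hA hA'
    have key : ∀ m : ℕ, ∀ j : Fin n, j.val = m → A j = A' j := by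
      intro m
      induction m using Nat.strong_induction_on with
      | _ m ih =>
        intro j hj
        by_cases hjJ : j ∈ J
        · obtain ⟨i, hi, hji⟩ := (hmemJ j).mp hjJ
          have h1 := h A A' hA.2 hA'.2 i hi (by
            intro k hk
            have hkn : k < n := by omega
            rw [ex_apply A hkn, ex_apply A' hkn]
            exact ih k (by omega) ⟨k, hkn⟩ rfl)
          have hln : l + i < n := by omega
          rw [ex_apply A hln, ex_apply A' hln] at h1
          have : j = ⟨l + i, hln⟩ := Fin.ext hji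
          rw [this]; exact h1
        · exact congrFun heq ⟨j, hjJ⟩
    exact funext fun j => key j.val j rfl

/-- sum of weighted indicator counts -/
lemma sum_bound (m : ℕ) (Q : ℕ → (Fin n → Bool) → Prop)
    [∀ r, DecidablePred (Q r)]
    (h : ∀ r ∈ Finset.Icc 1 m, (Finset.univ.filter (Q r)).card ≤ 2 ^ (n - r)) (hm : m ≤ n) :
    ∑ A : Fin n → Bool, ∑ r ∈ Finset.Icc 1 m, (2 : ℝ) ^ (r - 1) * (if Q r A then 1 else 0)
      ≤ m * 2 ^ (n - 1) := by
  rw [Finset.sum_comm]
  have h1 : ∀ r ∈ Finset.Icc 1 m, ∑ A : Fin n → Bool, (2 : ℝ) ^ (r - 1) * (if Q r A then 1 else 0)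
      ≤ 2 ^ (n - 1) := by
    intro r hr
    have hr' := Finset.mem_Icc.mp hr
    rw [← Finset.mul_sum, Finset.sum_boole]
    have h2 : ((Finset.univ.filter (Q r)).card : ℝ) ≤ 2 ^ (n - r) := by exact_mod_cast h r hr
    calc (2 : ℝ) ^ (r - 1) * ((Finset.univ.filter (Q r)).card : ℝ)
        ≤ 2 ^ (r - 1) * 2 ^ (n - r) := mul_le_mul_of_nonneg_left h2 (by positivity)
      _ = 2 ^ (n - 1) := by rw [← pow_add]; congr 1; omega
  refine (Finset.sum_le_sum h1).trans ?_
  rw [Finset.sum_const, Nat.card_Icc, nsmul_eq_mul, Nat.add_sub_cancel]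

/-! ### the four overlap quantities -/

/-- the answer `H A_1 ... A_{n-1}` -/
def ans (A : Fin n → Bool) : Fin n → Bool := fun i => if i.val = 0 then true else ex A (i.val - 1)

lemma ex_ans (A : Fin n → Bool) {i : ℕ} (h : i < n) :
    ex (ans A) i = if i = 0 then true else ex A (i - 1) := by
  rw [ex_apply _ h]; rfl

noncomputable def alpha (A : Fin n → Bool) : ℝ :=
  ∑ r ∈ Finset.Icc 1 (n - 1), 2 ^ (r - 1) * ov n (ex A) (ex A) r

noncomputable def delta (A : Fin n → Bool) : ℝ :=
  ∑ r ∈ Finset.Icc 1 (n - 2), 2 ^ (r - 1) * ov (n - 1) (ex A) (ex A) r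

noncomputable def beta (A : Fin n → Bool) : ℝ :=
  ∑ r ∈ Finset.Icc 1 (n - 1), 2 ^ (r - 1) * ov n (ex (ans A)) (ex (ans A)) r

noncomputable def gamma (A : Fin n → Bool) : ℝ :=
  ∑ r ∈ Finset.Icc 1 (n - 1), 2 ^ (r - 1) * ov n (ex A) (ex (ans A)) r

lemma sum_alpha : ∑ A : Fin n → Bool, alpha A ≤ (n - 1 : ℕ) * 2 ^ (n - 1) := by
  classical
  unfold alpha ov
  apply sum_bound (n - 1) (fun r A => ∀ i < r, ex A (i + (n - r)) = ex A i) _ (by omega)
  intro r hr
  have hr' := Finset.mem_Icc.mp hr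
  apply count_shift (n - r) r (by omega)
  intro A A' hA hA' i hi hk
  have h1 := hA i hi
  have h2 := hA' i hi
  rw [add_comm (n - r) i, h1, h2]
  exact hk i (by omega)

lemma sum_delta : ∑ A : Fin n → Bool, delta A ≤ (n - 2 : ℕ) * 2 ^ (n - 1) := by
  classical
  unfold delta ov
  apply sum_bound (n - 2) (fun r A => ∀ i < r, ex A (i + (n - 1 - r)) = ex A i) _ (by omega)
  intro r hr
  have hr' := Finset.mem_Icc.mp hr
  apply count_shift (n - 1 - r) r (by omega)
  intro A A' hA hA' i hi hk
  have h1 := hA i hi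
  have h2 := hA' i hi
  rw [add_comm (n - 1 - r) i, h1, h2]
  exact hk i (by omega)

lemma sum_beta : ∑ A : Fin n → Bool, beta A ≤ (n - 1 : ℕ) * 2 ^ (n - 1) := by
  classical
  unfold beta ov
  apply sum_bound (n - 1) (fun r A => ∀ i < r, ex (ans A) (i + (n - r)) = ex (ans A) i) _ (by omega)
  intro r hr
  have hr' := Finset.mem_Icc.mp hr
  apply count_shift (n - r - 1) r (by omega)
  intro A A' hA hA' i hi hk
  have h1 := hA i hi
  have h2 := hA' i hi
  rw [ex_ans A (by omega), ex_ans A (by omega), if_neg (by omega)] at h1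
  rw [ex_ans A' (by omega), ex_ans A' (by omega), if_neg (by omega)] at h2
  have e1 : i + (n - r) - 1 = n - r - 1 + i := by omega
  rw [e1] at h1 h2
  rw [h1, h2]
  by_cases h0 : i = 0
  · rw [if_pos h0, if_pos h0]
  · rw [if_neg h0, if_neg h0]
    exact hk (i - 1) (by omega)

lemma sum_gamma : ∑ A : Fin n → Bool, gamma A ≤ (n - 1 : ℕ) * 2 ^ (n - 1) := by
  classical
  unfold gamma ov
  apply sum_bound (n - 1) (fun r A => ∀ i < r, ex A (i + (n - r)) = ex (ans A) i) _ (by omega)
  intro r hr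
  have hr' := Finset.mem_Icc.mp hr
  apply count_shift (n - r) r (by omega)
  intro A A' hA hA' i hi hk
  have h1 := hA i hi
  have h2 := hA' i hi
  rw [ex_ans A (by omega)] at h1
  rw [ex_ans A' (by omega)] at h2
  rw [add_comm (n - r) i, h1, h2]
  by_cases h0 : i = 0
  · rw [if_pos h0, if_pos h0]
  · rw [if_neg h0, if_neg h0]
    exact hk (i - 1) (by omega)

lemma alpha_nonneg (A : Fin n → Bool) : 0 ≤ alpha A :=
  Finset.sum_nonneg fun _ _ => mul_nonneg (by positivity) (ov_nonneg _ _ _ _)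
lemma beta_nonneg (A : Fin n → Bool) : 0 ≤ beta A :=
  Finset.sum_nonneg fun _ _ => mul_nonneg (by positivity) (ov_nonneg _ _ _ _)
lemma gamma_nonneg (A : Fin n → Bool) : 0 ≤ gamma A :=
  Finset.sum_nonneg fun _ _ => mul_nonneg (by positivity) (ov_nonneg _ _ _ _)
lemma delta_nonneg (A : Fin n → Bool) : 0 ≤ delta A :=
  Finset.sum_nonneg fun _ _ => mul_nonneg (by positivity) (ov_nonneg _ _ _ _)

/-- splitting off the top term -/
lemma cor_split (hn : 0 < n) (x w : ℕ → Bool) :
    cor n x w = 2 ^ (n - 1) * ov n x w n + ∑ r ∈ Finset.Icc 1 (n - 1), 2 ^ (r - 1) * ov n x w r := by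
  unfold cor
  have : Finset.Icc 1 n = insert n (Finset.Icc 1 (n - 1)) := by
    ext r; simp only [Finset.mem_Icc, Finset.mem_insert]; omega
  rw [this, Finset.sum_insert (by simp only [Finset.mem_Icc]; omega)]

lemma ov_self (x : ℕ → Bool) : ov n x x n = 1 := by
  unfold ov
  rw [if_pos]
  intro i _
  rw [Nat.sub_self, add_zero]

lemma ov_ne {x w : ℕ → Bool} (h : ∃ i < n, x i ≠ w i) : ov n x w n = 0 := by
  unfold ov
  rw [if_neg]
  intro hall
  obtain ⟨i, hi, hne⟩ := h
  apply hne
  have := hall i hi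
  rwa [Nat.sub_self, add_zero] at this

lemma cor_self (hn : 0 < n) (A : Fin n → Bool) : cor n (ex A) (ex A) = 2 ^ (n - 1) + alpha A := by
  rw [cor_split hn, ov_self, mul_one]; rfl

lemma cor_nonneg (x w : ℕ → Bool) : 0 ≤ cor n x w :=
  Finset.sum_nonneg fun _ _ => mul_nonneg (by positivity) (ov_nonneg _ _ _ _)

lemma sum_two_pow (m : ℕ) : ∑ r ∈ Finset.Icc 1 m, (2 : ℝ) ^ (r - 1) = 2 ^ m - 1 := by
  induction m with
  | zero => simp
  | succ m ih =>
    have : Finset.Icc 1 (m + 1) = insert (m + 1) (Finset.Icc 1 m) := by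
      ext r; simp only [Finset.mem_Icc, Finset.mem_insert]; omega
    rw [this, Finset.sum_insert (by simp only [Finset.mem_Icc]; omega), ih, Nat.add_sub_cancel,
      pow_succ]
    ring

/-- upper bound for `cor B A` -/
lemma cor_BA_le (hn : 2 ≤ n) {A B : Fin n → Bool} (h : B ≠ A) :
    cor n (ex B) (ex A) ≤ 2 ^ (n - 1) / 2 + delta A := by
  rw [cor_split (by omega), ov_ne (ne_ex h), mul_zero, zero_add]
  have hI : Finset.Icc 1 (n - 1) = insert (n - 1) (Finset.Icc 1 (n - 2)) := by
    ext r; simp only [Finset.mem_Icc, Finset.mem_insert]; omega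
  rw [hI, Finset.sum_insert (by simp only [Finset.mem_Icc]; omega)]
  have hx : (2 : ℝ) ^ (n - 1) / 2 = 2 ^ (n - 1 - 1) := by
    have : n - 1 = (n - 1 - 1) + 1 := by omega
    rw [this, pow_succ]; simp
  rw [hx]
  by_cases htop : ∀ i < n - 1, ex B (i + (n - (n - 1))) = ex A i
  · have h1 : ov n (ex B) (ex A) (n - 1) = 1 := by unfold ov; rw [if_pos htop]
    rw [h1, mul_one]
    apply add_le_add le_rfl
    unfold delta
    apply Finset.sum_le_sum
    intro r hr
    have hr' := Finset.mem_Icc.mp hr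
    apply mul_le_mul_of_nonneg_left _ (by positivity)
    unfold ov
    by_cases h2 : ∀ i < r, ex B (i + (n - r)) = ex A i
    · rw [if_pos h2, if_pos]
      intro i hi
      rw [← h2 i hi, ← htop (i + (n - 1 - r)) (by omega)]
      congr 1; omega
    · rw [if_neg h2]
      split <;> norm_num
  · have h1 : ov n (ex B) (ex A) (n - 1) = 0 := by unfold ov; rw [if_neg htop]
    rw [h1, mul_zero, zero_add]
    have h2 : ∑ r ∈ Finset.Icc 1 (n - 2), 2 ^ (r - 1) * ov n (ex B) (ex A) r
        ≤ ∑ r ∈ Finset.Icc 1 (n - 2), (2 : ℝ) ^ (r - 1) := by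
      apply Finset.sum_le_sum
      intro r _
      calc (2 : ℝ) ^ (r - 1) * ov n (ex B) (ex A) r ≤ 2 ^ (r - 1) * 1 :=
            mul_le_mul_of_nonneg_left (ov_le_one _ _ _ _) (by positivity)
        _ = _ := mul_one _
    rw [sum_two_pow] at h2
    have h3 := delta_nonneg A
    have h4 : n - 1 - 1 = n - 2 := by omega
    rw [h4]
    linarith

lemma upper (hn : 2 ≤ n) {A B : Fin n → Bool} (h : B ≠ A) :
    before B A ≤ 2 / 3 + 2 / 3 * (alpha A + delta A) / 2 ^ (n - 1) := by
  rw [before_eq h]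
  have hc := conway (n := n) (by omega) (ne_ex h)
  have ht := total (n := n) (by omega) (ne_ex h)
  have hq0 : 0 ≤ pW n (ex B) (ex A) := by rw [← before_eq h]; exact before_nonneg _ _
  have hq1 : pW n (ex B) (ex A) ≤ 1 := by rw [← before_eq h]; exact before_le_one _ _
  set q := pW n (ex B) (ex A) with hq
  have hpA : pW n (ex A) (ex B) = 1 - q := by linarith
  rw [hpA, cor_self (by omega), cor_self (by omega)] at hc
  have hBA := cor_BA_le hn h
  have hAB := cor_nonneg (n := n) (ex A) (ex B)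
  have hx : (0 : ℝ) < 2 ^ (n - 1) := by positivity
  set x : ℝ := 2 ^ (n - 1) with hxdef
  have hβ := alpha_nonneg B
  have hα := alpha_nonneg A
  have hδ := delta_nonneg A
  rw [← sub_le_iff_le_add', le_div_iff₀ hx]
  -- q * (x + alpha B - BA) = (1 - q) * (x + alpha A - AB)
  have h1 : q * (x / 2 - delta A) ≤ q * (x + alpha B - cor n (ex B) (ex A)) :=
    mul_le_mul_of_nonneg_left (by linarith) hq0
  have h2 : (1 - q) * (x + alpha A - cor n (ex A) (ex B)) ≤ (1 - q) * (x + alpha A) :=
    mul_le_mul_of_nonneg_left (by linarith) (by linarith)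
  have h3 : q * delta A ≤ delta A := by nlinarith
  have h4 : 0 ≤ q * alpha A := mul_nonneg hq0 hα
  nlinarith

/-- lower bound for `cor (ans A) A` -/
lemma cor_ans_ge (hn : 2 ≤ n) (A : Fin n → Bool) :
    2 ^ (n - 1) / 2 ≤ cor n (ex (ans A)) (ex A) := by
  have hx : (2 : ℝ) ^ (n - 1) / 2 = 2 ^ (n - 1 - 1) * ov n (ex (ans A)) (ex A) (n - 1) := by
    have h1 : ov n (ex (ans A)) (ex A) (n - 1) = 1 := by
      unfold ov
      rw [if_pos]
      intro i hi
      rw [ex_ans A (by omega), if_neg (by omega)]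
      congr 1; omega
    have : n - 1 = (n - 1 - 1) + 1 := by omega
    rw [h1, this, pow_succ]; simp
  rw [hx]
  unfold cor
  exact Finset.single_le_sum (f := fun r => (2 : ℝ) ^ (r - 1) * ov n (ex (ans A)) (ex A) r)
    (fun r _ => mul_nonneg (by positivity) (ov_nonneg _ _ _ _)) (Finset.mem_Icc.mpr ⟨by omega, by omega⟩)

lemma lower (hn : 2 ≤ n) {A : Fin n → Bool} (h : ans A ≠ A) :
    2 / 3 - 2 / 3 * (beta A + gamma A) / 2 ^ (n - 1) ≤ before (ans A) A := by
  rw [before_eq h]
  have hc := conway (n := n) (by omega) (ne_ex h)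
  have ht := total (n := n) (by omega) (ne_ex h)
  have hq0 : 0 ≤ pW n (ex (ans A)) (ex A) := by rw [← before_eq h]; exact before_nonneg _ _
  have hq1 : pW n (ex (ans A)) (ex A) ≤ 1 := by rw [← before_eq h]; exact before_le_one _ _
  set q := pW n (ex (ans A)) (ex A) with hq
  have hpA : pW n (ex A) (ex (ans A)) = 1 - q := by linarith
  rw [hpA, cor_self (by omega), cor_self (by omega)] at hc
  have hb : alpha (ans A) = beta A := rfl
  have hg : cor n (ex A) (ex (ans A)) = gamma A := by
    rw [cor_split (by omega), ov_ne (ne_ex h.symm), mul_zero, zero_add]; rfl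
  rw [hb, hg] at hc
  have hBA := cor_ans_ge hn A
  have hx : (0 : ℝ) < 2 ^ (n - 1) := by positivity
  set x : ℝ := 2 ^ (n - 1) with hxdef
  have hβ := beta_nonneg A
  have hα := alpha_nonneg A
  have hγ := gamma_nonneg A
  rw [sub_le_comm, div_eq_mul_inv, ← div_eq_mul_inv, le_div_iff₀ hx]
  have h1 : q * (x + beta A - cor n (ex (ans A)) (ex A)) ≤ q * (x / 2 + beta A) :=
    mul_le_mul_of_nonneg_left (by linarith) hq0
  have h2 : (1 - q) * (x - gamma A) ≤ (1 - q) * (x + alpha A - gamma A) :=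
    mul_le_mul_of_nonneg_left (by linarith) (by linarith)
  have h3 : q * beta A ≤ beta A := by nlinarith
  have h4 : 0 ≤ q * gamma A := mul_nonneg hq0 hγ
  nlinarith

lemma ans_eq_self (A : Fin n → Bool) (h : ans A = A) : A = fun _ => true := by
  have key : ∀ m : ℕ, ∀ i : Fin n, i.val = m → A i = true := by
    intro m
    induction m with
    | zero =>
      intro i hi
      rw [← h]
      unfold ans
      rw [if_pos hi]
    | succ m ih =>
      intro i hi
      have hm : m < n := by have := i.2; omega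
      rw [← h]
      unfold ans
      rw [if_neg (by omega), show i.val - 1 = m by omega, ex_apply A hm]
      exact ih ⟨m, hm⟩ rfl
  exact funext fun i => key i.val i rfl

/-- existence of a competitor -/
lemma exists_ne (hn : 0 < n) (A : Fin n → Bool) : ∃ B : Fin n → Bool, B ≠ A := by
  refine ⟨fun i => !(A i), fun h => ?_⟩
  have := congrFun h ⟨0, hn⟩
  cases hA : A ⟨0, hn⟩ <;> simp [hA] at this

theorem main (n : ℕ) (hn : 1 ≤ n) : |pRandOpt n - 2 / 3| ≤ 2 * n / 2 ^ n := by
  set M : (Fin n → Bool) → ℝ := fun A => ⨆ B : {B : Fin n → Bool // B ≠ A}, before B.1 A with hM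
  have hbdd : ∀ A, BddAbove (range fun B : {B : Fin n → Bool // B ≠ A} => before B.1 A) := by
    intro A
    refine ⟨1, ?_⟩
    rintro _ ⟨B, rfl⟩
    exact before_le_one _ _
  have hne : ∀ A, Nonempty {B : Fin n → Bool // B ≠ A} := by
    intro A
    obtain ⟨B, hB⟩ := exists_ne (by omega) A
    exact ⟨⟨B, hB⟩⟩
  have hM1 : ∀ A, M A ≤ 1 := by
    intro A
    have := hne A
    exact ciSup_le fun B => before_le_one _ _
  have hM0 : ∀ A, 0 ≤ M A := by
    intro A
    obtain ⟨B⟩ := hne A
    exact (before_nonneg A B.1).trans (le_ciSup (hbdd A) B)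
  have hcard : (Finset.univ : Finset (Fin n → Bool)).card = 2 ^ n := by
    rw [Finset.card_univ, Fintype.card_fun, Fintype.card_bool, Fintype.card_fin]
  have hpn : (0 : ℝ) < 2 ^ n := by positivity
  have hp : pRandOpt n = (1 / 2 ^ n) * ∑ A, M A := rfl
  have hnr : (1 : ℝ) ≤ n := by exact_mod_cast hn
  rcases Nat.lt_or_ge n 2 with h2 | h2
  · have : n = 1 := by omega
    have hs1 : ∑ A, M A ≤ 2 ^ n := by
      calc ∑ A, M A ≤ ∑ _A : Fin n → Bool, (1 : ℝ) := Finset.sum_le_sum fun A _ => hM1 A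
        _ = 2 ^ n := by rw [Finset.sum_const, hcard, nsmul_eq_mul, mul_one]; push_cast; rfl
    have hs0 : 0 ≤ ∑ A, M A := Finset.sum_nonneg fun A _ => hM0 A
    have hp1 : pRandOpt n ≤ 1 := by
      rw [hp, one_div, inv_mul_le_iff₀ hpn]; linarith
    have hp0 : 0 ≤ pRandOpt n := by rw [hp]; positivity
    rw [abs_le]
    have h3 : (2 : ℝ) * n / 2 ^ n = 1 := by subst this; norm_num
    rw [h3]
    constructor <;> linarith
  · -- main case
    have hpow : (2 : ℝ) ^ n = 2 * 2 ^ (n - 1) := by rw [← pow_succ']; congr 1; omega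
    have hx : (0 : ℝ) < 2 ^ (n - 1) := by positivity
    have hup : ∑ A, M A ≤ 2 / 3 * 2 ^ n + 2 / 3 * (2 * n - 3) := by
      have h3 : ∀ A, M A ≤ 2 / 3 + 2 / 3 * (alpha A + delta A) / 2 ^ (n - 1) := by
        intro A
        have := hne A
        exact ciSup_le fun B => upper h2 B.2
      have h4 := Finset.sum_le_sum (s := Finset.univ) fun A _ => h3 A
      rw [Finset.sum_add_distrib, Finset.sum_const, hcard, nsmul_eq_mul, ← Finset.sum_div,
        ← Finset.mul_sum, Finset.sum_add_distrib] at h4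
      have h5 := sum_alpha (n := n)
      have h6 := sum_delta (n := n)
      have h7 : ((n - 1 : ℕ) : ℝ) = n - 1 := by push_cast [hn]; ring
      have h8 : ((n - 2 : ℕ) : ℝ) = n - 2 := by push_cast [h2]; ring
      rw [h7] at h5
      rw [h8] at h6
      have h9 : 2 / 3 * (∑ A : Fin n → Bool, alpha A + ∑ A : Fin n → Bool, delta A) / 2 ^ (n - 1)
          ≤ 2 / 3 * (2 * n - 3) := by
        rw [div_le_iff₀ hx]
        nlinarith
      refine h4.trans ?_
      have h10 : ((2 ^ n : ℕ) : ℝ) * (2 / 3) = 2 / 3 * 2 ^ n := by push_cast; ring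
      rw [h10]
      linarith
    have hlow : 2 / 3 * 2 ^ n - 2 / 3 - 2 / 3 * (2 * n - 2) ≤ ∑ A, M A := by
      have h3 : ∀ A, 2 / 3 - 2 / 3 * (beta A + gamma A) / 2 ^ (n - 1)
          - (if A = (fun _ => true) then 2 / 3 else 0) ≤ M A := by
        intro A
        by_cases hA : ans A = A
        · rw [if_pos (ans_eq_self A hA)]
          have h4 := beta_nonneg A
          have h5 := gamma_nonneg A
          have h6 : 0 ≤ 2 / 3 * (beta A + gamma A) / 2 ^ (n - 1) := by positivity
          have := hM0 A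
          linarith
        · have h4 := lower h2 hA
          have h5 : before (ans A) A ≤ M A := le_ciSup (hbdd A) ⟨ans A, hA⟩
          split <;> linarith
      have h4 := Finset.sum_le_sum (s := Finset.univ) fun A _ => h3 A
      rw [Finset.sum_sub_distrib, Finset.sum_sub_distrib, Finset.sum_const, hcard, nsmul_eq_mul,
        ← Finset.sum_div, ← Finset.mul_sum, Finset.sum_add_distrib, Finset.sum_ite_eq'] at h4
      simp only [Finset.mem_univ, if_true] at h4
      have h5 := sum_beta (n := n)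
      have h6 := sum_gamma (n := n)
      have h7 : ((n - 1 : ℕ) : ℝ) = n - 1 := by push_cast [hn]; ring
      rw [h7] at h5 h6
      have h9 : 2 / 3 * (∑ A : Fin n → Bool, beta A + ∑ A : Fin n → Bool, gamma A) / 2 ^ (n - 1)
          ≤ 2 / 3 * (2 * n - 2) := by
        rw [div_le_iff₀ hx]
        nlinarith
      have h10 : ((2 ^ n : ℕ) : ℝ) * (2 / 3) = 2 / 3 * 2 ^ n := by push_cast; ring
      rw [h10] at h4
      linarith
    rw [hp, abs_le]
    have h11 : (1 / 2 ^ n) * ∑ A, M A - 2 / 3 = (∑ A, M A - 2 / 3 * 2 ^ n) / 2 ^ n := by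
      field_simp
    rw [h11, ← neg_div]
    constructor
    · apply div_le_div_of_nonneg_right _ hpn.le
      linarith
    · apply div_le_div_of_nonneg_right _ hpn.le
      linarith

end Pool.Agent.Q212.Penney
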