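import Mathlib

/-!
# Plancherel measure: sums of the first rows are not log-concave
-/

namespace Pool.Agent.Q212.Planch

open Set

/-- `t` is a standard filling of the cells of `D` with the numbers `1, ..., n` (and `0` outside
`D`): a bijection onto `{1, ..., n}`, increasing along rows and down columns. The cell `(i, j)` is
in row `i` and column `j` (both counted from `0`). -/
def IsSYT (D : Set (ℕ × ℕ)) (n : ℕ) (t : ℕ × ℕ → ℕ) : Prop :=
  (∀ c ∉ D, t c = 0) ∧ BijOn t D (Icc 1 n) ∧
    (∀ i j j', j < j' → (i, j) ∈ D → (i, j') ∈ D → t (i, j) < t (i, j')) ∧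
    (∀ i i' j, i < i' → (i, j) ∈ D → (i', j) ∈ D → t (i, j) < t (i', j))

/-- the number of standard fillings -/
noncomputable def numSYT (D : Set (ℕ × ℕ)) (n : ℕ) : ℕ := {t | IsSYT D n t}.ncard

lemma finite_SYT {D : Set (ℕ × ℕ)} (hD : D.Finite) (n : ℕ) : {t | IsSYT D n t}.Finite := by
  have := hD.to_subtype
  rw [Set.finite_coe_iff.symm]
  have hle : ∀ (t : {t | IsSYT D n t}) (d : D), t.1 d < n + 1 := by
    intro t d
    have := t.2.2.1.mapsTo d.2
    have h2 := this.2
    omega
  apply Finite.of_injective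
    (fun (t : {t | IsSYT D n t}) => fun d : D => (⟨t.1 d, hle t d⟩ : Fin (n + 1)))
  intro t t' h
  apply Subtype.ext
  funext c
  by_cases hc : c ∈ D
  · have := congrFun h ⟨c, hc⟩
    simpa using this
  · rw [t.2.1 c hc, t'.2.1 c hc]

/-- extension by a corner -/
lemma extend {D : Set (ℕ × ℕ)} {n : ℕ} {t : ℕ × ℕ → ℕ} (ht : IsSYT D n t) {c : ℕ × ℕ} (hc : c ∉ D)
    (h1 : ∀ d ∈ D, ¬ (c.1 = d.1 ∧ c.2 < d.2)) (h2 : ∀ d ∈ D, ¬ (c.2 = d.2 ∧ c.1 < d.1)) :
    IsSYT (insert c D) (n + 1) (Function.update t c (n + 1)) := by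
  have hne : ∀ d ∈ D, d ≠ c := fun d hd h => hc (h ▸ hd)
  have hle : ∀ d ∈ D, t d < n + 1 := by
    intro d hd
    have := (ht.2.1.mapsTo hd).2
    omega
  refine ⟨?_, ?_, ?_, ?_⟩
  · intro d hd
    rw [mem_insert_iff, not_or] at hd
    rw [Function.update_of_ne hd.1]
    exact ht.1 d hd.2
  · refine ⟨?_, ?_, ?_⟩
    · intro d hd
      rw [mem_insert_iff] at hd
      rcases hd with rfl | hd
      · rw [Function.update_self]; exact ⟨by omega, le_rfl⟩
      · rw [Function.update_of_ne (hne d hd)]
        have := ht.2.1.mapsTo hd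
        exact ⟨this.1, by have := this.2; omega⟩
    · intro d hd e he hde
      rw [mem_insert_iff] at hd he
      rcases hd with rfl | hd <;> rcases he with rfl | he
      · rfl
      · rw [Function.update_self, Function.update_of_ne (hne e he)] at hde
        have := hle e he; omega
      · rw [Function.update_self, Function.update_of_ne (hne d hd)] at hde
        have := hle d hd; omega
      · rw [Function.update_of_ne (hne e he), Function.update_of_ne (hne d hd)] at hde
        exact ht.2.1.injOn hd he hde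
    · intro m hm
      by_cases hmn : m = n + 1
      · exact ⟨c, mem_insert _ _, by rw [Function.update_self, hmn]⟩
      · obtain ⟨d, hd, hdm⟩ := ht.2.1.surjOn ⟨hm.1, by have := hm.2; omega⟩
        exact ⟨d, mem_insert_of_mem _ hd, by rw [Function.update_of_ne (hne d hd)]; exact hdm⟩
  · intro i j j' hjj hm hm'
    rw [mem_insert_iff] at hm hm'
    rcases hm' with hm' | hm'
    · rcases hm with hm | hm
      · have := hm.trans hm'.symm
        simp only [Prod.mk.injEq, true_and] at this; omega
      · rw [hm', Function.update_self, Function.update_of_ne (hne _ hm)]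
        exact hle _ hm
    · rcases hm with hm | hm
      · exfalso
        apply h1 _ hm'
        rw [← hm]; exact ⟨rfl, hjj⟩
      · rw [Function.update_of_ne (hne _ hm), Function.update_of_ne (hne _ hm')]
        exact ht.2.2.1 i j j' hjj hm hm'
  · intro i i' j hii hm hm'
    rw [mem_insert_iff] at hm hm'
    rcases hm' with hm' | hm'
    · rcases hm with hm | hm
      · have := hm.trans hm'.symm
        simp only [Prod.mk.injEq, and_true] at this; omega
      · rw [hm', Function.update_self, Function.update_of_ne (hne _ hm)]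
        exact hle _ hm
    · rcases hm with hm | hm
      · exfalso
        apply h2 _ hm'
        rw [← hm]; exact ⟨rfl, hii⟩
      · rw [Function.update_of_ne (hne _ hm), Function.update_of_ne (hne _ hm')]
        exact ht.2.2.2 i i' j hii hm hm'

/-- the hook with arm `a` and leg `b` -/
def H (a b : ℕ) : Set (ℕ × ℕ) := {c | (c.1 = 0 ∧ c.2 ≤ a) ∨ (c.2 = 0 ∧ c.1 ≤ b)}

lemma H_finite (a b : ℕ) : (H a b).Finite := by
  apply (Set.finite_Iic ((b, a) : ℕ × ℕ)).subset
  rintro ⟨i, j⟩ h
  simp only [H, mem_ofPred_eq] at h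
  simp only [mem_Iic, Prod.mk_le_mk]
  omega

lemma H_succ_left (a b : ℕ) : H (a + 1) b = insert (0, a + 1) (H a b) := by
  ext ⟨i, j⟩
  simp only [H, mem_ofPred_eq, mem_insert_iff, Prod.mk.injEq]
  omega

lemma H_succ_right (a b : ℕ) : H a (b + 1) = insert (b + 1, 0) (H a b) := by
  ext ⟨i, j⟩
  simp only [H, mem_ofPred_eq, mem_insert_iff, Prod.mk.injEq]
  omega

lemma extend_left {a b n : ℕ} {t : ℕ × ℕ → ℕ} (ht : IsSYT (H a b) n t) :
    IsSYT (H (a + 1) b) (n + 1) (Function.update t (0, a + 1) (n + 1)) := by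
  rw [H_succ_left]
  apply extend ht
  · simp only [H, mem_ofPred_eq]; omega
  · rintro ⟨i, j⟩ hd ⟨e1, e2⟩
    simp only [H, mem_ofPred_eq] at hd e1 e2
    omega
  · rintro ⟨i, j⟩ hd ⟨e1, e2⟩
    simp only [H, mem_ofPred_eq] at hd e1 e2
    omega

lemma extend_right {a b n : ℕ} {t : ℕ × ℕ → ℕ} (ht : IsSYT (H a b) n t) :
    IsSYT (H a (b + 1)) (n + 1) (Function.update t (b + 1, 0) (n + 1)) := by
  rw [H_succ_right]
  apply extend ht
  · simp only [H, mem_ofPred_eq]; omega
  · rintro ⟨i, j⟩ hd ⟨e1, e2⟩
    simp only [H, mem_ofPred_eq] at hd e1 e2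
    omega
  · rintro ⟨i, j⟩ hd ⟨e1, e2⟩
    simp only [H, mem_ofPred_eq] at hd e1 e2
    omega

lemma update_injOn {D : Set (ℕ × ℕ)} {n m : ℕ} {c : ℕ × ℕ} (hc : c ∉ D) :
    InjOn (fun t : ℕ × ℕ → ℕ => Function.update t c m) {t | IsSYT D n t} := by
  intro t ht t' ht' h
  funext d
  by_cases hd : d = c
  · subst hd
    rw [ht.1 d hc, ht'.1 d hc]
  · have := congrFun h d
    simp only [Function.update_of_ne hd] at this
    exact this

lemma hook_nonempty (a b : ℕ) : {t | IsSYT (H a b) (a + b + 1) t}.Nonempty := by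
  induction a with
  | zero =>
    induction b with
    | zero =>
      refine ⟨fun c => if c = (0, 0) then 1 else 0, ?_⟩
      have hH : H 0 0 = {((0 : ℕ), (0 : ℕ))} := by
        ext ⟨i, j⟩
        simp only [H, mem_ofPred_eq, mem_singleton_iff, Prod.mk.injEq]
        omega
      rw [hH]
      refine ⟨?_, ?_, ?_, ?_⟩
      · intro c hc
        have : c ≠ (0, 0) := hc
        simp [this]
      · refine ⟨?_, ?_, ?_⟩
        · intro c hc
          have : c = (0, 0) := hc
          simp [this]
        · exact injOn_singleton _ _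
        · intro m hm
          have : m = 1 := by have := hm.1; have := hm.2; omega
          exact ⟨(0, 0), rfl, by simp [this]⟩
      · intro i j j' hjj h h'
        simp only [mem_singleton_iff, Prod.mk.injEq] at h h'
        omega
      · intro i i' j hii h h'
        simp only [mem_singleton_iff, Prod.mk.injEq] at h h'
        omega
    | succ b ih =>
      obtain ⟨t, ht⟩ := ih
      exact ⟨_, extend_right ht⟩
  | succ a ih =>
    obtain ⟨t, ht⟩ := ih
    have := extend_left ht
    rw [show a + b + 1 + 1 = a + 1 + b + 1 by ring] at this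
    exact ⟨_, this⟩

lemma hook_lower : ∀ s a b : ℕ, a + b = s → (a + b).choose a ≤ numSYT (H a b) (a + b + 1) := by
  intro s
  induction s with
  | zero =>
    intro a b hab
    have : a = 0 ∧ b = 0 := by omega
    obtain ⟨rfl, rfl⟩ := this
    simp only [Nat.add_zero, Nat.choose_self]
    exact (Set.ncard_pos (finite_SYT (H_finite 0 0) _)).mpr (hook_nonempty 0 0)
  | succ s ih =>
    intro a b hab
    rcases a with _ | a
    · rw [Nat.choose_zero_right]
      exact (Set.ncard_pos (finite_SYT (H_finite _ _) _)).mpr (hook_nonempty 0 b)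
    · rcases b with _ | b
      · simp only [Nat.add_zero, Nat.choose_self]
        exact (Set.ncard_pos (finite_SYT (H_finite _ _) _)).mpr (hook_nonempty (a + 1) 0)
      · have ih1 := ih a (b + 1) (by omega)
        have ih2 := ih (a + 1) b (by omega)
        have hn : a + 1 + (b + 1) + 1 = a + (b + 1) + 1 + 1 := by ring
        have hn2 : a + 1 + b + 1 = a + (b + 1) + 1 := by ring
        set N := a + (b + 1) + 1 with hN
        rw [hn2] at ih2
        rw [hn]
        set A := {t | IsSYT (H a (b + 1)) N t} with hA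
        set B := {t | IsSYT (H (a + 1) b) N t} with hB
        have hc1 : ((0, a + 1) : ℕ × ℕ) ∉ H a (b + 1) := by simp only [H, mem_ofPred_eq]; omega
        have hc2 : ((b + 1, 0) : ℕ × ℕ) ∉ H (a + 1) b := by simp only [H, mem_ofPred_eq]; omega
        have hfA : A.Finite := finite_SYT (H_finite _ _) _
        have hfB : B.Finite := finite_SYT (H_finite _ _) _
        have i1 : ((fun t : ℕ × ℕ → ℕ => Function.update t (0, a + 1) (N + 1)) '' A).ncard
            = A.ncard := (update_injOn hc1).ncard_image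
        have i2 : ((fun t : ℕ × ℕ → ℕ => Function.update t (b + 1, 0) (N + 1)) '' B).ncard
            = B.ncard := (update_injOn hc2).ncard_image
        have hdisj : Disjoint ((fun t : ℕ × ℕ → ℕ => Function.update t (0, a + 1) (N + 1)) '' A)
            ((fun t : ℕ × ℕ → ℕ => Function.update t (b + 1, 0) (N + 1)) '' B) := by
          rw [Set.disjoint_left]
          rintro _ ⟨t, ht, rfl⟩ ⟨t', ht', heq⟩
          have hs := extend_left (ht : IsSYT _ _ _)
          have heq' : Function.update t' (b + 1, 0) (N + 1)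
            = Function.update t (0, a + 1) (N + 1) := heq
          have e1 : Function.update t (0, a + 1) (N + 1) (b + 1, 0) = N + 1 := by
            rw [← heq']; simp
          have e2 : Function.update t (0, a + 1) (N + 1) (0, a + 1) = N + 1 := by simp
          have m1 : ((b + 1, 0) : ℕ × ℕ) ∈ H (a + 1) (b + 1) := Or.inr ⟨rfl, le_rfl⟩
          have m2 : ((0, a + 1) : ℕ × ℕ) ∈ H (a + 1) (b + 1) := Or.inl ⟨rfl, le_rfl⟩
          have := hs.2.1.injOn m1 m2 (e1.trans e2.symm)
          simp at this
        have hsub : ((fun t : ℕ × ℕ → ℕ => Function.update t (0, a + 1) (N + 1)) '' A) ∪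
            ((fun t : ℕ × ℕ → ℕ => Function.update t (b + 1, 0) (N + 1)) '' B)
            ⊆ {t | IsSYT (H (a + 1) (b + 1)) (N + 1) t} := by
          rintro _ (⟨t, ht, rfl⟩ | ⟨t, ht, rfl⟩)
          · exact extend_left ht
          · exact extend_right ht
        have hle := Set.ncard_le_ncard hsub (finite_SYT (H_finite _ _) _)
        rw [Set.ncard_union_eq hdisj (hfA.image _) (hfB.image _), i1, i2] at hle
        have hch : (a + 1 + (b + 1)).choose (a + 1)
            = (a + (b + 1)).choose a + (a + 1 + b).choose (a + 1) := by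
          have e1 : a + 1 + (b + 1) = (a + b + 1) + 1 := by ring
          have e2 : a + (b + 1) = a + b + 1 := by ring
          have e3 : a + 1 + b = a + b + 1 := by ring
          rw [e1, e2, e3, Nat.choose_succ_succ]
        rw [hch]
        exact (add_le_add ih1 ih2).trans hle

/-- at most `8` standard fillings of the shape `(2, 1^7)` -/
lemma hook17 : numSYT (H 1 7) 9 ≤ 8 := by
  have hmain : {t | IsSYT (H 1 7) 9 t}.ncard ≤ (Icc 2 9 : Set ℕ).ncard := by
    apply Set.ncard_le_ncard_of_injOn (fun t => t (0, 1))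
    · intro t ht
      have h1 := ht.2.2.1 0 0 1 (by omega) (by simp [H]) (by simp [H])
      have h2 := ht.2.1.mapsTo (x := (0, 1)) (by simp [H])
      have h3 := ht.2.1.mapsTo (x := (0, 0)) (by simp [H])
      exact ⟨by have := h3.1; omega, h2.2⟩
    · intro t ht t' ht' heq
      simp only at heq
      have hcol : ∀ t, IsSYT (H 1 7) 9 t → StrictMono (fun i : Fin 8 => t ((i : ℕ), 0)) ∧
          Set.range (fun i : Fin 8 => t ((i : ℕ), 0)) = Icc 1 9 \ {t (0, 1)} := by
        intro t ht
        constructor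
        · intro i j hij
          exact ht.2.2.2 i j 0 hij (by simp [H]; omega) (by simp [H]; omega)
        · ext m
          simp only [mem_range, Set.mem_sdiff, mem_singleton_iff]
          constructor
          · rintro ⟨i, rfl⟩
            refine ⟨ht.2.1.mapsTo (by simp [H]; omega), ?_⟩
            intro h
            have m1 : (((i : ℕ), 0) : ℕ × ℕ) ∈ H 1 7 := by simp [H]; omega
            have m2 : ((0, 1) : ℕ × ℕ) ∈ H 1 7 := by simp [H]
            have := ht.2.1.injOn m1 m2 h
            simp at this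
          · rintro ⟨hm, hne⟩
            obtain ⟨⟨i, j⟩, hd, hdm⟩ := ht.2.1.surjOn hm
            simp only [H, mem_ofPred_eq] at hd
            by_cases hj : j = 0
            · subst hj
              have : i < 8 := by omega
              exact ⟨⟨i, this⟩, hdm⟩
            · exfalso
              have : i = 0 ∧ j = 1 := by omega
              obtain ⟨rfl, rfl⟩ := this
              exact hne hdm.symm
      obtain ⟨m1, r1⟩ := hcol t ht
      obtain ⟨m2, r2⟩ := hcol t' ht'
      rw [heq, ← r2] at r1
      have hfun := (StrictMono.range_inj m1 m2).mp r1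
      funext ⟨i, j⟩
      by_cases hd : (i, j) ∈ H 1 7
      · simp only [H, mem_ofPred_eq] at hd
        by_cases hj : j = 0
        · subst hj
          have hi : i < 8 := by omega
          exact congrFun hfun ⟨i, hi⟩
        · have : i = 0 ∧ j = 1 := by omega
          obtain ⟨rfl, rfl⟩ := this
          exact heq
      · rw [ht.1 _ hd, ht'.1 _ hd]
  have h8 : (Icc 2 9 : Set ℕ).ncard = 8 := by
    rw [← Finset.coe_Icc, Set.ncard_coe_finset]; rfl
  rw [h8] at hmain
  exact hmain

/-- The row length `λ_{i+1}` of the partition `lam` (rows counted from `0`, rows beyond the last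
part have length `0`). -/
def row {n : ℕ} (lam : n.Partition) (i : ℕ) : ℕ := (lam.parts.sort (· ≥ ·)).getD i 0

/-- The cells of the Young diagram of `lam`. -/
def cells {n : ℕ} (lam : n.Partition) : Set (ℕ × ℕ) := {c | c.2 < row lam c.1}

/-- The number `f^λ` of standard Young tableaux of shape `lam`. -/
noncomputable def f {n : ℕ} (lam : n.Partition) : ℕ := numSYT (cells lam) n

/-- `S_r = λ_1 + ... + λ_r`. -/
def S {n : ℕ} (r : ℕ) (lam : n.Partition) : ℕ := ∑ i ∈ Finset.range r, row lam i

/-- The Plancherel probability `μ_n (S_r = j)`. -/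
noncomputable def prob (n r j : ℕ) : ℝ :=
  ∑ lam : n.Partition with S r lam = j, (f lam : ℝ) ^ 2 / n.factorial

lemma row_of_list {n : ℕ} (lam : n.Partition) (l : List ℕ) (hl : l.Pairwise (· ≥ ·))
    (h : lam.parts = (l : Multiset ℕ)) (i : ℕ) : row lam i = l.getD i 0 := by
  unfold row
  have hs : lam.parts.sort (· ≥ ·) = l := by
    rw [h]
    refine List.Perm.eq_of_pairwise (le := (· ≥ ·)) (fun a b _ _ h1 h2 => le_antisymm h2 h1)
      (Multiset.pairwise_sort _ _) hl ?_
    rw [← Multiset.coe_eq_coe, Multiset.sort_eq]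
  rw [hs]

/-- the partition `(5, 1, 1, 1, 1)` -/
def lamA : Nat.Partition 9 where
  parts := ([5, 1, 1, 1, 1] : List ℕ)
  parts_pos := by
    intro i hi
    simp only [Multiset.mem_coe, List.mem_cons, List.not_mem_nil, or_false] at hi
    omega
  parts_sum := by simp

/-- the partition `(1^9)` -/
def lamC : Nat.Partition 9 where
  parts := ([1, 1, 1, 1, 1, 1, 1, 1, 1] : List ℕ)
  parts_pos := by
    intro i hi
    simp only [Multiset.mem_coe, List.mem_cons, List.not_mem_nil, or_false] at hi
    omega
  parts_sum := by simp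

lemma row_A (i : ℕ) : row lamA i = ([5, 1, 1, 1, 1] : List ℕ).getD i 0 :=
  row_of_list lamA _ (by simp) rfl i

lemma row_C (i : ℕ) : row lamC i = ([1, 1, 1, 1, 1, 1, 1, 1, 1] : List ℕ).getD i 0 :=
  row_of_list lamC _ (by simp) rfl i

lemma cells_A : cells lamA = H 4 4 := by
  ext ⟨i, j⟩
  simp only [cells, mem_ofPred_eq, row_A, H]
  rcases i with _ | _ | _ | _ | _ | i <;> simp <;> omega

lemma cells_C : cells lamC = H 0 8 := by
  ext ⟨i, j⟩
  simp only [cells, mem_ofPred_eq, row_C, H]
  rcases i with _ | _ | _ | _ | _ | _ | _ | _ | _ | i <;> simp <;> omega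

lemma f_A : 70 ≤ f lamA := by
  unfold f
  rw [cells_A]
  exact hook_lower 8 4 4 rfl

lemma f_C : 1 ≤ f lamC := by
  unfold f
  rw [cells_C]
  exact hook_lower 8 0 8 rfl

lemma S_A : S 7 lamA = 9 := by
  unfold S
  simp only [row_A]
  rfl

lemma S_C : S 7 lamC = 7 := by
  unfold S
  simp only [row_C]
  rfl

lemma class_B (lam : Nat.Partition 9) (h : S 7 lam = 8) :
    lam.parts.sort (· ≥ ·) = [2, 1, 1, 1, 1, 1, 1, 1] := by
  set l := lam.parts.sort (· ≥ ·) with hl
  have hpos : ∀ x ∈ l, 0 < x := by
    intro x hx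
    rw [hl, Multiset.mem_sort] at hx
    exact lam.parts_pos hx
  have hsum : l.sum = 9 := by
    rw [← Multiset.sum_coe, hl, Multiset.sort_eq]
    exact lam.parts_sum
  have hpw : l.Pairwise (· ≥ ·) := Multiset.pairwise_sort _ _
  have hS : ∑ i ∈ Finset.range 7, l.getD i 0 = 8 := h
  clear_value l
  simp only [Finset.sum_range_succ, Finset.sum_range_zero] at hS
  match l, hpos, hsum, hpw, hS with
  | [], _, hsum, _, _ => simp at hsum
  | [a], _, hsum, _, hS => simp at hsum hS; omega
  | [a, b], _, hsum, _, hS => simp at hsum hS; omega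
  | [a, b, c], _, hsum, _, hS => simp at hsum hS; omega
  | [a, b, c, d], _, hsum, _, hS => simp at hsum hS; omega
  | [a, b, c, d, e], _, hsum, _, hS => simp at hsum hS; omega
  | [a, b, c, d, e, g], _, hsum, _, hS => simp at hsum hS; omega
  | [a, b, c, d, e, g, k], _, hsum, _, hS => simp at hsum hS; omega
  | [a, b, c, d, e, g, k, m], hpos, hsum, hpw, hS =>
    simp only [List.mem_cons, List.not_mem_nil, or_false, forall_eq_or_imp, forall_eq] at hpos
    simp only [List.sum_cons, List.sum_nil] at hsum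
    simp only [List.pairwise_cons, List.mem_cons, List.not_mem_nil, or_false, forall_eq_or_imp,
      forall_eq] at hpw
    simp at hS
    simp only [List.cons.injEq, and_true]
    omega
  | a :: b :: c :: d :: e :: g :: k :: m :: m' :: l', hpos, hsum, _, hS =>
    simp only [List.mem_cons, forall_eq_or_imp] at hpos
    simp only [List.sum_cons] at hsum
    simp at hS
    omega

lemma f_B (lam : Nat.Partition 9) (h : S 7 lam = 8) : f lam ≤ 8 := by
  have hc := class_B lam h
  have hcells : cells lam = H 1 7 := by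
    ext ⟨i, j⟩
    simp only [cells, mem_ofPred_eq, row, hc, H]
    rcases i with _ | _ | _ | _ | _ | _ | _ | _ | i <;> simp <;> omega
  unfold f
  rw [hcells]
  exact hook17

lemma card_B : (Finset.univ.filter fun lam : Nat.Partition 9 => S 7 lam = 8).card ≤ 1 := by
  rw [Finset.card_le_one]
  intro a ha b hb
  rw [Finset.mem_filter] at ha hb
  have h1 := class_B a ha.2
  have h2 := class_B b hb.2
  apply Nat.Partition.ext
  rw [← Multiset.sort_eq a.parts (· ≥ ·), ← Multiset.sort_eq b.parts (· ≥ ·), h1, h2]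

lemma bounds (N : ℝ) (hN : N = (Nat.factorial 9 : ℝ)) : 0 < N ∧ 0 ≤ prob 9 7 8 ∧
    prob 9 7 8 ≤ 64 / N ∧ 1 / N ≤ prob 9 7 7 ∧ 4900 / N ≤ prob 9 7 9 := by
  have hfac : (0 : ℝ) < N := by rw [hN]; exact_mod_cast Nat.factorial_pos 9
  have h8 : prob 9 7 8 ≤ 64 / N := by
    unfold prob
    rw [← hN]
    have h1 : ∑ lam : Nat.Partition 9 with S 7 lam = 8, (f lam : ℝ) ^ 2 / N
        ≤ ∑ lam : Nat.Partition 9 with S 7 lam = 8, 64 / N := by
      apply Finset.sum_le_sum
      intro lam hlam
      rw [Finset.mem_filter] at hlam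
      have h2 := f_B lam hlam.2
      have h3 : (f lam : ℝ) ≤ 8 := by exact_mod_cast h2
      have h4 : (0 : ℝ) ≤ f lam := Nat.cast_nonneg _
      have h5 : (f lam : ℝ) ^ 2 ≤ 64 := by nlinarith
      exact div_le_div_of_nonneg_right h5 hfac.le
    refine h1.trans ?_
    rw [Finset.sum_const, nsmul_eq_mul]
    have h2 : ((Finset.univ.filter fun lam : Nat.Partition 9 => S 7 lam = 8).card : ℝ) ≤ 1 := by
      exact_mod_cast card_B
    have h3 : 0 ≤ 64 / N := by positivity
    calc _ ≤ 1 * (64 / N) := mul_le_mul_of_nonneg_right h2 h3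
      _ = 64 / N := one_mul _
  have hterm : ∀ (j : ℕ) (lam : Nat.Partition 9), S 7 lam = j →
      (f lam : ℝ) ^ 2 / N ≤ prob 9 7 j := by
    intro j lam hj
    unfold prob
    rw [← hN]
    exact Finset.single_le_sum (f := fun lam : Nat.Partition 9 => (f lam : ℝ) ^ 2 / N)
      (fun lam _ => div_nonneg (sq_nonneg _) hfac.le) (Finset.mem_filter.mpr ⟨Finset.mem_univ _, hj⟩)
  have h7 : 1 / N ≤ prob 9 7 7 := by
    refine le_trans ?_ (hterm 7 lamC S_C)
    have : (1 : ℝ) ≤ f lamC := by exact_mod_cast f_C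
    apply div_le_div_of_nonneg_right _ hfac.le
    nlinarith
  have h9 : 4900 / N ≤ prob 9 7 9 := by
    refine le_trans ?_ (hterm 9 lamA S_A)
    have : (70 : ℝ) ≤ f lamA := by exact_mod_cast f_A
    apply div_le_div_of_nonneg_right _ hfac.le
    nlinarith
  have h0 : 0 ≤ prob 9 7 8 := by
    unfold prob
    rw [← hN]
    exact Finset.sum_nonneg fun lam _ => div_nonneg (sq_nonneg _) hfac.le
  exact ⟨hfac, h0, h8, h7, h9⟩

lemma final_ineq (M a b c : ℝ) (hM : 0 < M) (h0 : 0 ≤ a) (h8 : a ≤ 64 / M) (h7 : 1 / M ≤ b)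
    (h9 : 4900 / M ≤ c) : a ^ 2 < b * c := by
  have g1 : (64 / M) ^ 2 < (1 / M) * (4900 / M) := by
    rw [div_pow, div_mul_div_comm, ← sq]
    apply div_lt_div_of_pos_right _ (by positivity)
    norm_num
  have g2 : 0 ≤ 1 / M := by positivity
  have g3 : 0 ≤ 4900 / M := by positivity
  calc a ^ 2 ≤ (64 / M) ^ 2 := pow_le_pow_left₀ h0 h8 2
    _ < (1 / M) * (4900 / M) := g1
    _ ≤ b * c := mul_le_mul h7 h9 g3 (g2.trans h7)

theorem main : prob 9 7 8 ^ 2 < prob 9 7 (8 - 1) * prob 9 7 (8 + 1) := by
  obtain ⟨h1, h2, h3, h4, h5⟩ := bounds _ rfl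
  exact final_ineq _ _ _ _ h1 h2 h3 h4 h5

end Pool.Agent.Q212.Planch
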