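import Pool.Agent.H568.SP.Local
import Pool.Agent.H364R2.EC_SwTail

set_option autoImplicit false

/-! # Sums of Jacobi symbols over primes for related numerators: near orthogonality -/

namespace Pool.Agent.Q212.Rep

open Finset Filter Real
open Pool.Agent.H568.SP

/-- Chebyshev's lower bound -/
theorem cheb : ∀ᶠ Y : ℝ in atTop, Y ≤ 4 * ((PPf Y).card : ℝ) * log Y := by
  have h2 : ∀ᶠ Y : ℝ in atTop, log Y ≤ 1 / 100 * Y := by
    have h := isLittleO_log_id_atTop.def (show (0 : ℝ) < 1 / 100 by norm_num)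
    filter_upwards [h, eventually_ge_atTop 1] with Y hY hY1
    rw [norm_of_nonneg (log_nonneg hY1), id, norm_of_nonneg (by linarith)] at hY
    exact hY
  have h2' := (tendsto_atTop_add_const_right atTop (1 : ℝ) tendsto_id).eventually h2
  filter_upwards [h2, h2', eventually_ge_atTop 100] with Y a2 a3 a4
  simp only [id] at a3
  have hz : (2 : ℝ) ≤ Y - 1 := by linarith
  have hlogY : 0 < log Y := log_pos (by linarith)
  have b1 := Chebyshev.psi_ge' (x := Y - 1) (by linarith)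
  have b2 := Chebyshev.psi_le_primeCounting_mul_log' (Y - 1)
  have b3 : log (Y - 1) ≤ log Y := log_le_log (by linarith) (by linarith)
  have b4 : 0.69 < log 2 := by have := log_two_gt_d9; linarith
  have b5 : Y - 1 + 2 = Y + 1 := by ring
  rw [b5] at b1
  have b6 : Y / 2 ≤ (Nat.primeCounting ⌊Y - 1⌋₊ : ℝ) * log Y := by
    have c1 : (Nat.primeCounting ⌊Y - 1⌋₊ : ℝ) * log (Y - 1) ≤
        (Nat.primeCounting ⌊Y - 1⌋₊ : ℝ) * log Y :=
      mul_le_mul_of_nonneg_left b3 (Nat.cast_nonneg _)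
    nlinarith
  have b7 : Nat.primeCounting ⌊Y - 1⌋₊ ≤ (PPf Y).card + 1 := by
    have c1 : Nat.primeCounting ⌊Y - 1⌋₊ = ((range (⌊Y - 1⌋₊ + 1)).filter Nat.Prime).card := by
      rw [Nat.primeCounting, Nat.primeCounting', Nat.count_eq_card_filter_range]
    rw [c1]
    have c2 : (range (⌊Y - 1⌋₊ + 1)).filter Nat.Prime ⊆ insert 2 (PPf Y) := by
      intro p hp
      rw [mem_filter, mem_range] at hp
      rw [mem_insert]
      by_cases h : p = 2
      · exact Or.inl h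
      · right
        rw [mem_PPf]
        refine ⟨?_, hp.2, h⟩
        have d1 : p ≤ ⌊Y - 1⌋₊ := by omega
        have d2 : (p : ℝ) ≤ Y - 1 := by
          refine le_trans (by exact_mod_cast d1) (Nat.floor_le (by linarith))
        linarith
    exact (card_le_card c2).trans (card_insert_le _ _)
  have b8 : Y / 2 ≤ ((PPf Y).card + 1 : ℝ) * log Y := by
    refine b6.trans (mul_le_mul_of_nonneg_right ?_ hlogY.le)
    exact_mod_cast b7
  nlinarith

/-- powers below `Y` are negligible -/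
theorem small (δ ε : ℝ) (hδ : 0 < δ) (hε : 0 < ε) :
    ∀ᶠ Y : ℝ in atTop, Y ^ (1 - δ) ≤ ε * ((PPf Y).card : ℝ) := by
  have h1 := primes_many (δ / 2) (by positivity)
  have h2 := ev_rpow_le (1 / ε) (1 - δ) (1 - δ / 2) (by linarith)
  filter_upwards [h1, h2] with Y a1 a2
  have h3 : 1 / ε * Y ^ (1 - δ) ≤ (PPf Y).card := a2.trans a1
  rw [one_div, inv_mul_le_iff₀ hε] at h3
  exact h3

theorem sum_T (D : ℤ) (Y : ℝ) (hY : 1 ≤ Y) :
    ∑ p ∈ PPf Y, ((jacobiSym D p : ℤ) : ℝ) = Pool.Agent.H364R2.EC.T D (⌈Y⌉₊ - 1) := by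
  unfold Pool.Agent.H364R2.EC.T
  have hc : 1 ≤ ⌈Y⌉₊ := Nat.one_le_ceil_iff.2 (by linarith)
  symm
  rw [← sum_filter_add_sum_filter_not _ (fun p => p ≠ 2)]
  have h1 : ∑ p ∈ ((Icc 1 (⌈Y⌉₊ - 1)).filter (fun p : ℕ => p.Prime)).filter (fun p => ¬ p ≠ 2),
      Pool.Agent.Helper919.XX D p = 0 := by
    apply sum_eq_zero
    intro p hp
    rw [mem_filter] at hp
    have h2 : p = 2 := by
      by_contra h
      exact hp.2 h
    rw [h2, Pool.Agent.Helper919.XX_apply, if_neg (by decide)]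
  rw [h1, add_zero]
  apply sum_congr
  · ext p
    rw [mem_filter, mem_filter, mem_Icc, mem_PPf]
    constructor
    · rintro ⟨⟨⟨_, h3⟩, h4⟩, h5⟩
      refine ⟨?_, h4, h5⟩
      have h6 : p < ⌈Y⌉₊ := by omega
      exact Nat.lt_ceil.1 h6
    · rintro ⟨h3, h4, h5⟩
      have h6 := Nat.lt_ceil.2 h3
      exact ⟨⟨⟨h4.pos, by omega⟩, h4⟩, h5⟩
  · intro p hp
    rw [mem_PPf] at hp
    rw [Pool.Agent.Helper919.XX_apply, if_pos (hp.2.1.odd_of_ne_two hp.2.2)]

/-- **Siegel-Walfisz** -/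
theorem sw (W : ℕ) (ε : ℝ) (hε : 0 < ε) : ∀ᶠ Y : ℝ in atTop, ∀ D : ℤ, ¬ IsSquare D →
    |(D : ℝ)| ≤ log Y ^ W → |∑ p ∈ PPf Y, ((jacobiSym D p : ℤ) : ℝ)| ≤ ε * ((PPf Y).card : ℝ) := by
  obtain ⟨y0, hsw⟩ := Pool.Agent.H442R2.EHI.Four8.sw (2 + (W + 2)) (W + 2)
  filter_upwards [cheb, eventually_ge_atTop ((y0 : ℝ) + 1), eventually_ge_atTop (4 : ℝ),
    tendsto_log_atTop.eventually_ge_atTop ((2 : ℝ) ^ (W + 2) * 4),
    tendsto_log_atTop.eventually_ge_atTop (16 * (2 : ℝ) ^ 2 / ε)] with Y h1 h2 h3 h4 h5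
  intro D hD hDY
  rw [sum_T D Y (by linarith)]
  obtain ⟨n, hn⟩ : ∃ n : ℕ, n = ⌈Y⌉₊ - 1 := ⟨_, rfl⟩
  rw [← hn]
  have hc : 1 ≤ ⌈Y⌉₊ := Nat.one_le_ceil_iff.2 (by linarith)
  have hn1 : Y - 1 ≤ n := by
    have := Nat.le_ceil Y
    rw [hn, Nat.cast_sub hc]
    push_cast
    linarith
  have hn2 : (n : ℝ) ≤ Y := by
    have := Nat.ceil_lt_add_one (show 0 ≤ Y by linarith)
    rw [hn, Nat.cast_sub hc]
    push_cast
    linarith
  have hn0 : (0 : ℝ) < n := by linarith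
  have hny0 : y0 ≤ n := by
    have : (y0 : ℝ) ≤ n := by linarith
    exact_mod_cast this
  have hlogY : 0 < log Y := log_pos (by linarith)
  have hlog : log Y ≤ 2 * log n := by
    have h6 : Y ≤ (n : ℝ) ^ 2 := by nlinarith
    calc log Y ≤ log ((n : ℝ) ^ 2) := log_le_log (by linarith) h6
      _ = 2 * log n := by rw [log_pow]; norm_num
  have hD0 : D ≠ 0 := by rintro rfl; exact hD ⟨0, rfl⟩
  obtain ⟨q, hq⟩ : ∃ q : ℕ, q = 4 * D.natAbs := ⟨_, rfl⟩
  have hq1 : 1 ≤ q := by have := Int.natAbs_pos.2 hD0; omega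
  have hqD : (q : ℝ) = 4 * |(D : ℝ)| := by
    rw [hq]; push_cast
    rw [Nat.cast_natAbs]
    push_cast
    rfl
  have hln : 0 < log n := by linarith
  have h2W : (2 : ℝ) ^ (W + 2) ≤ log n := by
    have h7 : (0 : ℝ) < 2 ^ (W + 2) := by positivity
    linarith
  have hqlog : (q : ℝ) ≤ log n ^ (W + 2) := by
    rw [hqD]
    calc 4 * |(D : ℝ)| ≤ 4 * log Y ^ W := by linarith
      _ ≤ 4 * (2 * log n) ^ W := by gcongr
      _ = (4 * 2 ^ W) * log n ^ W := by rw [mul_pow]; ring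
      _ = 2 ^ (W + 2) * log n ^ W := by rw [pow_add]; ring
      _ ≤ log n * log n ^ W := by gcongr
      _ = log n ^ (W + 1) := by ring
      _ ≤ log n ^ (W + 2) := by
          apply pow_le_pow_right₀ _ (by omega)
          have : (1 : ℝ) ≤ 2 ^ (W + 2) := one_le_pow₀ (by norm_num)
          linarith
  have h3 := Pool.Agent.H364R2.EC.T_bound D hD n (2 + (W + 2)) (fun c hc hcop => by
    rw [← hq] at hc hcop ⊢
    exact hsw n hny0 q hq1 hqlog c hc hcop) (by positivity)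
  rw [← hq] at h3
  refine h3.trans ?_
  have h6 : (q : ℝ) * (n / log n ^ (2 + (W + 2))) ≤ n / log n ^ 2 := by
    have h7 : (n : ℝ) / log n ^ (2 + (W + 2)) = n / log n ^ 2 / log n ^ (W + 2) := by
      rw [pow_add, div_div]
    rw [h7, mul_div_assoc', div_le_iff₀ (by positivity), mul_comm]
    exact mul_le_mul_of_nonneg_left hqlog (by positivity)
  refine h6.trans ?_
  have h7 : (n : ℝ) / log n ^ 2 ≤ Y * 2 ^ 2 / log Y ^ 2 := by
    rw [div_le_div_iff₀ (by positivity) (by positivity)]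
    calc (n : ℝ) * log Y ^ 2 ≤ Y * (2 * log n) ^ 2 := by gcongr
      _ = _ := by ring
  refine h7.trans ?_
  rw [div_le_iff₀ (by positivity)]
  rw [div_le_iff₀ hε] at h5
  have hc0 : (0 : ℝ) ≤ (PPf Y).card := Nat.cast_nonneg _
  calc Y * 2 ^ 2 ≤ (4 * ((PPf Y).card : ℝ) * log Y) * 2 ^ 2 := by gcongr
    _ = ((PPf Y).card : ℝ) * log Y * (4 * 2 ^ 2) := by ring
    _ ≤ ((PPf Y).card : ℝ) * log Y * (16 * 2 ^ 2) := by gcongr; norm_num
    _ ≤ ((PPf Y).card : ℝ) * log Y * (log Y * ε) := by gcongr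
    _ = _ := by ring

lemma aux1 (a b c : ℤ) (ha : a = 0 ∨ a = 1 ∨ a = -1) (hb : b = 0 ∨ b = 1 ∨ b = -1)
    (hc : c = 0 ∨ c = 1 ∨ c = -1) (hz : a * (b * c) = 0) : |(b : ℝ) * (c : ℝ) - (a : ℝ)| ≤ 1 := by
  rcases ha with rfl | rfl | rfl <;> rcases hb with rfl | rfl | rfl <;> rcases hc with rfl | rfl | rfl <;>
    first | (exfalso; revert hz; decide) | norm_num

lemma aux2 (a b c s : ℤ) (ha : a = 0 ∨ a = 1 ∨ a = -1) (hb : b = 0 ∨ b = 1 ∨ b = -1)
    (hc : c = 0 ∨ c = 1 ∨ c = -1) (hs : s = 0 ∨ s = 1 ∨ s = -1) (hz : ¬ a * (b * c) = 0)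
    (h : a * (b * c) = s * s) : |(b : ℝ) * (c : ℝ) - (a : ℝ)| ≤ 0 := by
  rcases ha with rfl | rfl | rfl <;> rcases hb with rfl | rfl | rfl <;> rcases hc with rfl | rfl | rfl <;>
    rcases hs with rfl | rfl | rfl <;> first | (exfalso; revert hz; decide) | (exfalso; revert h; decide) | norm_num

/-- related numerators -/
theorem pair (P : Finset ℕ) (hP : ∀ p ∈ P, p.Prime) (m d e : ℤ) (h0 : m * (d * e) ≠ 0)
    (hsq : IsSquare (m * (d * e))) :
    |∑ p ∈ P, ((jacobiSym d p : ℤ) : ℝ) * ((jacobiSym e p : ℤ) : ℝ) - ∑ p ∈ P, ((jacobiSym m p : ℤ) : ℝ)| ≤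
      2 * log |((m * (d * e) : ℤ) : ℝ)| := by
  classical
  obtain ⟨s, hs⟩ := hsq
  rw [← sum_sub_distrib]
  set Z := P.filter (fun p => jacobiSym (m * (d * e)) p = 0) with hZ
  have hZc : (Z.card : ℝ) ≤ 2 * log |((m * (d * e) : ℤ) : ℝ)| :=
    card_zero_le _ h0 Z (fun p hp => hP p (mem_filter.1 hp).1) (fun p hp => (mem_filter.1 hp).2)
  refine le_trans ?_ hZc
  refine (abs_sum_le_sum_abs _ _).trans ?_
  rw [hZ, card_filter]
  push_cast
  apply sum_le_sum
  intro p hp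
  have hpne : NeZero p := ⟨(hP p hp).ne_zero⟩
  rw [jacobiSym.mul_left, jacobiSym.mul_left]
  have hm := jacobiSym.trichotomy m p
  have hd := jacobiSym.trichotomy d p
  have he := jacobiSym.trichotomy e p
  by_cases hz : jacobiSym m p * (jacobiSym d p * jacobiSym e p) = 0
  · rw [if_pos hz]
    exact aux1 _ _ _ hm hd he hz
  · rw [if_neg hz]
    have h1 : jacobiSym m p * (jacobiSym d p * jacobiSym e p) = jacobiSym s p * jacobiSym s p := by
      rw [← jacobiSym.mul_left, ← jacobiSym.mul_left, ← jacobiSym.mul_left, hs]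
    exact aux2 _ _ _ _ hm hd he (jacobiSym.trichotomy s p) hz h1

/-- the number of split primes in terms of the sum -/
theorem split_sum (d : ℤ) (hd : d % 4 = 0 ∨ d % 4 = 1) (hd0 : d ≠ 0) {Y : ℝ} (hY2 : 2 < Y) :
    |2 * (Set.ncard {p : ℕ | p.Prime ∧ (p : ℝ) < Y ∧ ¬ (p : ℤ) ∣ d ∧
        ∃ x : ℤ, (4 * (p : ℤ)) ∣ x ^ 2 - d} : ℝ) - (Set.ncard {p : ℕ | p.Prime ∧ (p : ℝ) < Y} : ℝ) -
      ∑ p ∈ PPf Y, ((jacobiSym d p : ℤ) : ℝ)| ≤ 2 * log |(d : ℝ)| + 1 := by
  classical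
  set T := (PPf Y).filter fun p => jacobiSym d p = 1 with hT
  set Z := (PPf Y).filter fun p => jacobiSym d p = 0 with hZ
  have hall : {p : ℕ | p.Prime ∧ (p : ℝ) < Y} = ((insert 2 (PPf Y) : Finset ℕ) : Set ℕ) := by
    ext p
    rw [Set.mem_ofPred_eq, mem_coe, mem_insert, mem_PPf]
    constructor
    · rintro ⟨h1, h2⟩
      by_cases h : p = 2
      · exact Or.inl h
      · exact Or.inr ⟨h2, h1, h⟩
    · rintro (rfl | ⟨h1, h2, _⟩)
      · exact ⟨Nat.prime_two, by exact_mod_cast hY2⟩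
      · exact ⟨h2, h1⟩
  have hallc : (Set.ncard {p : ℕ | p.Prime ∧ (p : ℝ) < Y} : ℝ) = (PPf Y).card + 1 := by
    rw [hall, Set.ncard_coe_finset, card_insert_of_notMem]
    · push_cast
      ring
    · rw [mem_PPf]
      simp
  set S := {p : ℕ | p.Prime ∧ (p : ℝ) < Y ∧ ¬ (p : ℤ) ∣ d ∧ ∃ x : ℤ, (4 * (p : ℤ)) ∣ x ^ 2 - d}
    with hS
  have hS1 : (T : Set ℕ) ⊆ S := by
    intro p hp
    rw [mem_coe, hT, mem_filter, mem_PPf] at hp
    obtain ⟨⟨h1, h2, h3⟩, h4⟩ := hp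
    have h5 := (split_iff h2 h3 hd).2 h4
    exact ⟨h2, h1, h5.1, h5.2⟩
  have hS2 : S ⊆ ((insert 2 T : Finset ℕ) : Set ℕ) := by
    intro p hp
    obtain ⟨h1, h2, h3, h4⟩ := hp
    rw [mem_coe, mem_insert]
    by_cases h : p = 2
    · exact Or.inl h
    · right
      rw [hT, mem_filter, mem_PPf]
      exact ⟨⟨h2, h1, h⟩, (split_iff h1 h hd).1 ⟨h3, h4⟩⟩
  have hSfin : S.Finite := (finite_toSet _).subset hS2
  have hN1 : T.card ≤ S.ncard := by
    rw [← Set.ncard_coe_finset]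
    exact Set.ncard_le_ncard hS1 hSfin
  have hN2 : S.ncard ≤ T.card + 1 := by
    refine (Set.ncard_le_ncard hS2 (finite_toSet _)).trans ?_
    rw [Set.ncard_coe_finset]
    exact card_insert_le _ _
  have hsum2 : 2 * (T.card : ℝ) = (PPf Y).card + ∑ p ∈ PPf Y, ((jacobiSym d p : ℤ) : ℝ) - Z.card := by
    rw [hT, hZ, card_filter, card_filter, card_eq_sum_ones]
    push_cast
    rw [mul_sum, ← sum_add_distrib, ← sum_sub_distrib]
    refine sum_congr rfl fun p _ => ?_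
    rcases jacobiSym.trichotomy d p with h | h | h
    · simp [h]
    · simp [h]; norm_num
    · simp [h]
  have hZc : (Z.card : ℝ) ≤ 2 * log |(d : ℝ)| :=
    card_zero_le d hd0 Z (fun p hp => by
      rw [hZ, mem_filter, mem_PPf] at hp
      exact hp.1.2.1) (fun p hp => by
      rw [hZ, mem_filter] at hp
      exact hp.2)
  rw [hallc]
  have a1 : (T.card : ℝ) ≤ S.ncard := by exact_mod_cast hN1
  have a2 : (S.ncard : ℝ) ≤ T.card + 1 := by exact_mod_cast hN2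
  have a3 : (0 : ℝ) ≤ Z.card := Nat.cast_nonneg _
  rw [abs_le]
  constructor <;> linarith

/-- **Bessel's inequality** for nearly orthogonal sums. -/
theorem bessel {ι : Type*} (P : Finset ℕ) (F : Finset ι) (x : ι → ℕ → ℝ) (η ε : ℝ) (hη : 0 ≤ η)
    (hx : ∀ i ∈ F, ∀ p ∈ P, |x i p| ≤ 1)
    (ho : ∀ i ∈ F, ∀ j ∈ F, i ≠ j → |∑ p ∈ P, x i p * x j p| ≤ ε * P.card)
    (hb : ∀ i ∈ F, η * P.card ≤ |∑ p ∈ P, x i p|) (hP : 0 < P.card) (hF : 0 < F.card) (hε : 0 ≤ ε) :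
    η ^ 2 * F.card ≤ 1 + ε * F.card := by
  classical
  have hP' : (0 : ℝ) < P.card := by exact_mod_cast hP
  have hF' : (0 : ℝ) < F.card := by exact_mod_cast hF
  obtain ⟨sg, hsg⟩ : ∃ sg : ι → ℝ, sg = fun i => if 0 ≤ ∑ p ∈ P, x i p then 1 else -1 := ⟨_, rfl⟩
  have hsg1 : ∀ i, sg i * ∑ p ∈ P, x i p = |∑ p ∈ P, x i p| := by
    intro i
    rw [hsg]
    simp only
    split_ifs with h
    · rw [one_mul, abs_of_nonneg h]
    · rw [abs_of_neg (not_le.1 h)]
      ring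
  have hsg2 : ∀ i, sg i = 1 ∨ sg i = -1 := by
    intro i
    rw [hsg]
    simp only
    split_ifs
    · left; rfl
    · right; rfl
  have h1 : η * P.card * F.card ≤ ∑ p ∈ P, ∑ i ∈ F, sg i * x i p := by
    rw [sum_comm]
    calc η * P.card * F.card = ∑ _i ∈ F, η * P.card := by rw [sum_const, nsmul_eq_mul]; ring
      _ ≤ ∑ i ∈ F, |∑ p ∈ P, x i p| := sum_le_sum hb
      _ = ∑ i ∈ F, ∑ p ∈ P, sg i * x i p := by
          apply sum_congr rfl
          intro i _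
          rw [← hsg1, mul_sum]
  have h2 : (∑ p ∈ P, ∑ i ∈ F, sg i * x i p) ^ 2 ≤ P.card * ∑ p ∈ P, (∑ i ∈ F, sg i * x i p) ^ 2 :=
    sq_sum_le_card_mul_sum_sq
  have h3 : ∑ p ∈ P, (∑ i ∈ F, sg i * x i p) ^ 2 ≤ F.card * P.card + F.card * F.card * (ε * P.card) := by
    have e1 : ∑ p ∈ P, (∑ i ∈ F, sg i * x i p) ^ 2 = ∑ i ∈ F, ∑ j ∈ F, sg i * sg j * ∑ p ∈ P, x i p * x j p := by
      have e2 : ∀ p, (∑ i ∈ F, sg i * x i p) ^ 2 = ∑ i ∈ F, ∑ j ∈ F, sg i * sg j * (x i p * x j p) := by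
        intro p
        rw [sq, sum_mul_sum]
        apply sum_congr rfl
        intro i _
        apply sum_congr rfl
        intro j _
        ring
      simp_rw [e2]
      rw [sum_comm]
      apply sum_congr rfl
      intro i _
      rw [sum_comm]
      apply sum_congr rfl
      intro j _
      rw [mul_sum]
    rw [e1]
    have e3 : ∀ i ∈ F, ∀ j ∈ F, sg i * sg j * ∑ p ∈ P, x i p * x j p ≤
        (if i = j then (P.card : ℝ) else 0) + ε * P.card := by
      intro i hi j hj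
      have hs : |sg i * sg j| = 1 := by
        rw [abs_mul]
        rcases hsg2 i with h | h <;> rcases hsg2 j with h' | h' <;> rw [h, h'] <;> norm_num
      have e4 : sg i * sg j * ∑ p ∈ P, x i p * x j p ≤ |∑ p ∈ P, x i p * x j p| := by
        calc _ ≤ |sg i * sg j * ∑ p ∈ P, x i p * x j p| := le_abs_self _
          _ = _ := by rw [abs_mul, hs, one_mul]
      have e6 : 0 ≤ ε * (P.card : ℝ) := by positivity
      split_ifs with hij
      · refine e4.trans ?_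
        have e5 : |∑ p ∈ P, x i p * x j p| ≤ P.card := by
          refine (abs_sum_le_sum_abs _ _).trans ?_
          calc ∑ p ∈ P, |x i p * x j p| ≤ ∑ _p ∈ P, (1 : ℝ) := by
                apply sum_le_sum
                intro p hp
                rw [abs_mul]
                exact mul_le_one₀ (hx i hi p hp) (abs_nonneg _) (hx j hj p hp)
            _ = P.card := by simp
        linarith
      · rw [zero_add]
        exact e4.trans (ho i hi j hj hij)
    calc ∑ i ∈ F, ∑ j ∈ F, sg i * sg j * ∑ p ∈ P, x i p * x j p ≤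
        ∑ i ∈ F, ∑ j ∈ F, ((if i = j then (P.card : ℝ) else 0) + ε * P.card) :=
          sum_le_sum fun i hi => sum_le_sum fun j hj => e3 i hi j hj
      _ = ∑ i ∈ F, ((P.card : ℝ) + F.card * (ε * P.card)) := by
          apply sum_congr rfl
          intro i hi
          rw [sum_add_distrib, sum_ite_eq, if_pos hi, sum_const, nsmul_eq_mul]
      _ = _ := by rw [sum_const, nsmul_eq_mul]; ring
  have h4 : (η * P.card * F.card) ^ 2 ≤ P.card * (F.card * P.card + F.card * F.card * (ε * P.card)) := by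
    calc (η * P.card * F.card) ^ 2 ≤ (∑ p ∈ P, ∑ i ∈ F, sg i * x i p) ^ 2 :=
          pow_le_pow_left₀ (by positivity) h1 2
      _ ≤ _ := h2
      _ ≤ _ := mul_le_mul_of_nonneg_left h3 hP'.le
  have h5 : (η ^ 2 * F.card) * ((P.card : ℝ) ^ 2 * F.card) ≤ (1 + ε * F.card) * ((P.card : ℝ) ^ 2 * F.card) := by
    calc (η ^ 2 * F.card) * ((P.card : ℝ) ^ 2 * F.card) = (η * P.card * F.card) ^ 2 := by ring
      _ ≤ _ := h4
      _ = _ := by ring
  exact le_of_mul_le_mul_right h5 (by positivity)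

end Pool.Agent.Q212.Rep
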