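import Pool.Agent.H568.SP.Local

set_option autoImplicit false

/-! # Small split primes in short intervals -/

namespace Pool.Agent.Q212.ShortInt

open Finset Filter Real
open Pool.Agent.H568.SP

/-- choice of the number and the size of the blocks -/
theorem params' {A b δ ε t θ : ℝ} (hg : Good A b δ ε t) (hε : 0 < ε) (hε1 : ε ≤ 1) (hθ1 : θ ≤ 1)
    (k : ℕ) (hk : 1 ≤ k)
    (hkt : (k : ℝ) ≤ t ^ θ) (P : ℕ) (hP : t ^ (A - δ) ≤ (P : ℝ)) : ∃ K m : ℕ, 0 < m ∧ K * m ≤ P ∧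
      (P : ℝ) - K * m ≤ ε / 2 * P ∧ (k : ℝ) ≤ ε / 4 * K ∧ t ^ (A - θ - 2 * δ) ≤ (m : ℝ) ∧
      (2 : ℝ) ^ K ≤ 2 * ((2 : ℝ) ^ (4 / ε)) ^ k := by
  have ht0 : 0 < t := by linarith [hg.t1]
  have hk' : (1 : ℝ) ≤ k := by exact_mod_cast hk
  have htθ : t ^ θ ≤ t := by
    calc t ^ θ ≤ t ^ (1 : ℝ) := rpow_le_rpow_of_exponent_le hg.t1 hθ1
      _ = t := rpow_one t
  set K := ⌈4 * k / ε⌉₊ with hK
  have hK1 : 4 * k / ε ≤ (K : ℝ) := Nat.le_ceil _
  have hK2 : (K : ℝ) < 4 * k / ε + 1 := Nat.ceil_lt_add_one (by positivity)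
  have hK3 : (K : ℝ) ≤ 5 * t ^ θ / ε := by
    have h1 : (1 : ℝ) ≤ k / ε := by
      rw [le_div_iff₀ hε]
      linarith
    have h2 : 4 * k / ε + 1 ≤ 5 * t ^ θ / ε := by
      have h3 : 5 * (k : ℝ) / ε ≤ 5 * t ^ θ / ε := by gcongr
      have h4 : 4 * (k : ℝ) / ε + k / ε = 5 * k / ε := by ring
      linarith
    linarith
  have hK4 : (K : ℝ) ≤ 5 * t / ε := hK3.trans (by gcongr)
  have hKpos : 0 < (K : ℝ) := lt_of_lt_of_le (by positivity) hK1
  have hKpos' : 0 < K := by exact_mod_cast hKpos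
  have hPK : (K : ℝ) ≤ ε / 4 * P := by
    have := hg.K
    have h1 : ε / 4 * t ^ (A - δ) ≤ ε / 4 * P := mul_le_mul_of_nonneg_left hP (by positivity)
    linarith
  have hm1 : (P : ℝ) / K < (P / K : ℕ) + 1 := by
    rw [div_lt_iff₀ hKpos]
    have h1 := Nat.lt_div_mul_add (a := P) hKpos'
    have h2 : (P : ℝ) < ((P / K : ℕ) : ℝ) * K + K := by exact_mod_cast h1
    linarith
  refine ⟨K, P / K, ?_, Nat.mul_div_le P K, ?_, ?_, ?_, ?_⟩
  · apply Nat.div_pos _ hKpos'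
    have : (K : ℝ) ≤ P := by
      have : ε / 4 * (P : ℝ) ≤ 1 * P := mul_le_mul_of_nonneg_right (by linarith) (Nat.cast_nonneg _)
      linarith
    exact_mod_cast this
  · have h1 : (P : ℝ) < ((P / K : ℕ) : ℝ) * K + K := by
      have h1 := Nat.lt_div_mul_add (a := P) hKpos'
      exact_mod_cast h1
    have h2 : (0 : ℝ) ≤ ε / 4 * P := by positivity
    nlinarith
  · have := mul_le_mul_of_nonneg_left hK1 (show 0 ≤ ε / 4 by positivity)
    have h1 : ε / 4 * (4 * k / ε) = k := by field_simp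
    linarith
  · have h1 := hg.K'
    have h2 : 2 * (K : ℝ) * t ^ (A - θ - 2 * δ) ≤ P := by
      refine le_trans ?_ hP
      refine le_trans ?_ h1
      have e1 : t ^ θ * t ^ (A - θ - 2 * δ) = t * t ^ (A - 1 - 2 * δ) := by
        nth_rewrite 3 [← rpow_one t]
        rw [← rpow_add ht0, ← rpow_add ht0]
        congr 1
        ring
      calc 2 * (K : ℝ) * t ^ (A - θ - 2 * δ) ≤ 2 * (5 * t ^ θ / ε) * t ^ (A - θ - 2 * δ) := by gcongr
        _ = 2 * 5 / ε * (t ^ θ * t ^ (A - θ - 2 * δ)) := by ring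
        _ = 2 * (5 * t / ε) * t ^ (A - 1 - 2 * δ) := by rw [e1]; ring
    have h3 : 2 * t ^ (A - θ - 2 * δ) ≤ (P : ℝ) / K := by
      rw [le_div_iff₀ hKpos]
      linarith
    have h4 : (4 : ℝ) ≤ (P : ℝ) / K := by
      rw [le_div_iff₀ hKpos]
      have : ε / 4 * (P : ℝ) ≤ 1 / 4 * P := mul_le_mul_of_nonneg_right (by linarith) (Nat.cast_nonneg _)
      linarith
    have h5 : (P : ℝ) / K ≤ 2 * ((P / K : ℕ) : ℝ) := by linarith
    linarith
  · have h1 : (2 : ℝ) ^ K = (2 : ℝ) ^ (K : ℝ) := (rpow_natCast 2 K).symm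
    have h2 : ((2 : ℝ) ^ (4 / ε)) ^ k = (2 : ℝ) ^ (4 / ε * k) := by
      rw [rpow_mul (by norm_num), rpow_natCast]
    rw [h1, h2]
    have h3 : 2 * (2 : ℝ) ^ (4 / ε * k) = (2 : ℝ) ^ (4 / ε * k + 1) := by
      rw [rpow_add (by norm_num), rpow_one]
      ring
    rw [h3]
    apply rpow_le_rpow_of_exponent_le (by norm_num)
    have h4 : 4 / ε * (k : ℝ) = 4 * k / ε := by ring
    rw [h4]
    exact hK2.le

/-- the bound for one choice of the parameters -/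
theorem step {A b δ ε t θ : ℝ} (hg : Good A b δ ε t) (hε : 0 < ε) (hε1 : ε ≤ 1) (hθ1 : θ ≤ 1)
    (hb : 0 ≤ b) (hA : 1 < A) (k : ℕ) (hk : 1 ≤ k) (hkt : (k : ℝ) ≤ t ^ θ) (x H : ℕ) (D : Finset ℕ)
    (hDs : D ⊆ Ioc x (x + H))
    (hD : ∀ n ∈ D, ε * (PPf (Yf A b t)).card ≤ |∑ p ∈ PPf (Yf A b t), ((jacobiSym (-(n : ℤ)) p : ℤ) : ℝ)|) :
    (D.card : ℝ) ≤ 2 * (t ^ δ) ^ k * ((H : ℝ) / (t ^ (A - θ - 2 * δ)) ^ k +
      8 * (t ^ (A + δ)) ^ k * (1 + 2 * k * ((A + δ) * log t))) := by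
  have ht0 : 0 < t := by linarith [hg.t1]
  have hlt := hg.lt1
  have hY0 : 0 ≤ Yf A b t := by
    unfold Yf
    have : 0 ≤ log t := by linarith [hg.lt1]
    positivity
  have hY1 : 1 ≤ Yf A b t := by
    refine le_trans ?_ (Yf_ge hb ht0.le hg.lt1)
    exact one_le_rpow hg.t1 (by linarith)
  obtain ⟨K, m, h1, h2, h3, h4, h5, h6⟩ := params' hg hε hε1 hθ1 k hk hkt _ hg.Plo
  have hm0 : (0 : ℝ) < m := by exact_mod_cast h1
  obtain ⟨y, hy⟩ : ∃ y : ℕ, y = ⌊Yf A b t⌋₊ := ⟨_, rfl⟩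
  have hy1 : 1 ≤ y := by rw [hy]; exact Nat.le_floor (by exact_mod_cast hY1)
  have hyY : (y : ℝ) ≤ t ^ (A + δ) := by
    have h7 : (y : ℝ) ≤ Yf A b t := by rw [hy]; exact Nat.floor_le hY0
    linarith [hg.Yhi]
  have key := mainA (PPf (Yf A b t)) y hy1 (fun p hp => (mem_PPf.1 hp).2.1) (fun p hp => (mem_PPf.1 hp).2.2)
    (fun p hp => by rw [hy]; exact Nat.le_floor (mem_PPf.1 hp).1.le) ε hε K m k h1 h2 h3 h4 x H D hDs hD
  obtain ⟨M, hM⟩ : ∃ M : ℝ, M = (m : ℝ) ^ k := ⟨_, rfl⟩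
  have hM0 : 0 < M := by rw [hM]; positivity
  have hlogy : log y ≤ (A + δ) * log t := by
    rw [← log_rpow ht0]
    exact log_le_log (by exact_mod_cast hy1) hyY
  have hlogy0 : 0 ≤ log y := log_natCast_nonneg y
  have e1 : ((ε / 4 * m) ^ k) ^ 2 = (ε ^ 2 / 16) ^ k * M ^ 2 := by
    rw [hM, ← pow_mul, ← pow_mul, mul_pow, mul_comm k 2, pow_mul (ε / 4) 2 k, div_pow]
    norm_num
  rw [e1, ← hM] at key
  have hE : 8 * (y : ℝ) ^ k * (1 + 2 * k * log y) ≤ 8 * (t ^ (A + δ)) ^ k * (1 + 2 * k * ((A + δ) * log t)) := by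
    gcongr
  obtain ⟨E, hE'⟩ : ∃ E : ℝ, E = 8 * (t ^ (A + δ)) ^ k * (1 + 2 * k * ((A + δ) * log t)) := ⟨_, rfl⟩
  rw [← hE'] at hE ⊢
  have hE0 : 0 ≤ E := le_trans (by positivity) hE
  have key2 : (D.card : ℝ) * (ε ^ 2 / 16) ^ k ≤ 2 ^ K * (H / M + E) := by
    have h7 : (D.card : ℝ) * ((ε ^ 2 / 16) ^ k * M ^ 2) ≤ 2 ^ K * (H * M + M ^ 2 * E) := by
      refine key.trans ?_
      gcongr
    have h8 : 2 ^ K * (H * M + M ^ 2 * E) = 2 ^ K * (H / M + E) * M ^ 2 := by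
      field_simp
    rw [h8, ← mul_assoc] at h7
    exact le_of_mul_le_mul_right h7 (by positivity)
  have hq : (0 : ℝ) < (ε ^ 2 / 16) ^ k := by positivity
  have key3 : (D.card : ℝ) ≤ 2 ^ K * (16 / ε ^ 2) ^ k * (H / M + E) := by
    have e2 : (16 / ε ^ 2) ^ k = ((ε ^ 2 / 16) ^ k)⁻¹ := by
      rw [← inv_pow, inv_div]
    rw [e2]
    calc (D.card : ℝ) = (D.card : ℝ) * (ε ^ 2 / 16) ^ k * ((ε ^ 2 / 16) ^ k)⁻¹ := by
          field_simp
      _ ≤ 2 ^ K * (H / M + E) * ((ε ^ 2 / 16) ^ k)⁻¹ := mul_le_mul_of_nonneg_right key2 (by positivity)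
      _ = _ := by ring
  have hG : (2 : ℝ) ^ K * (16 / ε ^ 2) ^ k ≤ 2 * (t ^ δ) ^ k := by
    calc (2 : ℝ) ^ K * (16 / ε ^ 2) ^ k ≤ 2 * ((2 : ℝ) ^ (4 / ε)) ^ k * (16 / ε ^ 2) ^ k := by gcongr
      _ = 2 * ((2 : ℝ) ^ (4 / ε) * (16 / ε ^ 2)) ^ k := by rw [mul_pow]; ring
      _ ≤ 2 * (t ^ δ) ^ k := by
          have := hg.G
          gcongr
  have hM1 : (t ^ (A - θ - 2 * δ)) ^ k ≤ M := by
    rw [hM]
    gcongr
  have hM2 : (0 : ℝ) < (t ^ (A - θ - 2 * δ)) ^ k := by positivity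
  refine key3.trans ?_
  have h9 : (H : ℝ) / M ≤ H / (t ^ (A - θ - 2 * δ)) ^ k := by gcongr
  calc 2 ^ K * (16 / ε ^ 2) ^ k * (H / M + E) ≤ 2 * (t ^ δ) ^ k * (H / M + E) := by gcongr
    _ ≤ _ := by gcongr

/-- **Short intervals, in terms of sums of Jacobi symbols.** -/
theorem core (A b θ ε η : ℝ) (hA : 1 < A) (hb : 0 ≤ b) (hθ : 0 ≤ θ) (hθ1 : θ ≤ 1) (hε : 0 < ε) (hε1 : ε ≤ 1)
    (hη : 0 < η) : ∃ C : ℝ, 1 ≤ C ∧ ∀ᶠ x : ℕ in atTop, ∀ H : ℕ, log x ^ C ≤ H → log H ≤ log x ^ θ →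
      ∀ D : Finset ℕ, D ⊆ Ioc x (x + H) →
      (∀ n ∈ D, ε * (PPf (Yf A b (log x))).card ≤
        |∑ p ∈ PPf (Yf A b (log x)), ((jacobiSym (-(n : ℤ)) p : ℤ) : ℝ)|) →
      (D.card : ℝ) ≤ (H : ℝ) ^ (A / (2 * A - θ) + η) := by
  obtain ⟨δ, hδ⟩ : ∃ δ : ℝ, δ = min (η / 12) ((A - 1) / 4) := ⟨_, rfl⟩
  have hδ0 : 0 < δ := by
    rw [hδ]
    exact lt_min (by positivity) (by linarith)
  have hδη : δ ≤ η / 12 := by rw [hδ]; exact min_le_left _ _
  have hδA : δ ≤ (A - 1) / 4 := by rw [hδ]; exact min_le_right _ _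
  obtain ⟨u, hu⟩ : ∃ u : ℝ, u = 2 * A - θ := ⟨_, rfl⟩
  have hu1 : 1 < u := by rw [hu]; linarith
  obtain ⟨C, hC⟩ : ∃ C : ℝ, C = u + (12 + 4 * A + 4) / η := ⟨_, rfl⟩
  have hC1 : 1 ≤ C := by
    rw [hC]
    have : 0 ≤ (12 + 4 * A + 4) / η := by positivity
    linarith
  have hCu : u ≤ C := by
    rw [hC]
    have : 0 ≤ (12 + 4 * A + 4) / η := by positivity
    linarith
  have hCη : 12 + 4 * A + 4 ≤ η * C := by
    rw [hC, mul_add, mul_div_cancel₀ _ hη.ne']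
    nlinarith
  refine ⟨C, hC1, ?_⟩
  have tlog : Tendsto (fun x : ℕ => log (x : ℝ)) atTop atTop :=
    tendsto_log_atTop.comp tendsto_natCast_atTop_atTop
  have e1 := tlog.eventually (ev_good A b δ ε hA hb hδ0 (by linarith) hε)
  have e2 : ∀ᶠ t : ℝ in atTop, 16 * (1 + 2 * t * ((A + δ) * log t)) ≤ t ^ (3 : ℝ) := by
    have h1 := isLittleO_log_id_atTop.def (show (0 : ℝ) < 1 by norm_num)
    filter_upwards [h1, eventually_ge_atTop 1, eventually_ge_atTop (16 * (1 + 2 * (A + δ)))] with t h2 h3 h4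
    rw [norm_of_nonneg (log_nonneg h3), id, norm_of_nonneg (by linarith), one_mul] at h2
    have h5 : t ^ (3 : ℝ) = t * t * t := by
      rw [show (3 : ℝ) = ((3 : ℕ) : ℝ) by norm_num, rpow_natCast]
      ring
    rw [h5]
    have h6 : 0 ≤ log t := log_nonneg h3
    have h7 : 2 * t * ((A + δ) * log t) ≤ 2 * (A + δ) * (t * t) := by
      have : 0 ≤ 2 * t * (A + δ) := by positivity
      nlinarith
    have h8 : 1 ≤ t * t := by nlinarith
    calc 16 * (1 + 2 * t * ((A + δ) * log t)) ≤ 16 * (t * t + 2 * (A + δ) * (t * t)) := by linarith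
      _ = (16 * (1 + 2 * (A + δ))) * (t * t) := by ring
      _ ≤ t * (t * t) := mul_le_mul_of_nonneg_right h4 (by positivity)
      _ = _ := by ring
  filter_upwards [e1, tlog.eventually e2] with x hg h2
  intro H hH1 hH2 D hDs hD
  obtain ⟨t, ht⟩ : ∃ t : ℝ, t = log x := ⟨_, rfl⟩
  rw [← ht] at hg h2 hH1 hH2 hD
  have ht1 := hg.t1
  have ht0 : 0 < t := by linarith
  obtain ⟨τ, hτ⟩ : ∃ τ : ℝ, τ = log t := ⟨_, rfl⟩
  have hτ1 : 1 ≤ τ := by rw [hτ]; exact hg.lt1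
  have htτ : t = exp τ := by rw [hτ, exp_log ht0]
  have hH0 : (0 : ℝ) < H := lt_of_lt_of_le (by positivity) hH1
  obtain ⟨L, hL⟩ : ∃ L : ℝ, L = log H := ⟨_, rfl⟩
  have hHL : (H : ℝ) = exp L := by rw [hL, exp_log hH0]
  have hLC : C * τ ≤ L := by
    have := log_le_log (by positivity) hH1
    rw [log_rpow ht0] at this
    rw [hL, hτ]
    exact this
  have huτ : 0 < u * τ := by positivity
  obtain ⟨k, hk⟩ : ∃ k : ℕ, k = ⌊L / (u * τ)⌋₊ := ⟨_, rfl⟩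
  have hLu : 1 ≤ L / (u * τ) := by
    rw [one_le_div huτ]
    refine le_trans ?_ hLC
    gcongr
  have hk1 : 1 ≤ k := by rw [hk]; exact Nat.le_floor (by exact_mod_cast hLu)
  have hk2 : (k : ℝ) ≤ L / (u * τ) := by rw [hk]; exact Nat.floor_le (by linarith)
  have hk3 : L / (u * τ) < k + 1 := by rw [hk]; exact Nat.lt_floor_add_one _
  have hL0 : 0 < L := lt_of_lt_of_le (by positivity) hLC
  have hkL : (k : ℝ) * (u * τ) ≤ L := by rwa [le_div_iff₀ huτ] at hk2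
  have hLk : L < (k + 1) * (u * τ) := by rwa [div_lt_iff₀ huτ] at hk3
  have hkt : (k : ℝ) ≤ t ^ θ := by
    refine le_trans ?_ hH2
    rw [← hL]
    have h5 : (1 : ℝ) ≤ u * τ := by nlinarith
    have h6 : (k : ℝ) * 1 ≤ k * (u * τ) := mul_le_mul_of_nonneg_left h5 (Nat.cast_nonneg _)
    linarith
  have key := step hg hε hε1 hθ1 hb hA k hk1 hkt x H D hDs hD
  refine key.trans ?_
  have htk : (k : ℝ) ≤ t := by
    refine hkt.trans ?_
    calc t ^ θ ≤ t ^ (1 : ℝ) := rpow_le_rpow_of_exponent_le ht1 hθ1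
      _ = t := rpow_one t
  have hpow : ∀ a : ℝ, (t ^ a) ^ k = exp (a * (k * τ)) := by
    intro a
    rw [← rpow_natCast, ← rpow_mul ht0.le, rpow_def_of_pos ht0, ← hτ]
    congr 1
    ring
  have hkτ1 : (k : ℝ) * τ ≤ L / u := by
    rw [le_div_iff₀ (by linarith)]
    linarith
  have hkτ2 : L / u - τ ≤ k * τ := by
    have h5 : L / u < (k + 1) * τ := by
      rw [div_lt_iff₀ (by linarith)]
      linarith
    linarith
  have hLu' : L / u ≤ L := div_le_self hL0.le hu1.le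
  -- the two exponents
  have hηL : (12 + 4 * A + 4) * τ ≤ η * L := by
    calc (12 + 4 * A + 4) * τ ≤ (η * C) * τ := mul_le_mul_of_nonneg_right hCη (by linarith)
      _ = η * (C * τ) := by ring
      _ ≤ η * L := mul_le_mul_of_nonneg_left hLC hη.le
  have hAτ : 4 * A * τ ≤ η * L := by nlinarith
  have h3τ : 12 * τ ≤ η * L := by nlinarith
  have h4τ : 4 ≤ η * L := by nlinarith
  have hδL : δ * (L / u) ≤ η / 12 * L := by
    calc δ * (L / u) ≤ η / 12 * (L / u) := mul_le_mul_of_nonneg_right hδη (by positivity)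
      _ ≤ η / 12 * L := mul_le_mul_of_nonneg_left hLu' (by positivity)
  have x1 : δ * (k * τ) + (L - (A - θ - 2 * δ) * (k * τ)) ≤ (A / u + η / 2) * L := by
    have h5 : (A - θ - 3 * δ) * (L / u - τ) ≤ (A - θ - 3 * δ) * (k * τ) :=
      mul_le_mul_of_nonneg_left hkτ2 (by linarith)
    have h6 : L - (A - θ) * (L / u) = A / u * L := by
      have hu0 : u ≠ 0 := by linarith
      have h7 : L = u * (L / u) := by field_simp
      have h8 : L - (A - θ) * (L / u) = (u - (A - θ)) * (L / u) := by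
        nth_rewrite 1 [h7]
        ring
      rw [h8, hu]
      have h9 : 2 * A - θ - (A - θ) = A := by ring
      rw [h9, ← hu]
      ring
    have h7 : (A - θ - 3 * δ) * τ ≤ A * τ := by
      apply mul_le_mul_of_nonneg_right _ (by linarith)
      linarith
    nlinarith
  have x2 : δ * (k * τ) + (A + δ) * (k * τ) + 3 * τ ≤ (A / u + η / 2) * L := by
    have h5 : (A + 2 * δ) * (k * τ) ≤ (A + 2 * δ) * (L / u) :=
      mul_le_mul_of_nonneg_left hkτ1 (by positivity)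
    have h6 : A * (L / u) = A / u * L := by ring
    nlinarith
  have e3 : 8 * (1 + 2 * k * ((A + δ) * log t)) * 2 ≤ exp (3 * τ) := by
    have h5 : exp (3 * τ) = t ^ (3 : ℝ) := by
      rw [rpow_def_of_pos ht0, ← hτ]
      congr 1
      ring
    rw [h5]
    refine le_trans ?_ h2
    have h6 : 0 ≤ log t := by linarith [hg.lt1]
    have h7 : 2 * (k : ℝ) * ((A + δ) * log t) ≤ 2 * t * ((A + δ) * log t) := by gcongr
    linarith
  rw [hpow, hpow, hpow, hHL]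
  have hE : exp ((A / u + η / 2) * L) * 3 ≤ exp L ^ (A / u + η) := by
    have h5 : exp L ^ (A / u + η) = exp ((A / u + η / 2) * L) * exp (η / 2 * L) := by
      rw [← exp_mul, ← exp_add]
      congr 1
      ring
    rw [h5]
    apply mul_le_mul_of_nonneg_left _ (exp_pos _).le
    have h6 := add_one_le_exp (η / 2 * L)
    linarith
  rw [← hu]
  refine le_trans ?_ hE
  have y1 : 2 * exp (δ * (k * τ)) * (exp L / exp ((A - θ - 2 * δ) * (k * τ))) ≤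
      2 * exp ((A / u + η / 2) * L) := by
    rw [← exp_sub, mul_assoc, ← exp_add]
    exact mul_le_mul_of_nonneg_left (exp_le_exp.2 x1) (by norm_num)
  have y2 : 2 * exp (δ * (k * τ)) * (8 * exp ((A + δ) * (k * τ)) * (1 + 2 * k * ((A + δ) * log t))) ≤
      exp ((A / u + η / 2) * L) := by
    calc 2 * exp (δ * (k * τ)) * (8 * exp ((A + δ) * (k * τ)) * (1 + 2 * k * ((A + δ) * log t))) =
        exp (δ * (k * τ)) * exp ((A + δ) * (k * τ)) * (8 * (1 + 2 * k * ((A + δ) * log t)) * 2) := by ring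
      _ ≤ exp (δ * (k * τ)) * exp ((A + δ) * (k * τ)) * exp (3 * τ) := by gcongr
      _ = exp (δ * (k * τ) + (A + δ) * (k * τ) + 3 * τ) := by rw [exp_add, exp_add]
      _ ≤ _ := exp_le_exp.2 x2
  rw [mul_add]
  linarith

end Pool.Agent.Q212.ShortInt
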