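import Pool.Agent.H387R2.U2
import Pool.Agent.H318R2.Cr.Prod

set_option autoImplicit false

/-! # The singular series and its truncation at a number which exceeds the shifts -/

namespace Pool.Agent.Q212.Sing

open Finset
open Pool.Agent.H386R2.HL Pool.Agent.H387R2.Uni

lemma one_sub_sum_le {ι : Type*} (s : Finset ι) (f : ι → ℝ) (hf : ∀ i ∈ s, 0 ≤ f i) (hf1 : ∀ i ∈ s, f i ≤ 1) :
    1 - ∑ i ∈ s, (1 - f i) ≤ ∏ i ∈ s, f i := by
  classical
  induction s using Finset.induction_on with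
  | empty => simp
  | insert a s ha ih =>
    rw [sum_insert ha, prod_insert ha]
    have h1 := ih (fun i hi => hf i (mem_insert_of_mem hi)) (fun i hi => hf1 i (mem_insert_of_mem hi))
    have h2 := hf a (mem_insert_self _ _)
    have h3 := hf1 a (mem_insert_self _ _)
    have h4 : ∏ i ∈ s, f i ≤ 1 := prod_le_one (fun i hi => hf i (mem_insert_of_mem hi))
      (fun i hi => hf1 i (mem_insert_of_mem hi))
    nlinarith

lemma tail_sum (y : ℕ) (hy : 1 ≤ y) (S : Finset ℕ) (hS : ∀ p ∈ S, y < p) :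
    ∑ p ∈ S, 1 / (p : ℝ) ^ 2 ≤ 2 / (y : ℝ) := by
  classical
  obtain ⟨n, hn⟩ : ∃ n, ∀ p ∈ S, p < n := by
    refine ⟨S.sup id + 1, fun p hp => ?_⟩
    have := Finset.le_sup (f := id) hp
    simp only [id] at this
    omega
  calc ∑ p ∈ S, 1 / (p : ℝ) ^ 2 ≤ ∑ p ∈ Ioo y n, ((p : ℝ) ^ 2)⁻¹ := by
        simp_rw [one_div]
        apply sum_le_sum_of_subset_of_nonneg
        · intro p hp
          exact mem_Ioo.2 ⟨hS p hp, hn p hp⟩
        · intro p _ _
          positivity
    _ ≤ 2 / ((y : ℝ) + 1) := sum_Ioo_inv_sq_le y n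
    _ ≤ 2 / (y : ℝ) := by
        have : (1 : ℝ) ≤ y := by exact_mod_cast hy
        gcongr
        linarith

/-- the singular series and its truncation -/
theorem sy_le (r : ℕ) (a : Fin r → ℕ) (ha : Function.Injective a) (y : ℕ) (hay : ∀ i, a i ≤ y)
    (hy1 : 1 ≤ y) (hyr : 4 * r ^ 2 ≤ y) : sy a y ≤ 2 * singularSeries a := by
  classical
  have hm := (multipliable_localFactor a ha).hasProd
  unfold singularSeries
  set s0 : Finset Nat.Primes := (y + 1).primesBelow.preimage (fun p : Nat.Primes => (p : ℕ))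
    Subtype.val_injective.injOn with hs0
  have hs0' : ∀ p : Nat.Primes, p ∈ s0 ↔ (p : ℕ) ≤ y := by
    intro p
    rw [hs0, mem_preimage, Nat.mem_primesBelow]
    constructor
    · rintro ⟨h, _⟩; omega
    · intro h; exact ⟨by omega, p.2⟩
  have key : sy a y / 2 ≤ ∏' p : Nat.Primes, localFactor a p := by
    refine ge_of_tendsto hm ?_
    filter_upwards [Filter.eventually_ge_atTop s0] with s hs
    have hsplit : ∏ p ∈ s, localFactor a (p : ℕ) =
        (∏ p ∈ s0, localFactor a (p : ℕ)) * ∏ p ∈ s \ s0, localFactor a (p : ℕ) := by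
      rw [mul_comm, prod_sdiff hs]
    rw [hsplit]
    have h1 : ∏ p ∈ s0, localFactor a (p : ℕ) = sy a y := by
      unfold sy
      rw [hs0]
      refine prod_preimage (fun p : Nat.Primes => (p : ℕ)) _ Subtype.val_injective.injOn
        (fun p : ℕ => localFactor a p) ?_
      intro p hp hp2
      exact absurd ⟨⟨p, Nat.prime_of_mem_primesBelow hp⟩, rfl⟩ hp2
    rw [h1, div_eq_mul_inv]
    apply mul_le_mul_of_nonneg_left _ (sy_nonneg a y)
    have hlarge : ∀ p ∈ s \ s0, y < (p : ℕ) := by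
      intro p hp
      have hp2 := (Finset.mem_sdiff.1 hp).2
      rw [hs0'] at hp2
      omega
    have hry : r ≤ y := by nlinarith [Nat.zero_le r]
    have hab : ∀ p ∈ s \ s0, |localFactor a p - 1| ≤ (r : ℝ) ^ 2 * (1 / ((p : ℕ) : ℝ) ^ 2) := by
      intro p hp
      have h2 := hlarge p hp
      exact abs_localFactor_sub_one a ha p.2 (fun i => (hay i).trans_lt h2) (by omega)
    have hsum : ∑ p ∈ s \ s0, |localFactor a p - 1| ≤ 1 / 2 := by
      calc ∑ p ∈ s \ s0, |localFactor a p - 1| ≤ ∑ p ∈ s \ s0, (r : ℝ) ^ 2 * (1 / ((p : ℕ) : ℝ) ^ 2) :=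
            sum_le_sum hab
        _ = (r : ℝ) ^ 2 * ∑ p ∈ (s \ s0).image (fun p : Nat.Primes => (p : ℕ)), 1 / (p : ℝ) ^ 2 := by
            rw [← mul_sum, sum_image]
            intro x _ z _ hxz
            exact Subtype.val_injective hxz
        _ ≤ (r : ℝ) ^ 2 * (2 / y) := by
            apply mul_le_mul_of_nonneg_left _ (by positivity)
            apply tail_sum y hy1
            intro p hp
            rw [mem_image] at hp
            obtain ⟨q, hq, rfl⟩ := hp
            exact hlarge q hq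
        _ ≤ 1 / 2 := by
            have h5 : (0 : ℝ) < y := by exact_mod_cast hy1
            have h6 : (4 : ℝ) * (r : ℝ) ^ 2 ≤ y := by exact_mod_cast hyr
            rw [mul_div_assoc', div_le_div_iff₀ h5 (by norm_num)]
            linarith
    -- replace by minimum with one
    have h7 : ∏ p ∈ s \ s0, min 1 (localFactor a (p : ℕ)) ≤ ∏ p ∈ s \ s0, localFactor a (p : ℕ) := by
      apply prod_le_prod
      · intro p _
        exact le_min zero_le_one (localFactor_nonneg a p.2)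
      · intro p _
        exact min_le_right _ _
    refine le_trans ?_ h7
    have h8 := one_sub_sum_le (s \ s0) (fun p : Nat.Primes => min 1 (localFactor a (p : ℕ)))
      (fun p _ => le_min zero_le_one (localFactor_nonneg a p.2)) (fun p _ => min_le_left _ _)
    refine le_trans ?_ h8
    have h9 : ∑ p ∈ s \ s0, (1 - min 1 (localFactor a (p : ℕ))) ≤ ∑ p ∈ s \ s0, |localFactor a p - 1| := by
      apply sum_le_sum
      intro p _
      rcases le_total 1 (localFactor a (p : ℕ)) with h | h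
      · rw [min_eq_left h, sub_self]
        exact abs_nonneg _
      · rw [min_eq_right h, abs_sub_comm]
        exact le_abs_self _
    have h10 : (2 : ℝ)⁻¹ = 1 / 2 := by norm_num
    rw [h10]
    linarith
  linarith

/-- no tail factors -/
lemma tt_one (y n : ℕ) (hn : n ≤ y) : tt y n = 1 := by
  unfold tt
  apply prod_eq_one
  intro p hp
  rw [mem_filter, Nat.mem_primeFactors] at hp
  have := Nat.le_of_dvd (Nat.pos_of_ne_zero hp.1.2.2) hp.1.2.1
  omega

theorem le_sy (r : ℕ) (a : Fin r → ℕ) (ha : Function.Injective a) (y : ℕ) (hay : ∀ i, a i ≤ y) :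
    singularSeries a ≤ sy a y := by
  refine (singularSeries_le a ha y).trans ?_
  rw [prod_eq_one, mul_one]
  intro q _
  apply tt_one
  have h1 := hay q.1
  have h2 := hay q.2
  unfold Nat.dist
  omega

/-- the product of `1 - ν / p` over the primes up to `y` -/
noncomputable def VT (T : Finset ℕ) (y : ℕ) : ℝ := ∏ p ∈ (Icc 1 y).filter Nat.Prime, (1 - (nuT T p : ℝ) / p)

theorem VT_eq (T : Finset ℕ) (y : ℕ) :
    VT T y = sy (en T) y * Pool.Agent.H318R2.Cr.V y ^ T.card := by
  have hset : (Icc 1 y).filter Nat.Prime = (y + 1).primesBelow := by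
    ext p
    rw [mem_filter, mem_Icc, Nat.mem_primesBelow]
    constructor
    · rintro ⟨⟨_, h⟩, hp⟩; exact ⟨by omega, hp⟩
    · rintro ⟨h, hp⟩; exact ⟨⟨hp.pos, by omega⟩, hp⟩
  have hset2 : Pool.Agent.H318R2.Cr.Pz y = (y + 1).primesBelow := by
    ext p
    rw [Pool.Agent.H318R2.Cr.mem_Pz, Nat.mem_primesBelow]
    constructor
    · rintro ⟨h, hp⟩; exact ⟨by omega, h⟩
    · rintro ⟨h, hp⟩; exact ⟨hp, by omega⟩
  unfold VT sy Pool.Agent.H318R2.Cr.V
  rw [hset, hset2, ← prod_pow, ← prod_mul_distrib]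
  apply prod_congr rfl
  intro p hp
  have h1 := one_sub_pos (Nat.prime_of_mem_primesBelow hp)
  unfold localFactor
  rw [nu_en, inv_pow]
  have h2 : (1 - 1 / (p : ℝ)) ^ T.card ≠ 0 := (pow_pos h1 _).ne'
  field_simp

/-- **The product over the primes up to `y` in terms of the singular series.** -/
theorem VT_bounds (r : ℕ) : ∃ c C : ℝ, 0 < c ∧ 0 < C ∧ ∃ y₀ : ℕ, ∀ y : ℕ, y₀ ≤ y → ∀ T : Finset ℕ, T.card = r →
    (∀ t ∈ T, t ≤ y) → c * CT T / Real.log y ^ r ≤ VT T y ∧ VT T y ≤ C * CT T / Real.log y ^ r := by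
  obtain ⟨c₁, c₂, h1, h2, h⟩ := Pool.Agent.H318R2.Cr.cz_bounds
  have h2' : 0 < c₂ := h1.trans_le h2
  refine ⟨c₁ ^ r, 2 * c₂ ^ r, by positivity, by positivity, 4 * r ^ 2 + 2, fun y hy T hT hTy => ?_⟩
  have hy2 : 2 ≤ y := by omega
  obtain ⟨h3, h4⟩ := h y hy2
  have hlog : 0 < Real.log y := Real.log_pos (by exact_mod_cast (by omega : 1 < y))
  have hV := Pool.Agent.H318R2.Cr.V_pos y
  have hay : ∀ i, en T i ≤ y := fun i => hTy _ (en_mem T i)
  have h5 := le_sy _ (en T) (en_inj T) y hay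
  have h6 := sy_le _ (en T) (en_inj T) y hay (by omega) (by rw [hT]; omega)
  rw [CT_en] at h5 h6
  have h7 := CT_nonneg T
  have hS0 := sy_nonneg (en T) y
  rw [VT_eq]
  obtain ⟨S, hS⟩ : ∃ S, S = sy (en T) y := ⟨_, rfl⟩
  rw [← hS] at h5 h6 hS0 ⊢
  rw [hT]
  have e1 : c₁ ^ r ≤ Pool.Agent.H318R2.Cr.V y ^ r * Real.log y ^ r := by
    rw [← mul_pow]
    exact pow_le_pow_left₀ h1.le h3 r
  have e2 : Pool.Agent.H318R2.Cr.V y ^ r * Real.log y ^ r ≤ c₂ ^ r := by
    rw [← mul_pow]
    exact pow_le_pow_left₀ (by positivity) h4 r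
  have hl : 0 < Real.log y ^ r := by positivity
  have hVr : 0 < Pool.Agent.H318R2.Cr.V y ^ r := by positivity
  constructor
  · rw [div_le_iff₀ hl]
    calc c₁ ^ r * CT T ≤ (Pool.Agent.H318R2.Cr.V y ^ r * Real.log y ^ r) * CT T :=
          mul_le_mul_of_nonneg_right e1 h7
      _ ≤ (Pool.Agent.H318R2.Cr.V y ^ r * Real.log y ^ r) * S :=
          mul_le_mul_of_nonneg_left h5 (by positivity)
      _ = _ := by ring
  · rw [le_div_iff₀ hl]
    calc S * Pool.Agent.H318R2.Cr.V y ^ r * Real.log y ^ r =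
        S * (Pool.Agent.H318R2.Cr.V y ^ r * Real.log y ^ r) := by ring
      _ ≤ S * c₂ ^ r := mul_le_mul_of_nonneg_left e2 hS0
      _ ≤ (2 * CT T) * c₂ ^ r := mul_le_mul_of_nonneg_right h6 (by positivity)
      _ = _ := by ring

end Pool.Agent.Q212.Sing
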