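import Mathlib

/-!
# Entropy: variational bounds, and a one-dimensional pointwise inequality
-/

namespace Pool.Agent.Q212.Tilt

open MeasureTheory Set Filter Topology
open scoped ENNReal NNReal ContDiff

/-- Entropy of a nonnegative function. -/
noncomputable def Ent {Ω : Type*} [MeasurableSpace Ω] (μ : Measure Ω) (g : Ω → ℝ) : ℝ :=
  ∫ x, g x * Real.log (g x) ∂μ - (∫ x, g x ∂μ) * Real.log (∫ x, g x ∂μ)

lemma mul_log_le {m t : ℝ} (hm : 0 ≤ m) (ht : 0 < t) :
    m * Real.log t + m - t ≤ m * Real.log m := by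
  rcases hm.eq_or_lt with h | h
  · rw [← h]; simp; exact ht.le
  · have h1 := Real.log_le_sub_one_of_pos (div_pos ht h)
    rw [Real.log_div ht.ne' h.ne'] at h1
    have h2 := mul_le_mul_of_nonneg_left h1 hm
    have h3 : m * (t / m - 1) = t - m := by field_simp
    rw [h3] at h2
    linarith

section
variable {Ω : Type*} [MeasurableSpace Ω] {μ : Measure Ω} [IsProbabilityMeasure μ]

lemma int_expand {F : Ω → ℝ} (hF : Integrable F μ)
    (hFl : Integrable (fun x => F x * Real.log (F x)) μ) (t : ℝ) :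
    Integrable (fun x => F x * Real.log (F x) - F x * Real.log t - F x + t) μ ∧
    ∫ x, (F x * Real.log (F x) - F x * Real.log t - F x + t) ∂μ =
      ∫ x, F x * Real.log (F x) ∂μ - (∫ x, F x ∂μ) * Real.log t - ∫ x, F x ∂μ + t := by
  have i1 : Integrable (fun x => F x * Real.log t) μ := hF.mul_const _
  have i2 : Integrable (fun x => F x * Real.log (F x) - F x * Real.log t) μ := hFl.sub i1
  have i3 : Integrable (fun x => F x * Real.log (F x) - F x * Real.log t - F x) μ := i2.sub hF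
  refine ⟨i3.add (integrable_const _), ?_⟩
  rw [integral_add i3 (integrable_const _), integral_sub i2 hF, integral_sub hFl i1,
      integral_mul_const, integral_const]
  simp

lemma ent_le {F : Ω → ℝ} (h0 : ∀ x, 0 ≤ F x) (hF : Integrable F μ)
    (hFl : Integrable (fun x => F x * Real.log (F x)) μ) {t : ℝ} (ht : 0 < t) :
    Ent μ F ≤ ∫ x, (F x * Real.log (F x) - F x * Real.log t - F x + t) ∂μ := by
  rw [(int_expand hF hFl t).2]
  have := mul_log_le (integral_nonneg h0) ht (m := ∫ x, F x ∂μ)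
  unfold Ent
  linarith

lemma sq_sqrt_le {y m : ℝ} (hy : 0 ≤ y) (hm : 0 < m) :
    (√y - √m) ^ 2 ≤ y * Real.log y - y * Real.log m - y + m := by
  rcases hy.eq_or_lt with h | h
  · rw [← h]; simp [Real.sq_sqrt hm.le]
  · have hsy : 0 < √y := Real.sqrt_pos.2 h
    have hsm : 0 < √m := Real.sqrt_pos.2 hm
    have h1 := Real.log_le_sub_one_of_pos (div_pos hsm hsy)
    rw [Real.log_div hsm.ne' hsy.ne', Real.log_sqrt hm.le, Real.log_sqrt h.le] at h1
    have h2 := mul_le_mul_of_nonneg_left h1 h.le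
    have e : y = √y ^ 2 := (Real.sq_sqrt h.le).symm
    have e' : m = √m ^ 2 := (Real.sq_sqrt hm.le).symm
    have h3 : y * (√m / √y - 1) = √m * √y - y := by
      have : y * (√m / √y) = √m * √y := by
        conv_lhs => rw [e]
        rw [Real.sqrt_sq hsy.le]
        field_simp
      rw [mul_sub, this, mul_one]
    rw [h3] at h2
    nlinarith

/-- `Ent F ≥ ∫ (√F - √(∫ F))²`. -/
lemma ent_ge {F : Ω → ℝ} (h0 : ∀ x, 0 ≤ F x) (hF : Integrable F μ)
    (hFl : Integrable (fun x => F x * Real.log (F x)) μ) (hm : 0 < ∫ x, F x ∂μ)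
    (hsq : Integrable (fun x => (√(F x) - √(∫ x, F x ∂μ)) ^ 2) μ) :
    ∫ x, (√(F x) - √(∫ x, F x ∂μ)) ^ 2 ∂μ ≤ Ent μ F := by
  set m := ∫ x, F x ∂μ with hmdef
  have h1 : ∫ x, (F x * Real.log (F x) - F x * Real.log m - F x + m) ∂μ = Ent μ F := by
    rw [(int_expand hF hFl m).2]
    unfold Ent
    rw [← hmdef]; ring
  rw [← h1]
  apply integral_mono hsq (int_expand hF hFl m).1
  intro x
  exact sq_sqrt_le (h0 x) hm

end

/-- The elementary inequality behind the one-dimensional log-Sobolev inequality. -/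
lemma pt {c g E L : ℝ} (hE : 0 < E) (hL : 0 ≤ L) (hg : g ^ 2 ≤ E * Real.exp L) :
    (c + g) ^ 2 * Real.log ((c + g) ^ 2) - (c + g) ^ 2 * Real.log (max (c ^ 2) E)
      - (c + g) ^ 2 + max (c ^ 2) E ≤ 9 * g ^ 2 + 9 * E + 4 * L * g ^ 2 := by
  set t := max (c ^ 2) E with ht
  have htE : E ≤ t := le_max_right _ _
  have htc : c ^ 2 ≤ t := le_max_left _ _
  have ht0 : 0 < t := hE.trans_le htE
  set s := √t with hs
  have hs0 : 0 < s := Real.sqrt_pos.2 ht0
  have hst : s ^ 2 = t := Real.sq_sqrt ht0.le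
  have hcs : |c| ≤ s := Real.abs_le_sqrt htc
  set r := |c + g| / s with hr
  have hr0 : 0 ≤ r := by positivity
  have hrs : |c + g| = r * s := by rw [hr]; field_simp
  have hy : (c + g) ^ 2 = r ^ 2 * t := by
    rw [← sq_abs, hrs, ← hst]; ring
  have hg2 : 0 ≤ g ^ 2 := sq_nonneg _
  by_cases hr2 : r ≤ 2
  · -- small ratio
    have key : (c + g) ^ 2 * Real.log ((c + g) ^ 2) - (c + g) ^ 2 * Real.log t
      - (c + g) ^ 2 + t ≤ t * (r ^ 2 - 1) ^ 2 := by
      rcases hr0.eq_or_lt with h | h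
      · rw [hy, ← h]; simp
      · rw [hy, Real.log_mul (by positivity) ht0.ne']
        have h1 := Real.log_le_sub_one_of_pos (show (0:ℝ) < r ^ 2 by positivity)
        have h2 := mul_le_mul_of_nonneg_left h1 (show (0:ℝ) ≤ r ^ 2 * t by positivity)
        nlinarith
    refine key.trans ?_
    rcases le_total (c ^ 2) E with h | h
    · have ht' : t = E := max_eq_right h
      rw [ht']
      have h3 : (r ^ 2 - 1) ^ 2 ≤ 9 := by
        have : r ^ 2 ≤ 4 := by nlinarith
        have h4 : 0 ≤ r ^ 2 := sq_nonneg _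
        nlinarith
      nlinarith [mul_nonneg hL hg2]
    · have ht' : t = c ^ 2 := max_eq_left h
      have hsc : s = |c| := by rw [hs, ht', Real.sqrt_sq_eq_abs]
      -- |r - 1| s ≤ |g|
      have h5 : ((r - 1) * s) ^ 2 ≤ g ^ 2 := by
        have : (r - 1) * s = |c + g| - |c| := by rw [hrs, hsc]; ring
        rw [this, sq_le_sq]
        have := abs_abs_sub_abs_le_abs_sub (c + g) c
        simpa using this
      have h6 : t * (r ^ 2 - 1) ^ 2 = ((r - 1) * s) ^ 2 * (r + 1) ^ 2 := by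
        rw [← hst]; ring
      rw [h6]
      have h7 : (r + 1) ^ 2 ≤ 9 := by nlinarith
      have h8 : 0 ≤ ((r - 1) * s) ^ 2 := sq_nonneg _
      nlinarith [mul_nonneg hL hg2, sq_nonneg (r + 1)]
  · -- large ratio
    push Not at hr2
    have h1 : (r - 1) * s ≤ |g| := by
      have h2 : |c + g| ≤ |c| + |g| := abs_add_le c g
      rw [hrs] at h2
      nlinarith
    have h2 : ((r - 1) * s) ^ 2 ≤ g ^ 2 := by
      rw [← sq_abs g]
      exact pow_le_pow_left₀ (mul_nonneg (by linarith) hs0.le) h1 2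
    have h3 : (r - 1) ^ 2 ≤ Real.exp L := by
      have h4 : (r - 1) ^ 2 * t ≤ E * Real.exp L := by
        rw [← hst]
        calc (r - 1) ^ 2 * s ^ 2 = ((r - 1) * s) ^ 2 := by ring
          _ ≤ g ^ 2 := h2
          _ ≤ _ := hg
      have h5 : (r - 1) ^ 2 * E ≤ Real.exp L * E := by
        calc (r - 1) ^ 2 * E ≤ (r - 1) ^ 2 * t :=
              mul_le_mul_of_nonneg_left htE (sq_nonneg _)
          _ ≤ _ := by linarith
      exact le_of_mul_le_mul_right h5 hE
    have hr1 : r ^ 2 ≤ 4 * (r - 1) ^ 2 := by nlinarith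
    have hlog : Real.log (r ^ 2) ≤ 2 + L := by
      have h4 : r ^ 2 ≤ Real.exp (2 + L) := by
        rw [Real.exp_add]
        have h5 : (4 : ℝ) ≤ Real.exp 2 := by
          have := Real.quadratic_le_exp_of_nonneg (show (0:ℝ) ≤ 2 by norm_num)
          linarith
        calc r ^ 2 ≤ 4 * (r - 1) ^ 2 := hr1
          _ ≤ Real.exp 2 * Real.exp L := by
            apply mul_le_mul h5 h3 (sq_nonneg _) (Real.exp_pos _).le
      calc Real.log (r ^ 2) ≤ Real.log (Real.exp (2 + L)) :=
            Real.log_le_log (by positivity) h4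
        _ = 2 + L := Real.log_exp _
    have h6 : (c + g) ^ 2 * Real.log ((c + g) ^ 2) - (c + g) ^ 2 * Real.log t
      - (c + g) ^ 2 + t ≤ r ^ 2 * t * Real.log (r ^ 2) := by
      rw [hy, Real.log_mul (by positivity) ht0.ne']
      have : t ≤ r ^ 2 * t := by nlinarith
      nlinarith
    have h7 : r ^ 2 * t ≤ 4 * g ^ 2 := by
      rw [← hst]
      calc r ^ 2 * s ^ 2 ≤ (4 * (r - 1) ^ 2) * s ^ 2 :=
            mul_le_mul_of_nonneg_right hr1 (sq_nonneg _)
        _ = 4 * ((r - 1) * s) ^ 2 := by ring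
        _ ≤ 4 * g ^ 2 := by linarith
    have h8 : 0 ≤ r ^ 2 * t := by positivity
    calc _ ≤ r ^ 2 * t * Real.log (r ^ 2) := h6
      _ ≤ r ^ 2 * t * (2 + L) := mul_le_mul_of_nonneg_left hlog h8
      _ ≤ 4 * g ^ 2 * (2 + L) := mul_le_mul_of_nonneg_right h7 (by linarith)
      _ ≤ _ := by nlinarith

end Pool.Agent.Q212.Tilt
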