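import Pool.Agent.Q212.TL1

/-!
# A one-dimensional log-Sobolev inequality for weights with slope between `-2` and `-1/2`
-/

namespace Pool.Agent.Q212.Tilt

open MeasureTheory Set Filter Topology
open scoped ENNReal NNReal ContDiff

section
variable {Ω : Type*} [MeasurableSpace Ω] {μ : Measure Ω} [IsProbabilityMeasure μ]

lemma integrable_of_bdd {F : Ω → ℝ} (hF : AEStronglyMeasurable F μ) {B : ℝ}
    (hB : ∀ᵐ x ∂μ, |F x| ≤ B) : Integrable F μ :=
  Integrable.of_bound hF B (by simpa [Real.norm_eq_abs] using hB)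

lemma integrable_mul_log_of_bdd {F : Ω → ℝ} (hF : AEStronglyMeasurable F μ) {B : ℝ}
    (hB : ∀ᵐ x ∂μ, |F x| ≤ B) : Integrable (fun x => F x * Real.log (F x)) μ := by
  obtain ⟨K, hK⟩ := (isCompact_Icc (a := -B) (b := B)).exists_bound_of_continuousOn
    Real.continuous_mul_log.continuousOn
  apply integrable_of_bdd (B := K) (Real.continuous_mul_log.comp_aestronglyMeasurable hF)
  filter_upwards [hB] with x hx
  exact hK _ (abs_le.1 hx)

omit [IsProbabilityMeasure μ] in
lemma ent_congr {F G : Ω → ℝ} (h : F =ᵐ[μ] G) : Ent μ F = Ent μ G := by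
  unfold Ent
  rw [integral_congr_ae h]
  congr 1
  apply integral_congr_ae
  filter_upwards [h] with x hx
  rw [hx]

lemma ent_const (c : ℝ) : Ent μ (fun _ => c) = 0 := by
  simp [Ent]

lemma ent_of_bounds {φ : Ω → ℝ} {c E Λ A : ℝ} (hE : 0 < E) (hΛ : 0 ≤ Λ)
    (hφ : AEStronglyMeasurable φ μ) (h1 : ∀ᵐ x ∂μ, (φ x - c) ^ 2 ≤ E * Real.exp Λ)
    (h2 : ∫ x, (φ x - c) ^ 2 ∂μ ≤ A * E) :
    Ent μ (fun x => φ x ^ 2) ≤ (9 * A + 9 + 4 * Λ * A) * E := by
  set B := (|c| + √(E * Real.exp Λ)) ^ 2 with hB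
  have hbd : ∀ᵐ x ∂μ, |φ x ^ 2| ≤ B := by
    filter_upwards [h1] with x hx
    have h3 : |φ x - c| ≤ √(E * Real.exp Λ) := Real.abs_le_sqrt hx
    have h4 : |φ x| ≤ |c| + √(E * Real.exp Λ) := by
      have := abs_add_le c (φ x - c)
      rw [add_sub_cancel] at this
      linarith
    rw [abs_pow, hB]
    exact pow_le_pow_left₀ (abs_nonneg _) h4 2
  have hm : AEStronglyMeasurable (fun x => φ x ^ 2) μ := hφ.pow 2
  have hF := integrable_of_bdd hm hbd
  have hFl := integrable_mul_log_of_bdd hm hbd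
  have hgm : AEStronglyMeasurable (fun x => (φ x - c) ^ 2) μ :=
    (hφ.sub aestronglyMeasurable_const).pow 2
  have hgi : Integrable (fun x => (φ x - c) ^ 2) μ := by
    apply integrable_of_bdd (B := E * Real.exp Λ) hgm
    filter_upwards [h1] with x hx
    rwa [abs_of_nonneg (sq_nonneg _)]
  have ht : 0 < max (c ^ 2) E := lt_max_of_lt_right hE
  refine (ent_le (fun x => sq_nonneg _) hF hFl ht).trans ?_
  have i1 : Integrable (fun x => 9 * (φ x - c) ^ 2 + 9 * E + 4 * Λ * (φ x - c) ^ 2) μ :=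
    ((hgi.const_mul 9).add (integrable_const _)).add (hgi.const_mul _)
  calc ∫ x, (φ x ^ 2 * Real.log (φ x ^ 2) - φ x ^ 2 * Real.log (max (c ^ 2) E) - φ x ^ 2
        + max (c ^ 2) E) ∂μ ≤ ∫ x, (9 * (φ x - c) ^ 2 + 9 * E + 4 * Λ * (φ x - c) ^ 2) ∂μ := by
        apply integral_mono_ae (int_expand hF hFl _).1 i1
        filter_upwards [h1] with x hx
        have := pt (c := c) hE hΛ hx
        simpa using this
    _ = (9 + 4 * Λ) * ∫ x, (φ x - c) ^ 2 ∂μ + 9 * E := by
        have e : ∀ x, 9 * (φ x - c) ^ 2 + 9 * E + 4 * Λ * (φ x - c) ^ 2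
            = (9 + 4 * Λ) * (φ x - c) ^ 2 + 9 * E := fun x => by ring
        simp_rw [e]
        rw [integral_add (hgi.const_mul _) (integrable_const _), integral_const_mul,
          integral_const]
        simp
    _ ≤ _ := by
        have := mul_le_mul_of_nonneg_left h2 (show (0:ℝ) ≤ 9 + 4 * Λ by positivity)
        nlinarith

end

/-- the interval `[0, L]` with Lebesgue measure -/
noncomputable abbrev lam (L : ℝ) : Measure ℝ := volume.restrict (Icc 0 L)

lemma cs {u : ℝ → ℝ} {x : ℝ} (hx : 0 < x) (hu : ContinuousOn u (Icc 0 x)) :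
    (∫ y in (0:ℝ)..x, u y) ^ 2 ≤ x * ∫ y in (0:ℝ)..x, u y ^ 2 := by
  set I := ∫ y in (0:ℝ)..x, u y with hI
  have hu' : ContinuousOn u (uIcc 0 x) := by rwa [uIcc_of_le hx.le]
  have i1 : IntervalIntegrable u volume 0 x := hu'.intervalIntegrable
  have i2 : IntervalIntegrable (fun y => u y ^ 2) volume 0 x := (hu'.pow 2).intervalIntegrable
  have h1 : 0 ≤ ∫ y in (0:ℝ)..x, (u y - I / x) ^ 2 :=
    intervalIntegral.integral_nonneg hx.le fun y _ => sq_nonneg _
  have h2 : ∫ y in (0:ℝ)..x, (u y - I / x) ^ 2 =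
      (∫ y in (0:ℝ)..x, u y ^ 2) - 2 * (I / x) * I + (I / x) ^ 2 * x := by
    have e : ∀ y, (u y - I / x) ^ 2 = u y ^ 2 - 2 * (I / x) * u y + (I / x) ^ 2 := fun y => by ring
    simp_rw [e]
    rw [intervalIntegral.integral_add (i2.sub (i1.const_mul _)) (by simp),
      intervalIntegral.integral_sub i2 (i1.const_mul _), intervalIntegral.integral_const_mul,
      intervalIntegral.integral_const]
    simp; ring
  rw [h2] at h1
  have h3 : 2 * (I / x) * I = 2 * (I ^ 2 / x) := by ring
  have h4 : (I / x) ^ 2 * x = I ^ 2 / x := by field_simp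
  rw [h3, h4] at h1
  have h5 : I ^ 2 / x ≤ ∫ y in (0:ℝ)..x, u y ^ 2 := by linarith
  rwa [div_le_iff₀ hx, mul_comm] at h5

section weight

variable {L : ℝ} {V V' : ℝ → ℝ}

lemma Icc_integral (hL : 0 ≤ L) (u : ℝ → ℝ) :
    ∫ x, u x ∂(lam L) = ∫ x in (0:ℝ)..L, u x := by
  rw [integral_Icc_eq_integral_Ioc, ← intervalIntegral.integral_of_le hL]

lemma integral_tilt (hL : 0 ≤ L) (V u : ℝ → ℝ) :
    ∫ x, u x ∂((lam L).tilted V) =
      (∫ x in (0:ℝ)..L, u x * Real.exp (V x)) / ∫ x in (0:ℝ)..L, Real.exp (V x) := by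
  rw [integral_tilted, Icc_integral hL, Icc_integral hL, ← intervalIntegral.integral_div]
  congr 1
  ext x
  simp only [smul_eq_mul]
  ring

lemma prob_tilt (hL : 0 < L) (hV : ContinuousOn V (Icc 0 L)) :
    IsProbabilityMeasure ((lam L).tilted V) := by
  have : NeZero (lam L) := ⟨by
    rw [Ne, Measure.restrict_eq_zero, Real.volume_Icc]
    simp [hL]⟩
  apply isProbabilityMeasure_tilted
  exact (Real.continuous_exp.comp_continuousOn hV).integrableOn_Icc

theorem lsi_weight (hL : 1 ≤ L) (hV : ∀ x ∈ Icc 0 L, HasDerivAt V (V' x) x)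
    (hVc : ContinuousOn V' (Icc 0 L)) (hV1 : ∀ x ∈ Icc 0 L, V' x ≤ -(1 / 2))
    (hV2 : ∀ x ∈ Icc 0 L, -2 ≤ V' x) (φ : ℝ → ℝ) (hφ : ContDiff ℝ 1 φ) :
    Ent ((lam L).tilted V) (fun x => φ x ^ 2) ≤
      409 * L * ∫ x, deriv φ x ^ 2 ∂((lam L).tilted V) := by
  have hL0 : 0 < L := by linarith
  have hVcont : ContinuousOn V (Icc 0 L) := fun x hx => (hV x hx).continuousAt.continuousWithinAt
  have hprob := prob_tilt hL0 hVcont
  have hφc : Continuous φ := hφ.continuous
  have hφ'c : Continuous (deriv φ) := hφ.continuous_deriv le_rfl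
  have hφd : ∀ x, HasDerivAt φ (deriv φ x) x := fun x =>
    ((hφ.differentiable one_ne_zero) x).hasDerivAt
  have hec : ContinuousOn (fun x => Real.exp (V x)) (Icc 0 L) :=
    Real.continuous_exp.comp_continuousOn hVcont
  -- bounds on V
  have hVmono : ∀ x ∈ Icc 0 L, V x ≤ V 0 ∧ V 0 - 2 * L ≤ V x := by
    intro x hx
    have h0 : (0:ℝ) ∈ Icc 0 L := ⟨le_rfl, hL0.le⟩
    have hint : ∫ y in (0:ℝ)..x, V' y = V x - V 0 := by
      apply intervalIntegral.integral_eq_sub_of_hasDerivAt
      · intro y hy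
        rw [uIcc_of_le hx.1] at hy
        exact hV y ⟨hy.1, hy.2.trans hx.2⟩
      · apply ContinuousOn.intervalIntegrable
        rw [uIcc_of_le hx.1]
        exact hVc.mono (Icc_subset_Icc_right hx.2)
    have hii : IntervalIntegrable V' volume 0 x := by
      apply ContinuousOn.intervalIntegrable
      rw [uIcc_of_le hx.1]
      exact hVc.mono (Icc_subset_Icc_right hx.2)
    have u1 : ∫ y in (0:ℝ)..x, V' y ≤ ∫ y in (0:ℝ)..x, (0:ℝ) := by
      apply intervalIntegral.integral_mono_on hx.1 hii (by simp)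
      intro y hy
      have := hV1 y ⟨hy.1, hy.2.trans hx.2⟩
      linarith
    have u2 : ∫ y in (0:ℝ)..x, (-2:ℝ) ≤ ∫ y in (0:ℝ)..x, V' y := by
      apply intervalIntegral.integral_mono_on hx.1 (by simp) hii
      intro y hy
      exact hV2 y ⟨hy.1, hy.2.trans hx.2⟩
    simp only [intervalIntegral.integral_zero, intervalIntegral.integral_const, sub_zero,
      smul_eq_mul] at u1 u2
    rw [hint] at u1 u2
    constructor
    · linarith
    · have := hx.2
      linarith
  set Z := ∫ x in (0:ℝ)..L, Real.exp (V x) with hZ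
  have heii : IntervalIntegrable (fun x => Real.exp (V x)) volume 0 L := by
    apply ContinuousOn.intervalIntegrable
    rwa [uIcc_of_le hL0.le]
  have hZpos : 0 < Z := intervalIntegral.intervalIntegral_pos_of_pos_on heii
    (fun x _ => Real.exp_pos _) hL0
  have hZle : Z ≤ L * Real.exp (V 0) := by
    have : Z ≤ ∫ x in (0:ℝ)..L, Real.exp (V 0) := by
      apply intervalIntegral.integral_mono_on hL0.le heii (by simp)
      intro y hy
      exact Real.exp_le_exp.2 (hVmono y hy).1
    simpa using this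
  set J := ∫ x in (0:ℝ)..L, deriv φ x ^ 2 * Real.exp (V x) with hJ
  have hJii : IntervalIntegrable (fun x => deriv φ x ^ 2 * Real.exp (V x)) volume 0 L := by
    apply ContinuousOn.intervalIntegrable
    rw [uIcc_of_le hL0.le]
    exact (hφ'c.pow 2).continuousOn.mul hec
  have hJ0 : 0 ≤ J := intervalIntegral.integral_nonneg hL0.le fun x _ => by positivity
  set En := ∫ x, deriv φ x ^ 2 ∂((lam L).tilted V) with hEn
  have hEnJ : En = J / Z := integral_tilt hL0.le V _
  have hJE : J = Z * En := by rw [hEnJ]; field_simp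
  have hEn0 : 0 ≤ En := by rw [hEnJ]; positivity
  -- pointwise bound
  have hpt : ∀ x ∈ Icc 0 L, (φ x - φ 0) ^ 2 ≤ En * Real.exp (4 * L) := by
    intro x hx
    rcases hx.1.eq_or_lt with h | h
    · rw [← h]; simp; positivity
    have e1 : ∫ y in (0:ℝ)..x, deriv φ y = φ x - φ 0 :=
      intervalIntegral.integral_eq_sub_of_hasDerivAt (fun y _ => hφd y)
        (hφ'c.intervalIntegrable _ _)
    have e2 := cs h (u := deriv φ) hφ'c.continuousOn
    rw [e1] at e2
    have e3 : ∫ y in (0:ℝ)..x, deriv φ y ^ 2 ≤ ∫ y in (0:ℝ)..L, deriv φ y ^ 2 := by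
      apply intervalIntegral.integral_mono_interval le_rfl h.le hx.2
      · exact Filter.Eventually.of_forall fun y => sq_nonneg _
      · exact (hφ'c.pow 2).intervalIntegrable _ _
    have e4 : ∫ y in (0:ℝ)..L, deriv φ y ^ 2 ≤ Real.exp (2 * L - V 0) * J := by
      rw [hJ, ← intervalIntegral.integral_const_mul]
      apply intervalIntegral.integral_mono_on hL0.le ((hφ'c.pow 2).intervalIntegrable _ _)
        (hJii.const_mul _)
      intro y hy
      have h5 : 1 ≤ Real.exp (2 * L - V 0) * Real.exp (V y) := by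
        rw [← Real.exp_add]
        apply Real.one_le_exp
        have := (hVmono y hy).2
        linarith
      have h6 : 0 ≤ deriv φ y ^ 2 := sq_nonneg _
      show deriv φ y ^ 2 ≤ Real.exp (2 * L - V 0) * (deriv φ y ^ 2 * Real.exp (V y))
      nlinarith
    have e5 : 0 ≤ ∫ y in (0:ℝ)..x, deriv φ y ^ 2 :=
      intervalIntegral.integral_nonneg h.le fun y _ => sq_nonneg _
    calc (φ x - φ 0) ^ 2 ≤ x * ∫ y in (0:ℝ)..x, deriv φ y ^ 2 := e2
      _ ≤ L * (Real.exp (2 * L - V 0) * J) := mul_le_mul hx.2 (e3.trans e4) e5 hL0.le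
      _ = En * (L * Real.exp (2 * L - V 0) * Z) := by rw [hJE]; ring
      _ ≤ En * (L * Real.exp (2 * L - V 0) * (L * Real.exp (V 0))) := by
          apply mul_le_mul_of_nonneg_left _ hEn0
          exact mul_le_mul_of_nonneg_left hZle (by positivity)
      _ = En * (L * L * Real.exp (2 * L)) := by
          rw [Real.exp_sub]; field_simp
      _ ≤ En * Real.exp (4 * L) := by
          apply mul_le_mul_of_nonneg_left _ hEn0
          have h7 : L ≤ Real.exp L := by
            have := Real.add_one_le_exp L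
            linarith
          have h8 : Real.exp (4 * L) = Real.exp L * Real.exp L * Real.exp (2 * L) := by
            rw [← Real.exp_add, ← Real.exp_add]; congr 1; ring
          rw [h8]
          apply mul_le_mul_of_nonneg_right _ (Real.exp_pos _).le
          exact mul_le_mul h7 h7 hL0.le (Real.exp_pos _).le
  have hae : ∀ᵐ x ∂((lam L).tilted V), (φ x - φ 0) ^ 2 ≤ En * Real.exp (4 * L) := by
    apply (tilted_absolutelyContinuous (lam L) V).ae_le
    exact (ae_restrict_iff' measurableSet_Icc).2 (Filter.Eventually.of_forall hpt)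
  have hφm : AEStronglyMeasurable φ ((lam L).tilted V) := hφc.aestronglyMeasurable
  rcases hEn0.eq_or_lt with h0 | hpos
  · -- constant case
    have hc : (fun x => φ x ^ 2) =ᵐ[(lam L).tilted V] fun _ => φ 0 ^ 2 := by
      filter_upwards [hae] with x hx
      rw [← h0, zero_mul] at hx
      have : φ x - φ 0 = 0 := by
        have := le_antisymm hx (sq_nonneg _)
        exact pow_eq_zero_iff two_ne_zero |>.1 this
      have : φ x = φ 0 := by linarith
      rw [this]
    rw [ent_congr hc, ent_const, ← h0, mul_zero]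
  · -- Hardy
    have hHardy : ∫ x, (φ x - φ 0) ^ 2 ∂((lam L).tilted V) ≤ 16 * En := by
      rw [integral_tilt hL0.le V, ← hZ, div_le_iff₀ hZpos]
      set K := ∫ x in (0:ℝ)..L, (φ x - φ 0) ^ 2 * Real.exp (V x) with hK
      have hgc : Continuous fun x => φ x - φ 0 := hφc.sub continuous_const
      have hKii : IntervalIntegrable (fun x => (φ x - φ 0) ^ 2 * Real.exp (V x)) volume 0 L := by
        apply ContinuousOn.intervalIntegrable
        rw [uIcc_of_le hL0.le]
        exact (hgc.pow 2).continuousOn.mul hec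
      have hder : ∀ x ∈ uIcc 0 L, HasDerivAt (fun x => (φ x - φ 0) ^ 2 * Real.exp (V x))
          ((2 * (φ x - φ 0) * deriv φ x + (φ x - φ 0) ^ 2 * V' x) * Real.exp (V x)) x := by
        intro x hx
        rw [uIcc_of_le hL0.le] at hx
        have d1 : HasDerivAt (fun x => φ x - φ 0) (deriv φ x) x := (hφd x).sub_const _
        have d2 : HasDerivAt (fun x => (φ x - φ 0) ^ 2 * Real.exp (V x))
            ((((2 : ℕ) : ℝ) * (φ x - φ 0) ^ (2 - 1) * deriv φ x) * Real.exp (V x) +
              (φ x - φ 0) ^ 2 * (Real.exp (V x) * V' x)) x := (d1.pow 2).mul (hV x hx).exp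
        exact d2.congr_deriv (by norm_num; ring)
      have hDc : ContinuousOn (fun x => (2 * (φ x - φ 0) * deriv φ x
          + (φ x - φ 0) ^ 2 * V' x) * Real.exp (V x)) (Icc 0 L) :=
        ((((continuous_const.mul hgc).mul hφ'c).continuousOn).add
          ((hgc.pow 2).continuousOn.mul hVc)).mul hec
      have hDii : IntervalIntegrable (fun x => (2 * (φ x - φ 0) * deriv φ x
          + (φ x - φ 0) ^ 2 * V' x) * Real.exp (V x)) volume 0 L := by
        apply ContinuousOn.intervalIntegrable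
        rwa [uIcc_of_le hL0.le]
      have hFTC := intervalIntegral.integral_eq_sub_of_hasDerivAt hder hDii
      have h1 : 0 ≤ ∫ x in (0:ℝ)..L, (2 * (φ x - φ 0) * deriv φ x
          + (φ x - φ 0) ^ 2 * V' x) * Real.exp (V x) := by
        rw [hFTC]
        simp
        positivity
      have h2 : ∫ x in (0:ℝ)..L, (2 * (φ x - φ 0) * deriv φ x
          + (φ x - φ 0) ^ 2 * V' x) * Real.exp (V x) ≤
          ∫ x in (0:ℝ)..L, (4 * (deriv φ x ^ 2 * Real.exp (V x)) -
            (1 / 4) * ((φ x - φ 0) ^ 2 * Real.exp (V x))) := by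
        apply intervalIntegral.integral_mono_on hL0.le hDii
          ((hJii.const_mul _).sub (hKii.const_mul _))
        intro x hx
        have h3 := hV1 x hx
        have h4 : 2 * (φ x - φ 0) * deriv φ x + (φ x - φ 0) ^ 2 * V' x ≤
            4 * deriv φ x ^ 2 - (1 / 4) * (φ x - φ 0) ^ 2 := by
          have h5 : (φ x - φ 0) ^ 2 * V' x ≤ (φ x - φ 0) ^ 2 * (-(1 / 2)) :=
            mul_le_mul_of_nonneg_left h3 (sq_nonneg _)
          nlinarith [sq_nonneg ((φ x - φ 0) / 2 - 2 * deriv φ x)]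
        have h6 := mul_le_mul_of_nonneg_right h4 (Real.exp_pos (V x)).le
        linarith
      rw [intervalIntegral.integral_sub (hJii.const_mul _) (hKii.const_mul _),
        intervalIntegral.integral_const_mul, intervalIntegral.integral_const_mul] at h2
      have : K ≤ 16 * J := by linarith
      rw [hJE] at this
      linarith
    have := ent_of_bounds (Λ := 4 * L) (A := 16) hpos (by positivity) hφm hae hHardy
    refine this.trans ?_
    have : (9 * 16 + 9 + 4 * (4 * L) * 16) ≤ 409 * L := by linarith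
    exact mul_le_mul_of_nonneg_right this hpos.le

end weight

end Pool.Agent.Q212.Tilt
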