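import Pool.Agent.Q212.TL2
import Pool.Agent.H212R2.KLS.T1

/-!
# Log-Sobolev constants of measures on `ℝ^n`, Gaussian tilts: definitions and general lemmas
-/

namespace Pool.Agent.Q212.Tilt

open MeasureTheory Set Filter Topology
open scoped ENNReal NNReal ContDiff Pointwise

/-- Euclidean space `ℝ^n`. -/
abbrev E (n : ℕ) := EuclideanSpace ℝ (Fin n)

/-- `π` is log-concave: `π(tA + (1-t)B) ≥ π(A)^t π(B)^(1-t)` for nonempty compact `A`, `B` and
`t ∈ [0,1]`. -/
def IsLogConcave {n : ℕ} (π : Measure (E n)) : Prop :=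
  ∀ A B : Set (E n), IsCompact A → IsCompact B → A.Nonempty → B.Nonempty →
    ∀ t ∈ Icc (0:ℝ) 1, π A ^ t * π B ^ (1 - t) ≤ π (t • A + (1 - t) • B)

/-- `π` has compact support. -/
def HasCompactSupp {n : ℕ} (π : Measure (E n)) : Prop := ∃ K : Set (E n), IsCompact K ∧ π Kᶜ = 0

/-- The log-Sobolev constant: the smallest `C ∈ [0,∞]` with `Ent (f²) ≤ C ∫ |∇f|²` for all smooth
`f`. -/
noncomputable def CLSI {n : ℕ} (μ : Measure (E n)) : ℝ≥0∞ :=
  sInf {C : ℝ≥0∞ | ∀ f : E n → ℝ, ContDiff ℝ ∞ f →
    ENNReal.ofReal (Ent μ fun x => f x ^ 2) ≤ C * ENNReal.ofReal (∫ x, ‖fderiv ℝ f x‖ ^ 2 ∂μ)}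

/-- The Gaussian tilt: the probability measure with density proportional to
`exp (-‖x‖² / (2h))` with respect to `π`. -/
noncomputable def gaussTilt {n : ℕ} (π : Measure (E n)) (h : ℝ) : Measure (E n) :=
  π.tilted fun x => -(‖x‖ ^ 2 / (2 * h))

/-! ### Log-concavity -/

theorem isLogConcave_tilted {n : ℕ} {K : Set (E n)} (hK : Convex ℝ K) (hKm : MeasurableSet K)
    {V : E n → ℝ} (hV : ConcaveOn ℝ K V) (hVm : Measurable V) :
    IsLogConcave (((volume : Measure (E n)).restrict K).tilted V) := by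
  intro A B hA hB hAne hBne t ht
  set Z := ∫ x, Real.exp (V x) ∂((volume : Measure (E n)).restrict K) with hZ
  have hZ0 : 0 ≤ Z := integral_nonneg fun x => (Real.exp_pos _).le
  set ρ : E n → ℝ≥0∞ := K.indicator fun x => ENNReal.ofReal (Real.exp (V x) / Z) with hρ
  have hρm : Measurable ρ :=
    (ENNReal.measurable_ofReal.comp ((Real.measurable_exp.comp hVm).div_const Z)).indicator hKm
  have hcomp : ∀ S : Set (E n), MeasurableSet S →
      ((volume : Measure (E n)).restrict K).tilted V S = ∫⁻ x, S.indicator ρ x := by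
    intro S hS
    rw [tilted_apply' _ _ hS, lintegral_indicator hS, hρ, ← hZ]
    rw [lintegral_indicator hKm, Measure.restrict_restrict hKm, Measure.restrict_restrict hS,
      inter_comm]
  rcases ht.1.eq_or_lt with h0 | h0
  · rw [← h0]
    simp only [ENNReal.rpow_zero, one_mul, sub_zero, ENNReal.rpow_one, one_smul]
    rw [zero_smul_set hAne, zero_add]
  rcases ht.2.eq_or_lt with h1 | h1
  · rw [h1]
    simp only [ENNReal.rpow_one, sub_self, ENNReal.rpow_zero, mul_one, one_smul]
    rw [zero_smul_set hBne, add_zero]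
  have hC : IsCompact (t • A + (1 - t) • B) := (hA.smul t).add (hB.smul (1 - t))
  rw [hcomp A hA.measurableSet, hcomp B hB.measurableSet, hcomp _ hC.measurableSet]
  have := Pool.Agent.H212R2.KLS.PL (volume : Measure (E n)) (1 - t) (by linarith) (by linarith)
    (A.indicator ρ) (B.indicator ρ) ((t • A + (1 - t) • B).indicator ρ)
    (hρm.indicator hA.measurableSet) (hρm.indicator hB.measurableSet)
    (hρm.indicator hC.measurableSet) ?_
  · rw [sub_sub_cancel] at this
    exact this
  intro x y
  rw [sub_sub_cancel]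
  by_cases hxA : x ∈ A
  swap
  · rw [indicator_of_notMem hxA, ENNReal.zero_rpow_of_pos h0, zero_mul]; exact zero_le
  by_cases hyB : y ∈ B
  swap
  · rw [indicator_of_notMem hyB, ENNReal.zero_rpow_of_pos (by linarith), mul_zero]; exact zero_le
  rw [indicator_of_mem hxA, indicator_of_mem hyB]
  have hmem : t • x + (1 - t) • y ∈ t • A + (1 - t) • B :=
    add_mem_add (smul_mem_smul_set hxA) (smul_mem_smul_set hyB)
  rw [indicator_of_mem hmem]
  by_cases hxK : x ∈ K
  swap
  · rw [hρ, indicator_of_notMem hxK, ENNReal.zero_rpow_of_pos h0, zero_mul]; exact zero_le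
  by_cases hyK : y ∈ K
  swap
  · rw [hρ, indicator_of_notMem hyK, ENNReal.zero_rpow_of_pos (by linarith), mul_zero]
    exact zero_le
  have hmK : t • x + (1 - t) • y ∈ K := hK hxK hyK h0.le (by linarith) (by ring)
  rw [hρ, indicator_of_mem hxK, indicator_of_mem hyK, indicator_of_mem hmK]
  rw [ENNReal.ofReal_rpow_of_nonneg (by positivity) h0.le,
    ENNReal.ofReal_rpow_of_nonneg (by positivity) (by linarith),
    ← ENNReal.ofReal_mul (by positivity)]
  apply ENNReal.ofReal_le_ofReal
  rcases hZ0.eq_or_lt with hz | hz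
  · rw [← hz]
    simp only [div_zero]
    rw [Real.zero_rpow h0.ne', zero_mul]
  rw [Real.div_rpow (Real.exp_pos _).le hZ0, Real.div_rpow (Real.exp_pos _).le hZ0,
    ← Real.exp_mul, ← Real.exp_mul, div_mul_div_comm, ← Real.exp_add, ← Real.rpow_add hz]
  have : t + (1 - t) = 1 := by ring
  rw [this, Real.rpow_one]
  apply div_le_div_of_nonneg_right _ hZ0
  apply Real.exp_le_exp.2
  have := hV.2 hxK hyK h0.le (show (0:ℝ) ≤ 1 - t by linarith) (by ring)
  simp only [smul_eq_mul] at this
  linarith

/-! ### Tilting and measure preserving maps -/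

lemma mp_tilted {X Y : Type*} [MeasurableSpace X] [MeasurableSpace Y] {μ : Measure X}
    {ν : Measure Y} {T : X → Y} (hT : MeasurePreserving T μ ν) {V : Y → ℝ} (hV : Measurable V) :
    MeasurePreserving T (μ.tilted fun x => V (T x)) (ν.tilted V) := by
  refine ⟨hT.measurable, ?_⟩
  have hint : ∫ x, Real.exp (V (T x)) ∂μ = ∫ y, Real.exp (V y) ∂ν := by
    rw [← hT.map_eq, integral_map hT.measurable.aemeasurable]
    exact (Real.measurable_exp.comp hV).aestronglyMeasurable
  ext s hs
  rw [Measure.map_apply hT.measurable hs, tilted_apply' _ _ (hT.measurable hs),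
    tilted_apply' _ _ hs, hint, ← lintegral_indicator (hT.measurable hs),
    ← lintegral_indicator hs]
  have := hT.lintegral_comp (f := s.indicator fun a =>
    ENNReal.ofReal (Real.exp (V a) / ∫ y, Real.exp (V y) ∂ν))
    ((ENNReal.measurable_ofReal.comp ((Real.measurable_exp.comp hV).div_const _)).indicator hs)
  rw [← this]
  rfl

lemma ent_comp {X Y : Type*} [MeasurableSpace X] [MeasurableSpace Y] {μ : Measure X}
    {ν : Measure Y} {T : X → Y} (hT : MeasurePreserving T μ ν) {F : Y → ℝ} (hF : Measurable F) :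
    Ent ν F = Ent μ fun x => F (T x) := by
  unfold Ent
  rw [← hT.map_eq, integral_map hT.measurable.aemeasurable, integral_map hT.measurable.aemeasurable]
  · exact hF.aestronglyMeasurable
  · exact (hF.mul (Real.measurable_log.comp hF)).aestronglyMeasurable

/-! ### Lower bound for the entropy of `x²` -/

lemma ent_sq_ge {L D a : ℝ} (hL : 0 < L) {W : ℝ → ℝ} (hW : ContinuousOn W (Icc 0 L))
    (h1 : ∀ x ∈ Icc 0 L, a ≤ W x) (h2 : ∀ x ∈ Icc 0 L, W x ≤ a + D) :
    Real.exp (-D) * (L ^ 2 / 12) ≤ Ent ((lam L).tilted W) (fun x => x ^ 2) := by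
  have hprob := prob_tilt hL hW
  have hae : ∀ᵐ x ∂((lam L).tilted W), x ∈ Icc 0 L := by
    apply (tilted_absolutelyContinuous (lam L) W).ae_le
    exact (ae_restrict_iff' measurableSet_Icc).2 (Filter.Eventually.of_forall fun _ h => h)
  have hbd : ∀ᵐ x ∂((lam L).tilted W), |x ^ 2| ≤ L ^ 2 := by
    filter_upwards [hae] with x hx
    rw [abs_of_nonneg (sq_nonneg _)]
    exact pow_le_pow_left₀ hx.1 hx.2 2
  have hm : AEStronglyMeasurable (fun x : ℝ => x ^ 2) ((lam L).tilted W) :=
    (continuous_pow 2).aestronglyMeasurable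
  have hF := integrable_of_bdd hm hbd
  have hFl := integrable_mul_log_of_bdd hm hbd
  set Z := ∫ x in (0:ℝ)..L, Real.exp (W x) with hZ
  have hec : ContinuousOn (fun x => Real.exp (W x)) (Icc 0 L) :=
    Real.continuous_exp.comp_continuousOn hW
  have heii : IntervalIntegrable (fun x => Real.exp (W x)) volume 0 L := by
    apply ContinuousOn.intervalIntegrable
    rwa [uIcc_of_le hL.le]
  have hZpos : 0 < Z := intervalIntegral.intervalIntegral_pos_of_pos_on heii
    (fun x _ => Real.exp_pos _) hL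
  have hZle : Z ≤ L * Real.exp (a + D) := by
    have : Z ≤ ∫ x in (0:ℝ)..L, Real.exp (a + D) := by
      apply intervalIntegral.integral_mono_on hL.le heii (by simp)
      intro y hy
      exact Real.exp_le_exp.2 (h2 y hy)
    simpa using this
  -- lower bound for quadratic integrals
  have hquad : ∀ b : ℝ, Real.exp (-D) * (L ^ 2 / 12) ≤ ∫ x, (x - b) ^ 2 ∂((lam L).tilted W) := by
    intro b
    rw [integral_tilt hL.le, ← hZ, le_div_iff₀ hZpos]
    have hii : IntervalIntegrable (fun x => (x - b) ^ 2 * Real.exp (W x)) volume 0 L := by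
      apply ContinuousOn.intervalIntegrable
      rw [uIcc_of_le hL.le]
      exact (by fun_prop : Continuous fun x : ℝ => (x - b) ^ 2).continuousOn.mul hec
    have e1 : ∫ x in (0:ℝ)..L, (x - b) ^ 2 * Real.exp a ≤
        ∫ x in (0:ℝ)..L, (x - b) ^ 2 * Real.exp (W x) := by
      apply intervalIntegral.integral_mono_on hL.le _ hii
      · intro x hx
        exact mul_le_mul_of_nonneg_left (Real.exp_le_exp.2 (h1 x hx)) (sq_nonneg _)
      · exact (by fun_prop : Continuous fun x : ℝ => (x - b) ^ 2 * Real.exp a).intervalIntegrable _ _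
    have e2 : ∫ x in (0:ℝ)..L, (x - b) ^ 2 * Real.exp a =
        (((L - b) ^ 3 + b ^ 3) / 3) * Real.exp a := by
      rw [intervalIntegral.integral_mul_const, intervalIntegral.integral_comp_sub_right
        (fun x => x ^ 2), integral_pow]
      congr 1
      ring
    rw [e2] at e1
    refine le_trans ?_ e1
    calc Real.exp (-D) * (L ^ 2 / 12) * Z
        ≤ Real.exp (-D) * (L ^ 2 / 12) * (L * Real.exp (a + D)) :=
          mul_le_mul_of_nonneg_left hZle (by positivity)
      _ = (L ^ 3 / 12) * Real.exp a := by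
          rw [Real.exp_add, Real.exp_neg]; field_simp
      _ ≤ _ := by
          apply mul_le_mul_of_nonneg_right _ (Real.exp_pos _).le
          nlinarith [sq_nonneg (2 * b - L)]
  have hmpos : 0 < ∫ x, x ^ 2 ∂((lam L).tilted W) := by
    have := hquad 0
    simp only [sub_zero] at this
    exact lt_of_lt_of_le (by positivity) this
  have hsqi : ∀ b : ℝ, Integrable (fun x => (x - b) ^ 2) ((lam L).tilted W) := by
    intro b
    apply integrable_of_bdd (B := (L + |b|) ^ 2)
      (by fun_prop : Continuous fun x : ℝ => (x - b) ^ 2).aestronglyMeasurable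
    filter_upwards [hae] with x hx
    rw [abs_pow]
    apply pow_le_pow_left₀ (abs_nonneg _)
    have := abs_sub x b
    rw [abs_of_nonneg hx.1] at this
    linarith [hx.2]
  have hcongr : (fun x : ℝ => (√(x ^ 2) - √(∫ x, x ^ 2 ∂((lam L).tilted W))) ^ 2)
      =ᵐ[(lam L).tilted W] fun x => (x - √(∫ x, x ^ 2 ∂((lam L).tilted W))) ^ 2 := by
    filter_upwards [hae] with x hx
    rw [Real.sqrt_sq hx.1]
  refine (hquad _).trans ((integral_congr_ae hcongr).symm.le.trans ?_)
  exact ent_ge (fun x => sq_nonneg _) hF hFl hmpos ((hsqi _).congr hcongr.symm)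

end Pool.Agent.Q212.Tilt
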