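import Pool.Agent.Q212.TL3

/-!
# The one-dimensional example
-/

namespace Pool.Agent.Q212.Tilt

open MeasureTheory Set Filter Topology
open scoped ENNReal NNReal ContDiff Pointwise

/-- the isometry `ℝ → ℝ^1` -/
noncomputable def emb (x : ℝ) : E 1 := WithLp.toLp 2 fun _ => x

lemma emb_apply (x : ℝ) (i : Fin 1) : emb x i = x := rfl

lemma mp_emb : MeasurePreserving emb volume volume := by
  have h1 := (volume_preserving_funUnique (Fin 1) ℝ).symm
  have h2 := (PiLp.volume_preserving_toLp (Fin 1))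
  exact h2.comp h1

lemma mp_T (s : ℝ) : MeasurePreserving (fun x => emb (x - s)) volume volume :=
  mp_emb.comp (measurePreserving_sub_right volume s)

/-- the interval `[-s, L-s]` in `ℝ^1` -/
def KK (L s : ℝ) : Set (E 1) := {z | z 0 + s ∈ Icc 0 L}

lemma coord_cont : Continuous fun z : E 1 => z 0 := by fun_prop

lemma KK_closed (L s : ℝ) : IsClosed (KK L s) :=
  isClosed_Icc.preimage (coord_cont.add continuous_const)

lemma norm_E1 (z : E 1) : ‖z‖ = |z 0| := by
  rw [EuclideanSpace.norm_eq]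
  simp [Real.sqrt_sq_eq_abs]

lemma KK_compact (L s : ℝ) : IsCompact (KK L s) := by
  apply Metric.isCompact_of_isClosed_isBounded (KK_closed L s)
  rw [Metric.isBounded_iff_subset_closedBall 0]
  refine ⟨|L| + |s|, fun z hz => ?_⟩
  rw [mem_closedBall_zero_iff, norm_E1]
  have h1 := hz.1
  have h2 := hz.2
  have h3 := le_abs_self L
  have h4 := le_abs_self s
  have h5 := neg_abs_le s
  rw [abs_le]
  have h6 := abs_nonneg L
  constructor <;> linarith

lemma KK_convex (L s : ℝ) : Convex ℝ (KK L s) := by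
  intro x hx y hy a b ha hb hab
  have h := convex_Icc 0 L hx hy ha hb hab
  show (a • x + b • y) 0 + s ∈ Icc 0 L
  convert h using 1
  simp only [PiLp.add_apply, PiLp.smul_apply, smul_eq_mul]
  have : s = (a + b) * s := by rw [hab, one_mul]
  linear_combination this

/-- the exponential distribution truncated to `[0,L]`, translated by `-s` -/
noncomputable def ex1 (L s : ℝ) : Measure (E 1) :=
  ((volume : Measure (E 1)).restrict (KK L s)).tilted fun z => -(z 0 + s)

lemma mp_restrict (L s : ℝ) :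
    MeasurePreserving (fun x => emb (x - s)) (lam L) ((volume : Measure (E 1)).restrict (KK L s)) := by
  have := (mp_T s).restrict_preimage (KK_closed L s).measurableSet
  have e : (fun x => emb (x - s)) ⁻¹' KK L s = Icc 0 L := by
    ext x
    simp [KK, emb_apply]
  rwa [e] at this

lemma mp_ex1 (L s : ℝ) :
    MeasurePreserving (fun x => emb (x - s)) ((lam L).tilted fun x => -x) (ex1 L s) := by
  have := mp_tilted (mp_restrict L s) (V := fun z => -(z 0 + s)) (by fun_prop)
  have e : (fun x => (fun z : E 1 => -(z 0 + s)) (emb (x - s))) = fun x => -x := by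
    ext x
    simp only [emb_apply]; ring
  rw [e] at this
  exact this

instance (L s : ℝ) : IsFiniteMeasure ((volume : Measure (E 1)).restrict (KK L s)) :=
  ⟨by rw [Measure.restrict_apply_univ]; exact (KK_compact L s).measure_lt_top⟩

lemma int_exp (L s : ℝ) : Integrable (fun z : E 1 => Real.exp (-(z 0 + s)))
    ((volume : Measure (E 1)).restrict (KK L s)) := by
  apply ContinuousOn.integrableOn_compact (KK_compact L s)
  exact (Real.continuous_exp.comp (coord_cont.add continuous_const).neg).continuousOn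

lemma mp_tilt1 (L s h : ℝ) (hh : h ≠ 0) (hs : s = h) :
    MeasurePreserving (fun x => emb (x - s))
      ((lam L).tilted fun x => -(x ^ 2 / (2 * h)) - h / 2) (gaussTilt (ex1 L s) h) := by
  unfold gaussTilt ex1
  rw [tilted_tilted (int_exp L s)]
  have := mp_tilted (mp_restrict L s)
    (V := (fun z : E 1 => -(z 0 + s)) + fun z : E 1 => -(‖z‖ ^ 2 / (2 * h))) (by fun_prop)
  have e : (fun x => ((fun z : E 1 => -(z 0 + s)) + fun z : E 1 => -(‖z‖ ^ 2 / (2 * h)) :
      E 1 → ℝ) (emb (x - s))) = fun x => -(x ^ 2 / (2 * h)) - h / 2 := by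
    ext x
    simp only [Pi.add_apply, emb_apply, norm_E1, sq_abs, hs]
    field_simp
    ring
  rw [e] at this
  exact this

lemma prob_ex1 {L s : ℝ} (hL : 0 < L) : IsProbabilityMeasure (ex1 L s) := by
  have : IsProbabilityMeasure ((lam L).tilted fun x => -x) :=
    prob_tilt hL continuous_neg.continuousOn
  have h := mp_ex1 L s
  rw [← h.map_eq]
  exact Measure.isProbabilityMeasure_map h.measurable.aemeasurable

lemma logc_ex1 (L s : ℝ) : IsLogConcave (ex1 L s) := by
  apply isLogConcave_tilted (KK_convex L s) (KK_closed L s).measurableSet _ (by fun_prop)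
  refine ⟨KK_convex L s, fun x _ y _ a b _ _ hab => ?_⟩
  simp only [PiLp.add_apply, PiLp.smul_apply, smul_eq_mul]
  have : s = (a + b) * s := by rw [hab, one_mul]
  nlinarith

lemma supp_ex1 (L s : ℝ) : HasCompactSupp (ex1 L s) := by
  refine ⟨KK L s, KK_compact L s, ?_⟩
  apply tilted_absolutelyContinuous
  rw [Measure.restrict_apply (KK_closed L s).measurableSet.compl]
  simp

lemma emb_smooth (s : ℝ) : ContDiff ℝ ∞ fun x => emb (x - s) := by
  unfold emb
  fun_prop

lemma emb_eq (x : ℝ) : emb x = x • emb 1 := by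
  ext i
  simp [emb_apply]

lemma emb_deriv (s x : ℝ) : HasDerivAt (fun x => emb (x - s)) (emb 1) x := by
  have e : (fun x => emb (x - s)) = fun x => (x - s) • emb 1 := by
    ext1 x; exact emb_eq _
  rw [e]
  have := ((hasDerivAt_id x).sub_const s).smul_const (emb 1)
  simpa using this

lemma norm_emb_one : ‖emb 1‖ = 1 := by rw [norm_E1, emb_apply, abs_one]

lemma clsi_ex1 {L s : ℝ} (hL : 1 ≤ L) : CLSI (ex1 L s) ≤ ENNReal.ofReal (409 * L) := by
  apply sInf_le
  intro f hf
  have hmp := mp_ex1 L s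
  have hfm : Measurable f := hf.continuous.measurable
  have hφ : ContDiff ℝ 1 fun x => f (emb (x - s)) :=
    (hf.comp (emb_smooth s)).of_le (by exact_mod_cast le_top)
  have hlsi := lsi_weight (V := fun x => -x) (V' := fun _ => -1) hL
    (fun x _ => (hasDerivAt_id x).neg) continuousOn_const (fun _ _ => by norm_num)
    (fun _ _ => by norm_num) _ hφ
  rw [ent_comp hmp (hfm.pow_const 2)]
  have hprob : IsProbabilityMeasure ((lam L).tilted fun x => -x) :=
    prob_tilt (by linarith) continuous_neg.continuousOn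
  have hfd : Continuous fun z => ‖fderiv ℝ f z‖ ^ 2 :=
    ((hf.continuous_fderiv (by simp)).norm).pow 2
  rw [← ENNReal.ofReal_mul (by linarith)]
  apply ENNReal.ofReal_le_ofReal
  refine hlsi.trans (mul_le_mul_of_nonneg_left ?_ (by linarith))
  rw [← hmp.map_eq, integral_map hmp.measurable.aemeasurable hfd.aestronglyMeasurable]
  have hae : ∀ᵐ x ∂((lam L).tilted fun x => -x), x ∈ Icc 0 L := by
    apply (tilted_absolutelyContinuous (lam L) _).ae_le
    exact (ae_restrict_iff' measurableSet_Icc).2 (Filter.Eventually.of_forall fun _ h => h)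
  have hint : ∀ u : ℝ → ℝ, Continuous u → Integrable u ((lam L).tilted fun x => -x) := by
    intro u hu
    obtain ⟨B, hB⟩ := (isCompact_Icc (a := 0) (b := L)).exists_bound_of_continuousOn
      hu.continuousOn
    apply integrable_of_bdd (B := B) hu.aestronglyMeasurable
    filter_upwards [hae] with x hx
    exact hB x hx
  have hc1 : Continuous fun x => deriv (fun x => f (emb (x - s))) x ^ 2 :=
    (hφ.continuous_deriv le_rfl).pow 2
  have hc2 : Continuous fun x => ‖fderiv ℝ f (emb (x - s))‖ ^ 2 :=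
    hfd.comp (emb_smooth s).continuous
  apply integral_mono (hint _ hc1) (hint _ hc2)
  intro x
  show deriv (fun x => f (emb (x - s))) x ^ 2 ≤ ‖fderiv ℝ f (emb (x - s))‖ ^ 2
  have hd : HasDerivAt (fun x => f (emb (x - s))) (fderiv ℝ f (emb (x - s)) (emb 1)) x :=
    ((hf.differentiable (by simp)) _).hasFDerivAt.comp_hasDerivAt x (emb_deriv s x)
  rw [hd.deriv, ← sq_abs]
  apply pow_le_pow_left₀ (abs_nonneg _)
  have := (fderiv ℝ f (emb (x - s))).le_opNorm (emb 1)
  rwa [norm_emb_one, mul_one] at this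

lemma clsi_ge {n : ℕ} (μ : Measure (E (n + 1))) [IsProbabilityMeasure μ] (s c : ℝ)
    (h : c ≤ Ent μ fun z => (z 0 + s) ^ 2) : ENNReal.ofReal c ≤ CLSI μ := by
  apply le_sInf
  intro C hC
  have hf : ContDiff ℝ ∞ fun z : E (n + 1) => z 0 + s := by fun_prop
  have h1 := hC _ hf
  have h2 : ∫ z, ‖fderiv ℝ (fun z : E (n + 1) => z 0 + s) z‖ ^ 2 ∂μ ≤ 1 := by
    have h3 : ∀ z, ‖fderiv ℝ (fun z : E (n + 1) => z 0 + s) z‖ ^ 2 ≤ 1 := by
      intro z
      have h4 : HasFDerivAt (fun z : E (n + 1) => z 0 + s)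
          (EuclideanSpace.proj (𝕜 := ℝ) (0 : Fin (n + 1))) z :=
        (EuclideanSpace.proj (𝕜 := ℝ) (0 : Fin (n + 1))).hasFDerivAt.add_const s
      rw [h4.fderiv]
      have h5 : ‖(EuclideanSpace.proj (𝕜 := ℝ) (0 : Fin (n + 1)) : E (n + 1) →L[ℝ] ℝ)‖ ≤ 1 := by
        apply ContinuousLinearMap.opNorm_le_bound _ zero_le_one
        intro v
        rw [one_mul]
        exact PiLp.norm_apply_le v 0
      calc _ ≤ (1:ℝ) ^ 2 := pow_le_pow_left₀ (norm_nonneg _) h5 2
        _ = 1 := one_pow 2
    calc _ ≤ ∫ _z, (1:ℝ) ∂μ := by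
          apply integral_mono_of_nonneg (Filter.Eventually.of_forall fun z => by positivity)
            (integrable_const 1) (Filter.Eventually.of_forall h3)
      _ = 1 := by simp
  calc ENNReal.ofReal c ≤ ENNReal.ofReal (Ent μ fun z => (z 0 + s) ^ 2) :=
        ENNReal.ofReal_le_ofReal h
    _ ≤ C * ENNReal.ofReal (∫ z, ‖fderiv ℝ (fun z : E (n + 1) => z 0 + s) z‖ ^ 2 ∂μ) := h1
    _ ≤ C * ENNReal.ofReal 1 := by gcongr
    _ = C := by simp

/-- one-dimensional counterexample -/
theorem one_dim (C : ℝ≥0) : ∃ (π : Measure (E 1)) (h : ℝ), IsProbabilityMeasure π ∧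
    IsLogConcave π ∧ HasCompactSupp π ∧ 0 < h ∧ C * CLSI π < CLSI (gaussTilt π h) := by
  set L : ℝ := 10000 * (C + 1) with hL
  have hC0 : (0:ℝ) ≤ C := C.2
  have hL1 : 1 ≤ L := by rw [hL]; linarith
  have hL0 : 0 < L := by linarith
  set h : ℝ := L ^ 2 with hh
  have hpos : 0 < h := by positivity
  refine ⟨ex1 L h, h, prob_ex1 hL0, logc_ex1 L h, supp_ex1 L h, hpos, ?_⟩
  have hWc : ContinuousOn (fun x : ℝ => -(x ^ 2 / (2 * h)) - h / 2) (Icc 0 L) := by fun_prop
  have hprobτ := prob_tilt hL0 hWc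
  have hmp := mp_tilt1 L h h hpos.ne' rfl
  have hprob : IsProbabilityMeasure (gaussTilt (ex1 L h) h) := by
    rw [← hmp.map_eq]
    exact Measure.isProbabilityMeasure_map hmp.measurable.aemeasurable
  have hent : Real.exp (-(1 / 2)) * (L ^ 2 / 12) ≤
      Ent (gaussTilt (ex1 L h) h) fun z => (z 0 + h) ^ 2 := by
    rw [ent_comp hmp (by fun_prop)]
    have := ent_sq_ge (D := 1 / 2) (a := -(1 / 2) - h / 2) hL0 hWc ?_ ?_
    · simpa [emb_apply] using this
    · intro x hx
      have : x ^ 2 / (2 * h) ≤ 1 / 2 := by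
        rw [div_le_div_iff₀ (by positivity) (by norm_num), hh]
        have := pow_le_pow_left₀ hx.1 hx.2 2
        linarith
      linarith
    · intro x hx
      have : 0 ≤ x ^ 2 / (2 * h) := by positivity
      linarith
  have hexp : (1:ℝ) / 2 ≤ Real.exp (-(1 / 2)) := by
    have := Real.add_one_le_exp (-(1 / 2 : ℝ))
    linarith
  have hlow := clsi_ge _ h (L ^ 2 / 24) (le_trans (by nlinarith [sq_nonneg L]) hent)
  refine lt_of_lt_of_le ?_ hlow
  calc (C : ℝ≥0∞) * CLSI (ex1 L h) ≤ C * ENNReal.ofReal (409 * L) := by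
        gcongr
        exact clsi_ex1 hL1
    _ = ENNReal.ofReal (C * (409 * L)) := by
        rw [ENNReal.ofReal_mul hC0, ENNReal.ofReal_coe_nnreal]
    _ < ENNReal.ofReal (L ^ 2 / 24) := by
        rw [ENNReal.ofReal_lt_ofReal_iff (by positivity)]
        rw [hL]
        nlinarith

end Pool.Agent.Q212.Tilt
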