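import Mathlib

/-!
# A tail ratio for sums of two i.i.d. nonnegative random variables
-/

namespace Pool.Agent.Q212.TailRatio

open MeasureTheory Set Filter Topology
open scoped ENNReal

/-- `μ` is an absolutely continuous probability law on `[0, ∞)` which is not compactly
supported. -/
structure IsLaw (μ : Measure ℝ) : Prop where
  prob : IsProbabilityMeasure μ
  nonneg : μ (Iio 0) = 0
  ac : μ ≪ volume
  tail : ∀ t, 0 < μ (Ioi t)

/-- `R(z) = P(X + Y ≥ 2z, min(X,Y) ≤ z) / P(X + Y ≥ 2z, min(X,Y) ≥ z)` for `X, Y` independent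
with law `μ`. -/
noncomputable def ratio (μ : Measure ℝ) (z : ℝ) : ℝ :=
  (μ.prod μ).real {q | 2 * z ≤ q.1 + q.2 ∧ min q.1 q.2 ≤ z} /
    (μ.prod μ).real {q | 2 * z ≤ q.1 + q.2 ∧ z ≤ min q.1 q.2}

/-- The median: the smallest `m ≥ 0` with `P(X ≤ m) = 1/2`. -/
noncomputable def med (μ : Measure ℝ) : ℝ := sInf {m | 0 ≤ m ∧ μ.real (Iic m) = 1 / 2}

section general

variable {μ : Measure ℝ} (h : IsLaw μ)
include h

lemma noAtom (x : ℝ) : μ {x} = 0 := h.ac (by simp)

lemma Ici_eq (x : ℝ) : μ (Ici x) = μ (Ioi x) := by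
  have := h.prob
  apply le_antisymm
  · rw [← Ioi_union_left]
    refine (measure_union_le _ _).trans ?_
    rw [noAtom h, add_zero]
  · exact measure_mono Ioi_subset_Ici_self

/-- the denominator -/
lemma denom (z : ℝ) : (μ.prod μ).real {q | 2 * z ≤ q.1 + q.2 ∧ z ≤ min q.1 q.2}
    = μ.real (Ioi z) ^ 2 := by
  have := h.prob
  have : {q : ℝ × ℝ | 2 * z ≤ q.1 + q.2 ∧ z ≤ min q.1 q.2} = (Ici z) ×ˢ (Ici z) := by
    ext q
    simp only [mem_ofPred_eq, mem_prod, mem_Ici, le_min_iff]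
    constructor
    · rintro ⟨_, h1⟩; exact h1
    · rintro ⟨h1, h2⟩; exact ⟨by linarith, h1, h2⟩
  rw [this, measureReal_def, Measure.prod_prod, Ici_eq h, ENNReal.toReal_mul, sq]
  rfl

lemma G_pos (z : ℝ) : 0 < μ.real (Ioi z) := by
  have := h.prob
  exact ENNReal.toReal_pos (h.tail z).ne' (measure_ne_top _ _)

lemma G_continuous : Continuous (fun z => μ.real (Ioi z)) := by
  have := h.prob
  have : NullSingletonClass μ := ⟨noAtom h⟩
  have h1 : ∀ z, μ.real (Ioi z) = 1 - μ.real (Iic z) := by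
    intro z
    have := probReal_compl_eq_one_sub (μ := μ) (measurableSet_Iic (a := z))
    rw [compl_Iic] at this
    exact this
  simp_rw [h1]
  refine continuous_const.sub ?_
  have h2 : ∀ z, μ.real (Iic z) = ProbabilityTheory.cdf μ z := by
    intro z
    rw [ProbabilityTheory.cdf_eq_real]
  simp_rw [h2]
  rw [continuous_iff_continuousAt]
  intro z
  rw [continuousAt_iff_continuous_left'_right']
  constructor
  · have hl : Function.leftLim (ProbabilityTheory.cdf μ) z = ProbabilityTheory.cdf μ z := by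
      have h3 := StieltjesFunction.measure_singleton (ProbabilityTheory.cdf μ) z
      rw [ProbabilityTheory.measure_cdf, noAtom h] at h3
      have h4 := ENNReal.ofReal_eq_zero.mp h3.symm
      have h5 := (ProbabilityTheory.cdf μ).mono.leftLim_le (le_refl z)
      linarith
    have := (ProbabilityTheory.cdf μ).mono.tendsto_leftLim z
    rw [hl] at this
    exact this
  · exact ((ProbabilityTheory.cdf μ).right_continuous z).mono Ioi_subset_Ici_self

/-- lower bound for the numerator -/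
lemma numer (z a : ℝ) (ha : 0 < a) :
    2 * ((μ.real (Ioi (z - a)) - μ.real (Ioi z)) * μ.real (Ioi (z + a)))
      ≤ (μ.prod μ).real {q | 2 * z ≤ q.1 + q.2 ∧ min q.1 q.2 ≤ z} := by
  have := h.prob
  set A : Set (ℝ × ℝ) := (Ioc (z - a) z) ×ˢ (Ioi (z + a)) with hA
  set B : Set (ℝ × ℝ) := (Ioi (z + a)) ×ˢ (Ioc (z - a) z) with hB
  have hdisj : Disjoint A B := by
    rw [Set.disjoint_left]
    rintro q ⟨h1, h2⟩ ⟨h3, h4⟩
    simp only [mem_Ioc, mem_Ioi] at h1 h2 h3 h4
    linarith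
  have hsub : A ∪ B ⊆ {q : ℝ × ℝ | 2 * z ≤ q.1 + q.2 ∧ min q.1 q.2 ≤ z} := by
    rintro q (⟨h1, h2⟩ | ⟨h1, h2⟩)
    · simp only [mem_Ioc, mem_Ioi] at h1 h2
      exact ⟨by linarith, le_trans (min_le_left _ _) h1.2⟩
    · simp only [mem_Ioc, mem_Ioi] at h1 h2
      exact ⟨by linarith, le_trans (min_le_right _ _) h2.2⟩
  have hIoc : μ.real (Ioc (z - a) z) = μ.real (Ioi (z - a)) - μ.real (Ioi z) := by
    have h1 : Ioc (z - a) z = Ioi (z - a) \ Ioi z := by
      ext x; simp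
    rw [h1, measureReal_sdiff (Ioi_subset_Ioi (by linarith)) measurableSet_Ioi]
  have hAm : (μ.prod μ).real A = (μ.real (Ioi (z - a)) - μ.real (Ioi z)) * μ.real (Ioi (z + a)) := by
    rw [← hIoc, hA, measureReal_def, Measure.prod_prod, ENNReal.toReal_mul]; rfl
  have hBm : (μ.prod μ).real B = (μ.real (Ioi (z - a)) - μ.real (Ioi z)) * μ.real (Ioi (z + a)) := by
    rw [← hIoc, hB, measureReal_def, Measure.prod_prod, ENNReal.toReal_mul, mul_comm]; rfl
  have hunion := measureReal_union (μ := μ.prod μ) hdisj (measurableSet_Ioi.prod measurableSet_Ioc)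
  have := measureReal_mono (μ := μ.prod μ) hsub (by finiteness)
  rw [hunion, hAm, hBm] at this
  linarith

lemma G_antitone : Antitone (fun z => μ.real (Ioi z)) := by
  have := h.prob
  intro x y hxy
  exact measureReal_mono (Ioi_subset_Ioi hxy) (by finiteness)

/-- One halving step. -/
lemma step (z a : ℝ) (ha : 0 < a) (hR : ratio μ z ≤ 1 / 2)
    (hz : 2 * μ.real (Ioi z) ≤ μ.real (Ioi (z - a))) :
    ∃ z', (z' = z + a / 2 ∨ z' = z + a) ∧ 2 * μ.real (Ioi z') ≤ μ.real (Ioi (z' - a / 2)) := by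
  have h1 := numer h z a ha
  have hG := G_pos h z
  have hR' : (μ.prod μ).real {q | 2 * z ≤ q.1 + q.2 ∧ min q.1 q.2 ≤ z}
      ≤ 1 / 2 * μ.real (Ioi z) ^ 2 := by
    have h2 := hR
    rw [ratio, denom h, div_le_iff₀ (by positivity)] at h2
    exact h2
  have hGa := G_pos h (z + a)
  have h3 : 4 * μ.real (Ioi (z + a)) ≤ μ.real (Ioi z) := by
    have h4 : μ.real (Ioi z) * μ.real (Ioi (z + a))
        ≤ (μ.real (Ioi (z - a)) - μ.real (Ioi z)) * μ.real (Ioi (z + a)) := by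
      apply mul_le_mul_of_nonneg_right _ hGa.le
      linarith
    have h5 : 2 * (μ.real (Ioi z) * μ.real (Ioi (z + a))) ≤ 1 / 2 * μ.real (Ioi z) ^ 2 := by
      linarith
    have h6 : μ.real (Ioi z) * (4 * μ.real (Ioi (z + a))) ≤ μ.real (Ioi z) * μ.real (Ioi z) := by
      nlinarith
    exact le_of_mul_le_mul_left h6 hG
  by_cases h4 : 2 * μ.real (Ioi (z + a / 2)) ≤ μ.real (Ioi z)
  · exact ⟨z + a / 2, Or.inl rfl, by simpa using h4⟩
  · refine ⟨z + a, Or.inr rfl, ?_⟩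
    push Not at h4
    have : z + a - a / 2 = z + a / 2 := by ring
    rw [this]
    linarith

/-- If `R ≤ 1/2` on `[m, 3m]` then `G(m) > G(0)/2`. -/
lemma main_general (m : ℝ) (hm : 0 < m) (hG : 2 * μ.real (Ioi m) ≤ μ.real (Ioi 0)) :
    ∃ z ∈ Icc m (3 * m), 1 / 2 < ratio μ z := by
  by_contra hcon
  push Not at hcon
  -- the sequence
  have key : ∀ k : ℕ, ∀ z, m ≤ z → z ≤ 3 * m - 2 * (m / 2 ^ k) →
      2 * μ.real (Ioi z) ≤ μ.real (Ioi (z - m / 2 ^ k)) →
      ∃ z', z < z' ∧ z' ≤ 3 * m - 2 * (m / 2 ^ (k + 1)) ∧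
        2 * μ.real (Ioi z') ≤ μ.real (Ioi (z' - m / 2 ^ (k + 1))) := by
    intro k z hz1 hz2 hz3
    have hpos : 0 < m / 2 ^ k := by positivity
    obtain ⟨z', hz', hG'⟩ := step h z (m / 2 ^ k) hpos
      (hcon z ⟨hz1, by linarith⟩) hz3
    have hhalf : m / 2 ^ k / 2 = m / 2 ^ (k + 1) := by rw [pow_succ]; field_simp
    rw [hhalf] at hG' hz'
    have hk : m / 2 ^ k = 2 * (m / 2 ^ (k + 1)) := by rw [pow_succ]; field_simp
    have hpos' : 0 < m / 2 ^ (k + 1) := by positivity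
    refine ⟨z', ?_, ?_, hG'⟩
    · rcases hz' with rfl | rfl <;> linarith
    · rcases hz' with rfl | rfl <;> linarith
  -- choose the sequence
  have hex : ∀ k : ℕ, ∀ z : {z : ℝ // m ≤ z ∧ z ≤ 3 * m - 2 * (m / 2 ^ k) ∧
      2 * μ.real (Ioi z) ≤ μ.real (Ioi (z - m / 2 ^ k))},
      ∃ z' : {z : ℝ // m ≤ z ∧ z ≤ 3 * m - 2 * (m / 2 ^ (k + 1)) ∧
      2 * μ.real (Ioi z) ≤ μ.real (Ioi (z - m / 2 ^ (k + 1)))}, (z : ℝ) < z' := by
    intro k ⟨z, hz1, hz2, hz3⟩
    obtain ⟨z', h1, h2, h3⟩ := key k z hz1 hz2 hz3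
    exact ⟨⟨z', by linarith, h2, h3⟩, h1⟩
  choose nxt hnxt using hex
  let s : (k : ℕ) → {z : ℝ // m ≤ z ∧ z ≤ 3 * m - 2 * (m / 2 ^ k) ∧
      2 * μ.real (Ioi z) ≤ μ.real (Ioi (z - m / 2 ^ k))} := fun k =>
    Nat.rec (motive := fun k => {z : ℝ // m ≤ z ∧ z ≤ 3 * m - 2 * (m / 2 ^ k) ∧
      2 * μ.real (Ioi z) ≤ μ.real (Ioi (z - m / 2 ^ k))})
      ⟨m, le_rfl, by simp; linarith, by simpa using hG⟩ (fun k z => nxt k z) k
  have hmono : Monotone (fun k : ℕ => (s k).1) := by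
    apply monotone_nat_of_le_succ
    intro k
    have h0 : (s k).1 < (nxt k (s k)).1 := hnxt k (s k)
    exact h0.le
  have hbdd : BddAbove (range (fun k : ℕ => (s k).1)) := by
    refine ⟨3 * m, ?_⟩
    rintro _ ⟨k, rfl⟩
    have h1 := (s k).2.2.1
    have : 0 < m / 2 ^ k := by positivity
    simp only
    linarith
  have hlim := tendsto_atTop_ciSup hmono hbdd
  set zs := ⨆ k : ℕ, (s k).1 with hzs
  have hak : Tendsto (fun k : ℕ => m / 2 ^ k) atTop (𝓝 0) := by
    have := tendsto_const_nhds (x := m) |>.mul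
      (tendsto_pow_atTop_nhds_zero_of_lt_one (r := (1 / 2 : ℝ)) (by norm_num) (by norm_num))
    simp only [mul_zero] at this
    refine this.congr (fun k => ?_)
    rw [one_div, inv_pow]; rfl
  have h1 : Tendsto (fun k => 2 * μ.real (Ioi (s k).1)) atTop (𝓝 (2 * μ.real (Ioi zs))) :=
    (((G_continuous h).tendsto zs).comp hlim).const_mul 2
  have h2 : Tendsto (fun k => μ.real (Ioi ((s k).1 - m / 2 ^ k))) atTop
      (𝓝 (μ.real (Ioi zs))) := by
    have := hlim.sub hak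
    rw [sub_zero] at this
    exact ((G_continuous h).tendsto zs).comp this
  have h3 := le_of_tendsto_of_tendsto' h1 h2 (fun k => (s k).2.2.2)
  have := G_pos h zs
  linarith

lemma Ioi_zero : μ.real (Ioi 0) = 1 := by
  have := h.prob
  have h1 : μ.real (Iio 0) = 0 := by rw [measureReal_def, h.nonneg]; simp
  have h2 := probReal_compl_eq_one_sub (μ := μ) (measurableSet_Iio (a := (0 : ℝ)))
  rw [compl_Iio, h1, sub_zero] at h2
  rw [← h2, measureReal_def, measureReal_def, Ici_eq h]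

lemma Iic_eq (z : ℝ) : μ.real (Iic z) = 1 - μ.real (Ioi z) := by
  have := h.prob
  have := probReal_compl_eq_one_sub (μ := μ) (measurableSet_Iic (a := z))
  rw [compl_Iic] at this
  linarith

lemma med_spec : 0 < med μ ∧ μ.real (Ioi (med μ)) = 1 / 2 := by
  have := h.prob
  have hset : {m | 0 ≤ m ∧ μ.real (Iic m) = 1 / 2} = {m | 0 ≤ m} ∩ {m | μ.real (Ioi m) = 1 / 2} := by
    ext m
    simp only [mem_ofPred_eq, mem_inter_iff, Iic_eq h]
    constructor
    · rintro ⟨h1, h2⟩; exact ⟨h1, by linarith⟩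
    · rintro ⟨h1, h2⟩; exact ⟨h1, by linarith⟩
  have hclosed : IsClosed {m | 0 ≤ m ∧ μ.real (Iic m) = 1 / 2} := by
    rw [hset]
    exact isClosed_Ici.inter (isClosed_eq (G_continuous h) continuous_const)
  have hlim : Tendsto (fun z => μ.real (Ioi z)) atTop (𝓝 0) := by
    have h1 := ProbabilityTheory.tendsto_cdf_atTop μ
    have h2 : ∀ z, μ.real (Ioi z) = 1 - ProbabilityTheory.cdf μ z := by
      intro z
      rw [ProbabilityTheory.cdf_eq_real, Iic_eq h]; ring
    simp_rw [h2]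
    have := h1.const_sub 1
    simpa using this
  have hne : {m | 0 ≤ m ∧ μ.real (Iic m) = 1 / 2}.Nonempty := by
    obtain ⟨b, hb, hb0⟩ := ((hlim.eventually (gt_mem_nhds (by norm_num : (0 : ℝ) < 1 / 2))).and
      (eventually_ge_atTop 0)).exists
    have hIVT := intermediate_value_Icc' hb0 (G_continuous h).continuousOn
    have hmem : (1 / 2 : ℝ) ∈ Icc (μ.real (Ioi b)) (μ.real (Ioi 0)) := by
      rw [Ioi_zero h]
      exact ⟨hb.le, by norm_num⟩
    obtain ⟨m, hm1, hm2⟩ := hIVT hmem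
    refine ⟨m, hm1.1, ?_⟩
    rw [Iic_eq h]
    have : μ.real (Ioi m) = 1 / 2 := hm2
    linarith
  have hmem := hclosed.csInf_mem hne ⟨0, fun m hm => hm.1⟩
  have h1 : 0 ≤ med μ ∧ μ.real (Iic (med μ)) = 1 / 2 := hmem
  have h2 : μ.real (Ioi (med μ)) = 1 / 2 := by
    have := Iic_eq h (med μ)
    linarith [h1.2]
  refine ⟨?_, h2⟩
  rcases h1.1.eq_or_lt with h3 | h3
  · rw [← h3, Ioi_zero h] at h2
    norm_num at h2
  · exact h3

/-- Universal constant, median version. -/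
theorem median_lower : ∃ z > 0, 1 / 6 * z / med μ ≤ ratio μ z := by
  obtain ⟨hm, hm2⟩ := med_spec h
  obtain ⟨z, hz, hR⟩ := main_general h (med μ) hm (by rw [hm2, Ioi_zero h]; norm_num)
  refine ⟨z, by linarith [hz.1], ?_⟩
  refine le_trans ?_ hR.le
  rw [div_le_iff₀ hm]
  linarith [hz.2]

lemma mean_lower_bound (hint : Integrable (fun x => x) μ) : med μ / 2 ≤ ∫ x, x ∂μ := by
  have := h.prob
  obtain ⟨hm, hm2⟩ := med_spec h
  have hnn : 0 ≤ᵐ[μ] (fun x => x) := by
    rw [EventuallyLE, ae_iff]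
    have : {a : ℝ | ¬ ((0 : ℝ → ℝ) a ≤ a)} = Iio 0 := by
      ext a; simp
    rw [this, h.nonneg]
  have h1 := mul_meas_ge_le_integral_of_nonneg hnn hint (med μ)
  have h2 : μ.real {x | med μ ≤ x} = 1 / 2 := by
    have : {x | med μ ≤ x} = Ici (med μ) := rfl
    rw [this, measureReal_def, Ici_eq h, ← measureReal_def, hm2]
  rw [h2] at h1
  linarith

/-- Universal constant, mean version. -/
theorem mean_lower (hint : Integrable (fun x => x) μ) :
    ∃ z > 0, 1 / 12 * z / (∫ x, x ∂μ) ≤ ratio μ z := by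
  obtain ⟨hm, hm2⟩ := med_spec h
  obtain ⟨z, hz, hR⟩ := main_general h (med μ) hm (by rw [hm2, Ioi_zero h]; norm_num)
  have hmean := mean_lower_bound h hint
  refine ⟨z, by linarith [hz.1], ?_⟩
  refine le_trans ?_ hR.le
  rw [div_le_iff₀ (by linarith)]
  linarith [hz.2]

end general

end Pool.Agent.Q212.TailRatio
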