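import Pool.Agent.Q212.TailRatio

/-!
# A law with a small tail ratio
-/

namespace Pool.Agent.Q212.TailRatio

open MeasureTheory Set Filter Topology intervalIntegral
open scoped ENNReal

/-- the tail -/
noncomputable def G0 (x : ℝ) : ℝ := Real.exp (-x - x ^ 2 / 2)

/-- the law with `P(X > t) = exp (-t - t^2/2)`. -/
noncomputable def mu0 : Measure ℝ :=
  (volume.restrict (Ioi 0)).withDensity (fun x => ENNReal.ofReal ((1 + x) * G0 x))

lemma G0_pos (x : ℝ) : 0 < G0 x := Real.exp_pos _

lemma G0_deriv (x : ℝ) : HasDerivAt G0 (-((1 + x) * G0 x)) x := by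
  unfold G0
  have h1 : HasDerivAt (fun x : ℝ => -x - x ^ 2 / 2) (-1 - x) x := by
    have h2 := (hasDerivAt_id x).neg.sub (((hasDerivAt_id x).pow 2).div_const 2)
    refine h2.congr_deriv ?_
    simp
  refine h1.exp.congr_deriv ?_
  ring

lemma G0_cont : Continuous G0 := by unfold G0; fun_prop

lemma G0_tendsto : Tendsto G0 atTop (𝓝 0) := by
  have h1 : Tendsto (fun x : ℝ => Real.exp (-x)) atTop (𝓝 0) :=
    Real.tendsto_exp_neg_atTop_nhds_zero
  refine squeeze_zero' (Eventually.of_forall fun x => (G0_pos x).le) ?_ h1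
  filter_upwards [] with x
  unfold G0
  apply Real.exp_le_exp.mpr
  nlinarith [sq_nonneg x]

lemma mu0_Ioi {t : ℝ} (ht : 0 ≤ t) : mu0 (Ioi t) = ENNReal.ofReal (G0 t) := by
  unfold mu0
  rw [withDensity_apply _ measurableSet_Ioi, Measure.restrict_restrict measurableSet_Ioi]
  have hs : Ioi t ∩ Ioi (0 : ℝ) = Ioi t := by
    ext x; simp only [mem_inter_iff, mem_Ioi]
    exact ⟨fun h => h.1, fun h => ⟨h, lt_of_le_of_lt ht h⟩⟩
  rw [hs]
  have hder : ∀ x ∈ Ici t, HasDerivAt (fun x => -G0 x) ((1 + x) * G0 x) x := by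
    intro x _
    exact (G0_deriv x).neg.congr_deriv (by ring)
  have hnn : ∀ x ∈ Ioi t, 0 ≤ (1 + x) * G0 x := by
    intro x hx
    have : 0 ≤ x := ht.trans (le_of_lt hx)
    have := G0_pos x
    positivity
  have hlim : Tendsto (fun x => -G0 x) atTop (𝓝 0) := by simpa using G0_tendsto.neg
  have hint := integrableOn_Ioi_deriv_of_nonneg' hder hnn hlim
  have hval := integral_Ioi_of_hasDerivAt_of_nonneg' hder hnn hlim
  rw [← ofReal_integral_eq_lintegral_ofReal hint, hval]
  · congr 1; ring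
  · filter_upwards [ae_restrict_mem measurableSet_Ioi] with x hx using hnn x hx

lemma mu0_Iio : mu0 (Iio 0) = 0 := by
  unfold mu0
  rw [withDensity_apply _ measurableSet_Iio, Measure.restrict_restrict measurableSet_Iio]
  have hs : Iio (0 : ℝ) ∩ Ioi (0 : ℝ) = ∅ := by
    ext x; simp only [mem_inter_iff, mem_Ioi, mem_Iio, mem_empty_iff_false, iff_false]
    rintro ⟨h1, h2⟩; linarith
  rw [hs]; simp

lemma mu0_ac : mu0 ≪ volume :=
  (withDensity_absolutelyContinuous _ _).trans Measure.restrict_le_self.absolutelyContinuous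

lemma mu0_prob : IsProbabilityMeasure mu0 := by
  constructor
  have h1 : mu0 univ = mu0 (Iio 0) + mu0 (Ici 0) := by
    rw [← measure_union _ measurableSet_Ici, Iio_union_Ici]
    rw [Set.disjoint_left]; intro x hx hx'
    simp only [mem_Iio, mem_Ici] at hx hx'; linarith
  have h2 : mu0 (Ici 0) = mu0 (Ioi 0) := by
    apply le_antisymm
    · rw [← Ioi_union_left]
      refine (measure_union_le _ _).trans ?_
      have : mu0 {0} = 0 := mu0_ac (by simp)
      rw [this, add_zero]
    · exact measure_mono Ioi_subset_Ici_self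
  rw [h1, mu0_Iio, h2, mu0_Ioi le_rfl, G0]
  simp

lemma mu0_law : IsLaw mu0 where
  prob := mu0_prob
  nonneg := mu0_Iio
  ac := mu0_ac
  tail := by
    intro t
    have h1 : mu0 (Ioi (max t 0)) ≤ mu0 (Ioi t) := measure_mono (Ioi_subset_Ioi (le_max_left _ _))
    refine lt_of_lt_of_le ?_ h1
    rw [mu0_Ioi (le_max_right _ _)]
    exact ENNReal.ofReal_pos.mpr (G0_pos _)

lemma mu0_real_Ioi {t : ℝ} (ht : 0 ≤ t) : mu0.real (Ioi t) = G0 t := by
  rw [measureReal_def, mu0_Ioi ht, ENNReal.toReal_ofReal (G0_pos t).le]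

/-- the incomplete Gaussian integral -/
noncomputable def EE (z : ℝ) : ℝ := ∫ u in (0 : ℝ)..z, Real.exp (-u ^ 2)

lemma EE_deriv (z : ℝ) : HasDerivAt EE (Real.exp (-z ^ 2)) z := by
  have hc : Continuous (fun u : ℝ => Real.exp (-u ^ 2)) := by fun_prop
  exact integral_hasDerivAt_right (hc.intervalIntegrable _ _)
    hc.stronglyMeasurable.stronglyMeasurableAtFilter hc.continuousAt

noncomputable def phi (z : ℝ) : ℝ := Real.exp (-z ^ 2) + EE z

lemma phi_deriv (z : ℝ) : HasDerivAt phi ((1 - 2 * z) * Real.exp (-z ^ 2)) z := by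
  unfold phi
  have h1 : HasDerivAt (fun z : ℝ => Real.exp (-z ^ 2)) (Real.exp (-z ^ 2) * (-(2 * z))) z := by
    have h2 := ((hasDerivAt_id z).pow 2).neg.exp
    refine h2.congr_deriv ?_
    simp
  refine (h1.add (EE_deriv z)).congr_deriv ?_
  ring

lemma exp_neg_le {x : ℝ} (hx : 0 ≤ x) : Real.exp (-x) ≤ 1 - x + x ^ 2 / 2 := by
  -- monotonicity of `1 - x + x^2/2 - exp (-x)`
  have hmono : MonotoneOn (fun x : ℝ => 1 - x + x ^ 2 / 2 - Real.exp (-x)) (Ici 0) := by
    apply monotoneOn_of_deriv_nonneg (convex_Ici 0)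
    · fun_prop
    · fun_prop
    · intro y hy
      have hd : HasDerivAt (fun x : ℝ => 1 - x + x ^ 2 / 2 - Real.exp (-x)) (-1 + y + Real.exp (-y)) y := by
        have h1 : HasDerivAt (fun x : ℝ => Real.exp (-x)) (Real.exp (-y) * (-1)) y :=
          (hasDerivAt_id y).neg.exp
        have h2 : HasDerivAt (fun x : ℝ => 1 - x + x ^ 2 / 2) (-1 + y) y := by
          have h3 := ((hasDerivAt_id y).const_sub 1).add (((hasDerivAt_id y).pow 2).div_const 2)
          refine h3.congr_deriv ?_
          simp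
        exact (h2.sub h1).congr_deriv (by ring)
      rw [hd.deriv]
      have := Real.add_one_le_exp (-y)
      linarith
  have := hmono (mem_Ici.mpr le_rfl) (mem_Ici.mpr hx) hx
  simp at this
  linarith

lemma EE_half : EE (1 / 2) ≤ 1 / 2 - 1 / 24 + 1 / 320 := by
  unfold EE
  have h1 : ∫ u in (0 : ℝ)..(1 / 2), Real.exp (-u ^ 2)
      ≤ ∫ u in (0 : ℝ)..(1 / 2), (1 - u ^ 2 + u ^ 4 / 2) := by
    apply integral_mono_on (by norm_num)
    · exact Continuous.intervalIntegrable (by fun_prop) _ _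
    · exact Continuous.intervalIntegrable (by fun_prop) _ _
    · intro u _
      have := exp_neg_le (sq_nonneg u)
      refine this.trans (le_of_eq ?_)
      ring
  refine h1.trans (le_of_eq ?_)
  rw [intervalIntegral.integral_add, intervalIntegral.integral_sub]
  · simp [integral_pow]
    norm_num
  all_goals exact Continuous.intervalIntegrable (by fun_prop) _ _

lemma phi_half : phi (1 / 2) ≤ 5 / 4 := by
  unfold phi
  have h1 := EE_half
  have h2 := exp_neg_le (x := (1 / 2 : ℝ) ^ 2) (by norm_num)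
  norm_num at h1 h2 ⊢
  linarith

lemma phi_diff : Differentiable ℝ phi := fun z => (phi_deriv z).differentiableAt

lemma phi_le (z : ℝ) : phi z ≤ 5 / 4 := by
  refine le_trans ?_ phi_half
  rcases le_total z (1 / 2) with hz | hz
  · have hmono : MonotoneOn phi (Iic (1 / 2)) := by
      apply monotoneOn_of_deriv_nonneg (convex_Iic _) phi_diff.continuous.continuousOn
        phi_diff.differentiableOn
      intro y hy
      rw [interior_Iic, mem_Iio] at hy
      rw [(phi_deriv y).deriv]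
      have := Real.exp_pos (-y ^ 2)
      nlinarith
    exact hmono hz (mem_Iic.mpr le_rfl) hz
  · have hanti : AntitoneOn phi (Ici (1 / 2)) := by
      apply antitoneOn_of_deriv_nonpos (convex_Ici _) phi_diff.continuous.continuousOn
        phi_diff.differentiableOn
      intro y hy
      rw [interior_Ici, mem_Ioi] at hy
      rw [(phi_deriv y).deriv]
      have := Real.exp_pos (-y ^ 2)
      nlinarith
    exact hanti (mem_Ici.mpr le_rfl) hz hz

noncomputable def AA (z : ℝ) : ℝ := (1 + z) * EE z - (1 - Real.exp (-z ^ 2)) / 2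

lemma AA_deriv (z : ℝ) : HasDerivAt AA (phi z) z := by
  unfold AA phi
  have h1 : HasDerivAt (fun z : ℝ => Real.exp (-z ^ 2)) (Real.exp (-z ^ 2) * (-(2 * z))) z := by
    have h2 := ((hasDerivAt_id z).pow 2).neg.exp
    refine h2.congr_deriv ?_
    simp
  have h3 := (((hasDerivAt_id z).const_add 1).mul (EE_deriv z)).sub ((h1.const_sub 1).div_const 2)
  refine h3.congr_deriv ?_
  simp
  ring

lemma AA_le {z : ℝ} (hz : 0 ≤ z) : AA z ≤ 5 / 4 * z := by
  have hmono : MonotoneOn (fun z => 5 / 4 * z - AA z) (Ici 0) := by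
    have hd : ∀ y, HasDerivAt (fun z => 5 / 4 * z - AA z) (5 / 4 - phi y) y := by
      intro y
      exact (((hasDerivAt_id y).const_mul (5 / 4)).sub (AA_deriv y)).congr_deriv (by ring)
    apply monotoneOn_of_deriv_nonneg (convex_Ici 0)
    · exact fun y _ => (hd y).continuousAt.continuousWithinAt
    · exact fun y _ => (hd y).differentiableAt.differentiableWithinAt
    · intro y _
      rw [(hd y).deriv]
      have := phi_le y
      linarith
  have := hmono (mem_Ici.mpr le_rfl) (mem_Ici.mpr hz) hz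
  simp [AA, EE] at this
  simp [AA, EE]
  linarith

lemma integral_AA (z : ℝ) :
    ∫ x in (0 : ℝ)..z, (1 + x) * Real.exp (-(z - x) ^ 2) = AA z := by
  have h1 : ∫ x in (0 : ℝ)..z, (1 + x) * Real.exp (-(z - x) ^ 2)
      = ∫ x in (0 : ℝ)..z, (1 + (z - x)) * Real.exp (-x ^ 2) := by
    have := integral_comp_sub_left (f := fun x => (1 + (z - x)) * Real.exp (-x ^ 2)) z
      (a := 0) (b := z)
    simp only [sub_self, sub_zero] at this
    rw [← this]
    congr 1
    ext x
    ring_nf
  rw [h1]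
  have h2 : ∀ x : ℝ, (1 + (z - x)) * Real.exp (-x ^ 2)
      = (1 + z) * Real.exp (-x ^ 2) + (-(x * Real.exp (-x ^ 2))) := by intro x; ring
  simp_rw [h2]
  rw [intervalIntegral.integral_add (Continuous.intervalIntegrable (by fun_prop) _ _)
    (Continuous.intervalIntegrable (by fun_prop) _ _)]
  rw [intervalIntegral.integral_const_mul]
  have h3 : ∫ x in (0 : ℝ)..z, -(x * Real.exp (-x ^ 2))
      = Real.exp (-z ^ 2) / 2 - Real.exp (-0 ^ 2) / 2 := by
    apply integral_eq_sub_of_hasDerivAt (f := fun x => Real.exp (-x ^ 2) / 2)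
    · intro x _
      have h2 := (((hasDerivAt_id x).pow 2).neg.exp).div_const 2
      refine h2.congr_deriv ?_
      simp
      ring
    · exact Continuous.intervalIntegrable (by fun_prop) _ _
  rw [h3]
  unfold AA EE
  simp
  ring

lemma mu0_Ici {t : ℝ} (ht : 0 ≤ t) : mu0 (Ici t) = ENNReal.ofReal (G0 t) := by
  rw [Ici_eq mu0_law, mu0_Ioi ht]

/-- half of the numerator -/
lemma half_numer {z : ℝ} (hz : 0 < z) :
    (mu0.prod mu0) {q : ℝ × ℝ | q.1 ≤ z ∧ 2 * z ≤ q.1 + q.2}
      ≤ ENNReal.ofReal (Real.exp (-2 * z - z ^ 2) * (5 / 4 * z)) := by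
  have := mu0_prob
  have hmeas : MeasurableSet {q : ℝ × ℝ | q.1 ≤ z ∧ 2 * z ≤ q.1 + q.2} := by
    apply MeasurableSet.inter
    · exact measurableSet_le measurable_fst measurable_const
    · exact measurableSet_le measurable_const (measurable_fst.add measurable_snd)
  rw [Measure.prod_apply hmeas]
  have hg : Measurable (fun x : ℝ => ENNReal.ofReal ((1 + x) * G0 x)) := by
    have : Continuous (fun x : ℝ => (1 + x) * G0 x) := by
      have := G0_cont
      fun_prop
    exact this.measurable.ennreal_ofReal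
  have hk : Measurable (fun x => mu0 (Prod.mk x ⁻¹' {q : ℝ × ℝ | q.1 ≤ z ∧ 2 * z ≤ q.1 + q.2})) :=
    measurable_measure_prodMk_left hmeas
  have hunf : ∫⁻ x, mu0 (Prod.mk x ⁻¹' {q : ℝ × ℝ | q.1 ≤ z ∧ 2 * z ≤ q.1 + q.2}) ∂mu0
      = ∫⁻ x in Ioi 0, ((fun x : ℝ => ENNReal.ofReal ((1 + x) * G0 x)) *
      (fun x => mu0 (Prod.mk x ⁻¹' {q : ℝ × ℝ | q.1 ≤ z ∧ 2 * z ≤ q.1 + q.2}))) x :=
    lintegral_withDensity_eq_lintegral_mul _ hg hk
  rw [hunf]
  have hle : ∀ x ∈ Ioi (0 : ℝ), ((fun x : ℝ => ENNReal.ofReal ((1 + x) * G0 x)) *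
      (fun x => mu0 (Prod.mk x ⁻¹' {q : ℝ × ℝ | q.1 ≤ z ∧ 2 * z ≤ q.1 + q.2}))) x
      ≤ (Ioc 0 z).indicator (fun x => ENNReal.ofReal
        (Real.exp (-2 * z - z ^ 2) * ((1 + x) * Real.exp (-(z - x) ^ 2)))) x := by
    intro x hx
    have hx0 : 0 < x := hx
    by_cases hxz : x ≤ z
    · rw [indicator_of_mem (show x ∈ Ioc 0 z from ⟨hx0, hxz⟩)]
      have hpre : Prod.mk x ⁻¹' {q : ℝ × ℝ | q.1 ≤ z ∧ 2 * z ≤ q.1 + q.2} = Ici (2 * z - x) := by
        ext y
        simp only [mem_preimage, mem_ofPred_eq, mem_Ici]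
        constructor
        · rintro ⟨_, h1⟩; linarith
        · intro h1; exact ⟨hxz, by linarith⟩
      simp only [Pi.mul_apply]
      rw [hpre, mu0_Ici (by linarith), ← ENNReal.ofReal_mul (by have := G0_pos x; positivity)]
      apply ENNReal.ofReal_le_ofReal
      apply le_of_eq
      unfold G0
      have : (1 + x) * Real.exp (-x - x ^ 2 / 2) * Real.exp (-(2 * z - x) - (2 * z - x) ^ 2 / 2)
        = (1 + x) * (Real.exp (-x - x ^ 2 / 2) * Real.exp (-(2 * z - x) - (2 * z - x) ^ 2 / 2)) := by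
          ring
      rw [this, ← Real.exp_add]
      have h2 : Real.exp (-2 * z - z ^ 2) * ((1 + x) * Real.exp (-(z - x) ^ 2))
        = (1 + x) * (Real.exp (-2 * z - z ^ 2) * Real.exp (-(z - x) ^ 2)) := by ring
      rw [h2, ← Real.exp_add]
      congr 2
      ring
    · have hpre : Prod.mk x ⁻¹' {q : ℝ × ℝ | q.1 ≤ z ∧ 2 * z ≤ q.1 + q.2} = ∅ := by
        ext y
        simp only [mem_preimage, mem_ofPred_eq, mem_empty_iff_false, iff_false]
        rintro ⟨h1, _⟩; exact hxz h1
      simp only [Pi.mul_apply]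
      rw [hpre]; simp
  refine (setLIntegral_mono' measurableSet_Ioi hle).trans ?_
  rw [lintegral_indicator measurableSet_Ioc, Measure.restrict_restrict measurableSet_Ioc]
  have hs : Ioc 0 z ∩ Ioi 0 = Ioc 0 z := by
    ext x; simp only [mem_inter_iff, mem_Ioc, mem_Ioi]; tauto
  rw [hs]
  have hci : Continuous (fun x : ℝ =>
      Real.exp (-2 * z - z ^ 2) * ((1 + x) * Real.exp (-(z - x) ^ 2))) := by fun_prop
  rw [← ofReal_integral_eq_lintegral_ofReal
    ((hci.intervalIntegrable 0 z).1)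
    (by
      filter_upwards [ae_restrict_mem measurableSet_Ioc] with x hx
      have : 0 < x := hx.1
      positivity)]
  apply ENNReal.ofReal_le_ofReal
  rw [← integral_of_le hz.le, intervalIntegral.integral_const_mul, integral_AA]
  exact mul_le_mul_of_nonneg_left (AA_le hz.le) (Real.exp_pos _).le

lemma ratio_le {z : ℝ} (hz : 0 < z) : ratio mu0 z ≤ 5 / 2 * z := by
  have := mu0_prob
  rw [ratio, denom mu0_law, mu0_real_Ioi hz.le]
  have hG : G0 z ^ 2 = Real.exp (-2 * z - z ^ 2) := by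
    unfold G0
    rw [sq, ← Real.exp_add]; congr 1; ring
  rw [hG, div_le_iff₀ (Real.exp_pos _)]
  have h1 := half_numer hz
  have hsub : {q : ℝ × ℝ | 2 * z ≤ q.1 + q.2 ∧ min q.1 q.2 ≤ z}
      ⊆ {q : ℝ × ℝ | q.1 ≤ z ∧ 2 * z ≤ q.1 + q.2}
        ∪ Prod.swap ⁻¹' {q : ℝ × ℝ | q.1 ≤ z ∧ 2 * z ≤ q.1 + q.2} := by
    rintro ⟨x, y⟩ ⟨h2, h3⟩
    simp only [mem_union, mem_preimage, mem_ofPred_eq, Prod.swap_prod_mk] at h2 h3 ⊢
    rcases min_le_iff.mp h3 with h | h
    · left; exact ⟨h, h2⟩
    · right; exact ⟨h, by linarith⟩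
  have hmeas : MeasurableSet {q : ℝ × ℝ | q.1 ≤ z ∧ 2 * z ≤ q.1 + q.2} := by
    apply MeasurableSet.inter
    · exact measurableSet_le measurable_fst measurable_const
    · exact measurableSet_le measurable_const (measurable_fst.add measurable_snd)
  have hswap : (mu0.prod mu0) (Prod.swap ⁻¹' {q : ℝ × ℝ | q.1 ≤ z ∧ 2 * z ≤ q.1 + q.2})
      = (mu0.prod mu0) {q : ℝ × ℝ | q.1 ≤ z ∧ 2 * z ≤ q.1 + q.2} := by
    conv_rhs => rw [← Measure.prod_swap]
    rw [Measure.map_apply measurable_swap hmeas]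
  have h4 : (mu0.prod mu0) {q : ℝ × ℝ | 2 * z ≤ q.1 + q.2 ∧ min q.1 q.2 ≤ z}
      ≤ ENNReal.ofReal (5 / 2 * z * Real.exp (-2 * z - z ^ 2)) := by
    refine (measure_mono hsub).trans ((measure_union_le _ _).trans ?_)
    rw [hswap]
    refine (add_le_add h1 h1).trans ?_
    rw [← ENNReal.ofReal_add (by positivity) (by positivity)]
    apply ENNReal.ofReal_le_ofReal
    apply le_of_eq; ring
  rw [measureReal_def]
  exact ENNReal.toReal_le_of_le_ofReal (by positivity) h4

lemma med_lt : med mu0 < 4 / 5 * Real.log 2 := by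
  obtain ⟨hm, hm2⟩ := med_spec mu0_law
  rw [mu0_real_Ioi hm.le] at hm2
  have h1 : -med mu0 - med mu0 ^ 2 / 2 = - Real.log 2 := by
    have h2 := congrArg Real.log hm2
    unfold G0 at h2
    rw [Real.log_exp] at h2
    rw [h2, one_div, Real.log_inv]
  have hL := Real.log_two_gt_d9
  by_contra hcon
  push Not at hcon
  nlinarith

theorem median_example : ∀ z > 0, ratio mu0 z < 2 * Real.log 2 * z / med mu0 := by
  intro z hz
  obtain ⟨hm, -⟩ := med_spec mu0_law
  refine lt_of_le_of_lt (ratio_le hz) ?_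
  rw [lt_div_iff₀ hm]
  have := med_lt
  nlinarith

lemma mu0_mean : Integrable (fun x => x) mu0 ∧ ∫ x, x ∂mu0 ≤ 2 / 3 * Real.exp (1 / 8) := by
  have hg : Measurable (fun x : ℝ => ENNReal.ofReal ((1 + x) * G0 x)) := by
    have : Continuous (fun x : ℝ => (1 + x) * G0 x) := by
      have := G0_cont
      fun_prop
    exact this.measurable.ennreal_ofReal
  -- comparison function
  set H : ℝ → ℝ := fun x => -(x * G0 x) - 2 / 3 * Real.exp (1 / 8) * Real.exp (-(3 / 2) * x) with hH
  have hder : ∀ x ∈ Ici (0 : ℝ), HasDerivAt H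
      (x * ((1 + x) * G0 x) + (Real.exp (1 / 8) * Real.exp (-(3 / 2) * x) - G0 x)) x := by
    intro x _
    have h1 := ((hasDerivAt_id x).mul (G0_deriv x)).neg
    have h2 : HasDerivAt (fun x : ℝ => Real.exp (-(3 / 2) * x))
        (Real.exp (-(3 / 2) * x) * (-(3 / 2))) x := by
      have := ((hasDerivAt_id x).const_mul (-(3 / 2))).exp
      refine this.congr_deriv ?_
      simp
    refine (h1.sub (h2.const_mul (2 / 3 * Real.exp (1 / 8)))).congr_deriv ?_
    simp only [id]
    ring
  have hcmp : ∀ x : ℝ, G0 x ≤ Real.exp (1 / 8) * Real.exp (-(3 / 2) * x) := by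
    intro x
    rw [← Real.exp_add]
    unfold G0
    apply Real.exp_le_exp.mpr
    nlinarith [sq_nonneg (x - 1 / 2)]
  have hnn : ∀ x ∈ Ioi (0 : ℝ), 0 ≤
      (x * ((1 + x) * G0 x) + (Real.exp (1 / 8) * Real.exp (-(3 / 2) * x) - G0 x)) := by
    intro x hx
    have h0 : 0 < x := hx
    have h1 := hcmp x
    have := G0_pos x
    have : 0 ≤ x * ((1 + x) * G0 x) := by positivity
    linarith
  have hlim : Tendsto H atTop (𝓝 0) := by
    have h1 : Tendsto (fun x : ℝ => x * G0 x) atTop (𝓝 0) := by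
      have h2 := Real.tendsto_pow_mul_exp_neg_atTop_nhds_zero 1
      refine squeeze_zero' ?_ ?_ h2
      · filter_upwards [eventually_ge_atTop 0] with x hx
        have := G0_pos x
        positivity
      · filter_upwards [eventually_ge_atTop 0] with x hx
        rw [pow_one]
        apply mul_le_mul_of_nonneg_left _ hx
        unfold G0
        apply Real.exp_le_exp.mpr
        nlinarith [sq_nonneg x]
    have h2 : Tendsto (fun x : ℝ => Real.exp (-(3 / 2) * x)) atTop (𝓝 0) := by
      apply Real.tendsto_exp_atBot.comp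
      apply Tendsto.const_mul_atTop_of_neg (by norm_num) tendsto_id
    have := h1.neg.sub (h2.const_mul (2 / 3 * Real.exp (1 / 8)))
    simpa [hH] using this
  have hint := integrableOn_Ioi_deriv_of_nonneg' hder hnn hlim
  have hval := integral_Ioi_of_hasDerivAt_of_nonneg' hder hnn hlim
  have hH0 : H 0 = - (2 / 3 * Real.exp (1 / 8)) := by simp [hH]
  rw [hH0] at hval
  have hint2 : IntegrableOn (fun x => x * ((1 + x) * G0 x)) (Ioi 0) := by
    refine Integrable.mono' hint ?_ ?_
    · have := G0_cont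
      exact Continuous.aestronglyMeasurable (by fun_prop)
    · filter_upwards [ae_restrict_mem measurableSet_Ioi] with x hx
      have h0 : 0 < x := hx
      have h1 := hcmp x
      have := G0_pos x
      have : 0 ≤ x * ((1 + x) * G0 x) := by positivity
      rw [Real.norm_of_nonneg this]
      linarith
  have hle : ∫ x in Ioi (0 : ℝ), x * ((1 + x) * G0 x) ≤ 2 / 3 * Real.exp (1 / 8) := by
    have h1 : ∫ x in Ioi (0 : ℝ), x * ((1 + x) * G0 x) ≤ ∫ x in Ioi (0 : ℝ),
        (x * ((1 + x) * G0 x) + (Real.exp (1 / 8) * Real.exp (-(3 / 2) * x) - G0 x)) := by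
      apply integral_mono hint2 hint
      intro x
      have := hcmp x
      simp only
      linarith
    rw [hval] at h1
    linarith
  have hfin : ∀ᵐ x ∂(volume.restrict (Ioi (0 : ℝ))), ENNReal.ofReal ((1 + x) * G0 x) < ⊤ :=
    Eventually.of_forall fun x => ENNReal.ofReal_lt_top
  have hcongr : ∀ x ∈ Ioi (0 : ℝ), (ENNReal.ofReal ((1 + x) * G0 x)).toReal • x
      = x * ((1 + x) * G0 x) := by
    intro x hx
    have h0 : 0 < x := hx
    have := G0_pos x
    rw [ENNReal.toReal_ofReal (by positivity), smul_eq_mul, mul_comm]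
  constructor
  · unfold mu0
    rw [integrable_withDensity_iff_integrable_smul' hg hfin]
    exact (integrableOn_congr_fun hcongr measurableSet_Ioi).mpr hint2
  · unfold mu0
    rw [integral_withDensity_eq_integral_toReal_smul hg hfin]
    rw [setIntegral_congr_fun measurableSet_Ioi hcongr]
    exact hle

lemma mean_lt : ∫ x, x ∂mu0 < 4 / 5 := by
  refine lt_of_le_of_lt mu0_mean.2 ?_
  have h1 : Real.exp (1 / 8) < 6 / 5 := by
    have h2 : Real.exp 1 < (6 / 5) ^ 8 := by
      have := Real.exp_one_lt_d9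
      refine this.trans ?_
      norm_num
    have h3 : Real.exp (1 / 8) ^ 8 = Real.exp 1 := by
      rw [← Real.exp_nat_mul]; norm_num
    rw [← h3] at h2
    exact lt_of_pow_lt_pow_left₀ 8 (by norm_num) h2
  linarith

theorem mean_example : ∀ z > 0, ratio mu0 z < 2 * z / ∫ x, x ∂mu0 := by
  intro z hz
  have hpos : 0 < ∫ x, x ∂mu0 := by
    have h1 := mean_lower_bound mu0_law mu0_mean.1
    obtain ⟨hm, -⟩ := med_spec mu0_law
    linarith
  refine lt_of_le_of_lt (ratio_le hz) ?_
  rw [lt_div_iff₀ hpos]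
  have := mean_lt
  nlinarith

end Pool.Agent.Q212.TailRatio
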