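import Pool.Agent.Q212.Coin

/-!
# A two-coin pattern race with several local extrema
-/

namespace Pool.Agent.Q212.TwoCoin

open MeasureTheory ProbabilityTheory Set Filter Topology
open scoped ENNReal
open Pool.Agent.Q212.Coin

/-- Winning probability of the word `T₁` (tossed with the first coin) against the word `T₂` (tossed
with the second coin), ties being broken by a fair coin. -/
noncomputable def W (T₁ T₂ : List Bool) (p : ℝ) : ℝ :=
  ((tosses p).prod (tosses p)).real {q | tau T₁ q.1 < tau T₂ q.2} +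
    1 / 2 * ((tosses p).prod (tosses p)).real {q | tau T₁ q.1 = tau T₂ q.2}

lemma tau_eq_iff (T : List Bool) (ω : ℕ → Bool) (n : ℕ) :
    tau T ω = ((n + 1 : ℕ) : ℕ∞) ↔ ω ∈ Surv T n \ Surv T (n + 1) := by
  rw [Set.mem_sdiff, ← lt_tau_iff, ← lt_tau_iff]
  constructor
  · intro h
    rw [h]
    exact ⟨by exact_mod_cast Nat.lt_succ_self n, lt_irrefl _⟩
  · rintro ⟨h1, h2⟩
    push Not at h2
    apply le_antisymm h2
    have := Order.add_one_le_of_lt h1
    exact_mod_cast this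

lemma tau_ne_zero {T : List Bool} (hT : 0 < T.length) (ω : ℕ → Bool) : tau T ω ≠ 0 := by
  have : ((0 : ℕ) : ℕ∞) < tau T ω := by
    rw [lt_tau_iff, surv_short T hT]; trivial
  intro h
  rw [h] at this
  exact absurd this (by simp)

lemma toReal_tsum_union (M : Measure ((ℕ → Bool) × (ℕ → Bool))) [IsProbabilityMeasure M]
    (E : ℕ → Set ((ℕ → Bool) × (ℕ → Bool))) (hd : Pairwise (Function.onFun Disjoint E))
    (hm : ∀ n, MeasurableSet (E n)) : M.real (⋃ n, E n) = ∑' n, M.real (E n) := by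
  rw [measureReal_def, measure_iUnion hd hm, ENNReal.tsum_toReal_eq (fun n => measure_ne_top _ _)]
  rfl

lemma prob_diff (p : ℝ) (T : List Bool) (n : ℕ) :
    (tosses p).real (Surv T n \ Surv T (n + 1)) = sv p T n - sv p T (n + 1) := by
  rw [measureReal_sdiff (surv_anti T (Nat.le_succ n)) (dep_surv T _).measurable]
  rfl

lemma surv_diff_disj (T : List Bool) {n m : ℕ} (h : n ≠ m) :
    Disjoint (Surv T n \ Surv T (n + 1)) (Surv T m \ Surv T (m + 1)) := by
  rw [Set.disjoint_left]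
  intro ω h1 h2
  rw [← tau_eq_iff] at h1 h2
  have := h1.symm.trans h2
  apply h
  have h3 : n + 1 = m + 1 := by exact_mod_cast this
  omega

lemma W_series (p : ℝ) {T₁ T₂ : List Bool} (h1 : 0 < T₁.length)
    (hlim : Tendsto (sv p T₁) atTop (𝓝 0)) :
    W T₁ T₂ p = ∑' n, (sv p T₁ n - sv p T₁ (n + 1)) * sv p T₂ (n + 1) +
      1 / 2 * ∑' n, (sv p T₁ n - sv p T₁ (n + 1)) * (sv p T₂ n - sv p T₂ (n + 1)) := by
  set M := (tosses p).prod (tosses p) with hM
  have hlt : {q : (ℕ → Bool) × (ℕ → Bool) | tau T₁ q.1 < tau T₂ q.2}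
      = ⋃ n, (Surv T₁ n \ Surv T₁ (n + 1)) ×ˢ Surv T₂ (n + 1) := by
    ext q
    simp only [mem_ofPred_eq, mem_iUnion, mem_prod]
    constructor
    · intro h
      have hne : tau T₁ q.1 ≠ ⊤ := ne_top_of_lt h
      obtain ⟨k, hk⟩ := ENat.ne_top_iff_exists.mp hne
      rcases k with _ | n
      · exact absurd hk.symm (tau_ne_zero h1 q.1)
      · refine ⟨n, (tau_eq_iff _ _ _).mp hk.symm, ?_⟩
        rw [← lt_tau_iff]
        rw [← hk] at h
        exact h
    · rintro ⟨n, h3, h4⟩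
      rw [← tau_eq_iff] at h3
      rw [← lt_tau_iff] at h4
      rw [h3]; exact h4
  have heq : {q : (ℕ → Bool) × (ℕ → Bool) | tau T₁ q.1 = tau T₂ q.2}
      = (⋃ n, (Surv T₁ n \ Surv T₁ (n + 1)) ×ˢ (Surv T₂ n \ Surv T₂ (n + 1))) ∪
        {q | tau T₁ q.1 = ⊤ ∧ tau T₂ q.2 = ⊤} := by
    ext q
    simp only [mem_ofPred_eq, mem_iUnion, mem_prod, mem_union]
    constructor
    · intro h
      by_cases hne : tau T₁ q.1 = ⊤
      · right; exact ⟨hne, h ▸ hne⟩
      · left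
        obtain ⟨k, hk⟩ := ENat.ne_top_iff_exists.mp hne
        rcases k with _ | n
        · exact absurd hk.symm (tau_ne_zero h1 q.1)
        · exact ⟨n, (tau_eq_iff _ _ _).mp hk.symm, (tau_eq_iff _ _ _).mp (h ▸ hk.symm)⟩
    · rintro (⟨n, h3, h4⟩ | ⟨h3, h4⟩)
      · rw [← tau_eq_iff] at h3 h4
        rw [h3, h4]
      · rw [h3, h4]
  have hms : ∀ T n, MeasurableSet (Surv T n) := fun T n => (dep_surv T n).measurable
  have hnull : M {q | tau T₁ q.1 = ⊤ ∧ tau T₂ q.2 = ⊤} = 0 := by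
    have hle : ∀ n, M {q | tau T₁ q.1 = ⊤ ∧ tau T₂ q.2 = ⊤} ≤ ENNReal.ofReal (sv p T₁ n) := by
      intro n
      have hsub : {q : (ℕ → Bool) × (ℕ → Bool) | tau T₁ q.1 = ⊤ ∧ tau T₂ q.2 = ⊤}
          ⊆ Surv T₁ n ×ˢ univ := by
        rintro q ⟨h3, _⟩
        refine ⟨?_, trivial⟩
        rw [← lt_tau_iff, h3]
        exact ENat.natCast_lt_top n
      refine (measure_mono hsub).trans ?_
      rw [hM, Measure.prod_prod, measure_univ, mul_one]
      unfold sv
      rw [measureReal_def, ENNReal.ofReal_toReal (measure_ne_top _ _)]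
    have hl : Tendsto (fun n => ENNReal.ofReal (sv p T₁ n)) atTop (𝓝 0) := by
      have := ENNReal.tendsto_ofReal hlim
      simpa using this
    exact le_antisymm (ge_of_tendsto' hl hle) zero_le
  have hdisj1 : Pairwise (Function.onFun Disjoint
      fun n => (Surv T₁ n \ Surv T₁ (n + 1)) ×ˢ Surv T₂ (n + 1)) := by
    intro n m hnm
    exact Set.disjoint_prod.mpr (Or.inl (surv_diff_disj T₁ hnm))
  have hdisj2 : Pairwise (Function.onFun Disjoint
      fun n => (Surv T₁ n \ Surv T₁ (n + 1)) ×ˢ (Surv T₂ n \ Surv T₂ (n + 1))) := by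
    intro n m hnm
    exact Set.disjoint_prod.mpr (Or.inl (surv_diff_disj T₁ hnm))
  have hprod : ∀ A B : Set (ℕ → Bool), M.real (A ×ˢ B) = (tosses p).real A * (tosses p).real B := by
    intro A B
    rw [measureReal_def, hM, Measure.prod_prod, ENNReal.toReal_mul]; rfl
  have e1 : M.real {q | tau T₁ q.1 < tau T₂ q.2}
      = ∑' n, (sv p T₁ n - sv p T₁ (n + 1)) * sv p T₂ (n + 1) := by
    rw [hlt, toReal_tsum_union M _ hdisj1
      (fun n => ((hms _ _).diff (hms _ _)).prod (hms _ _))]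
    congr 1; ext n
    rw [hprod, prob_diff]; rfl
  have e2 : M.real {q | tau T₁ q.1 = tau T₂ q.2}
      = ∑' n, (sv p T₁ n - sv p T₁ (n + 1)) * (sv p T₂ n - sv p T₂ (n + 1)) := by
    rw [heq]
    have h3 : M.real ((⋃ n, (Surv T₁ n \ Surv T₁ (n + 1)) ×ˢ (Surv T₂ n \ Surv T₂ (n + 1))) ∪
        {q | tau T₁ q.1 = ⊤ ∧ tau T₂ q.2 = ⊤})
        = M.real (⋃ n, (Surv T₁ n \ Surv T₁ (n + 1)) ×ˢ (Surv T₂ n \ Surv T₂ (n + 1))) := by
      rw [measureReal_def, measureReal_def]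
      congr 1
      exact le_antisymm ((measure_union_le _ _).trans (by rw [hnull, add_zero]))
        (measure_mono subset_union_left)
    rw [h3, toReal_tsum_union M _ hdisj2
      (fun n => ((hms _ _).diff (hms _ _)).prod ((hms _ _).diff (hms _ _)))]
    congr 1; ext n
    rw [hprod, prob_diff, prob_diff]
  unfold W
  rw [← hM, e1, e2]

/-- the word `HT` -/
def w1 : List Bool := [true, false]

/-- the word `HHTT` -/
def w2 : List Bool := [true, true, false, false]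

lemma w1_no : NoOverlap w1 := by
  intro k hk1 hk2
  have : k = 1 := by simp [w1] at hk2; omega
  subst this
  exact ⟨0, by simp [w1], by simp [w1]⟩

lemma w2_no : NoOverlap w2 := by
  intro k hk1 hk2
  have : k < 4 := hk2
  interval_cases k
  · exact ⟨1, by simp [w2], by simp [w2]⟩
  · exact ⟨0, by simp [w2], by simp [w2]⟩
  · exact ⟨0, by simp [w2], by simp [w2]⟩

lemma wts_w1 {p : ℝ} (h0 : 0 < p) (h1 : p < 1) : wts p w1 = p * (1 - p) := by
  simp [wts, w1, wt, clamp_eq h0.le h1.le]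

lemma wts_w2 {p : ℝ} (h0 : 0 < p) (h1 : p < 1) : wts p w2 = p ^ 2 * (1 - p) ^ 2 := by
  simp [wts, w2, wt, clamp_eq h0.le h1.le]
  ring

lemma sv_w1 {p : ℝ} (h0 : 0 < p) (h1 : p < 1) (n : ℕ) :
    (2 * p - 1) * sv p w1 n = p ^ (n + 1) - (1 - p) ^ (n + 1) := by
  induction n using Nat.strong_induction_on with
  | _ n ih =>
    match n with
    | 0 => rw [sv_short p w1 (by simp [w1])]; ring
    | 1 => rw [sv_short p w1 (by simp [w1])]; ring
    | n + 2 =>
      have hr := sv_rec p w1_no (by simp [w1]) n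
      rw [wts_w1 h0 h1] at hr
      have e1 : n + w1.length - 1 = n + 1 := by simp [w1]
      have e2 : n + w1.length = n + 2 := by simp [w1]
      rw [e1, e2] at hr
      have i1 := ih (n + 1) (by omega)
      have i2 := ih n (by omega)
      have : (2 * p - 1) * sv p w1 (n + 2) = (2 * p - 1) * sv p w1 (n + 1)
          - p * (1 - p) * ((2 * p - 1) * sv p w1 n) := by
        linear_combination (-(2 * p - 1)) * hr
      rw [this, i1, i2]
      ring

lemma sv_w1_lim {p : ℝ} (h0 : 0 < p) (h1 : p < 1) (hp : p ≠ 1 / 2) :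
    Tendsto (sv p w1) atTop (𝓝 0) := by
  have hne : 2 * p - 1 ≠ 0 := by intro h; apply hp; linarith
  have h2 : sv p w1 = fun n => (p ^ (n + 1) - (1 - p) ^ (n + 1)) / (2 * p - 1) := by
    ext n
    rw [eq_div_iff hne, mul_comm]
    exact sv_w1 h0 h1 n
  rw [h2]
  have h3 : Tendsto (fun n : ℕ => p ^ (n + 1)) atTop (𝓝 0) :=
    (tendsto_add_atTop_iff_nat 1).mpr (tendsto_pow_atTop_nhds_zero_of_lt_one h0.le h1)
  have h4 : Tendsto (fun n : ℕ => (1 - p) ^ (n + 1)) atTop (𝓝 0) :=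
    (tendsto_add_atTop_iff_nat 1).mpr
      (tendsto_pow_atTop_nhds_zero_of_lt_one (by linarith) (by linarith))
  have := (h3.sub h4).div_const (2 * p - 1)
  simpa using this

/-- the explicit rational function -/
noncomputable def R (p : ℝ) : ℝ :=
  1 / 2 + ((1 - p) * (1 + p) / (1 - p + p ^ 2 * (1 - p) ^ 2 * p ^ 4)
    - p * (2 - p) / (p + p ^ 2 * (1 - p) ^ 2 * (1 - p) ^ 4)) / (2 * (2 * p - 1))

lemma W_eq {p : ℝ} (h0 : 0 < p) (h1 : p < 1) (hp : p ≠ 1 / 2) : W w1 w2 p = R p := by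
  have hne : 2 * p - 1 ≠ 0 := by intro h; apply hp; linarith
  have hq0 : 0 < 1 - p := by linarith
  have hq1 : 1 - p < 1 := by linarith
  rw [W_series p (by simp [w1]) (sv_w1_lim h0 h1 hp)]
  have hd : ∀ n, sv p w1 n - sv p w1 (n + 1)
      = (p ^ (n + 1) * (1 - p) - (1 - p) ^ (n + 1) * p) / (2 * p - 1) := by
    intro n
    rw [eq_div_iff hne]
    have i1 := sv_w1 h0 h1 n
    have i2 := sv_w1 h0 h1 (n + 1)
    calc (sv p w1 n - sv p w1 (n + 1)) * (2 * p - 1)
        = (2 * p - 1) * sv p w1 n - (2 * p - 1) * sv p w1 (n + 1) := by ring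
      _ = _ := by rw [i1, i2]; ring
  set b := sv p w2 with hb
  have key : ∀ z, 0 < z → z < 1 → HasSum (fun n => z ^ (n + 1) * b n) (z * gf p w2 z) ∧
      HasSum (fun n => z ^ (n + 1) * b (n + 1)) (gf p w2 z - 1) := by
    intro z hz0 hz1
    have hs := gf_summable p w2 hz0.le hz1
    have hh : HasSum (fun n => z ^ n * b n) (gf p w2 z) := hs.hasSum
    constructor
    · refine (hh.mul_left z).congr_fun ?_
      intro n; rw [pow_succ]; ring
    · refine (hasSum_nat_add_iff (f := fun n => z ^ n * b n) 1).mpr ?_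
      simp only [Finset.range_one, Finset.sum_singleton, pow_zero, one_mul, hb]
      rw [sv_short p w2 (by simp [w2])]
      simpa using hh
  obtain ⟨p1, p2⟩ := key p h0 h1
  obtain ⟨q1, q2⟩ := key (1 - p) hq0 hq1
  have s1 : HasSum (fun n => (sv p w1 n - sv p w1 (n + 1)) * b (n + 1))
      (((1 - p) * (gf p w2 p - 1) - p * (gf p w2 (1 - p) - 1)) / (2 * p - 1)) := by
    refine (((p2.mul_left (1 - p)).sub (q2.mul_left p)).div_const (2 * p - 1)).congr_fun ?_
    intro n; rw [hd]; ring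
  have s2 : HasSum (fun n => (sv p w1 n - sv p w1 (n + 1)) * (b n - b (n + 1)))
      (((1 - p) * (p * gf p w2 p - (gf p w2 p - 1)) - p * ((1 - p) * gf p w2 (1 - p)
        - (gf p w2 (1 - p) - 1))) / (2 * p - 1)) := by
    refine ((((p1.sub p2).mul_left (1 - p)).sub ((q1.sub q2).mul_left p)).div_const
      (2 * p - 1)).congr_fun ?_
    intro n; rw [hd]; ring
  rw [s1.tsum_eq, s2.tsum_eq]
  have g1 := gf_eq p w2_no (by simp [w2]) h0.le h1
  have g2 := gf_eq p w2_no (by simp [w2]) hq0.le hq1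
  rw [wts_w2 h0 h1, show w2.length = 4 from rfl] at g1 g2
  have d1 : 0 < 1 - p + p ^ 2 * (1 - p) ^ 2 * p ^ 4 := by positivity
  have d2 : 0 < p + p ^ 2 * (1 - p) ^ 2 * (1 - p) ^ 4 := by positivity
  have d2' : 1 - (1 - p) + p ^ 2 * (1 - p) ^ 2 * (1 - p) ^ 4
      = p + p ^ 2 * (1 - p) ^ 2 * (1 - p) ^ 4 := by ring
  rw [d2'] at g2
  have g1' : gf p w2 p = 1 / (1 - p + p ^ 2 * (1 - p) ^ 2 * p ^ 4) := by
    rw [eq_div_iff d1.ne']; exact g1
  have g2' : gf p w2 (1 - p) = 1 / (p + p ^ 2 * (1 - p) ^ 2 * (1 - p) ^ 4) := by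
    rw [eq_div_iff d2.ne']; exact g2
  have hfin : ∀ G H : ℝ, ((1 - p) * (G - 1) - p * (H - 1)) / (2 * p - 1) +
      1 / 2 * (((1 - p) * (p * G - (G - 1)) - p * ((1 - p) * H - (H - 1))) / (2 * p - 1))
      = 1 / 2 + ((1 - p) * (1 + p) * G - p * (2 - p) * H) / (2 * (2 * p - 1)) := by
    intro G H
    have h : (2 * p - 1)⁻¹ * (2 * p - 1) = 1 := inv_mul_cancel₀ hne
    rw [div_mul_eq_div_div_swap ((1 - p) * (1 + p) * G - p * (2 - p) * H)]
    linear_combination (1 / 2) * h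
  unfold R
  rw [hfin, g1', g2', mul_one_div, mul_one_div]

lemma R_cont {p : ℝ} (h0 : 0 < p) (h1 : p < 1) (hp : p ≠ 1 / 2) : ContinuousAt R p := by
  have hne : 2 * (2 * p - 1) ≠ 0 := by intro h; apply hp; linarith
  have hq : 0 < 1 - p := by linarith
  have d1 : 1 - p + p ^ 2 * (1 - p) ^ 2 * p ^ 4 ≠ 0 := by positivity
  have d2 : p + p ^ 2 * (1 - p) ^ 2 * (1 - p) ^ 4 ≠ 0 := by positivity
  unfold R
  fun_prop (disch := assumption)

lemma exists_min {a b c : ℝ} (hab : ∀ x ∈ Icc a b, 0 < x ∧ x < 1 ∧ x ≠ 1 / 2) (hc : c ∈ Icc a b)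
    (h1 : R c < R a) (h2 : R c < R b) : ∃ x ∈ Ioo a b, IsLocalMin (W w1 w2) x := by
  have hcont : ContinuousOn (W w1 w2) (Icc a b) := by
    have : EqOn (W w1 w2) R (Icc a b) := fun x hx =>
      W_eq (hab x hx).1 (hab x hx).2.1 (hab x hx).2.2
    rw [continuousOn_congr this]
    exact fun x hx => (R_cont (hab x hx).1 (hab x hx).2.1 (hab x hx).2.2).continuousWithinAt
  have hW : ∀ x ∈ Icc a b, W w1 w2 x = R x := fun x hx =>
    W_eq (hab x hx).1 (hab x hx).2.1 (hab x hx).2.2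
  have hab' : a ≤ b := hc.1.trans hc.2
  obtain ⟨x, hx, hmin⟩ := isCompact_Icc.exists_isMinOn ⟨c, hc⟩ hcont
  have hxc : W w1 w2 x ≤ W w1 w2 c := hmin hc
  rw [hW c hc, hW x hx] at hxc
  have hxa : x ≠ a := by rintro rfl; linarith
  have hxb : x ≠ b := by rintro rfl; linarith
  have hxI : x ∈ Ioo a b := ⟨lt_of_le_of_ne hx.1 (Ne.symm hxa), lt_of_le_of_ne hx.2 hxb⟩
  exact ⟨x, hxI, hmin.isLocalMin (Icc_mem_nhds hxI.1 hxI.2)⟩

theorem two_minima : ∃ x y : ℝ, 0 < x ∧ x < 1 / 2 ∧ 1 / 2 < y ∧ y < 1 ∧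
    IsLocalMin (W w1 w2) x ∧ IsLocalMin (W w1 w2) y := by
  obtain ⟨x, hx, hxm⟩ := exists_min (a := 1 / 20) (b := 9 / 20) (c := 1 / 5)
    (fun x hx => ⟨by linarith [hx.1], by linarith [hx.2], by intro h; linarith [hx.2]⟩)
    ⟨by norm_num, by norm_num⟩ (by unfold R; norm_num) (by unfold R; norm_num)
  obtain ⟨y, hy, hym⟩ := exists_min (a := 11 / 20) (b := 19 / 20) (c := 4 / 5)
    (fun x hx => ⟨by linarith [hx.1], by linarith [hx.2], by intro h; linarith [hx.1]⟩)
    ⟨by norm_num, by norm_num⟩ (by unfold R; norm_num) (by unfold R; norm_num)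
  exact ⟨x, y, by linarith [hx.1], by linarith [hx.2], by linarith [hy.1], by linarith [hy.2],
    hxm, hym⟩

theorem non_constant : W w1 w2 (1 / 5) ≠ W w1 w2 (1 / 20) := by
  rw [W_eq (by norm_num) (by norm_num) (by norm_num), W_eq (by norm_num) (by norm_num) (by norm_num)]
  unfold R
  norm_num

end Pool.Agent.Q212.TwoCoin
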