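import Mathlib

/-! Interacting urns with full interaction: a strong reinforcement sequence without monopoly. -/

set_option autoImplicit false
open MeasureTheory Filter Topology Set Finset

namespace Pool.Agent.Q212.Urn

/-- `x₀ i` plus the number of times `k < n` at which urn `i` receives a ball of colour `col`
(`true` = black, `false` = red). -/
def comp {d : ℕ} (x₀ : Fin d → ℕ) (col : Bool) (h : ℕ → Fin d → Bool) (n : ℕ) (i : Fin d) : ℕ :=
  x₀ i + ((Finset.range n).filter fun k => h k i = col).card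

/-- The total number of balls of the colour `col` in all urns. -/
def tot {d : ℕ} (x₀ : Fin d → ℕ) (col : Bool) (h : ℕ → Fin d → Bool) (n : ℕ) : ℕ :=
  ∑ i, comp x₀ col h n i

/-- The probability of a black ball when there are `B` black and `R` red balls in total. -/
noncomputable def pB (W : ℕ → ℝ) (B R : ℕ) : ℝ := W B / (W B + W R)

/-- `c n i = true` if urn `i` receives a black ball in the step from time `n` to time `n + 1`, and
`false` if it receives a red one. Given the history up to time `n`, the urns receive a black ball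
independently with the probability `W(B*) / (W(B*) + W(R*))`. -/
structure IsUrn {Ω : Type} [MeasurableSpace Ω] (d : ℕ) (W : ℕ → ℝ) (b₀ r₀ : Fin d → ℕ)
    (P : Measure Ω) (c : ℕ → Ω → Fin d → Bool) : Prop where
  prob : IsProbabilityMeasure P
  meas : ∀ n, Measurable (c n)
  law : ∀ (n : ℕ) (h : ℕ → Fin d → Bool),
    P.real {ω | ∀ k ≤ n, c k ω = h k} = P.real {ω | ∀ k < n, c k ω = h k} *
      ∏ i, (if h n i then pB W (tot b₀ true h n) (tot r₀ false h n)
        else 1 - pB W (tot b₀ true h n) (tot r₀ false h n))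

/-- Monopoly: from some time on no red ball is added, or from some time on no black ball. -/
def Monopoly {Ω : Type} {d : ℕ} (b₀ r₀ : Fin d → ℕ) (c : ℕ → Ω → Fin d → Bool) : Set Ω :=
  {ω | (∃ N, ∀ n ≥ N, tot r₀ false (fun k => c k ω) (n + 1) = tot r₀ false (fun k => c k ω) n) ∨
    ∃ N, ∀ n ≥ N, tot b₀ true (fun k => c k ω) (n + 1) = tot b₀ true (fun k => c k ω) n}

theorem tot_succ {d : ℕ} (x₀ : Fin d → ℕ) (col : Bool) (h : ℕ → Fin d → Bool) (n : ℕ) :
    tot x₀ col h (n + 1) = tot x₀ col h n + (univ.filter fun i => h n i = col).card := by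
  unfold tot comp
  rw [Finset.card_filter, ← Finset.sum_add_distrib]
  refine Finset.sum_congr rfl fun i _ => ?_
  rw [Finset.range_add_one, Finset.filter_insert]
  by_cases hh : h n i = col
  · rw [if_pos hh, if_pos hh, Finset.card_insert_of_notMem (by simp)]
    ring
  · rw [if_neg hh, if_neg hh]
    ring

theorem tot_congr {d : ℕ} (x₀ : Fin d → ℕ) (col : Bool) {h h' : ℕ → Fin d → Bool} {n : ℕ}
    (hh : ∀ k < n, h k = h' k) : tot x₀ col h n = tot x₀ col h' n := by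
  unfold tot comp
  refine Finset.sum_congr rfl fun i _ => ?_
  congr 2
  refine Finset.filter_congr fun k hk => ?_
  rw [hh k (Finset.mem_range.1 hk)]

theorem tot_zero {d : ℕ} (x₀ : Fin d → ℕ) (col : Bool) (h : ℕ → Fin d → Bool) :
    tot x₀ col h 0 = ∑ i, x₀ i := by
  unfold tot comp
  simp

/-- the transition operator on functions of the totals -/
noncomputable def T (W : ℕ → ℝ) (f : ℕ → ℕ → ℝ) (B R : ℕ) : ℝ :=
  ∑ y : Fin 5 → Bool, (∏ i, if y i then pB W B R else 1 - pB W B R) *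
    f (B + (univ.filter fun i => y i = true).card) (R + (univ.filter fun i => y i = false).card)

theorem T_eq (W : ℕ → ℝ) (f : ℕ → ℕ → ℝ) (B R : ℕ) :
    T W f B R = ∑ K ∈ Finset.range 6, (Nat.choose 5 K : ℝ) * (pB W B R ^ K *
      (1 - pB W B R) ^ (5 - K) * f (B + K) (R + (5 - K))) := by
  have h1 : ∀ y : Fin 5 → Bool, (∏ i, if y i then pB W B R else 1 - pB W B R) =
      pB W B R ^ (univ.filter fun i => y i = true).card *
      (1 - pB W B R) ^ (univ.filter fun i => y i = false).card := by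
    intro y
    rw [Finset.prod_ite, Finset.prod_const, Finset.prod_const]
    congr 3
    ext i
    simp
  have h2 : ∀ y : Fin 5 → Bool, (univ.filter fun i => y i = false).card =
      5 - (univ.filter fun i => y i = true).card := by
    intro y
    have h3 := Finset.card_filter_add_card_filter_not (s := (univ : Finset (Fin 5)))
      (fun i => y i = true)
    have h4 : (univ.filter fun i => ¬ y i = true) = univ.filter fun i => y i = false := by
      ext i
      simp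
    rw [h4, Finset.card_univ, Fintype.card_fin] at h3
    omega
  set g : ℕ → ℝ := fun K => pB W B R ^ K * (1 - pB W B R) ^ (5 - K) * f (B + K) (R + (5 - K))
    with hg
  have h3 : T W f B R = ∑ y : Fin 5 → Bool, g (univ.filter fun i => y i = true).card := by
    unfold T
    refine Finset.sum_congr rfl fun y _ => ?_
    rw [h1, h2, hg]
  have h4 : ∑ y : Fin 5 → Bool, g (univ.filter fun i => y i = true).card =
      ∑ s ∈ (univ : Finset (Fin 5)).powerset, g s.card := by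
    refine Finset.sum_bij' (fun y _ => univ.filter fun i => y i = true)
      (fun s _ => fun i => decide (i ∈ s)) ?_ ?_ ?_ ?_ ?_
    · intro y _; simp
    · intro s _; simp
    · intro y _; ext i; simp
    · intro s _; ext i; simp
    · intro y _; rfl
  rw [h3, h4, Finset.sum_powerset_apply_card]
  simp only [Finset.card_univ, Fintype.card_fin, nsmul_eq_mul]
  rfl

theorem T_expand (W : ℕ → ℝ) (f : ℕ → ℕ → ℝ) (B R : ℕ) {p q : ℝ} (hp : pB W B R = p)
    (hq : 1 - p = q) :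
    T W f B R = q ^ 5 * f B (R + 5) + 5 * (p * q ^ 4) * f (B + 1) (R + 4) +
      10 * (p ^ 2 * q ^ 3) * f (B + 2) (R + 3) + 10 * (p ^ 3 * q ^ 2) * f (B + 3) (R + 2) +
      5 * (p ^ 4 * q) * f (B + 4) (R + 1) + p ^ 5 * f (B + 5) R := by
  rw [T_eq, hp, hq]
  simp [Finset.sum_range_succ, Nat.choose]
  ring

theorem pB_mem {W : ℕ → ℝ} (hW : ∀ n, 0 ≤ W n) (B R : ℕ) : 0 ≤ pB W B R ∧ pB W B R ≤ 1 := by
  unfold pB
  have h1 := hW B
  have h2 := hW R
  constructor
  · positivity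
  · exact div_le_one_of_le₀ (by linarith) (by linarith)

/-- values in `[0, 1]` -/
def Unit (f : ℕ → ℕ → ℝ) : Prop := ∀ B R, 0 ≤ f B R ∧ f B R ≤ 1

theorem T_unit {W : ℕ → ℝ} (hW : ∀ n, 0 ≤ W n) {f : ℕ → ℕ → ℝ} (hf : Unit f) :
    Unit (T W f) := by
  intro B R
  obtain ⟨h0, h1⟩ := pB_mem hW B R
  set p := pB W B R with hp
  have hq0 : 0 ≤ 1 - p := by linarith
  rw [T_expand W f B R hp.symm rfl]
  have a := hf B (R + 5)
  have b := hf (B + 1) (R + 4)
  have c := hf (B + 2) (R + 3)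
  have d := hf (B + 3) (R + 2)
  have e := hf (B + 4) (R + 1)
  have g := hf (B + 5) R
  constructor
  · have := a.1; have := b.1; have := c.1; have := d.1; have := e.1; have := g.1
    positivity
  · have key : (1 - p) ^ 5 * 1 + 5 * (p * (1 - p) ^ 4) * 1 +
      10 * (p ^ 2 * (1 - p) ^ 3) * 1 + 10 * (p ^ 3 * (1 - p) ^ 2) * 1 +
      5 * (p ^ 4 * (1 - p)) * 1 + p ^ 5 * 1 = 1 := by ring
    refine le_of_le_of_eq ?_ key
    have := a.2; have := b.2; have := c.2; have := d.2; have := e.2; have := g.2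
    gcongr

/-- a forced step: black -/
theorem T_forceB {W : ℕ → ℝ} (hW : ∀ n, 0 ≤ W n) {f : ℕ → ℕ → ℝ} (hf : Unit f) {B R : ℕ} {η : ℝ}
    (h : 1 - pB W B R ≤ η) : T W f B R ≤ f (B + 5) R + 5 * η := by
  obtain ⟨h0, h1⟩ := pB_mem hW B R
  set p := pB W B R with hp
  have hq0 : 0 ≤ 1 - p := by linarith
  rw [T_expand W f B R hp.symm rfl]
  have a := hf B (R + 5)
  have b := hf (B + 1) (R + 4)
  have c := hf (B + 2) (R + 3)
  have d := hf (B + 3) (R + 2)
  have e := hf (B + 4) (R + 1)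
  have g := hf (B + 5) R
  have key : (1 - p) ^ 5 * 1 + 5 * (p * (1 - p) ^ 4) * 1 +
      10 * (p ^ 2 * (1 - p) ^ 3) * 1 + 10 * (p ^ 3 * (1 - p) ^ 2) * 1 +
      5 * (p ^ 4 * (1 - p)) * 1 = 1 - p ^ 5 := by ring
  have h2 : (1 - p) ^ 5 * f B (R + 5) + 5 * (p * (1 - p) ^ 4) * f (B + 1) (R + 4) +
      10 * (p ^ 2 * (1 - p) ^ 3) * f (B + 2) (R + 3) + 10 * (p ^ 3 * (1 - p) ^ 2) * f (B + 3) (R + 2) +
      5 * (p ^ 4 * (1 - p)) * f (B + 4) (R + 1) ≤ 1 - p ^ 5 := by
    refine le_of_le_of_eq ?_ key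
    have := a.2; have := b.2; have := c.2; have := d.2; have := e.2
    gcongr
  have h3 : 1 - p ^ 5 ≤ 5 * (1 - p) := by
    have h4 : 0 ≤ (1 - p) * (4 - p - p ^ 2 - p ^ 3 - p ^ 4) := by
      have : p ^ 2 ≤ 1 := pow_le_one₀ h0 h1
      have : p ^ 3 ≤ 1 := pow_le_one₀ h0 h1
      have : p ^ 4 ≤ 1 := pow_le_one₀ h0 h1
      exact mul_nonneg hq0 (by linarith)
    nlinarith
  have h4 : p ^ 5 * f (B + 5) R ≤ f (B + 5) R :=
    mul_le_of_le_one_left g.1 (pow_le_one₀ h0 h1)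
  linarith

/-- a forced step: red -/
theorem T_forceR {W : ℕ → ℝ} (hW : ∀ n, 0 ≤ W n) {f : ℕ → ℕ → ℝ} (hf : Unit f) {B R : ℕ} {η : ℝ}
    (h : pB W B R ≤ η) : T W f B R ≤ f B (R + 5) + 5 * η := by
  obtain ⟨h0, h1⟩ := pB_mem hW B R
  set p := pB W B R with hp
  have hq0 : 0 ≤ 1 - p := by linarith
  have hq1 : 1 - p ≤ 1 := by linarith
  rw [T_expand W f B R hp.symm rfl]
  have a := hf B (R + 5)
  have b := hf (B + 1) (R + 4)
  have c := hf (B + 2) (R + 3)
  have d := hf (B + 3) (R + 2)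
  have e := hf (B + 4) (R + 1)
  have g := hf (B + 5) R
  have key : 5 * (p * (1 - p) ^ 4) * 1 +
      10 * (p ^ 2 * (1 - p) ^ 3) * 1 + 10 * (p ^ 3 * (1 - p) ^ 2) * 1 +
      5 * (p ^ 4 * (1 - p)) * 1 + p ^ 5 * 1 = 1 - (1 - p) ^ 5 := by ring
  have h2 : 5 * (p * (1 - p) ^ 4) * f (B + 1) (R + 4) +
      10 * (p ^ 2 * (1 - p) ^ 3) * f (B + 2) (R + 3) + 10 * (p ^ 3 * (1 - p) ^ 2) * f (B + 3) (R + 2) +
      5 * (p ^ 4 * (1 - p)) * f (B + 4) (R + 1) + p ^ 5 * f (B + 5) R ≤ 1 - (1 - p) ^ 5 := by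
    refine le_of_le_of_eq ?_ key
    have := b.2; have := c.2; have := d.2; have := e.2; have := g.2
    gcongr
  have h3 : 1 - (1 - p) ^ 5 ≤ 5 * p := by
    set q := 1 - p with hq
    have e1 : p = 1 - q := by linarith
    rw [e1]
    have h4 : 0 ≤ (1 - q) * (4 - q - q ^ 2 - q ^ 3 - q ^ 4) := by
      have : q ^ 2 ≤ 1 := pow_le_one₀ hq0 hq1
      have : q ^ 3 ≤ 1 := pow_le_one₀ hq0 hq1
      have : q ^ 4 ≤ 1 := pow_le_one₀ hq0 hq1
      exact mul_nonneg (by linarith) (by linarith)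
    nlinarith
  have h4 : (1 - p) ^ 5 * f B (R + 5) ≤ f B (R + 5) :=
    mul_le_of_le_one_left a.1 (pow_le_one₀ hq0 hq1)
  linarith

/-- the reinforcement sequence -/
noncomputable def W (n : ℕ) : ℝ := (n : ℝ) ^ (2 + 2 * (n % 4))

theorem W_nonneg (n : ℕ) : 0 ≤ W n := by
  unfold W
  positivity

theorem W_pos {n : ℕ} (hn : 1 ≤ n) : 0 < W n := by
  unfold W
  have : (0 : ℝ) < n := by exact_mod_cast hn
  positivity

theorem W_strong : Summable fun n : ℕ => 1 / W (n + 1) := by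
  have h := (summable_nat_add_iff 1).2 (Real.summable_one_div_nat_pow.2 (by norm_num : 1 < 2))
  refine Summable.of_nonneg_of_le (fun n => ?_) (fun n => ?_) h
  · exact one_div_nonneg.2 (W_nonneg _)
  · unfold W
    have h1 : (1 : ℝ) ≤ ((n + 1 : ℕ) : ℝ) := by exact_mod_cast Nat.succ_le_succ (Nat.zero_le n)
    refine one_div_le_one_div_of_le (by positivity) ?_
    exact pow_le_pow_right₀ h1 (by omega)

/-- separation of the residue classes -/
theorem W_sep {a b N : ℕ} (hab : a % 4 < b % 4) (hN : 1 ≤ N) (h1 : 5 * a ≤ 8 * b)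
    (h2 : 2 * N ≤ 5 * b) : W a ≤ 105 / (N : ℝ) ^ 2 * W b := by
  have hNr : (1 : ℝ) ≤ N := by exact_mod_cast hN
  have hb1 : 1 ≤ b := by omega
  have hbr : (1 : ℝ) ≤ b := by exact_mod_cast hb1
  have h1r : (a : ℝ) ≤ 8 / 5 * b := by
    have : (5 : ℝ) * a ≤ 8 * b := by exact_mod_cast h1
    linarith
  have h2r : 2 / 5 * (N : ℝ) ≤ b := by
    have : (2 : ℝ) * N ≤ 5 * b := by exact_mod_cast h2
    linarith
  have ha3 : a % 4 ≤ 2 := by omega
  unfold W
  calc (a : ℝ) ^ (2 + 2 * (a % 4)) ≤ (8 / 5 * (b : ℝ)) ^ (2 + 2 * (a % 4)) := by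
        gcongr
    _ = (8 / 5 : ℝ) ^ (2 + 2 * (a % 4)) * (b : ℝ) ^ (2 + 2 * (a % 4)) := by rw [mul_pow]
    _ ≤ (8 / 5 : ℝ) ^ 6 * (b : ℝ) ^ (2 + 2 * (a % 4)) := by
        gcongr
        · norm_num
        · omega
    _ ≤ 105 / (N : ℝ) ^ 2 * ((b : ℝ) ^ 2 * (b : ℝ) ^ (2 + 2 * (a % 4))) := by
        have h3 : (4 / 25 : ℝ) * (N : ℝ) ^ 2 ≤ (b : ℝ) ^ 2 := by nlinarith
        rw [← mul_assoc]
        refine mul_le_mul_of_nonneg_right ?_ (by positivity)
        rw [div_mul_eq_mul_div, le_div_iff₀ (by positivity)]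
        nlinarith
    _ = 105 / (N : ℝ) ^ 2 * (b : ℝ) ^ (2 + (2 + 2 * (a % 4))) := by rw [← pow_add]
    _ ≤ 105 / (N : ℝ) ^ 2 * (b : ℝ) ^ (2 + 2 * (b % 4)) := by
        refine mul_le_mul_of_nonneg_left ?_ (by positivity)
        exact pow_le_pow_right₀ hbr (by omega)

theorem pB_small {B R N : ℕ} (hab : B % 4 < R % 4) (hN : 1 ≤ N) (h1 : 5 * B ≤ 8 * R)
    (h2 : 2 * N ≤ 5 * R) : pB W B R ≤ 105 / (N : ℝ) ^ 2 := by
  have h := W_sep hab hN h1 h2
  have hR : 0 < W R := W_pos (by omega)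
  have hB := W_nonneg B
  unfold pB
  rw [div_le_iff₀ (by linarith)]
  have : 0 ≤ 105 / (N : ℝ) ^ 2 * W B := by positivity
  nlinarith

theorem pB_large {B R N : ℕ} (hab : R % 4 < B % 4) (hN : 1 ≤ N) (h1 : 5 * R ≤ 8 * B)
    (h2 : 2 * N ≤ 5 * B) : 1 - pB W B R ≤ 105 / (N : ℝ) ^ 2 := by
  have h := W_sep hab hN h1 h2
  have hB : 0 < W B := W_pos (by omega)
  have hR := W_nonneg R
  have e : 1 - pB W B R = W R / (W B + W R) := by
    unfold pB
    field_simp
    ring
  rw [e, div_le_iff₀ (by linarith)]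
  have : 0 ≤ 105 / (N : ℝ) ^ 2 * W R := by positivity
  nlinarith

end Pool.Agent.Q212.Urn
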