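import Pool.Agent.Q212.Urn1

/-! The Lyapunov function and the four-step inequality. -/

set_option autoImplicit false
open MeasureTheory Filter Topology Set Finset

namespace Pool.Agent.Q212.Urn

/-- the good states -/
def Good (B R : ℕ) : Prop :=
  B % 4 = 0 ∧ R % 4 = 0 ∧ 4 * B ≤ 6 * R ∧ 4 * R ≤ 6 * B ∧ 1000 ≤ B + R

open scoped Classical in
/-- the Lyapunov function -/
noncomputable def H (B R : ℕ) : ℝ :=
  if Good B R then min 1 (25 * (((B : ℝ) - R) ^ 2 + 40 * ((B : ℝ) + R)) / ((B : ℝ) + R) ^ 2) else 1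

theorem H_unit : Unit H := by
  intro B R
  unfold H
  split_ifs
  · constructor
    · exact le_min zero_le_one (by positivity)
    · exact min_le_left _ _
  · exact ⟨zero_le_one, le_rfl⟩

theorem H_bad {B R : ℕ} (h : ¬ Good B R) : H B R = 1 := by
  unfold H
  rw [if_neg h]

/-- the value after a successful macro-step -/
theorem H_le {B R : ℕ} (h1 : B % 4 = 0) (h2 : R % 4 = 0) (h3 : 1000 ≤ B + R) {N D : ℝ}
    (hN : (B : ℝ) + R = N) (hD : (B : ℝ) - R = D) :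
    H B R ≤ 25 * (D ^ 2 + 40 * N) / N ^ 2 := by
  have hN0 : 0 < N := by
    rw [← hN]
    have : (1000 : ℝ) ≤ (B : ℝ) + R := by exact_mod_cast h3
    linarith
  by_cases hg : Good B R
  · unfold H
    rw [if_pos hg, hN, hD]
    exact min_le_right _ _
  · rw [H_bad hg, le_div_iff₀ (by positivity), one_mul]
    have h4 : ¬ (4 * B ≤ 6 * R ∧ 4 * R ≤ 6 * B) := fun h => hg ⟨h1, h2, h.1, h.2, h3⟩
    have h5 : N ^ 2 ≤ 25 * D ^ 2 := by
      rw [not_and_or, not_le, not_le] at h4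
      rcases h4 with h4 | h4
      · have h6 : (6 : ℝ) * R < 4 * B := by exact_mod_cast h4
        have h7 : N ≤ 5 * D := by rw [← hN, ← hD]; linarith
        nlinarith
      · have h6 : (6 : ℝ) * B < 4 * R := by exact_mod_cast h4
        have h7 : N ≤ 5 * (-D) := by rw [← hN, ← hD]; linarith
        nlinarith
    nlinarith

/-- the drift is restoring -/
theorem drift {D N p q s : ℝ} (hq : p + q = 1) (hs : s = p * q) (hs1 : 2 / 11 ≤ s)
    (hs2 : s ≤ 1 / 4) (hD : 0 ≤ D * (p - q)) (hp0 : 0 ≤ p) (hq0 : 0 ≤ q) :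
    q ^ 5 * (25 * ((D - 20) ^ 2 + N)) + 5 * (p * q ^ 4) * (25 * ((D + 12) ^ 2 + N)) +
      10 * (p ^ 2 * q ^ 3) * (25 * ((D + 4) ^ 2 + N)) +
      10 * (p ^ 3 * q ^ 2) * (25 * ((D - 4) ^ 2 + N)) +
      5 * (p ^ 4 * q) * (25 * ((D - 12) ^ 2 + N)) + p ^ 5 * (25 * ((D + 20) ^ 2 + N)) ≤
    25 * (D ^ 2 + 400 + N) := by
  have e5 : q ^ 5 + 5 * (p * q ^ 4) + 10 * (p ^ 2 * q ^ 3) + 10 * (p ^ 3 * q ^ 2) +
      5 * (p ^ 4 * q) + p ^ 5 = 1 := by
    have : (p + q) ^ 5 = 1 := by rw [hq]; norm_num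
    nlinarith
  have e1 : -20 * q ^ 5 + 12 * (5 * (p * q ^ 4)) + 4 * (10 * (p ^ 2 * q ^ 3)) -
      4 * (10 * (p ^ 3 * q ^ 2)) - 12 * (5 * (p ^ 4 * q)) + 20 * p ^ 5 =
      (p - q) * (20 - 120 * s + 40 * s ^ 2) := by
    have hp : p = 1 - q := by linarith
    subst hs
    subst hp
    ring
  have e2 : 400 * q ^ 5 + 144 * (5 * (p * q ^ 4)) + 16 * (10 * (p ^ 2 * q ^ 3)) +
      16 * (10 * (p ^ 3 * q ^ 2)) + 144 * (5 * (p ^ 4 * q)) + 400 * p ^ 5 ≤ 400 := by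
    have h1 : 0 ≤ p * q ^ 4 := by positivity
    have h2 : 0 ≤ p ^ 2 * q ^ 3 := by positivity
    have h3 : 0 ≤ p ^ 3 * q ^ 2 := by positivity
    have h4 : 0 ≤ p ^ 4 * q := by positivity
    nlinarith
  have e3 : 20 - 120 * s + 40 * s ^ 2 ≤ 0 := by nlinarith
  have e4 : D * ((p - q) * (20 - 120 * s + 40 * s ^ 2)) ≤ 0 := by
    rw [← mul_assoc]
    exact mul_nonpos_of_nonneg_of_nonpos hD e3
  have key : q ^ 5 * (25 * ((D - 20) ^ 2 + N)) + 5 * (p * q ^ 4) * (25 * ((D + 12) ^ 2 + N)) +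
      10 * (p ^ 2 * q ^ 3) * (25 * ((D + 4) ^ 2 + N)) +
      10 * (p ^ 3 * q ^ 2) * (25 * ((D - 4) ^ 2 + N)) +
      5 * (p ^ 4 * q) * (25 * ((D - 12) ^ 2 + N)) + p ^ 5 * (25 * ((D + 20) ^ 2 + N)) =
      25 * (D ^ 2 + N) * (q ^ 5 + 5 * (p * q ^ 4) + 10 * (p ^ 2 * q ^ 3) + 10 * (p ^ 3 * q ^ 2) +
      5 * (p ^ 4 * q) + p ^ 5) + 50 * (D * (-20 * q ^ 5 + 12 * (5 * (p * q ^ 4)) +
      4 * (10 * (p ^ 2 * q ^ 3)) - 4 * (10 * (p ^ 3 * q ^ 2)) - 12 * (5 * (p ^ 4 * q)) +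
      20 * p ^ 5)) + 25 * (400 * q ^ 5 + 144 * (5 * (p * q ^ 4)) + 16 * (10 * (p ^ 2 * q ^ 3)) +
      16 * (10 * (p ^ 3 * q ^ 2)) + 144 * (5 * (p ^ 4 * q)) + 400 * p ^ 5) := by ring
  rw [key, e5, e1]
  nlinarith

/-- three forced steps -/
theorem three {f : ℕ → ℕ → ℝ} (hf : Unit f) {η : ℝ} {x y : ℕ × ℕ}
    (S : ℕ × ℕ → ℕ × ℕ → Prop)
    (hS : ∀ a b, S a b → ∀ g : ℕ → ℕ → ℝ, Unit g → T W g a.1 a.2 ≤ g b.1 b.2 + 5 * η)
    (u v : ℕ × ℕ) (h1 : S x u) (h2 : S u v) (h3 : S v y) :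
    T W (T W (T W f)) x.1 x.2 ≤ f y.1 y.2 + 15 * η := by
  have a := hS x u h1 _ (T_unit W_nonneg (T_unit W_nonneg hf))
  have b := hS u v h2 _ (T_unit W_nonneg hf)
  have c := hS v y h3 _ hf
  linarith

/-- a forced step from `a` to `b` at level `N` -/
def Step (N : ℕ) (a b : ℕ × ℕ) : Prop :=
  (a.1 % 4 < a.2 % 4 ∧ 5 * a.1 ≤ 8 * a.2 ∧ 2 * N ≤ 5 * a.2 ∧ b = (a.1, a.2 + 5)) ∨
  (a.2 % 4 < a.1 % 4 ∧ 5 * a.2 ≤ 8 * a.1 ∧ 2 * N ≤ 5 * a.1 ∧ b = (a.1 + 5, a.2))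

theorem step_ok {N : ℕ} (hN : 1 ≤ N) (a b : ℕ × ℕ) (h : Step N a b) (g : ℕ → ℕ → ℝ)
    (hg : Unit g) : T W g a.1 a.2 ≤ g b.1 b.2 + 5 * (105 / (N : ℝ) ^ 2) := by
  rcases h with ⟨h1, h2, h3, rfl⟩ | ⟨h1, h2, h3, rfl⟩
  · exact T_forceR W_nonneg hg (pB_small h1 hN h2 h3)
  · exact T_forceB W_nonneg hg (pB_large h1 hN h2 h3)

theorem macro_step {B R : ℕ} (hg : Good B R) : T W (T W (T W (T W H))) B R ≤ H B R := by
  obtain ⟨hB4, hR4, hBR, hRB, hN⟩ := hg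
  have hg : Good B R := ⟨hB4, hR4, hBR, hRB, hN⟩
  have hU := T_unit W_nonneg (T_unit W_nonneg (T_unit W_nonneg (T_unit W_nonneg H_unit))) B R
  by_cases hH : H B R = 1
  · rw [hH]; exact hU.2
  set N : ℕ := B + R with hNdef
  set η : ℝ := 105 / (N : ℝ) ^ 2 with hη
  have hNr : (1000 : ℝ) ≤ N := by exact_mod_cast hN
  have hN1 : 1 ≤ N := by omega
  have hBRr : (B : ℝ) + R = N := by rw [hNdef]; push_cast; ring
  set D : ℝ := (B : ℝ) - R with hD
  have hHv : H B R = 25 * (D ^ 2 + 40 * N) / (N : ℝ) ^ 2 := by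
    unfold H at hH ⊢
    rw [if_pos hg] at hH ⊢
    rw [hBRr] at hH ⊢
    rcases min_choice (1 : ℝ) (25 * (((B : ℝ) - R) ^ 2 + 40 * (N : ℝ)) / (N : ℝ) ^ 2) with h | h
    · exact absurd h hH
    · rw [h]
  -- the six macro-steps
  have hs := fun x y => three (x := x) (y := y) H_unit (Step N) (step_ok hN1)
  have k0 : T W (T W (T W H)) B (R + 5) ≤ H B (R + 20) + 15 * η :=
    hs (B, R + 5) (B, R + 20) (B, R + 10) (B, R + 15)
      (Or.inl ⟨by simp only; omega, by simp only; omega, by simp only; omega, rfl⟩)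
      (Or.inl ⟨by simp only; omega, by simp only; omega, by simp only; omega, rfl⟩)
      (Or.inl ⟨by simp only; omega, by simp only; omega, by simp only; omega, rfl⟩)
  have k1 : T W (T W (T W H)) (B + 1) (R + 4) ≤ H (B + 16) (R + 4) + 15 * η :=
    hs (B + 1, R + 4) (B + 16, R + 4) (B + 6, R + 4) (B + 11, R + 4)
      (Or.inr ⟨by simp only; omega, by simp only; omega, by simp only; omega, rfl⟩)
      (Or.inr ⟨by simp only; omega, by simp only; omega, by simp only; omega, rfl⟩)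
      (Or.inr ⟨by simp only; omega, by simp only; omega, by simp only; omega, rfl⟩)
  have k2 : T W (T W (T W H)) (B + 2) (R + 3) ≤ H (B + 12) (R + 8) + 15 * η :=
    hs (B + 2, R + 3) (B + 12, R + 8) (B + 2, R + 8) (B + 7, R + 8)
      (Or.inl ⟨by simp only; omega, by simp only; omega, by simp only; omega, rfl⟩)
      (Or.inr ⟨by simp only; omega, by simp only; omega, by simp only; omega, rfl⟩)
      (Or.inr ⟨by simp only; omega, by simp only; omega, by simp only; omega, rfl⟩)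
  have k3 : T W (T W (T W H)) (B + 3) (R + 2) ≤ H (B + 8) (R + 12) + 15 * η :=
    hs (B + 3, R + 2) (B + 8, R + 12) (B + 8, R + 2) (B + 8, R + 7)
      (Or.inr ⟨by simp only; omega, by simp only; omega, by simp only; omega, rfl⟩)
      (Or.inl ⟨by simp only; omega, by simp only; omega, by simp only; omega, rfl⟩)
      (Or.inl ⟨by simp only; omega, by simp only; omega, by simp only; omega, rfl⟩)
  have k4 : T W (T W (T W H)) (B + 4) (R + 1) ≤ H (B + 4) (R + 16) + 15 * η :=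
    hs (B + 4, R + 1) (B + 4, R + 16) (B + 4, R + 6) (B + 4, R + 11)
      (Or.inl ⟨by simp only; omega, by simp only; omega, by simp only; omega, rfl⟩)
      (Or.inl ⟨by simp only; omega, by simp only; omega, by simp only; omega, rfl⟩)
      (Or.inl ⟨by simp only; omega, by simp only; omega, by simp only; omega, rfl⟩)
  have k5 : T W (T W (T W H)) (B + 5) R ≤ H (B + 20) R + 15 * η :=
    hs (B + 5, R) (B + 20, R) (B + 10, R) (B + 15, R)
      (Or.inr ⟨by simp only; omega, by simp only; omega, by simp only; omega, rfl⟩)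
      (Or.inr ⟨by simp only; omega, by simp only; omega, by simp only; omega, rfl⟩)
      (Or.inr ⟨by simp only; omega, by simp only; omega, by simp only; omega, rfl⟩)
  -- the values at the end
  set M : ℝ := (N : ℝ) + 20 with hM
  have g0 : H B (R + 20) ≤ 25 * ((D - 20) ^ 2 + 40 * M) / M ^ 2 :=
    H_le hB4 (by omega) (by omega) (by rw [hM, ← hBRr]; push_cast; ring)
      (by rw [hD]; push_cast; ring)
  have g1 : H (B + 16) (R + 4) ≤ 25 * ((D + 12) ^ 2 + 40 * M) / M ^ 2 :=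
    H_le (by omega) (by omega) (by omega) (by rw [hM, ← hBRr]; push_cast; ring)
      (by rw [hD]; push_cast; ring)
  have g2 : H (B + 12) (R + 8) ≤ 25 * ((D + 4) ^ 2 + 40 * M) / M ^ 2 :=
    H_le (by omega) (by omega) (by omega) (by rw [hM, ← hBRr]; push_cast; ring)
      (by rw [hD]; push_cast; ring)
  have g3 : H (B + 8) (R + 12) ≤ 25 * ((D - 4) ^ 2 + 40 * M) / M ^ 2 :=
    H_le (by omega) (by omega) (by omega) (by rw [hM, ← hBRr]; push_cast; ring)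
      (by rw [hD]; push_cast; ring)
  have g4 : H (B + 4) (R + 16) ≤ 25 * ((D - 12) ^ 2 + 40 * M) / M ^ 2 :=
    H_le (by omega) (by omega) (by omega) (by rw [hM, ← hBRr]; push_cast; ring)
      (by rw [hD]; push_cast; ring)
  have g5 : H (B + 20) R ≤ 25 * ((D + 20) ^ 2 + 40 * M) / M ^ 2 :=
    H_le (by omega) (by omega) (by omega) (by rw [hM, ← hBRr]; push_cast; ring)
      (by rw [hD]; push_cast; ring)
  -- probabilities
  have hB0 : 0 < B := by omega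
  have hR0 : 0 < R := by omega
  have hBr : (0 : ℝ) < B := by exact_mod_cast hB0
  have hRr : (0 : ℝ) < R := by exact_mod_cast hR0
  have hWB : W B = (B : ℝ) ^ 2 := by unfold W; rw [hB4]
  have hWR : W R = (R : ℝ) ^ 2 := by unfold W; rw [hR4]
  set p : ℝ := pB W B R with hp
  have hpv : p = (B : ℝ) ^ 2 / ((B : ℝ) ^ 2 + (R : ℝ) ^ 2) := by
    rw [hp]; unfold pB; rw [hWB, hWR]
  obtain ⟨q, hq⟩ : ∃ q, q = 1 - p := ⟨_, rfl⟩
  have hqv : q = (R : ℝ) ^ 2 / ((B : ℝ) ^ 2 + (R : ℝ) ^ 2) := by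
    rw [hq, hpv]; field_simp; ring
  have hp0 : 0 ≤ p := by rw [hpv]; positivity
  have hq0 : 0 ≤ q := by rw [hqv]; positivity
  have hpq : p + q = 1 := by rw [hq]; ring
  have hS : (0 : ℝ) < (B : ℝ) ^ 2 + (R : ℝ) ^ 2 := by positivity
  have hD2 : D ^ 2 ≤ (N : ℝ) ^ 2 / 25 := by
    have h1 : (4 : ℝ) * B ≤ 6 * R := by exact_mod_cast hBR
    have h2 : (4 : ℝ) * R ≤ 6 * B := by exact_mod_cast hRB
    have h3 : 5 * D ≤ N := by rw [hD, ← hBRr]; linarith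
    have h4 : -(N : ℝ) ≤ 5 * D := by rw [hD, ← hBRr]; linarith
    nlinarith
  have hs1 : 2 / 11 ≤ p * q := by
    rw [hpv, hqv, div_mul_div_comm, le_div_iff₀ (by positivity)]
    have e1 : (B : ℝ) * R = ((N : ℝ) ^ 2 - D ^ 2) / 4 := by rw [hD, ← hBRr]; ring
    have e2 : (B : ℝ) ^ 2 + (R : ℝ) ^ 2 = ((N : ℝ) ^ 2 + D ^ 2) / 2 := by rw [hD, ← hBRr]; ring
    have e3 : (B : ℝ) ^ 2 * (R : ℝ) ^ 2 = (((N : ℝ) ^ 2 - D ^ 2) / 4) ^ 2 := by
      rw [← e1]; ring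
    rw [e2, e3]
    have h0 : 0 ≤ D ^ 2 := sq_nonneg _
    nlinarith [mul_nonneg h0 (sub_nonneg.2 hD2), sq_nonneg (N : ℝ)]
  have hs2 : p * q ≤ 1 / 4 := by nlinarith [sq_nonneg (p - q)]
  have hDp : 0 ≤ D * (p - q) := by
    have e : D * (p - q) = D ^ 2 * ((B : ℝ) + R) / ((B : ℝ) ^ 2 + (R : ℝ) ^ 2) := by
      rw [hpv, hqv, hD]
      field_simp
      ring
    rw [e]
    positivity
  have hM0 : 0 < M := by rw [hM]; linarith
  have hdr := drift (D := D) (N := 40 * M) hpq rfl hs1 hs2 hDp hp0 hq0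
  have e5 : q ^ 5 + 5 * (p * q ^ 4) + 10 * (p ^ 2 * q ^ 3) + 10 * (p ^ 3 * q ^ 2) +
      5 * (p ^ 4 * q) + p ^ 5 = 1 := by
    have : (p + q) ^ 5 = 1 := by rw [hpq]; norm_num
    nlinarith
  rw [T_expand W _ B R hp.symm hq.symm, hHv]
  calc q ^ 5 * T W (T W (T W H)) B (R + 5) + 5 * (p * q ^ 4) * T W (T W (T W H)) (B + 1) (R + 4) +
      10 * (p ^ 2 * q ^ 3) * T W (T W (T W H)) (B + 2) (R + 3) +
      10 * (p ^ 3 * q ^ 2) * T W (T W (T W H)) (B + 3) (R + 2) +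
      5 * (p ^ 4 * q) * T W (T W (T W H)) (B + 4) (R + 1) +
      p ^ 5 * T W (T W (T W H)) (B + 5) R
      ≤ q ^ 5 * (25 * ((D - 20) ^ 2 + 40 * M) / M ^ 2 + 15 * η) +
        5 * (p * q ^ 4) * (25 * ((D + 12) ^ 2 + 40 * M) / M ^ 2 + 15 * η) +
        10 * (p ^ 2 * q ^ 3) * (25 * ((D + 4) ^ 2 + 40 * M) / M ^ 2 + 15 * η) +
        10 * (p ^ 3 * q ^ 2) * (25 * ((D - 4) ^ 2 + 40 * M) / M ^ 2 + 15 * η) +
        5 * (p ^ 4 * q) * (25 * ((D - 12) ^ 2 + 40 * M) / M ^ 2 + 15 * η) +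
        p ^ 5 * (25 * ((D + 20) ^ 2 + 40 * M) / M ^ 2 + 15 * η) := by
        gcongr
        · exact k0.trans (by linarith)
        · exact k1.trans (by linarith)
        · exact k2.trans (by linarith)
        · exact k3.trans (by linarith)
        · exact k4.trans (by linarith)
        · exact k5.trans (by linarith)
    _ = (q ^ 5 * (25 * ((D - 20) ^ 2 + 40 * M)) + 5 * (p * q ^ 4) * (25 * ((D + 12) ^ 2 + 40 * M)) +
        10 * (p ^ 2 * q ^ 3) * (25 * ((D + 4) ^ 2 + 40 * M)) +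
        10 * (p ^ 3 * q ^ 2) * (25 * ((D - 4) ^ 2 + 40 * M)) +
        5 * (p ^ 4 * q) * (25 * ((D - 12) ^ 2 + 40 * M)) +
        p ^ 5 * (25 * ((D + 20) ^ 2 + 40 * M))) / M ^ 2 +
        15 * η * (q ^ 5 + 5 * (p * q ^ 4) + 10 * (p ^ 2 * q ^ 3) + 10 * (p ^ 3 * q ^ 2) +
        5 * (p ^ 4 * q) + p ^ 5) := by
        field_simp
        ring
    _ ≤ 25 * (D ^ 2 + 400 + 40 * M) / M ^ 2 + 15 * η := by
        rw [e5, mul_one]
        gcongr
    _ ≤ 25 * (D ^ 2 + 40 * N) / (N : ℝ) ^ 2 := by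
        have hN0 : (0 : ℝ) < N := by linarith
        have h1 : 25 * D ^ 2 / M ^ 2 ≤ 25 * D ^ 2 / (N : ℝ) ^ 2 := by
          gcongr
          rw [hM]; linarith
        have h2 : 25 * (400 + 40 * M) / M ^ 2 + 15 * η ≤ 25 * (40 * N) / (N : ℝ) ^ 2 := by
          rw [hη, hM, mul_div_assoc', div_add_div _ _ (by positivity) (by positivity),
            div_le_div_iff₀ (by positivity) (by positivity)]
          nlinarith [mul_pos hN0 hN0, mul_pos (mul_pos hN0 hN0) hN0,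
            mul_pos (mul_pos hN0 hN0) (mul_pos hN0 hN0)]
        have e1 : 25 * (D ^ 2 + 400 + 40 * M) / M ^ 2 =
            25 * D ^ 2 / M ^ 2 + 25 * (400 + 40 * M) / M ^ 2 := by ring
        have e2 : 25 * (D ^ 2 + 40 * (N : ℝ)) / (N : ℝ) ^ 2 =
            25 * D ^ 2 / (N : ℝ) ^ 2 + 25 * (40 * N) / (N : ℝ) ^ 2 := by ring
        rw [e1, e2]
        linarith

end Pool.Agent.Q212.Urn
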