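import Pool.Agent.Q212.Urn2

/-! From the four-step inequality to the process. -/

set_option autoImplicit false
open MeasureTheory Filter Topology Set Finset

namespace Pool.Agent.Q212.Urn

variable {Ω : Type} [MeasurableSpace Ω] {b₀ r₀ : Fin 5 → ℕ} {P : Measure Ω}
  {c : ℕ → Ω → Fin 5 → Bool}

/-- the cylinder of the histories up to time `n` -/
def Cyl (c : ℕ → Ω → Fin 5 → Bool) (n : ℕ) (h : ℕ → Fin 5 → Bool) : Set Ω :=
  {ω | ∀ k < n, c k ω = h k}

omit [MeasurableSpace Ω] in
theorem cyl_zero (h : ℕ → Fin 5 → Bool) : Cyl c 0 h = univ := by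
  ext ω
  simp [Cyl]

theorem meas_cyl (hU : IsUrn 5 W b₀ r₀ P c) (n : ℕ) (h : ℕ → Fin 5 → Bool) :
    MeasurableSet (Cyl c n h) := by
  have : Cyl c n h = ⋂ k ∈ Finset.range n, c k ⁻¹' {h k} := by
    ext ω
    simp [Cyl]
  rw [this]
  exact Finset.measurableSet_biInter _ fun k _ => hU.meas k (measurableSet_singleton _)

/-- one step -/
theorem one_step (hU : IsUrn 5 W b₀ r₀ P c) (E : Set Ω) (n : ℕ) (f : ℕ → ℕ → ℝ)
    (hf : ∀ h : ℕ → Fin 5 → Bool, P.real (Cyl c (n + 1) h ∩ E) ≤
      P.real (Cyl c (n + 1) h) * f (tot b₀ true h (n + 1)) (tot r₀ false h (n + 1)))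
    (h : ℕ → Fin 5 → Bool) :
    P.real (Cyl c n h ∩ E) ≤
      P.real (Cyl c n h) * T W f (tot b₀ true h n) (tot r₀ false h n) := by
  classical
  have := hU.prob
  set g : (Fin 5 → Bool) → ℕ → Fin 5 → Bool := fun y => Function.update h n y with hg
  have hsub : Cyl c n h ∩ E ⊆ ⋃ y ∈ (Finset.univ : Finset (Fin 5 → Bool)),
      (Cyl c (n + 1) (g y) ∩ E) := by
    rintro ω ⟨h1, h2⟩
    simp only [Set.mem_iUnion]
    refine ⟨c n ω, Finset.mem_univ _, fun k hk => ?_, h2⟩
    rcases Nat.lt_succ_iff_lt_or_eq.1 hk with hk | rfl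
    · rw [h1 k hk, hg]
      simp only
      rw [Function.update_of_ne (by omega)]
    · rw [hg]
      simp only
      rw [Function.update_self]
  calc P.real (Cyl c n h ∩ E)
      ≤ P.real (⋃ y ∈ (Finset.univ : Finset (Fin 5 → Bool)), (Cyl c (n + 1) (g y) ∩ E)) :=
        measureReal_mono hsub (measure_ne_top _ _)
    _ ≤ ∑ y : Fin 5 → Bool, P.real (Cyl c (n + 1) (g y) ∩ E) :=
        measureReal_biUnion_finset_le _ _
    _ ≤ ∑ y : Fin 5 → Bool, P.real (Cyl c (n + 1) (g y)) *
          f (tot b₀ true (g y) (n + 1)) (tot r₀ false (g y) (n + 1)) :=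
        Finset.sum_le_sum fun y _ => hf _
    _ = P.real (Cyl c n h) * T W f (tot b₀ true h n) (tot r₀ false h n) := by
        unfold T
        rw [Finset.mul_sum]
        refine Finset.sum_congr rfl fun y _ => ?_
        have hk : ∀ k < n, g y k = h k := fun k hk => by
          rw [hg]
          simp only
          rw [Function.update_of_ne (by omega)]
        have hn : g y n = y := by
          rw [hg]
          simp only
          rw [Function.update_self]
        have e1 : Cyl c (n + 1) (g y) = {ω | ∀ k ≤ n, c k ω = g y k} := by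
          ext ω
          simp only [Cyl, Set.mem_ofPred_eq, Nat.lt_succ_iff]
        have e2 : {ω | ∀ k < n, c k ω = g y k} = Cyl c n h := by
          ext ω
          simp only [Cyl, Set.mem_ofPred_eq]
          exact forall₂_congr fun k hk' => by rw [hk k hk']
        rw [e1, hU.law n (g y), e2, tot_succ, tot_succ, tot_congr b₀ true hk,
          tot_congr r₀ false hk, hn, mul_assoc]

/-- not good at one of the times `n, n + 4, …, n + 4 m` -/
def Exit (b₀ r₀ : Fin 5 → ℕ) (c : ℕ → Ω → Fin 5 → Bool) (n m : ℕ) : Set Ω :=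
  {ω | ∃ k ≤ m, ¬ Good (tot b₀ true (fun j => c j ω) (n + 4 * k))
    (tot r₀ false (fun j => c j ω) (n + 4 * k))}

theorem exit_bound (hU : IsUrn 5 W b₀ r₀ P c) (m : ℕ) : ∀ (n : ℕ) (h : ℕ → Fin 5 → Bool),
    P.real (Cyl c n h ∩ Exit b₀ r₀ c n m) ≤
      P.real (Cyl c n h) * H (tot b₀ true h n) (tot r₀ false h n) := by
  have := hU.prob
  induction m with
  | zero =>
    intro n h
    by_cases hg : Good (tot b₀ true h n) (tot r₀ false h n)
    · have : Cyl c n h ∩ Exit b₀ r₀ c n 0 = ∅ := by
        ext ω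
        simp only [Set.mem_inter_iff, Set.mem_empty_iff_false, iff_false, not_and]
        rintro h1 ⟨k, hk, h2⟩
        obtain rfl : k = 0 := by omega
        apply h2
        have e1 : tot b₀ true (fun j => c j ω) (n + 4 * 0) = tot b₀ true h n :=
          tot_congr b₀ true h1
        have e2 : tot r₀ false (fun j => c j ω) (n + 4 * 0) = tot r₀ false h n :=
          tot_congr r₀ false h1
        rw [e1, e2]
        exact hg
      rw [this]
      simp only [measureReal_empty]
      exact mul_nonneg measureReal_nonneg (H_unit _ _).1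
    · rw [H_bad hg, mul_one]
      exact measureReal_mono Set.inter_subset_left
  | succ m ih =>
    intro n h
    by_cases hg : Good (tot b₀ true h n) (tot r₀ false h n)
    · have h4 := ih (n + 4)
      have h3 := one_step hU _ (n + 3) _ h4
      have h2 := one_step hU _ (n + 2) _ h3
      have h1 := one_step hU _ (n + 1) _ h2
      have h0 := one_step hU _ n _ h1 h
      have hsub : Cyl c n h ∩ Exit b₀ r₀ c n (m + 1) ⊆ Cyl c n h ∩ Exit b₀ r₀ c (n + 4) m := by
        rintro ω ⟨h1, k, hk, h2⟩
        refine ⟨h1, ?_⟩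
        rcases Nat.eq_zero_or_pos k with rfl | hk0
        · exfalso
          apply h2
          have e1 : tot b₀ true (fun j => c j ω) (n + 4 * 0) = tot b₀ true h n :=
            tot_congr b₀ true h1
          have e2 : tot r₀ false (fun j => c j ω) (n + 4 * 0) = tot r₀ false h n :=
            tot_congr r₀ false h1
          rw [e1, e2]
          exact hg
        · refine ⟨k - 1, by omega, ?_⟩
          have e : n + 4 + 4 * (k - 1) = n + 4 * k := by omega
          rw [e]
          exact h2
      calc P.real (Cyl c n h ∩ Exit b₀ r₀ c n (m + 1))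
          ≤ P.real (Cyl c n h ∩ Exit b₀ r₀ c (n + 4) m) := measureReal_mono hsub
        _ ≤ _ := h0
        _ ≤ _ := mul_le_mul_of_nonneg_left (macro_step hg) measureReal_nonneg
    · rw [H_bad hg, mul_one]
      exact measureReal_mono Set.inter_subset_left

/-- the total number of balls -/
theorem tot_add (h : ℕ → Fin 5 → Bool) (n : ℕ) :
    tot b₀ true h n + tot r₀ false h n = ∑ i, b₀ i + ∑ i, r₀ i + 5 * n := by
  induction n with
  | zero => rw [tot_zero, tot_zero]; omega
  | succ n ih =>
    rw [tot_succ, tot_succ]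
    have h3 := Finset.card_filter_add_card_filter_not (s := (Finset.univ : Finset (Fin 5)))
      (fun i => h n i = true)
    have h4 : (Finset.univ.filter fun i => ¬ h n i = true) =
        Finset.univ.filter fun i => h n i = false := by
      ext i
      simp
    rw [h4, Finset.card_univ, Fintype.card_fin] at h3
    omega

theorem stop_const {x₀ : Fin 5 → ℕ} {col : Bool} {h : ℕ → Fin 5 → Bool} {N : ℕ}
    (hN : ∀ n ≥ N, tot x₀ col h (n + 1) = tot x₀ col h n) : ∀ n ≥ N, tot x₀ col h n =
      tot x₀ col h N := by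
  intro n hn
  induction n, hn using Nat.le_induction with
  | base => rfl
  | succ n hn ih => rw [hN n hn, ih]

omit [MeasurableSpace Ω] in
theorem mono_exit : Monopoly b₀ r₀ c ⊆ ⋃ m, Exit b₀ r₀ c 0 m := by
  intro ω hω
  by_contra hne
  simp only [Set.mem_iUnion, not_exists] at hne
  have hgood : ∀ k, Good (tot b₀ true (fun j => c j ω) (4 * k))
      (tot r₀ false (fun j => c j ω) (4 * k)) := by
    intro k
    by_contra hk
    refine hne k ⟨k, le_rfl, ?_⟩
    rw [Nat.zero_add]
    exact hk
  rcases hω with ⟨N, hN⟩ | ⟨N, hN⟩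
  · have hc := stop_const hN
    set v := tot r₀ false (fun j => c j ω) N with hv
    have h1 := hgood (N + v + 1)
    have h2 := hc (4 * (N + v + 1)) (by omega)
    have h3 := tot_add (b₀ := b₀) (r₀ := r₀) (fun j => c j ω) (4 * (N + v + 1))
    obtain ⟨_, _, h4, h5, _⟩ := h1
    omega
  · have hc := stop_const hN
    set v := tot b₀ true (fun j => c j ω) N with hv
    have h1 := hgood (N + v + 1)
    have h2 := hc (4 * (N + v + 1)) (by omega)
    have h3 := tot_add (b₀ := b₀) (r₀ := r₀) (fun j => c j ω) (4 * (N + v + 1))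
    obtain ⟨_, _, h4, h5, _⟩ := h1
    omega

theorem monopoly_le (hU : IsUrn 5 W b₀ r₀ P c) :
    P.real (Monopoly b₀ r₀ c) ≤ H (∑ i, b₀ i) (∑ i, r₀ i) := by
  have := hU.prob
  have hmono : Monotone fun m => Exit b₀ r₀ c 0 m := by
    intro m m' hmm ω ⟨k, hk, h⟩
    exact ⟨k, hk.trans hmm, h⟩
  have h1 : ∀ m, P (Exit b₀ r₀ c 0 m) ≤ ENNReal.ofReal (H (∑ i, b₀ i) (∑ i, r₀ i)) := by
    intro m
    have h := exit_bound hU m 0 (fun _ _ => true)
    rw [cyl_zero, Set.univ_inter, tot_zero, tot_zero, probReal_univ, one_mul] at h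
    rw [← ofReal_measureReal]
    exact ENNReal.ofReal_le_ofReal h
  have h2 : P (⋃ m, Exit b₀ r₀ c 0 m) ≤ ENNReal.ofReal (H (∑ i, b₀ i) (∑ i, r₀ i)) := by
    rw [hmono.measure_iUnion]
    exact iSup_le h1
  have h3 := (measure_mono mono_exit).trans h2
  rw [Measure.real]
  exact ENNReal.toReal_le_of_le_ofReal (H_unit _ _).1 h3

theorem H_start : H 1000 1000 ≤ 1 / 2 := by
  have hg : Good 1000 1000 := ⟨by norm_num, by norm_num, by norm_num, by norm_num, by norm_num⟩
  unfold H
  rw [if_pos hg]
  refine (min_le_right _ _).trans ?_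
  norm_num

end Pool.Agent.Q212.Urn
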