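import Pool.Agent.Q212.Urn1

/-! Existence of the urn process. -/

set_option autoImplicit false
open MeasureTheory ProbabilityTheory Filter Topology Set Finset

namespace Pool.Agent.Q212.Urn

variable {d : ℕ}

/-- the random choices -/
abbrev Src (d : ℕ) := ℕ × Fin d → ℝ

/-- i.i.d. uniform variables -/
noncomputable def srcP (d : ℕ) : Measure (Src d) :=
  Measure.infinitePi fun _ => (volume.restrict (Set.Icc (0 : ℝ) 1))

instance : IsProbabilityMeasure (volume.restrict (Set.Icc (0 : ℝ) 1)) :=
  ⟨by simp⟩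

instance : IsProbabilityMeasure (srcP d) := by
  unfold srcP
  infer_instance

/-- the totals -/
noncomputable def st (W : ℕ → ℝ) (b₀ r₀ : Fin d → ℕ) (ω : Src d) : ℕ → ℕ × ℕ
  | 0 => (∑ i, b₀ i, ∑ i, r₀ i)
  | n + 1 => ((st W b₀ r₀ ω n).1 +
      (univ.filter fun i => ω (n, i) ≤ pB W (st W b₀ r₀ ω n).1 (st W b₀ r₀ ω n).2).card,
      (st W b₀ r₀ ω n).2 +
      (univ.filter fun i => ¬ ω (n, i) ≤ pB W (st W b₀ r₀ ω n).1 (st W b₀ r₀ ω n).2).card)

/-- the colours -/
noncomputable def col (W : ℕ → ℝ) (b₀ r₀ : Fin d → ℕ) (n : ℕ) (ω : Src d) (i : Fin d) : Bool :=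
  decide (ω (n, i) ≤ pB W (st W b₀ r₀ ω n).1 (st W b₀ r₀ ω n).2)

theorem st_eq (W : ℕ → ℝ) (b₀ r₀ : Fin d → ℕ) (ω : Src d) (n : ℕ) :
    st W b₀ r₀ ω n = (tot b₀ true (fun k => col W b₀ r₀ k ω) n,
      tot r₀ false (fun k => col W b₀ r₀ k ω) n) := by
  induction n with
  | zero => rw [tot_zero, tot_zero]; rfl
  | succ n ih =>
    rw [tot_succ, tot_succ]
    have e1 : (univ.filter fun i => col W b₀ r₀ n ω i = true) =
        univ.filter fun i => ω (n, i) ≤ pB W (st W b₀ r₀ ω n).1 (st W b₀ r₀ ω n).2 := by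
      refine Finset.filter_congr fun i _ => ?_
      unfold col
      simp
    have e2 : (univ.filter fun i => col W b₀ r₀ n ω i = false) =
        univ.filter fun i => ¬ ω (n, i) ≤ pB W (st W b₀ r₀ ω n).1 (st W b₀ r₀ ω n).2 := by
      refine Finset.filter_congr fun i _ => ?_
      unfold col
      simp
    rw [e1, e2]
    conv_lhs => rw [st]
    have h1 := congrArg Prod.fst ih
    have h2 := congrArg Prod.snd ih
    simp only at h1 h2
    rw [Prod.ext_iff]
    simp only
    constructor
    · rw [← h1]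
    · rw [← h2]

theorem st_meas (W : ℕ → ℝ) (b₀ r₀ : Fin d → ℕ) (n : ℕ) :
    Measurable fun ω => st W b₀ r₀ ω n := by
  induction n with
  | zero => exact measurable_const
  | succ n ih =>
    have hF : Measurable fun x : (ℕ × ℕ) × (Fin d → ℝ) =>
        ((x.1.1 + (univ.filter fun i => x.2 i ≤ pB W x.1.1 x.1.2).card,
          x.1.2 + (univ.filter fun i => ¬ x.2 i ≤ pB W x.1.1 x.1.2).card) : ℕ × ℕ) := by
      refine measurable_from_prod_countable_right fun s => ?_
      refine Measurable.prodMk ?_ ?_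
      · have hm : Measurable fun y : Fin d → ℝ =>
            (univ.filter fun i => y i ≤ pB W s.1 s.2).card := by
          simp only [Finset.card_filter]
          refine Finset.measurable_sum _ fun i _ => ?_
          exact Measurable.ite (measurableSet_le (measurable_pi_apply i) measurable_const)
            measurable_const measurable_const
        exact (measurable_const (a := s.1)).add hm
      · have hm : Measurable fun y : Fin d → ℝ =>
            (univ.filter fun i => ¬ y i ≤ pB W s.1 s.2).card := by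
          simp only [Finset.card_filter]
          refine Finset.measurable_sum _ fun i _ => ?_
          exact Measurable.ite (measurableSet_le (measurable_pi_apply i) measurable_const).compl
            measurable_const measurable_const
        exact (measurable_const (a := s.2)).add hm
    exact hF.comp (ih.prodMk (measurable_pi_lambda _ fun i => measurable_pi_apply (n, i)))

theorem col_meas (W : ℕ → ℝ) (b₀ r₀ : Fin d → ℕ) (n : ℕ) :
    Measurable (col W b₀ r₀ n) := by
  refine measurable_pi_lambda _ fun i => ?_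
  have hF : Measurable fun x : (ℕ × ℕ) × ℝ => decide (x.2 ≤ pB W x.1.1 x.1.2) := by
    refine measurable_from_prod_countable_right fun s => ?_
    refine measurable_to_bool ?_
    have : (fun u : ℝ => decide (u ≤ pB W s.1 s.2)) ⁻¹' {true} = Set.Iic (pB W s.1 s.2) := by
      ext u
      simp
    rw [this]
    exact measurableSet_Iic
  exact hF.comp ((st_meas W b₀ r₀ n).prodMk (measurable_pi_apply (n, i)))

/-- the sets of the values which give the colours `h` -/
noncomputable def TT (W : ℕ → ℝ) (b₀ r₀ : Fin d → ℕ) (h : ℕ → Fin d → Bool) (x : ℕ × Fin d) :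
    Set ℝ :=
  if h x.1 x.2 then Set.Iic (pB W (tot b₀ true h x.1) (tot r₀ false h x.1))
    else (Set.Iic (pB W (tot b₀ true h x.1) (tot r₀ false h x.1)))ᶜ

theorem hist_eq (W : ℕ → ℝ) (b₀ r₀ : Fin d → ℕ) (h : ℕ → Fin d → Bool) (n : ℕ) :
    {ω | ∀ k < n, col W b₀ r₀ k ω = h k} =
      Set.pi ((Finset.range n ×ˢ (univ : Finset (Fin d)) : Finset (ℕ × Fin d)) :
        Set (ℕ × Fin d)) (TT W b₀ r₀ h) := by
  ext ω
  have key : ∀ k, (∀ j < k, col W b₀ r₀ j ω = h j) →
      (col W b₀ r₀ k ω = h k ↔ ∀ i, ω (k, i) ∈ TT W b₀ r₀ h (k, i)) := by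
    intro k hk
    have e := st_eq W b₀ r₀ ω k
    have e1 : tot b₀ true (fun k => col W b₀ r₀ k ω) k = tot b₀ true h k := tot_congr _ _ hk
    have e2 : tot r₀ false (fun k => col W b₀ r₀ k ω) k = tot r₀ false h k := tot_congr _ _ hk
    rw [e1, e2] at e
    rw [funext_iff]
    refine forall_congr' fun i => ?_
    unfold col TT
    rw [e]
    simp only
    cases h k i <;> simp
  simp only [Set.mem_ofPred_eq, Set.mem_pi, Finset.coe_product, Set.mem_prod, Finset.mem_coe,
    Finset.mem_range, Finset.mem_univ, and_true, Prod.forall]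
  constructor
  · intro hω k i hk
    exact (key k fun j hj => hω j (hj.trans hk)).1 (hω k hk) i
  · intro hω k
    induction k using Nat.strong_induction_on with
    | _ k ih =>
      intro hk
      exact (key k fun j hj => ih j hj (hj.trans hk)).2 fun i => hω k i hk

theorem vol_TT {W : ℕ → ℝ} (hW : ∀ n, 0 ≤ W n) (b₀ r₀ : Fin d → ℕ) (h : ℕ → Fin d → Bool)
    (x : ℕ × Fin d) : (volume.restrict (Set.Icc (0 : ℝ) 1)).real (TT W b₀ r₀ h x) =
      if h x.1 x.2 then pB W (tot b₀ true h x.1) (tot r₀ false h x.1)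
        else 1 - pB W (tot b₀ true h x.1) (tot r₀ false h x.1) := by
  obtain ⟨h0, h1⟩ := pB_mem hW (tot b₀ true h x.1) (tot r₀ false h x.1)
  set p := pB W (tot b₀ true h x.1) (tot r₀ false h x.1) with hp
  have key : (volume.restrict (Set.Icc (0 : ℝ) 1)).real (Set.Iic p) = p := by
    rw [measureReal_restrict_apply measurableSet_Iic]
    have : Set.Iic p ∩ Set.Icc (0 : ℝ) 1 = Set.Icc 0 p := by
      ext u
      simp only [Set.mem_inter_iff, Set.mem_Iic, Set.mem_Icc]
      constructor
      · rintro ⟨a, b, c⟩; exact ⟨b, a⟩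
      · rintro ⟨a, b⟩; exact ⟨b, a, b.trans h1⟩
    rw [this, Real.volume_real_Icc]
    simp [h0]
  unfold TT
  split_ifs
  · exact key
  · rw [probReal_compl_eq_one_sub measurableSet_Iic, key]

theorem exists_urn {W : ℕ → ℝ} (hW : ∀ n, 0 ≤ W n) (b₀ r₀ : Fin d → ℕ) :
    IsUrn d W b₀ r₀ (srcP d) (col W b₀ r₀) := by
  refine ⟨inferInstance, col_meas W b₀ r₀, fun n h => ?_⟩
  have mT : ∀ x, MeasurableSet (TT W b₀ r₀ h x) := by
    intro x
    unfold TT
    split_ifs
    · exact measurableSet_Iic
    · exact measurableSet_Iic.compl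
  have key : ∀ m, (srcP d).real {ω | ∀ k < m, col W b₀ r₀ k ω = h k} =
      ∏ x ∈ Finset.range m ×ˢ (univ : Finset (Fin d)),
        (volume.restrict (Set.Icc (0 : ℝ) 1)).real (TT W b₀ r₀ h x) := by
    intro m
    rw [hist_eq, Measure.real, srcP, Measure.infinitePi_pi _ (fun x _ => mT x),
      ENNReal.toReal_prod]
    rfl
  have e1 : {ω | ∀ k ≤ n, col W b₀ r₀ k ω = h k} = {ω | ∀ k < n + 1, col W b₀ r₀ k ω = h k} := by
    ext ω
    simp only [Set.mem_ofPred_eq, Nat.lt_succ_iff]
  rw [e1, key, key, Finset.prod_product, Finset.prod_product, Finset.prod_range_succ]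
  congr 1
  refine Finset.prod_congr rfl fun i _ => ?_
  rw [vol_TT hW]

end Pool.Agent.Q212.Urn
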